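import Pool.Agent.H6.LE.LipI

/-! Regularity at the origin for odd data and sources (module X4). -/

namespace LE
open Set Filter Topology MeasureTheory

namespace O

theorem w3_le (z : ℝ) : |z ^ 3 - 3 * z| ≤ 4 * (1 + |z|) ^ 3 := by
  have h1 : |z ^ 3 - 3 * z| ≤ |z| ^ 3 + 3 * |z| := by
    calc |z ^ 3 - 3 * z| ≤ |z ^ 3| + |3 * z| := abs_sub _ _
      _ = _ := by rw [abs_pow, abs_mul, abs_of_pos (by norm_num : (0 : ℝ) < 3)]
  have h0 := abs_nonneg z
  refine h1.trans ?_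
  nlinarith [pow_nonneg h0 2, pow_nonneg h0 3]

/-- `E (Z ^ 2 - 1) f(x + σ Z) = E (Z ^ 3 - 3 Z) F(x + σ Z) / σ` -/
theorem stein3 {F f : ℝ → ℝ} (hf : Continuous f) (hF : ∀ x, HasDerivAt F (f x) x) {B : ℝ}
    (hB : ∀ x, |f x| ≤ B) (σ x : ℝ) :
    σ * ∫ z, (z ^ 2 - 1) * f (x + σ * z) ∂gam = ∫ z, (z ^ 3 - 3 * z) * F (x + σ * z) ∂gam := by
  have hd : ∀ z, HasDerivAt (fun z => (z ^ 2 - 1) * F (x + σ * z))
      (2 * (z * F (x + σ * z)) + σ * ((z ^ 2 - 1) * f (x + σ * z))) z := by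
    intro z
    have h1 : HasDerivAt (fun z : ℝ => x + σ * z) σ z := by
      simpa using ((hasDerivAt_id z).const_mul σ).const_add x
    have h2 : HasDerivAt (fun z : ℝ => z ^ 2 - 1) (2 * z) z := by
      simpa using (hasDerivAt_pow 2 z).sub_const 1
    refine (h2.mul ((hF _).comp z h1)).congr_deriv ?_
    show 2 * z * F (x + σ * z) + (z ^ 2 - 1) * (f (x + σ * z) * σ) = _
    ring
  have izF : Integrable (fun z => z * F (x + σ * z)) gam :=
    X.wF_int hF hB (w := fun z => z) continuous_id 1 1 X.w1_le σ x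
  have iw2 : Integrable (fun z => (z ^ 2 - 1) * F (x + σ * z)) gam :=
    X.wF_int hF hB (w := fun z => z ^ 2 - 1) (by fun_prop) 1 2 X.w2_le σ x
  have iz3 : Integrable (fun z => z ^ 3 * F (x + σ * z)) gam :=
    X.wF_int hF hB (w := fun z => z ^ 3) (by fun_prop) 1 3 (fun z => by
      rw [one_mul, abs_pow]
      exact pow_le_pow_left₀ (abs_nonneg _) (by linarith) 3) σ x
  have izf := (X.wf_int hf hB (w := fun z => z ^ 2 - 1) (by fun_prop) 1 2 X.w2_le σ x).const_mul σ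
  have h := X.stein hd iw2 (by
      refine (iz3.sub izF).congr (ae_of_all _ fun z => ?_)
      simp only [Pi.sub_apply]
      ring) ((izF.const_mul 2).add izf)
  rw [integral_add (izF.const_mul 2) izf, integral_const_mul, integral_const_mul] at h
  have h2 : ∫ z, (z ^ 3 - 3 * z) * F (x + σ * z) ∂gam =
      ∫ z, z * ((z ^ 2 - 1) * F (x + σ * z)) ∂gam - 2 * ∫ z, z * F (x + σ * z) ∂gam := by
    rw [← integral_const_mul, ← integral_sub (by
      refine (iz3.sub izF).congr (ae_of_all _ fun z => ?_)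
      simp only [Pi.sub_apply]
      ring) (izF.const_mul 2)]
    refine integral_congr_ae (ae_of_all _ fun z => ?_)
    simp only
    ring
  rw [h2]
  linarith

/-- third Hermite average -/
noncomputable def H3 (f : ℝ → ℝ) (σ x : ℝ) : ℝ := ∫ z, (z ^ 3 - 3 * z) * f (x + σ * z) ∂gam

theorem w2_deriv {f : ℝ → ℝ} (hf : Continuous f) {B : ℝ} (hB : ∀ x, |f x| ≤ B) {σ : ℝ}
    (hσ : 0 < σ) (x : ℝ) :
    HasDerivAt (fun x => ∫ z, (z ^ 2 - 1) * f (x + σ * z) ∂gam) (σ⁻¹ * H3 f σ x) x := by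
  obtain ⟨F, hF⟩ := X.antider hf
  have h := (X.gam_dx hf hF hB (w := fun z => z ^ 3 - 3 * z) (by fun_prop) 4 3 w3_le σ
    x).const_mul σ⁻¹
  refine h.congr_of_eventuallyEq (Eventually.of_forall fun y => ?_)
  simp only
  rw [← stein3 hf hF hB, ← mul_assoc, inv_mul_cancel₀ hσ.ne', one_mul]

theorem H3_cont {f : ℝ → ℝ} (hf : Continuous f) {B : ℝ} (hB : ∀ x, |f x| ≤ B) (σ : ℝ) :
    Continuous (H3 f σ) := by
  unfold H3
  exact X.gam_cont (T := ℝ) (G := fun _ x => f x) (by fun_prop) (fun _ => hB)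
    (w := fun z => z ^ 3 - 3 * z) (by fun_prop) 4 3 w3_le (σ := fun _ => σ) (x := fun x => x)
    (by fun_prop) (by fun_prop)

theorem w2_odd {f : ℝ → ℝ} (hodd : ∀ x, f (-x) = -f x) (σ x : ℝ) :
    ∫ z, (z ^ 2 - 1) * f (-x + σ * z) ∂gam = -∫ z, (z ^ 2 - 1) * f (x + σ * z) ∂gam := by
  rw [← h1_neg (fun z => (z ^ 2 - 1) * f (-x + σ * z)), ← integral_neg]
  refine integral_congr_ae (ae_of_all _ fun z => ?_)
  simp only
  rw [show -x + σ * -z = -(x + σ * z) by ring, hodd]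
  ring

theorem w2_quot {f : ℝ → ℝ} (hf : Continuous f) {B : ℝ} (hB : ∀ x, |f x| ≤ B)
    (hodd : ∀ x, f (-x) = -f x) {σ : ℝ} (hσ : 0 < σ) (x : ℝ) :
    ∫ z, (z ^ 2 - 1) * f (x + σ * z) ∂gam =
      x * (σ⁻¹ * ∫ θ in (0 : ℝ)..1, H3 f σ (θ * x)) := by
  set φ : ℝ → ℝ := fun x => ∫ z, (z ^ 2 - 1) * f (x + σ * z) ∂gam with hφ
  have h0 : φ 0 = 0 := by
    have := w2_odd hodd σ 0
    rw [neg_zero] at this
    simp only [hφ]
    linarith
  have hc : Continuous fun θ : ℝ => σ⁻¹ * H3 f σ (θ * x) * x :=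
    (continuous_const.mul ((H3_cont hf hB σ).comp (by fun_prop))).mul continuous_const
  have h1 := intervalIntegral.integral_eq_sub_of_hasDerivAt (a := 0) (b := 1)
    (f := fun θ => φ (θ * x)) (f' := fun θ => σ⁻¹ * H3 f σ (θ * x) * x) (fun θ _ => by
      have h2 : HasDerivAt (fun θ : ℝ => θ * x) x θ := by
        simpa using (hasDerivAt_id θ).mul_const x
      exact (w2_deriv hf hB hσ (θ * x)).comp θ h2) (hc.intervalIntegrable _ _)
  rw [zero_mul, one_mul, h0, sub_zero] at h1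
  change φ x = _
  rw [← h1, intervalIntegral.integral_mul_const, intervalIntegral.integral_const_mul]
  ring

/-- second differences of an odd function with Lipschitz quotient -/
theorem second_diff {g : ℝ → ℝ} (hodd : ∀ x, g (-x) = -g x) {M : ℝ}
    (hM : ∀ x y : ℝ, x ≠ 0 → y ≠ 0 → |g x / x - g y / y| ≤ M * |x - y|) (x u : ℝ) :
    |g (x + u) + g (x - u) - 2 * g x| ≤ 4 * M * (|x| * |u|) := by
  have hM0 : 0 ≤ M := by
    have := (abs_nonneg _).trans (hM 2 1 (by norm_num) (by norm_num))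
    norm_num at this
    exact this
  have hg0 : g 0 = 0 := by
    have := hodd 0
    rw [neg_zero] at this
    linarith
  by_cases hx : x = 0
  · subst hx
    rw [zero_add, zero_sub, hodd, hg0]
    simp
  by_cases hu : u = 0
  · subst hu
    rw [add_zero, sub_zero, ← two_mul, sub_self]
    simp
  have e : ∀ y : ℝ, y ≠ 0 → g y = y * (g y / y) := fun y hy => by field_simp
  by_cases h1 : x + u = 0
  · have hu' : u = -x := by linarith
    subst hu'
    rw [add_neg_cancel, hg0, sub_neg_eq_add, abs_neg]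
    have h2 := hM (x + x) x (by intro h; apply hx; linarith) hx
    rw [e (x + x) (by intro h; apply hx; linarith), e x hx]
    have e2 : 0 + (x + x) * (g (x + x) / (x + x)) - 2 * (x * (g x / x)) =
        2 * x * (g (x + x) / (x + x) - g x / x) := by ring
    rw [e2, abs_mul, abs_mul, abs_two]
    have e3 : |x + x - x| = |x| := by rw [add_sub_cancel_right]
    rw [e3] at h2
    have := mul_le_mul_of_nonneg_left h2 (by positivity : 0 ≤ 2 * |x|)
    nlinarith [mul_nonneg hM0 (mul_nonneg (abs_nonneg x) (abs_nonneg x))]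
  by_cases h2 : x - u = 0
  · have hu' : u = x := by linarith
    subst hu'
    rw [sub_self, hg0, add_zero]
    have h2 := hM (u + u) u (by intro h; apply hx; linarith) hx
    rw [e (u + u) (by intro h; apply hx; linarith), e u hx]
    have e2 : (u + u) * (g (u + u) / (u + u)) - 2 * (u * (g u / u)) =
        2 * u * (g (u + u) / (u + u) - g u / u) := by ring
    rw [e2, abs_mul, abs_mul, abs_two]
    have e3 : |u + u - u| = |u| := by rw [add_sub_cancel_right]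
    rw [e3] at h2
    have := mul_le_mul_of_nonneg_left h2 (by positivity : 0 ≤ 2 * |u|)
    nlinarith [mul_nonneg hM0 (mul_nonneg (abs_nonneg u) (abs_nonneg u))]
  have a1 := hM (x + u) x h1 hx
  have a2 := hM (x - u) x h2 hx
  have h2' : u - x ≠ 0 := fun h => h2 (by linarith)
  have a3 := hM (x + u) (u - x) h1 h2'
  have hev : g (u - x) / (u - x) = g (x - u) / (x - u) := by
    rw [← neg_sub x u, hodd, neg_div_neg_eq]
  rw [hev] at a3
  have b1 : |x + u - x| = |u| := by rw [add_sub_cancel_left]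
  have b2 : |x - u - x| = |u| := by
    rw [show x - u - x = -u by ring, abs_neg]
  have b3 : |x + u - (u - x)| = 2 * |x| := by
    rw [show x + u - (u - x) = 2 * x by ring, abs_mul, abs_two]
  rw [b1] at a1
  rw [b2] at a2
  rw [b3] at a3
  have e4 : g (x + u) + g (x - u) - 2 * g x =
      x * (g (x + u) / (x + u) - g x / x) + x * (g (x - u) / (x - u) - g x / x) +
        u * (g (x + u) / (x + u) - g (x - u) / (x - u)) := by
    have c1 := e (x + u) h1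
    have c2 := e (x - u) h2
    have c3 := e x hx
    linear_combination c1 + c2 - 2 * c3
  rw [e4]
  refine (abs_add_three _ _ _).trans ?_
  rw [abs_mul, abs_mul, abs_mul]
  have d1 := mul_le_mul_of_nonneg_left a1 (abs_nonneg x)
  have d2 := mul_le_mul_of_nonneg_left a2 (abs_nonneg x)
  have d3 := mul_le_mul_of_nonneg_left a3 (abs_nonneg u)
  nlinarith

theorem w2_odd_le {g : ℝ → ℝ} (hg : Continuous g) {B : ℝ} (hB : ∀ x, |g x| ≤ B)
    (hodd : ∀ x, g (-x) = -g x) {M : ℝ}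
    (hM : ∀ x y : ℝ, x ≠ 0 → y ≠ 0 → |g x / x - g y / y| ≤ M * |x - y|) {σ : ℝ} (hσ : 0 ≤ σ)
    (x : ℝ) : |∫ z, (z ^ 2 - 1) * g (x + σ * z) ∂gam| ≤ 2 * M * X.M3 * (|x| * σ) := by
  have i1 := X.wf_int hg hB (w := fun z => z ^ 2 - 1) (by fun_prop) 1 2 X.w2_le σ x
  have i2 : Integrable (fun z => (z ^ 2 - 1) * g (x - σ * z)) gam := by
    have := X.wf_int hg hB (w := fun z => z ^ 2 - 1) (by fun_prop) 1 2 X.w2_le (-σ) x
    refine this.congr (ae_of_all _ fun z => ?_)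
    simp only
    rw [show x + -σ * z = x - σ * z by ring]
  have i3 : Integrable (fun z : ℝ => (z ^ 2 - 1) * (2 * g x)) gam :=
    (X.gi (by fun_prop) 1 2 X.w2_le).mul_const _
  have e1 : ∫ z, (z ^ 2 - 1) * g (x - σ * z) ∂gam = ∫ z, (z ^ 2 - 1) * g (x + σ * z) ∂gam := by
    rw [← h1_neg (fun z => (z ^ 2 - 1) * g (x - σ * z))]
    refine integral_congr_ae (ae_of_all _ fun z => ?_)
    simp only
    rw [show x - σ * -z = x + σ * z by ring]
    ring
  have e2 : 2 * ∫ z, (z ^ 2 - 1) * g (x + σ * z) ∂gam =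
      ∫ z, (z ^ 2 - 1) * (g (x + σ * z) + g (x - σ * z) - 2 * g x) ∂gam := by
    have e3 : (fun z : ℝ => (z ^ 2 - 1) * (g (x + σ * z) + g (x - σ * z) - 2 * g x)) =
        fun z => ((z ^ 2 - 1) * g (x + σ * z) + (z ^ 2 - 1) * g (x - σ * z)) -
          (z ^ 2 - 1) * (2 * g x) := by
      ext z; ring
    have i12 : Integrable (fun z => (z ^ 2 - 1) * g (x + σ * z) +
      (z ^ 2 - 1) * g (x - σ * z)) gam := i1.add i2
    rw [e3, integral_sub i12 i3, integral_add i1 i2, e1, integral_mul_const, X.int_w2]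
    ring
  have h := norm_integral_le_of_norm_le (μ := gam)
    (f := fun z => (z ^ 2 - 1) * (g (x + σ * z) + g (x - σ * z) - 2 * g x))
    (g := fun z => 4 * M * (|x| * σ) * (|z ^ 2 - 1| * |z|)) (X.M3_int.const_mul _)
    (ae_of_all _ fun z => by
      rw [Real.norm_eq_abs, abs_mul]
      have h1 := second_diff hodd hM x (σ * z)
      rw [abs_mul, abs_of_nonneg hσ] at h1
      calc |z ^ 2 - 1| * |g (x + σ * z) + g (x - σ * z) - 2 * g x|
          ≤ |z ^ 2 - 1| * (4 * M * (|x| * (σ * |z|))) :=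
            mul_le_mul_of_nonneg_left h1 (abs_nonneg _)
        _ = _ := by ring)
  rw [integral_const_mul, Real.norm_eq_abs, ← e2, abs_mul, abs_two] at h
  have : ∫ z : ℝ, |z ^ 2 - 1| * |z| ∂gam = X.M3 := rfl
  rw [this] at h
  linarith

/-- `∫_0^1 H3 (θ x) dθ` along the Duhamel integrand -/
noncomputable def J (G : ℝ → ℝ → ℝ) (t ρ x : ℝ) : ℝ :=
  ∫ θ in (0 : ℝ)..1, H3 (G (max t 0 * (1 - ρ))) (√(2 * max t 0 * ρ)) (θ * x)

theorem J_cont {G : ℝ → ℝ → ℝ} (h : PC G) :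
    Continuous fun p : ℝ × ℝ × ℝ => J G p.1 p.2.1 p.2.2 := by
  have h1 : Continuous fun q : (ℝ × ℝ × ℝ) × ℝ =>
      H3 (G (max q.1.1 0 * (1 - q.1.2.1))) (√(2 * max q.1.1 0 * q.1.2.1)) (q.2 * q.1.2.2) :=
    X.pc_cont h (T := (ℝ × ℝ × ℝ) × ℝ) (τ := fun q => max q.1.1 0 * (1 - q.1.2.1)) (by fun_prop)
      (w := fun z => z ^ 3 - 3 * z) (by fun_prop) 4 3 w3_le
      (σ := fun q => √(2 * max q.1.1 0 * q.1.2.1)) (x := fun q => q.2 * q.1.2.2)
      (by fun_prop) (by fun_prop)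
  exact intervalIntegral.continuous_parametric_intervalIntegral_of_continuous'
    (f := fun (p : ℝ × ℝ × ℝ) θ =>
      H3 (G (max p.1 0 * (1 - p.2.1))) (√(2 * max p.1 0 * p.2.1)) (θ * p.2.2)) h1 0 1

theorem A_eq {G : ℝ → ℝ → ℝ} (h : PC G) (hodd : ∀ s x, G s (-x) = -G s x) {t ρ : ℝ}
    (ht : 0 < t) (hρ : 0 < ρ) (x : ℝ) :
    X.A G t ρ x = x * ((√(2 * max t 0 * ρ))⁻¹ * J G t ρ x) := by
  obtain ⟨B, hB⟩ := h.bdd (max t 0 * (1 - ρ))
  have hm : 0 < max t 0 := lt_max_of_lt_left ht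
  exact w2_quot (X.pcf h _) (hB _ le_rfl) (hodd _) (Real.sqrt_pos.2 (by positivity)) x

theorem J_le {G : ℝ → ℝ → ℝ} (h : PC G) (hodd : ∀ s x, G s (-x) = -G s x) {t ρ M : ℝ}
    (ht : 0 < t) (hρ : 0 < ρ)
    (hM : ∀ x y : ℝ, x ≠ 0 → y ≠ 0 → |G (max t 0 * (1 - ρ)) x / x -
      G (max t 0 * (1 - ρ)) y / y| ≤ M * |x - y|) (x : ℝ) :
    |(√(2 * max t 0 * ρ))⁻¹ * J G t ρ x| ≤ 2 * M * X.M3 * √(2 * max t 0 * ρ) := by
  obtain ⟨B, hB⟩ := h.bdd (max t 0 * (1 - ρ))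
  have hcl : IsClosed {x : ℝ | |(√(2 * max t 0 * ρ))⁻¹ * J G t ρ x| ≤
      2 * M * X.M3 * √(2 * max t 0 * ρ)} := by
    refine isClosed_le ?_ continuous_const
    exact (continuous_const.mul ((J_cont h).comp
      (by fun_prop : Continuous fun x : ℝ => (t, ρ, x)))).abs
  have hsub : ({0}ᶜ : Set ℝ) ⊆ {x : ℝ | |(√(2 * max t 0 * ρ))⁻¹ * J G t ρ x| ≤
      2 * M * X.M3 * √(2 * max t 0 * ρ)} := by
    intro y hy
    have hy0 : y ≠ 0 := hy
    have h1 := w2_odd_le (X.pcf h _) (hB _ le_rfl) (hodd _) hM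
      (Real.sqrt_nonneg (2 * max t 0 * ρ)) y
    have h2 : ∫ z, (z ^ 2 - 1) * G (max t 0 * (1 - ρ)) (y + √(2 * max t 0 * ρ) * z) ∂gam =
        y * ((√(2 * max t 0 * ρ))⁻¹ * J G t ρ y) := A_eq h hodd ht hρ y
    rw [h2, abs_mul] at h1
    have hpos : 0 < |y| := abs_pos.2 hy0
    refine le_of_mul_le_mul_left ?_ hpos
    linarith
  have := hcl.closure_subset_iff.2 hsub
  rw [(dense_compl_singleton (0 : ℝ)).closure_eq] at this
  exact this (mem_univ x)

theorem rs (ρ : ℝ) (h0 : 0 < ρ) (h1 : ρ < 1) :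
    (√ρ)⁻¹ * (√(1 - ρ))⁻¹ ≤ √2 * (ρ ^ (-(1 / 2) : ℝ) + (1 - ρ) ^ (-(1 / 2) : ℝ)) := by
  have e : ∀ r : ℝ, 0 < r → r ^ (-(1 / 2) : ℝ) = (√r)⁻¹ := fun r hr => by
    rw [Real.rpow_neg hr.le, ← Real.sqrt_eq_rpow]
  have h2 : 0 < 1 - ρ := by linarith
  rw [e ρ h0, e _ h2]
  have p1 : 0 < √ρ := Real.sqrt_pos.2 h0
  have p2 : 0 < √(1 - ρ) := Real.sqrt_pos.2 h2
  have i1 : 0 < (√ρ)⁻¹ := inv_pos.2 p1
  have i2 : 0 < (√(1 - ρ))⁻¹ := inv_pos.2 p2
  have hh : (√2)⁻¹ = √(1 / 2) := by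
    rw [one_div, Real.sqrt_inv]
  have s2 : 0 < √(2 : ℝ) := by positivity
  rcases le_total ρ (1 / 2) with hr | hr
  · have h3 : (√(1 - ρ))⁻¹ ≤ √2 := by
      rw [inv_le_comm₀ p2 s2, hh]
      exact Real.sqrt_le_sqrt (by linarith)
    nlinarith [mul_le_mul_of_nonneg_left h3 i1.le, mul_pos s2 i2]
  · have h3 : (√ρ)⁻¹ ≤ √2 := by
      rw [inv_le_comm₀ p1 s2, hh]
      exact Real.sqrt_le_sqrt (by linarith)
    nlinarith [mul_le_mul_of_nonneg_right h3 i2.le, mul_pos s2 i1]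

theorem int_le {t ρ M : ℝ} (ht : 0 < t) (h0 : 0 < ρ) (h1 : ρ < 1) (hM : 0 ≤ M) :
    1 / (2 * ρ) * (2 * (M / √(max t 0 * (1 - ρ))) * X.M3 * √(2 * max t 0 * ρ)) ≤
      M * X.M3 * 2 * (ρ ^ (-(1 / 2) : ℝ) + (1 - ρ) ^ (-(1 / 2) : ℝ)) := by
  have h2 : 0 < 1 - ρ := by linarith
  rw [max_eq_left ht.le]
  have q1 : √(t * (1 - ρ)) = √t * √(1 - ρ) := Real.sqrt_mul ht.le _
  have q2 : √(2 * t * ρ) = √2 * √t * √ρ := by
    rw [Real.sqrt_mul (by positivity), Real.sqrt_mul (by norm_num)]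
  have p0 : √t ≠ 0 := (Real.sqrt_pos.2 ht).ne'
  have p1 : √ρ ≠ 0 := (Real.sqrt_pos.2 h0).ne'
  have p2 : √(1 - ρ) ≠ 0 := (Real.sqrt_pos.2 h2).ne'
  have e1 : 1 / (2 * ρ) * (2 * (M / √(t * (1 - ρ))) * X.M3 * √(2 * t * ρ)) =
      M * X.M3 * √2 * ((√ρ)⁻¹ * (√(1 - ρ))⁻¹) := by
    rw [q1, q2]
    have hρ : ρ = √ρ * √ρ := (Real.mul_self_sqrt h0.le).symm
    have : 1 / (2 * ρ) = 1 / (2 * (√ρ * √ρ)) := by rw [← hρ]
    rw [this]
    field_simp
  rw [e1]
  have h3 := rs ρ h0 h1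
  have h4 : 0 ≤ M * X.M3 * √2 := by
    have := X.M3_nonneg
    positivity
  have h5 : √(2 : ℝ) * √2 = 2 := Real.mul_self_sqrt (by norm_num)
  calc M * X.M3 * √2 * ((√ρ)⁻¹ * (√(1 - ρ))⁻¹)
      ≤ M * X.M3 * √2 * (√2 * (ρ ^ (-(1 / 2) : ℝ) + (1 - ρ) ^ (-(1 / 2) : ℝ))) :=
        mul_le_mul_of_nonneg_left h3 h4
    _ = M * X.M3 * (√2 * √2) * (ρ ^ (-(1 / 2) : ℝ) + (1 - ρ) ^ (-(1 / 2) : ℝ)) := by ring
    _ = _ := by rw [h5]

end O

theorem S2_quot {f : ℝ → ℝ} (hf : Continuous f) (hp : ∀ x, f (x + 2) = f x)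
    (hodd : ∀ x, f (-x) = -f x) : ∃ Q : ℝ → ℝ → ℝ,
      ContinuousOn (fun z : ℝ × ℝ => Q z.1 z.2) (Ioi 0 ×ˢ univ) ∧
      ∀ t > 0, ∀ x, S2 f t x = x * Q t x := by
  obtain ⟨B, hB⟩ := X.per_bdd hf hp
  refine ⟨fun t x => (2 * t)⁻¹ * ((√(2 * t))⁻¹ * ∫ θ in (0 : ℝ)..1, O.H3 f (√(2 * t)) (θ * x)),
    ?_, ?_⟩
  · have h1 : Continuous fun q : (ℝ × ℝ) × ℝ => O.H3 f (√(2 * q.1.1)) (q.2 * q.1.2) :=
      X.gam_cont (T := (ℝ × ℝ) × ℝ) (G := fun _ x => f x) (by fun_prop) (fun _ => hB)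
        (w := fun z => z ^ 3 - 3 * z) (by fun_prop) 4 3 O.w3_le
        (σ := fun q => √(2 * q.1.1)) (x := fun q => q.2 * q.1.2) (by fun_prop) (by fun_prop)
    have h2 := intervalIntegral.continuous_parametric_intervalIntegral_of_continuous'
      (μ := volume) (f := fun (p : ℝ × ℝ) θ => O.H3 f (√(2 * p.1)) (θ * p.2)) h1 0 1
    refine ContinuousOn.mul (ContinuousOn.inv₀ (by fun_prop) fun z hz => ?_)
      (ContinuousOn.mul (ContinuousOn.inv₀ (by fun_prop) fun z hz => ?_) h2.continuousOn)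
    · have : 0 < z.1 := hz.1
      positivity
    · have : 0 < z.1 := hz.1
      exact (Real.sqrt_pos.2 (by positivity)).ne'
  · intro t ht x
    rw [X.S2_eq', O.w2_quot hf hB hodd (Real.sqrt_pos.2 (by positivity)) x]
    ring

theorem D2_quot {G : ℝ → ℝ → ℝ} (h : PC G) (hL : LipX G) (hodd : ∀ s x, G s (-x) = -G s x)
    (hM : ∀ T > 0, ∃ M, ∀ s ∈ Ioc 0 T, ∀ x y : ℝ, x ≠ 0 → y ≠ 0 →
      |G s x / x - G s y / y| ≤ M / √s * |x - y|) : ∃ Q : ℝ → ℝ → ℝ,
      ContinuousOn (fun z : ℝ × ℝ => Q z.1 z.2) (Ioi 0 ×ˢ univ) ∧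
      ∀ t > 0, ∀ x, D2 G t x = x * Q t x := by
  refine ⟨fun t x => ∫ ρ in (0 : ℝ)..1, 1 / (2 * ρ) * ((√(2 * max t 0 * ρ))⁻¹ * O.J G t ρ x),
    ?_, ?_⟩
  · intro z0 hz0
    have ht0 : 0 < z0.1 := hz0.1
    refine ContinuousAt.continuousWithinAt ?_
    obtain ⟨M, hM'⟩ := hM (z0.1 + 1) (by linarith)
    have hM0 : 0 ≤ M := by
      have h1 := (abs_nonneg _).trans (hM' (z0.1 + 1) ⟨by linarith, le_rfl⟩ 2 1 (by norm_num)
        (by norm_num))
      rw [show |(2 : ℝ) - 1| = 1 by norm_num, mul_one] at h1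
      have h2 : 0 < √(z0.1 + 1) := Real.sqrt_pos.2 (by linarith)
      by_contra hc
      push Not at hc
      exact absurd h1 (not_le.2 (div_neg_of_neg_of_pos hc h2))
    have hbi : IntervalIntegrable (fun ρ : ℝ => M * X.M3 * 2 *
        (ρ ^ (-(1 / 2) : ℝ) + (1 - ρ) ^ (-(1 / 2) : ℝ))) volume 0 1 := by
      refine IntervalIntegrable.const_mul ?_ _
      exact (intervalIntegral.intervalIntegrable_rpow' (by norm_num)).add (X.rpow_int 1)
    refine intervalIntegral.continuousAt_of_dominated_interval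
      (bound := fun ρ => M * X.M3 * 2 * (ρ ^ (-(1 / 2) : ℝ) + (1 - ρ) ^ (-(1 / 2) : ℝ)))
      ?_ ?_ hbi ?_
    · have : ∀ᶠ z : ℝ × ℝ in 𝓝 z0, 0 < z.1 :=
        continuous_fst.continuousAt.eventually (lt_mem_nhds ht0)
      filter_upwards [this] with z hz
      rw [uIoc_of_le zero_le_one]
      refine ContinuousOn.aestronglyMeasurable ?_ measurableSet_Ioc
      refine ContinuousOn.mul (ContinuousOn.div continuousOn_const (by fun_prop) fun ρ hρ => by
        have := hρ.1.ne'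
        positivity) (ContinuousOn.mul (ContinuousOn.inv₀ (by fun_prop) fun ρ hρ => ?_)
          (Continuous.continuousOn ?_))
      · have := hρ.1
        have hm : 0 < max z.1 0 := lt_max_of_lt_left hz
        exact (Real.sqrt_pos.2 (by positivity)).ne'
      · exact (O.J_cont h).comp (by fun_prop : Continuous fun ρ : ℝ => (z.1, ρ, z.2))
    · have h1 : ∀ᶠ z : ℝ × ℝ in 𝓝 z0, 0 < z.1 :=
        continuous_fst.continuousAt.eventually (lt_mem_nhds ht0)
      have h2 : ∀ᶠ z : ℝ × ℝ in 𝓝 z0, z.1 < z0.1 + 1 :=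
        continuous_fst.continuousAt.eventually (gt_mem_nhds (show z0.1 < z0.1 + 1 by linarith))
      filter_upwards [h1, h2] with z hz1 hz2
      have hne : ∀ᵐ ρ : ℝ, ρ ≠ 1 := by
        simp [ae_iff]
      filter_upwards [hne] with ρ hρ1 hρ
      rw [uIoc_of_le zero_le_one] at hρ
      have hρ2 : ρ < 1 := lt_of_le_of_ne hρ.2 hρ1
      have hm : max z.1 0 = z.1 := max_eq_left hz1.le
      have hs : max z.1 0 * (1 - ρ) ∈ Ioc 0 (z0.1 + 1) := by
        rw [hm]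
        refine ⟨mul_pos hz1 (by linarith), ?_⟩
        nlinarith [hρ.1]
      have h3 := O.J_le h hodd hz1 hρ.1 (hM' _ hs) z.2
      rw [Real.norm_eq_abs, abs_mul, abs_of_nonneg (by have := hρ.1; positivity)]
      refine le_trans (mul_le_mul_of_nonneg_left h3 (by have := hρ.1; positivity)) ?_
      exact O.int_le hz1 hρ.1 hρ2 hM0
    · refine ae_of_all _ fun ρ hρ => ?_
      rw [uIoc_of_le zero_le_one] at hρ
      have hm : 0 < max z0.1 0 := lt_max_of_lt_left ht0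
      refine continuousAt_const.mul (ContinuousAt.mul (ContinuousAt.inv₀ (by fun_prop) ?_)
        (Continuous.continuousAt ?_))
      · have := hρ.1
        exact (Real.sqrt_pos.2 (by positivity)).ne'
      · exact (O.J_cont h).comp (by fun_prop : Continuous fun z : ℝ × ℝ => (z.1, ρ, z.2))
  · intro t ht x
    rw [X.D2_eq h, ← intervalIntegral.integral_const_mul]
    refine intervalIntegral.integral_congr_ae (ae_of_all _ fun ρ hρ => ?_)
    rw [uIoc_of_le zero_le_one] at hρ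
    rw [O.A_eq h hodd ht hρ.1]
    ring

end LE
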