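import Pool.Agent.H6.LE.Heat2

/-! Fixed point. -/

namespace LE
open Set Filter Topology MeasureTheory

/-- Picard iterates -/
noncomputable def h64_V (N : ℝ → ℝ → ℝ) (f : ℝ → ℝ) : ℕ → ℝ → ℝ → ℝ
  | 0 => S f
  | n + 1 => fun t x => S f t x + I (fun s y => N y (h64_V N f n s y)) t x

noncomputable def h64_u (K B T : ℝ) (n : ℕ) : ℝ := B * K ^ n * T ^ (n + 1) / (n + 1).factorial

theorem h64_u_summable (K B T : ℝ) : Summable (h64_u K B T) := by
  have h1 := (Real.summable_pow_div_factorial |K * T|).mul_left |B * T|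
  refine Summable.of_norm_bounded h1 (fun n => ?_)
  have e : h64_u K B T n = B * T * ((K * T) ^ n / (n + 1).factorial) := by
    rw [h64_u, mul_pow, pow_succ]
    ring
  rw [e, Real.norm_eq_abs, abs_mul, abs_div, abs_pow, Nat.abs_cast]
  refine mul_le_mul_of_nonneg_left ?_ (abs_nonneg _)
  refine div_le_div_of_nonneg_left (by positivity) (by positivity) ?_
  exact_mod_cast Nat.factorial_le (Nat.le_succ n)

theorem h64_u_mono {K B T T' : ℝ} (hK : 0 ≤ K) (hB : 0 ≤ B) (hT : 0 ≤ T) (h : T ≤ T') (n : ℕ) :
    h64_u K B T n ≤ h64_u K B T' n := by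
  unfold h64_u
  gcongr

theorem h64_PC_N {N : ℝ → ℝ → ℝ} (hN : Continuous fun z : ℝ × ℝ => N z.1 z.2)
    (hper : ∀ x v, N (x + 2) v = N x v) {V : ℝ → ℝ → ℝ} (hV : PC V) :
    PC (fun s y => N y (V s y)) := by
  refine ⟨hN.comp (continuous_snd.prodMk hV.cont), ?_, ?_⟩
  · intro s x
    rw [hV.per, hper]
  · intro s x hs
    rw [hV.frz s x hs]

theorem h64_PC_add {G H : ℝ → ℝ → ℝ} (hG : PC G) (hH : PC H) : PC (fun s y => G s y + H s y) := by
  refine ⟨hG.cont.add hH.cont, ?_, ?_⟩
  · intro s x
    rw [hG.per, hH.per]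
  · intro s x hs
    rw [hG.frz s x hs, hH.frz s x hs]

theorem h64_PC_sub {G H : ℝ → ℝ → ℝ} (hG : PC G) (hH : PC H) : PC (fun s y => G s y - H s y) := by
  refine ⟨hG.cont.sub hH.cont, ?_, ?_⟩
  · intro s x
    rw [hG.per, hH.per]
  · intro s x hs
    rw [hG.frz s x hs, hH.frz s x hs]

theorem picard {N : ℝ → ℝ → ℝ} (hN : Continuous fun z : ℝ × ℝ => N z.1 z.2)
    (hper : ∀ x v, N (x + 2) v = N x v) (hodd : ∀ x v, N (-x) (-v) = -N x v)
    {K B : ℝ} (hK : 0 ≤ K) (hLip : ∀ x v w, |N x v - N x w| ≤ K * |v - w|) (hB : ∀ x v, |N x v| ≤ B)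
    {f : ℝ → ℝ} (hf : Continuous f) (hfp : ∀ x, f (x + 2) = f x) (hfo : ∀ x, f (-x) = -f x) :
    ∃ V : ℝ → ℝ → ℝ, PC V ∧ (∀ t x, V t (-x) = -V t x) ∧
      ∀ t x, V t x = S f t x + I (fun s y => N y (V s y)) t x := by
  have hB0 : 0 ≤ B := (abs_nonneg _).trans (hB 0 0)
  have hS : PC (S f) := S_PC hf hfp
  have hPC : ∀ n, PC (h64_V N f n) := by
    intro n
    induction n with
    | zero => exact hS
    | succ n ih => exact h64_PC_add hS (I_PC (h64_PC_N hN hper ih))
  have hsucc : ∀ n t x, h64_V N f (n + 1) t x =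
      S f t x + I (fun s y => N y (h64_V N f n s y)) t x := fun n t x => rfl
  have hOdd : ∀ n t x, h64_V N f n t (-x) = -h64_V N f n t x := by
    intro n
    induction n with
    | zero => exact fun t x => S_odd hfo t x
    | succ n ih =>
      intro t x
      rw [hsucc, hsucc, S_odd hfo, I_odd (fun s y => ?_)]
      · ring
      · rw [ih, hodd]
  have hpos : ∀ n t, 0 ≤ t → ∀ x, |h64_V N f (n + 1) t x - h64_V N f n t x| ≤ h64_u K B t n := by
    intro n
    induction n with
    | zero =>
      intro t ht x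
      have e : h64_V N f (0 + 1) t x - h64_V N f 0 t x =
          I (fun s y => N y (h64_V N f 0 s y)) t x := by
        rw [hsucc]
        change S f t x + _ - S f t x = _
        ring
      rw [e]
      refine (I_le (h64_PC_N hN hper (hPC 0)) (b := fun _ => B) continuous_const ht
        (fun s _ y => hB _ _) x).trans (le_of_eq ?_)
      simp [h64_u]
      ring
    | succ n ih =>
      intro t ht x
      have e : h64_V N f (n + 1 + 1) t x - h64_V N f (n + 1) t x =
          I (fun s y => N y (h64_V N f (n + 1) s y) - N y (h64_V N f n s y)) t x := by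
        rw [I_sub (h64_PC_N hN hper (hPC (n + 1))) (h64_PC_N hN hper (hPC n)), hsucc (n + 1),
          hsucc n]
        ring
      rw [e]
      have hb : Continuous fun s : ℝ => K * h64_u K B s n := by
        unfold h64_u
        fun_prop
      refine (I_le (h64_PC_sub (h64_PC_N hN hper (hPC (n + 1))) (h64_PC_N hN hper (hPC n)))
        (b := fun s => K * h64_u K B s n) hb ht
        (fun s hs y => (hLip _ _ _).trans (mul_le_mul_of_nonneg_left (ih s hs.1 y) hK)) x).trans
        (le_of_eq ?_)
      have e1 : (fun s : ℝ => K * h64_u K B s n) =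
          fun s : ℝ => (B * K ^ (n + 1) / (n + 1).factorial) * s ^ (n + 1) := by
        funext s
        rw [h64_u, pow_succ]
        ring
      rw [e1, intervalIntegral.integral_const_mul, integral_pow, h64_u,
        Nat.factorial_succ (n + 1)]
      have h1 : ((n + 1).factorial : ℝ) ≠ 0 := by positivity
      have h2 : ((n + 1 : ℕ) : ℝ) + 1 ≠ 0 := by positivity
      push_cast
      push_cast at h2
      rw [zero_pow (by omega), sub_zero]
      field_simp
  have hneg : ∀ n t, t ≤ 0 → ∀ x, h64_V N f n t x = f x := by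
    intro n t ht x
    rw [(hPC n).frz t x ht]
    cases n with
    | zero => exact S_zero f x
    | succ n => rw [hsucc, S_zero, I_zero, add_zero]
  have hall : ∀ n t x, |h64_V N f (n + 1) t x - h64_V N f n t x| ≤ h64_u K B (max t 0) n := by
    intro n t x
    rcases le_total t 0 with ht | ht
    · rw [hneg _ t ht, hneg _ t ht, sub_self, abs_zero, h64_u]
      have : 0 ≤ max t 0 := le_max_right _ _
      positivity
    · rw [max_eq_left ht]
      exact hpos n t ht x
  have hle : ∀ n T t x, t ≤ T → |h64_V N f (n + 1) t x - h64_V N f n t x| ≤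
      h64_u K B (max T 0) n := fun n T t x h =>
    (hall n t x).trans (h64_u_mono hK hB0 (le_max_right _ _) (max_le_max h le_rfl) n)
  have hsum : ∀ t x, Summable fun n => h64_V N f (n + 1) t x - h64_V N f n t x := fun t x =>
    Summable.of_norm_bounded (h64_u_summable K B (max t 0)) (fun n => hall n t x)
  set W : ℝ → ℝ → ℝ := fun t x => S f t x + ∑' n, (h64_V N f (n + 1) t x - h64_V N f n t x) with hW
  have hlim : ∀ t x, Tendsto (fun n => h64_V N f n t x) atTop (𝓝 (W t x)) := by
    intro t x
    have h1 := (hsum t x).hasSum.tendsto_sum_nat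
    have h2 := h1.const_add (S f t x)
    refine h2.congr (fun n => ?_)
    rw [Finset.sum_range_sub (fun n => h64_V N f n t x)]
    change S f t x + (h64_V N f n t x - S f t x) = _
    ring
  have hcont : Continuous fun z : ℝ × ℝ => W z.1 z.2 := by
    refine hS.cont.add ?_
    rw [continuous_iff_continuousAt]
    intro p
    have hopen : IsOpen {z : ℝ × ℝ | z.1 < p.1 + 1} := isOpen_lt continuous_fst continuous_const
    have hmem : {z : ℝ × ℝ | z.1 < p.1 + 1} ∈ 𝓝 p := hopen.mem_nhds (by
      simp only [mem_setOf_eq]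
      linarith)
    have hc := continuousOn_tsum
      (f := fun n (z : ℝ × ℝ) => h64_V N f (n + 1) z.1 z.2 - h64_V N f n z.1 z.2)
      (s := {z : ℝ × ℝ | z.1 < p.1 + 1})
      (fun n => ((hPC (n + 1)).cont.sub (hPC n).cont).continuousOn)
      (h64_u_summable K B (max (p.1 + 1) 0))
      (fun n z hz => hle n _ _ _ (le_of_lt hz))
    exact hc.continuousAt hmem
  have hPCW : PC W := by
    refine ⟨hcont, ?_, ?_⟩
    · intro s x
      refine tendsto_nhds_unique (hlim s (x + 2)) ?_
      refine (hlim s x).congr (fun n => ?_)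
      rw [(hPC n).per]
    · intro s x hs
      refine tendsto_nhds_unique (hlim s x) ?_
      refine (hlim 0 x).congr (fun n => ?_)
      rw [(hPC n).frz s x hs]
  refine ⟨W, hPCW, ?_, ?_⟩
  · intro t x
    refine tendsto_nhds_unique (hlim t (-x)) ?_
    refine (hlim t x).neg.congr (fun n => ?_)
    rw [hOdd]
  · have main : ∀ t, 0 ≤ t → ∀ x, W t x = S f t x + I (fun s y => N y (W s y)) t x := by
      intro t ht x
      have h1 : Tendsto (fun n => h64_V N f (n + 1) t x) atTop (𝓝 (W t x)) :=
        (hlim t x).comp (tendsto_add_atTop_nat 1)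
      refine tendsto_nhds_unique h1 ?_
      have h2 : Tendsto (fun n => I (fun s y => N y (h64_V N f n s y)) t x) atTop
          (𝓝 (I (fun s y => N y (W s y)) t x)) := by
        rw [tendsto_iff_dist_tendsto_zero]
        have htail : Tendsto (fun n => t * (K * ∑' m, h64_u K B (max t 0) (n + m))) atTop
            (𝓝 0) := by
          have h3 := tendsto_sum_nat_add (h64_u K B (max t 0))
          have h4 := (h3.const_mul K).const_mul t
          rw [mul_zero, mul_zero] at h4
          refine h4.congr (fun n => ?_)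
          simp only [add_comm]
        refine squeeze_zero (fun n => dist_nonneg) (fun n => ?_) htail
        rw [Real.dist_eq, ← I_sub (h64_PC_N hN hper (hPC n)) (h64_PC_N hN hper hPCW)]
        refine (I_le (h64_PC_sub (h64_PC_N hN hper (hPC n)) (h64_PC_N hN hper hPCW))
          (b := fun _ => K * ∑' m, h64_u K B (max t 0) (n + m)) continuous_const ht
          (fun s hs y => (hLip _ _ _).trans (mul_le_mul_of_nonneg_left ?_ hK)) x).trans
          (le_of_eq ?_)
        · rw [← Real.dist_eq]
          refine dist_le_tsum_of_dist_le_of_tendsto (h64_u K B (max t 0)) (fun m => ?_)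
            (h64_u_summable K B (max t 0)) (hlim s y) n
          rw [dist_comm, Real.dist_eq]
          exact hle m t s y hs.2
        · simp only [intervalIntegral.integral_const, smul_eq_mul, sub_zero]
      exact h2.const_add _
    intro t x
    rcases le_total 0 t with ht | ht
    · exact main t ht x
    · rw [hPCW.frz t x ht, hS.frz t x ht, (I_PC (h64_PC_N hN hper hPCW)).frz t x ht]
      exact main 0 le_rfl x

end LE
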