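import Pool.Agent.H6.LE.HeatDefs

/-! Averages. -/

namespace LE
open Set Filter Topology MeasureTheory

theorem avg_param_deriv {F F' : ℝ → ℝ → ℝ} (hF : ∀ x, Continuous (F x))
    (hF' : Continuous fun z : ℝ × ℝ => F' z.1 z.2) (x₀ : ℝ) {s : Set ℝ} (hs : s ∈ 𝓝 x₀)
    (hd : ∀ x ∈ s, ∀ θ, HasDerivAt (fun x => F x θ) (F' x θ) x) :
    HasDerivAt (fun x => ∫ θ in (0 : ℝ)..1, F x θ) (∫ θ in (0 : ℝ)..1, F' x₀ θ) x₀ := by
  have hK : IsCompact ((Metric.closedBall x₀ 1) ×ˢ (Icc (0 : ℝ) 1)) :=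
    (isCompact_closedBall x₀ 1).prod isCompact_Icc
  obtain ⟨C, hC⟩ := hK.exists_bound_of_continuousOn hF'.continuousOn
  have hs' : s ∩ Metric.ball x₀ 1 ∈ 𝓝 x₀ := inter_mem hs (Metric.ball_mem_nhds x₀ one_pos)
  refine (intervalIntegral.hasDerivAt_integral_of_dominated_loc_of_deriv_le
    (F := F) (F' := F') (x₀ := x₀) (s := s ∩ Metric.ball x₀ 1) (bound := fun _ => C) hs' ?_ ?_ ?_ ?_ ?_ ?_).2
  · exact Eventually.of_forall fun x => (hF x).aestronglyMeasurable
  · exact (hF x₀).intervalIntegrable 0 1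
  · exact (hF'.comp (Continuous.prodMk_right x₀)).aestronglyMeasurable
  · refine Eventually.of_forall fun θ hθ x hx => ?_
    have h1 : θ ∈ Icc (0 : ℝ) 1 := by
      rw [uIoc_of_le zero_le_one] at hθ
      exact ⟨hθ.1.le, hθ.2⟩
    exact hC (x, θ) ⟨Metric.ball_subset_closedBall hx.2, h1⟩
  · exact intervalIntegrable_const
  · exact Eventually.of_forall fun θ _ x hx => hd x hx.1 θ

theorem Pof_cont {W : ℝ → ℝ → ℝ} (h : Continuous fun z : ℝ × ℝ => W z.1 z.2) :
    Continuous fun z : ℝ × ℝ => Pof W z.1 z.2 := by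
  unfold Pof
  refine intervalIntegral.continuous_parametric_intervalIntegral_of_continuous'
    (f := fun (z : ℝ × ℝ) (θ : ℝ) => W z.1 (θ * z.2)) ?_ 0 1
  exact h.comp (f := fun q : (ℝ × ℝ) × ℝ => (q.1.1, q.2 * q.1.2)) (by fun_prop)

theorem Pof1_cont {W : ℝ → ℝ → ℝ} (h : Continuous fun z : ℝ × ℝ => W z.1 z.2) :
    Continuous fun z : ℝ × ℝ => Pof1 W z.1 z.2 := by
  unfold Pof1
  refine intervalIntegral.continuous_parametric_intervalIntegral_of_continuous'
    (f := fun (z : ℝ × ℝ) (θ : ℝ) => θ * W z.1 (θ * z.2)) ?_ 0 1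
  exact continuous_snd.mul
    (h.comp (f := fun q : (ℝ × ℝ) × ℝ => (q.1.1, q.2 * q.1.2)) (by fun_prop))

theorem Pof2_cont {W : ℝ → ℝ → ℝ} (h : Continuous fun z : ℝ × ℝ => W z.1 z.2) :
    Continuous fun z : ℝ × ℝ => Pof2 W z.1 z.2 := by
  unfold Pof2
  refine intervalIntegral.continuous_parametric_intervalIntegral_of_continuous'
    (f := fun (z : ℝ × ℝ) (θ : ℝ) => θ ^ 2 * W z.1 (θ * z.2)) ?_ 0 1
  exact (continuous_snd.pow 2).mul
    (h.comp (f := fun q : (ℝ × ℝ) × ℝ => (q.1.1, q.2 * q.1.2)) (by fun_prop))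

theorem Pof_deriv {W W' : ℝ → ℝ → ℝ} (h : Continuous fun z : ℝ × ℝ => W' z.1 z.2)
    (hd : ∀ t x, HasDerivAt (W t) (W' t x) x) (t x : ℝ) :
    HasDerivAt (Pof W t) (Pof1 W' t x) x := by
  have hc : Continuous (W t) := continuous_iff_continuousAt.2 fun y => (hd t y).continuousAt
  have := avg_param_deriv (F := fun x θ => W t (θ * x)) (F' := fun x θ => θ * W' t (θ * x))
    (fun x => hc.comp (continuous_id.mul continuous_const)) ?_ x univ_mem ?_
  · exact this
  · exact continuous_snd.mul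
      (h.comp (f := fun q : ℝ × ℝ => (t, q.2 * q.1)) (by fun_prop))
  · intro y _ θ
    have h1 : HasDerivAt (fun y : ℝ => θ * y) θ y := by
      simpa using (hasDerivAt_id y).const_mul θ
    have h2 := (hd t (θ * y)).comp y h1
    rw [mul_comm] at h2
    exact h2

theorem Pof1_deriv {W W' : ℝ → ℝ → ℝ} (h : Continuous fun z : ℝ × ℝ => W' z.1 z.2)
    (hd : ∀ t x, HasDerivAt (W t) (W' t x) x) (t x : ℝ) :
    HasDerivAt (Pof1 W t) (Pof2 W' t x) x := by
  have hc : Continuous (W t) := continuous_iff_continuousAt.2 fun y => (hd t y).continuousAt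
  have := avg_param_deriv (F := fun x θ => θ * W t (θ * x))
    (F' := fun x θ => θ ^ 2 * W' t (θ * x))
    (fun x => continuous_id.mul (hc.comp (continuous_id.mul continuous_const))) ?_ x univ_mem ?_
  · exact this
  · exact (continuous_snd.pow 2).mul
      (h.comp (f := fun q : ℝ × ℝ => (t, q.2 * q.1)) (by fun_prop))
  · intro y _ θ
    have h1 : HasDerivAt (fun y : ℝ => θ * y) θ y := by
      simpa using (hasDerivAt_id y).const_mul θ
    have h2 := ((hd t (θ * y)).comp y h1).const_mul θ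
    refine h2.congr_deriv ?_
    ring

theorem Pof_mul {V W : ℝ → ℝ → ℝ} (h : Continuous fun z : ℝ × ℝ => W z.1 z.2)
    (hd : ∀ t x, HasDerivAt (V t) (W t x) x) (h0 : ∀ t, V t 0 = 0) (t x : ℝ) :
    V t x = x * Pof W t x := by
  have hW : Continuous (W t) := h.comp (Continuous.prodMk_right t)
  have h1 : ∫ θ in (0 : ℝ)..1, x * W t (θ * x) = V t (1 * x) - V t (0 * x) := by
    refine intervalIntegral.integral_eq_sub_of_hasDerivAt (f := fun θ => V t (θ * x)) ?_ ?_
    · intro θ _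
      have h1 : HasDerivAt (fun y : ℝ => y * x) x θ := by
        simpa using (hasDerivAt_id θ).mul_const x
      have h2 := (hd t (θ * x)).comp θ h1
      rw [mul_comm] at h2
      exact h2
    · exact (continuous_const.mul (hW.comp (continuous_id.mul continuous_const))).intervalIntegrable 0 1
  rw [intervalIntegral.integral_const_mul] at h1
  unfold Pof
  rw [h1, one_mul, zero_mul, h0, sub_zero]

theorem Pof_time {W Wt : ℝ → ℝ → ℝ} (hW : Continuous fun z : ℝ × ℝ => W z.1 z.2)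
    (h : Continuous fun z : ℝ × ℝ => Wt z.1 z.2)
    (hd : ∀ t > 0, ∀ x, HasDerivAt (fun s => W s x) (Wt t x) t) {t : ℝ} (ht : 0 < t) (x : ℝ) :
    HasDerivAt (fun s => Pof W s x) (Pof Wt t x) t := by
  have := avg_param_deriv (F := fun s θ => W s (θ * x)) (F' := fun s θ => Wt s (θ * x))
    (fun s => hW.comp (f := fun θ : ℝ => (s, θ * x)) (by fun_prop))
    (h.comp (f := fun q : ℝ × ℝ => (q.1, q.2 * x)) (by fun_prop)) t (Ioi_mem_nhds ht) ?_
  · exact this
  · intro s hs θ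
    exact hd s hs (θ * x)

end LE
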