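import Pool.Agent.H10.LE.Cla

/-! Existence for the (non-smooth) truncated nonlinearity `min u k ^ 9` (module X3). -/

namespace LE
open Set Filter Topology MeasureTheory

noncomputable def gc (k u : ℝ) : ℝ := max (-k) (min u k) ^ 9

/-- global classical radial solution of `u_t - Δ u = gc k u`, `u(0) = q`. -/
structure ClSol (k : ℝ) (q : ℝ → ℝ) where
  V : ℝ → ℝ → ℝ
  V1 : ℝ → ℝ → ℝ
  V2 : ℝ → ℝ → ℝ
  P : ℝ → ℝ → ℝ
  Q : ℝ → ℝ → ℝ
  cP : ContinuousOn (fun z : ℝ × ℝ => P z.1 z.2) (Ici 0 ×ˢ univ)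
  cV2 : ContinuousOn (fun z : ℝ × ℝ => V2 z.1 z.2) (Ioi 0 ×ˢ univ)
  cQ : ContinuousOn (fun z : ℝ × ℝ => Q z.1 z.2) (Ioi 0 ×ˢ univ)
  VP : ∀ t x, V t x = x * P t x
  V2Q : ∀ t > 0, ∀ x, V2 t x = x * Q t x
  even : ∀ t x, P t (-x) = P t x
  init : ∀ x ∈ Icc (0 : ℝ) 1, P 0 x = q x
  bd : ∀ t ≥ 0, P t 1 = 0
  dV : ∀ t > 0, ∀ x, HasDerivAt (V t) (V1 t x) x
  dV1 : ∀ t > 0, ∀ x, HasDerivAt (V1 t) (V2 t x) x
  tV : ∀ t > 0, ∀ x ∈ Icc (0 : ℝ) 1,
    HasDerivAt (fun s => V s x) (V2 t x + x * gc k (P t x)) t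

namespace X

/-- everything known on the mild solution of the clamped problem -/
structure CS (k L : ℝ) (q : ℝ → ℝ) (V G : ℝ → ℝ → ℝ) : Prop where
  hk : 1 ≤ k
  h1 : q 1 = 0
  hL : 0 ≤ L
  hq : ∀ x ∈ Icc (0 : ℝ) 1, ∀ y ∈ Icc (0 : ℝ) 1, |q x - q y| ≤ L * |x - y|
  pc : PC V
  odd : ∀ t x, V t (-x) = -V t x
  eqV : ∀ t x, V t x = S (fq q) t x + I G t x
  eqG : ∀ t x, G t x = Nc k x (V t x)

variable {k L : ℝ} {q : ℝ → ℝ} {V G : ℝ → ℝ → ℝ}

theorem CS.k0 (h : CS k L q V G) : 0 ≤ k := by linarith [h.hk]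

theorem CS.pcG (h : CS k L q V G) : PC G := by
  have e : G = fun t x => Nc k x (V t x) := by
    ext t x; exact h.eqG t x
  rw [e]
  refine ⟨?_, ?_, ?_⟩
  · exact (Nc_cont h.k0).comp ((continuous_snd).prodMk h.pc.cont)
  · intro s x
    rw [Nc_per, h.pc.per]
  · intro s x hs
    rw [h.pc.frz s x hs]

theorem CS.oddG (h : CS k L q V G) (t x : ℝ) : G t (-x) = -G t x := by
  rw [h.eqG, h.eqG, h.odd, Nc_odd h.k0]

theorem S_lip {f : ℝ → ℝ} (hf : Continuous f) {B K : ℝ} (hB : ∀ x, |f x| ≤ B)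
    (hK : ∀ x y, |f x - f y| ≤ K * |x - y|) (t x y : ℝ) : |S f t x - S f t y| ≤ K * |x - y| := by
  have iS : ∀ x, Integrable (fun z => f (x + √(2 * max t 0) * z)) gam := by
    intro x
    simpa using wf_int hf hB (w := fun _ => 1) continuous_const 1 0 (by simp)
      (√(2 * max t 0)) x
  unfold S
  rw [← integral_sub (iS _) (iS _), ← Real.norm_eq_abs]
  have := norm_integral_le_of_norm_le_const (μ := gam) (C := K * |x - y|)
    (f := fun z => f (x + √(2 * max t 0) * z) - f (y + √(2 * max t 0) * z))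
    (ae_of_all _ fun z => by
      rw [Real.norm_eq_abs]
      refine (hK _ _).trans (le_of_eq ?_)
      congr 2
      ring)
  simpa using this

theorem CS.fc (h : CS k L q V G) : Continuous (fq q) := fq_cont h.h1 h.hL h.hq

theorem CS.lipV (h : CS k L q V G) : LipX V := by
  intro T
  obtain ⟨B, hB⟩ := per_bdd h.fc (fq_per q)
  obtain ⟨K, hK⟩ := D_lip h.pcG T
  refine ⟨4 * L + K, fun s hs x y => ?_⟩
  have e : V s x - V s y = (S (fq q) s x - S (fq q) s y) + (I G s x - I G s y) := by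
    rw [h.eqV, h.eqV]; ring
  rw [e, add_mul]
  exact (abs_add_le _ _).trans (add_le_add
    (S_lip h.fc hB (fq_lip h.h1 h.hL h.hq) s x y) (hK s hs x y))

theorem CS.lipG (h : CS k L q V G) : LipX G := by
  intro T
  obtain ⟨K, hK⟩ := h.lipV T
  have hk := h.k0
  refine ⟨10 * k ^ 9 + 9 * k ^ 8 * K, fun s hs x y => ?_⟩
  rw [h.eqG, h.eqG]
  refine (Nc_lip h.k0 _ _ _ _).trans ?_
  have h8 : 0 ≤ 9 * k ^ 8 := by positivity
  have := mul_le_mul_of_nonneg_left (hK s hs x y) h8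
  rw [add_mul]
  nlinarith

theorem CS.zero (h : CS k L q V G) (t : ℝ) : V t 0 = 0 := by
  have := h.odd t 0
  rw [neg_zero] at this
  linarith

theorem CS.one (h : CS k L q V G) (t : ℝ) : V t 1 = 0 := by
  have h1 := h.odd t 1
  have h2 := h.pc.per t (-1)
  have e : (-1 : ℝ) + 2 = 1 := by norm_num
  rw [e] at h2
  linarith

/-- first and second derivative -/
noncomputable def W1 (q : ℝ → ℝ) (G : ℝ → ℝ → ℝ) (t x : ℝ) : ℝ := S1 (fq q) t x + D G t x
noncomputable def W2 (q : ℝ → ℝ) (G : ℝ → ℝ → ℝ) (t x : ℝ) : ℝ := S2 (fq q) t x + D2 G t x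

theorem CS.dV (h : CS k L q V G) {t : ℝ} (ht : 0 < t) (x : ℝ) :
    HasDerivAt (V t) (W1 q G t x) x := by
  have e : V t = fun x => S (fq q) t x + I G t x := funext fun x => h.eqV t x
  rw [e]
  exact (S_d1 h.fc (fq_per q) ht x).add (I_deriv h.pcG t x)

theorem CS.dV1 (h : CS k L q V G) {t : ℝ} (ht : 0 < t) (x : ℝ) :
    HasDerivAt (W1 q G t) (W2 q G t x) x :=
  (S_d2 h.fc (fq_per q) ht x).add (D_deriv h.pcG h.lipG t x)

theorem CS.tV (h : CS k L q V G) {t : ℝ} (ht : 0 < t) (x : ℝ) :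
    HasDerivAt (fun s => V s x) (W2 q G t x + G t x) t := by
  have e : (fun s => V s x) = fun s => S (fq q) s x + I G s x := funext fun s => h.eqV s x
  rw [e]
  refine ((S_dt h.fc (fq_per q) ht x).add (I_time_lip h.pcG h.lipG ht x)).congr_deriv ?_
  unfold W2
  ring

theorem CS.cW1 (h : CS k L q V G) :
    ContinuousOn (fun z : ℝ × ℝ => W1 q G z.1 z.2) (Ioi 0 ×ˢ univ) :=
  (S1_cont h.fc (fq_per q)).add (D_PC h.pcG).cont.continuousOn

theorem CS.cW2 (h : CS k L q V G) :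
    ContinuousOn (fun z : ℝ × ℝ => W2 q G z.1 z.2) (Ioi 0 ×ˢ univ) :=
  (S2_cont h.fc (fq_per q)).add (D2_PC h.pcG h.lipG).cont.continuousOn

theorem D_zero (G : ℝ → ℝ → ℝ) (x : ℝ) : D G 0 x = 0 := by
  unfold D
  simp

/-- `W1` near `(0, 0)` -/
theorem CS.limW1 (h : CS k L q V G) {ε : ℝ} (hε : 0 < ε) : ∃ δ > 0, ∀ t, 0 < t → t < δ →
    ∀ y, |y| < δ → |W1 q G t y - q 0| ≤ ε := by
  obtain ⟨δ, hδ, h2⟩ := S1_lim h.h1 h.hL h.hq (half_pos hε)
  have h3 : ContinuousAt (fun z : ℝ × ℝ => D G z.1 z.2) (0, 0) := (D_PC h.pcG).cont.continuousAt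
  rw [Metric.continuousAt_iff] at h3
  obtain ⟨δ', hδ', h4⟩ := h3 (ε / 2) (half_pos hε)
  refine ⟨min δ δ', lt_min hδ hδ', fun t ht htδ y hy => ?_⟩
  have k1 := h2 t ht (htδ.trans_le (min_le_left _ _)) y (hy.trans_le (min_le_left _ _))
  have k2 := @h4 (t, y) (by
    rw [Prod.dist_eq, Real.dist_eq, Real.dist_eq, sub_zero, sub_zero, abs_of_pos ht]
    exact max_lt (htδ.trans_le (min_le_right _ _)) (hy.trans_le (min_le_right _ _)))
  simp only [D_zero, Real.dist_eq, sub_zero] at k2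
  have e : W1 q G t y - q 0 = (S1 (fq q) t y - q 0) + D G t y := by unfold W1; ring
  rw [e]
  exact (abs_add_le _ _).trans (by linarith)

/-- the quotient `V / x` -/
noncomputable def PP (q : ℝ → ℝ) (V G : ℝ → ℝ → ℝ) (t x : ℝ) : ℝ :=
  if x = 0 then (if t ≤ 0 then q 0 else W1 q G t 0) else V t x / x

theorem PP_ne {t x : ℝ} (hx : x ≠ 0) : PP q V G t x = V t x / x := if_neg hx

theorem CS.VP (h : CS k L q V G) (t x : ℝ) : V t x = x * PP q V G t x := by
  by_cases hx : x = 0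
  · rw [hx, h.zero, zero_mul]
  · rw [PP_ne hx]
    field_simp

theorem CS.even (h : CS k L q V G) (t x : ℝ) : PP q V G t (-x) = PP q V G t x := by
  by_cases hx : x = 0
  · rw [hx, neg_zero]
  · rw [PP_ne hx, PP_ne (neg_ne_zero.2 hx), h.odd, neg_div_neg_eq]

/-- mean value bound -/
theorem mvb {v v1 : ℝ → ℝ} (hd : ∀ x, HasDerivAt v (v1 x) x) (h0 : v 0 = 0) {c ε δ : ℝ}
    (hb : ∀ y, |y| < δ → |v1 y - c| ≤ ε) {x : ℝ} (hx : |x| < δ) : |v x - c * x| ≤ ε * |x| := by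
  have h := Convex.norm_image_sub_le_of_norm_hasDerivWithin_le (f := fun x => v x - c * x)
    (f' := fun x => v1 x - c) (s := Ioo (-δ) δ) (C := ε)
    (fun x _ => by
      have := (hd x).sub ((hasDerivAt_id x).const_mul c)
      rw [mul_one] at this
      exact this.hasDerivWithinAt)
    (fun x hx => by rw [Real.norm_eq_abs]; exact hb x (abs_lt.2 hx)) (convex_Ioo _ _)
    (show (0 : ℝ) ∈ Ioo (-δ) δ by
      have := (abs_nonneg x).trans_lt hx
      exact ⟨by linarith, this⟩) (abs_lt.1 hx)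
  simpa [h0, Real.norm_eq_abs] using h

theorem CS.contP_aux (h : CS k L q V G) {t0 c : ℝ}
    (hc : ∀ ε > 0, ∃ δ > 0, ∀ t, 0 ≤ t → |t - t0| < δ → ∀ x, |x| < δ →
      |V t x - c * x| ≤ ε * |x| ∧ |PP q V G t 0 - c| ≤ ε) (h0 : PP q V G t0 0 = c) :
    ContinuousWithinAt (fun z : ℝ × ℝ => PP q V G z.1 z.2) (Ici 0 ×ˢ univ) (t0, 0) := by
  rw [Metric.continuousWithinAt_iff]
  intro ε hε
  obtain ⟨δ, hδ, h2⟩ := hc (ε / 2) (half_pos hε)
  refine ⟨δ, hδ, ?_⟩
  rintro ⟨t, x⟩ ⟨ht, -⟩ hd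
  rw [Prod.dist_eq, max_lt_iff, Real.dist_eq, Real.dist_eq] at hd
  simp only [sub_zero] at hd
  simp only
  rw [h0, Real.dist_eq]
  obtain ⟨k1, k2⟩ := h2 t ht hd.1 x hd.2
  by_cases hx : x = 0
  · rw [hx]
    linarith
  · rw [PP_ne hx]
    have hx' : 0 < |x| := abs_pos.2 hx
    have e : V t x / x - c = (V t x - c * x) / x := by field_simp
    rw [e, abs_div]
    have : |V t x - c * x| / |x| ≤ ε / 2 := by
      rw [div_le_iff₀ hx']
      exact k1
    linarith

theorem CS.contP (h : CS k L q V G) :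
    ContinuousOn (fun z : ℝ × ℝ => PP q V G z.1 z.2) (Ici 0 ×ˢ univ) := by
  rintro ⟨t0, x0⟩ ⟨ht0, -⟩
  by_cases hx0 : x0 = 0
  · subst hx0
    have ht0' : 0 ≤ t0 := ht0
    rcases ht0'.eq_or_lt with h0 | h0
    · -- the corner
      rw [← h0]
      refine h.contP_aux (c := q 0) (fun ε hε => ?_) (by unfold PP; simp)
      obtain ⟨δ, hδ, h2⟩ := h.limW1 hε
      refine ⟨min δ (min 1 (ε / (L + 1))), by have := h.hL; positivity, fun t ht htδ x hx => ?_⟩
      rw [sub_zero] at htδ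
      have hxδ : |x| < δ := hx.trans_le (min_le_left _ _)
      have hx1 : |x| ≤ 1 := (hx.trans_le ((min_le_right _ _).trans (min_le_left _ _))).le
      have hxL : |x| ≤ ε / (L + 1) :=
        (hx.trans_le ((min_le_right _ _).trans (min_le_right _ _))).le
      rcases ht.eq_or_lt with h3 | h3
      · rw [← h3]
        refine ⟨?_, by unfold PP; simp [hε.le]⟩
        rw [h.eqV, S_zero, I_zero, add_zero, fq_self h.h1 hx1]
        have e : x * q (|x|) - q 0 * x = x * (q (|x|) - q 0) := by ring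
        have k1 := h.hq (|x|) ⟨abs_nonneg _, hx1⟩ 0 (by norm_num)
        rw [sub_zero, abs_abs] at k1
        rw [e, abs_mul, mul_comm ε]
        refine mul_le_mul_of_nonneg_left (k1.trans ?_) (abs_nonneg _)
        have hL := h.hL
        calc L * |x| ≤ L * (ε / (L + 1)) := by gcongr
          _ = ε * (L / (L + 1)) := by ring
          _ ≤ ε * 1 := by
              gcongr
              rw [div_le_one (by positivity)]
              linarith
          _ = ε := mul_one _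
      · have h4 : t < δ := by
          rw [abs_of_pos h3] at htδ
          exact htδ.trans_le (min_le_left _ _)
        refine ⟨mvb (h.dV h3) (h.zero t) (h2 t h3 h4) hxδ, ?_⟩
        have e : PP q V G t 0 = W1 q G t 0 := by
          unfold PP
          rw [if_pos rfl, if_neg (not_le.2 h3)]
        rw [e]
        exact h2 t h3 h4 0 (by simpa using hδ)
    · refine h.contP_aux (c := W1 q G t0 0) (fun ε hε => ?_) (by
        unfold PP
        rw [if_pos rfl, if_neg (not_le.2 h0)])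
      have h3 : ContinuousAt (fun z : ℝ × ℝ => W1 q G z.1 z.2) (t0, 0) :=
        h.cW1.continuousAt ((isOpen_Ioi.prod isOpen_univ).mem_nhds ⟨h0, mem_univ _⟩)
      rw [Metric.continuousAt_iff] at h3
      obtain ⟨δ, hδ, h4⟩ := h3 ε hε
      refine ⟨min δ t0, lt_min hδ h0, fun t ht htδ x hx => ?_⟩
      have ht' : 0 < t := by
        have := (abs_lt.1 (htδ.trans_le (min_le_right _ _))).1
        linarith
      have h5 : ∀ y, |y| < min δ t0 → |W1 q G t y - W1 q G t0 0| ≤ ε := by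
        intro y hy
        have k2 := @h4 (t, y) (by
          rw [Prod.dist_eq, Real.dist_eq, Real.dist_eq, sub_zero]
          exact max_lt (htδ.trans_le (min_le_left _ _)) (hy.trans_le (min_le_left _ _)))
        rw [Real.dist_eq] at k2
        exact k2.le
      refine ⟨mvb (h.dV ht') (h.zero t) h5 hx, ?_⟩
      have e : PP q V G t 0 = W1 q G t 0 := by
        unfold PP
        rw [if_pos rfl, if_neg (not_le.2 ht')]
      rw [e]
      exact h5 0 (by simpa using ⟨hδ, h0⟩)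
  · refine ContinuousAt.continuousWithinAt ?_
    have h1 : ContinuousAt (fun z : ℝ × ℝ => V z.1 z.2 / z.2) (t0, x0) :=
      h.pc.cont.continuousAt.div continuous_snd.continuousAt hx0
    refine h1.congr ?_
    have : ∀ᶠ z : ℝ × ℝ in 𝓝 (t0, x0), z.2 ≠ 0 :=
      continuous_snd.continuousAt.eventually_ne hx0
    filter_upwards [this] with z hz
    exact (PP_ne hz).symm

/-- bound of `W2` -/
theorem CS.W2_le (h : CS k L q V G) {T : ℝ} (hT : 0 < T) : ∃ M, 0 ≤ M ∧ ∀ s ∈ Ioc 0 T, ∀ x,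
    |W2 q G s x| ≤ M / √s := by
  obtain ⟨B, hB⟩ := (D2_PC h.pcG h.lipG).bdd T
  obtain ⟨B', hB'⟩ := per_bdd h.fc (fq_per q)
  have hB0 : 0 ≤ B := (abs_nonneg _).trans (hB T le_rfl 0)
  have hL := h.hL
  have hM := M3_nonneg
  refine ⟨4 * L * M3 + B * √T, by positivity, fun s hs x => ?_⟩
  have hs0 : 0 < s := hs.1
  have hss : 0 < √s := Real.sqrt_pos.2 hs0
  have h1 : |S2 (fq q) s x| ≤ 4 * L * M3 / √s := by
    rw [S2_eq', abs_mul, abs_of_pos (by positivity)]
    have k1 := w2_lip h.fc hB' (fq_lip h.h1 h.hL h.hq) (Real.sqrt_nonneg (2 * s)) x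
    have k2 : √(2 * s) ≤ 2 * √s := by
      rw [Real.sqrt_mul (by norm_num)]
      have : √(2 : ℝ) ≤ 2 := by
        rw [Real.sqrt_le_left (by norm_num)]; norm_num
      gcongr
    calc (2 * s)⁻¹ * |∫ z, (z ^ 2 - 1) * fq q (x + √(2 * s) * z) ∂gam|
        ≤ (2 * s)⁻¹ * (4 * L * (2 * √s) * M3) := by
          refine mul_le_mul_of_nonneg_left (k1.trans ?_) (by positivity)
          gcongr
      _ = 4 * L * M3 * (√s / s) := by field_simp
      _ = 4 * L * M3 / √s := by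
          have : √s / s = 1 / √s := by
            rw [div_eq_div_iff hs0.ne' hss.ne', one_mul]
            exact Real.mul_self_sqrt hs0.le
          rw [this]
          ring
  have h2 : |D2 G s x| ≤ B * √T / √s := by
    rw [le_div_iff₀ hss]
    have k1 := hB s hs.2 x
    have k2 : √s ≤ √T := Real.sqrt_le_sqrt hs.2
    exact mul_le_mul k1 k2 (Real.sqrt_nonneg _) hB0
  unfold W2
  rw [add_div]
  exact (abs_add_le _ _).trans (add_le_add h1 h2)

/-- Lipschitz bound of `V / x` -/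
theorem quot_lip {v v1 v2 : ℝ → ℝ} (hd : ∀ x, HasDerivAt v (v1 x) x)
    (hd1 : ∀ x, HasDerivAt v1 (v2 x) x) (h0 : v 0 = 0) (hodd : ∀ x, v (-x) = -v x) {B : ℝ}
    (hB : ∀ x, |v2 x| ≤ B) {x y : ℝ} (hx : x ≠ 0) (hy : y ≠ 0) :
    |v x / x - v y / y| ≤ B * |x - y| := by
  have hB0 : 0 ≤ B := (abs_nonneg _).trans (hB 0)
  -- `|x v1 - v| ≤ B x ^ 2`
  have hu : ∀ x : ℝ, 0 < x → |v1 x * x - v x| ≤ B * x ^ 2 := by
    intro x hx
    have h := Convex.norm_image_sub_le_of_norm_hasDerivWithin_le (f := fun x => v1 x * x - v x)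
      (f' := fun x => v2 x * x) (s := Icc 0 x) (C := B * x)
      (fun y _ => by
        have := ((hd1 y).mul (hasDerivAt_id y)).sub (hd y)
        refine (this.congr_deriv ?_).hasDerivWithinAt
        simp)
      (fun y hy => by
        rw [Real.norm_eq_abs, abs_mul, abs_of_nonneg hy.1]
        exact mul_le_mul (hB y) hy.2 hy.1 hB0) (convex_Icc _ _)
      (left_mem_Icc.2 hx.le) (right_mem_Icc.2 hx.le)
    simp only [mul_zero, h0, sub_zero, Real.norm_eq_abs, abs_of_pos hx] at h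
    calc |v1 x * x - v x| ≤ B * x * x := h
      _ = _ := by ring
  have hpos : ∀ x y : ℝ, 0 < x → 0 < y → |v x / x - v y / y| ≤ B * |x - y| := by
    intro x y hx hy
    have h := Convex.norm_image_sub_le_of_norm_hasDerivWithin_le (f := fun x => v x / x)
      (f' := fun x => (v1 x * x - v x) / x ^ 2) (s := Ioi (0 : ℝ)) (C := B)
      (fun y hy => by
        have hy' : y ≠ 0 := ne_of_gt hy
        have := (hd y).div (hasDerivAt_id y) hy'
        refine (this.congr_deriv ?_).hasDerivWithinAt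
        simp)
      (fun y hy => by
        have hy' : (0 : ℝ) < y := hy
        rw [Real.norm_eq_abs, abs_div, abs_of_pos (show (0 : ℝ) < y ^ 2 by positivity),
          div_le_iff₀ (by positivity)]
        exact hu y hy') (convex_Ioi _) (show y ∈ Ioi (0 : ℝ) from hy) (show x ∈ Ioi (0 : ℝ) from hx)
    simpa [Real.norm_eq_abs] using h
  have habs : ∀ x : ℝ, x ≠ 0 → v x / x = v (|x|) / |x| := by
    intro x hx
    rcases lt_or_gt_of_ne hx with h | h
    · rw [abs_of_neg h, hodd, neg_div_neg_eq]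
    · rw [abs_of_pos h]
  rw [habs x hx, habs y hy]
  refine (hpos _ _ (abs_pos.2 hx) (abs_pos.2 hy)).trans ?_
  exact mul_le_mul_of_nonneg_left (abs_abs_sub_abs_le_abs_sub _ _) hB0

theorem CS.hM (h : CS k L q V G) : ∀ T > 0, ∃ M, ∀ s ∈ Ioc 0 T, ∀ x y : ℝ, x ≠ 0 → y ≠ 0 →
    |G s x / x - G s y / y| ≤ M / √s * |x - y| := by
  intro T hT
  have hk := h.k0
  obtain ⟨M, hM0, hM⟩ := h.W2_le hT
  obtain ⟨K, hK⟩ := h.lipG T
  have hK0 : 0 ≤ K := by
    have := (abs_nonneg _).trans (hK T le_rfl 1 0)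
    simpa using this
  refine ⟨9 * k ^ 8 * M + (2 * K + 4 * k ^ 9) * √T, fun s hs x y hx hy => ?_⟩
  have hss : 0 < √s := Real.sqrt_pos.2 hs.1
  have hGb : ∀ x, |G s x| ≤ k ^ 9 := fun x => by rw [h.eqG]; exact Nc_bd hk _ _
  -- the constant is large
  have hc : ∀ c : ℝ, 0 ≤ c → c ≤ c * √T / √s := by
    intro c hc
    rw [le_div_iff₀ hss]
    exact mul_le_mul_of_nonneg_left (Real.sqrt_le_sqrt hs.2) hc
  have hA : 2 * K + 4 * k ^ 9 ≤ (9 * k ^ 8 * M + (2 * K + 4 * k ^ 9) * √T) / √s := by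
    refine (hc _ (by positivity)).trans ?_
    refine div_le_div_of_nonneg_right ?_ hss.le
    have : 0 ≤ 9 * k ^ 8 * M := by positivity
    linarith
  have hB : 9 * k ^ 8 * (M / √s) ≤ (9 * k ^ 8 * M + (2 * K + 4 * k ^ 9) * √T) / √s := by
    rw [← mul_div_assoc]
    refine div_le_div_of_nonneg_right ?_ hss.le
    have : 0 ≤ (2 * K + 4 * k ^ 9) * √T := by positivity
    linarith
  have hxy := abs_nonneg (x - y)
  -- small arguments
  have hsm : |x| ≤ 1 → |y| ≤ 1 → |G s x / x - G s y / y| ≤ 9 * k ^ 8 * (M / √s) * |x - y| := by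
    intro hx1 hy1
    rw [h.eqG, h.eqG, Nc_quot hk hx1 hx, Nc_quot hk hy1 hy]
    refine (pow9_lip (cl_abs hk _) (cl_abs hk _)).trans ?_
    rw [mul_assoc (9 * k ^ 8) (M / √s)]
    refine mul_le_mul_of_nonneg_left ((cl_lip _ _ _).trans ?_) (by positivity)
    exact quot_lip (h.dV hs.1) (h.dV1 hs.1) (h.zero s) (h.odd s) (hM s hs) hx hy
  have hlg : 1 / 2 ≤ |x| → 1 / 2 ≤ |y| →
      |G s x / x - G s y / y| ≤ (2 * K + 4 * k ^ 9) * |x - y| := by
    intro hx1 hy1
    have e : G s x / x - G s y / y = (G s x - G s y) / x + G s y * ((y - x) / (x * y)) := by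
      field_simp
      ring
    have k1 : |(G s x - G s y) / x| ≤ 2 * K * |x - y| := by
      rw [abs_div, div_le_iff₀ (abs_pos.2 hx)]
      have := hK s hs.2 x y
      have h3 : 0 ≤ K * |x - y| := by positivity
      nlinarith
    have k2 : |G s y * ((y - x) / (x * y))| ≤ 4 * k ^ 9 * |x - y| := by
      rw [abs_mul, abs_div, abs_mul, abs_sub_comm y x]
      have h3 : |x - y| / (|x| * |y|) ≤ 4 * |x - y| := by
        rw [div_le_iff₀ (mul_pos (abs_pos.2 hx) (abs_pos.2 hy))]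
        have : 1 / 4 ≤ |x| * |y| := by nlinarith
        nlinarith
      calc |G s y| * (|x - y| / (|x| * |y|)) ≤ k ^ 9 * (4 * |x - y|) :=
            mul_le_mul (hGb y) h3 (by positivity) (by positivity)
        _ = _ := by ring
    rw [e, add_mul]
    exact (abs_add_le _ _).trans (add_le_add k1 k2)
  -- mixed
  have hbq : ∀ x : ℝ, x ≠ 0 → (|x| ≤ 1 ∨ 1 ≤ |x|) → |G s x / x| ≤ k ^ 9 := by
    intro x hx hor
    rcases hor with h3 | h3
    · rw [h.eqG, Nc_quot hk h3 hx, abs_pow]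
      exact pow_le_pow_left₀ (abs_nonneg _) (cl_abs hk _) 9
    · rw [abs_div, div_le_iff₀ (abs_pos.2 hx)]
      have := hGb x
      have h4 : 0 ≤ k ^ 9 := by positivity
      nlinarith
  have hmix : 1 / 2 ≤ |x - y| → |G s x / x - G s y / y| ≤ (2 * K + 4 * k ^ 9) * |x - y| := by
    intro h3
    have k1 := hbq x hx (le_total _ _)
    have k2 := hbq y hy (le_total _ _)
    have h4 : 0 ≤ k ^ 9 := by positivity
    calc |G s x / x - G s y / y| ≤ |G s x / x| + |G s y / y| := abs_sub _ _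
      _ ≤ 2 * k ^ 9 := by linarith
      _ ≤ (2 * K + 4 * k ^ 9) * |x - y| := by nlinarith
  have hfin1 : 9 * k ^ 8 * (M / √s) * |x - y| ≤
      (9 * k ^ 8 * M + (2 * K + 4 * k ^ 9) * √T) / √s * |x - y| :=
    mul_le_mul_of_nonneg_right hB hxy
  have hfin2 : (2 * K + 4 * k ^ 9) * |x - y| ≤
      (9 * k ^ 8 * M + (2 * K + 4 * k ^ 9) * √T) / √s * |x - y| :=
    mul_le_mul_of_nonneg_right hA hxy
  have htri := abs_abs_sub_abs_le_abs_sub x y
  rcases le_or_gt (|x|) 1 with hx1 | hx1 <;> rcases le_or_gt (|y|) 1 with hy1 | hy1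
  · exact (hsm hx1 hy1).trans hfin1
  · rcases le_or_gt (1 / 2) (|x|) with h3 | h3
    · exact (hlg h3 (by linarith)).trans hfin2
    · refine (hmix ?_).trans hfin2
      have := neg_abs_le (|x| - |y|)
      linarith
  · rcases le_or_gt (1 / 2) (|y|) with h3 | h3
    · exact (hlg (by linarith) h3).trans hfin2
    · refine (hmix ?_).trans hfin2
      have := le_abs_self (|x| - |y|)
      linarith
  · exact (hlg (by linarith) (by linarith)).trans hfin2

end X

theorem exists_clsol {k : ℝ} (hk : 1 ≤ k) {q : ℝ → ℝ} (h1 : q 1 = 0) {L : ℝ} (hL : 0 ≤ L)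
    (hq : ∀ x ∈ Icc (0 : ℝ) 1, ∀ y ∈ Icc (0 : ℝ) 1, |q x - q y| ≤ L * |x - y|) :
    Nonempty (ClSol k q) := by
  have hk0 : 0 ≤ k := by linarith
  obtain ⟨V, hV, hodd, heq⟩ := picard (X.Nc_cont hk0) (X.Nc_per k) (X.Nc_odd hk0)
    (K := 9 * k ^ 8) (B := k ^ 9) (by positivity) (X.Nc_lipv hk0) (X.Nc_bd hk0)
    (X.fq_cont h1 hL hq) (X.fq_per q) (X.fq_odd h1)
  have h : X.CS k L q V (fun s y => X.Nc k y (V s y)) :=
    ⟨hk, h1, hL, hq, hV, hodd, heq, fun _ _ => rfl⟩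
  set G : ℝ → ℝ → ℝ := fun s y => X.Nc k y (V s y) with hG
  obtain ⟨Q1, cQ1, eQ1⟩ := S2_quot h.fc (X.fq_per q) (X.fq_odd h1)
  obtain ⟨Q2, cQ2, eQ2⟩ := D2_quot h.pcG h.lipG h.oddG h.hM
  refine ⟨{
    V := V
    V1 := X.W1 q G
    V2 := X.W2 q G
    P := X.PP q V G
    Q := fun t x => Q1 t x + Q2 t x
    cP := h.contP
    cV2 := h.cW2
    cQ := cQ1.add cQ2
    VP := h.VP
    V2Q := fun t ht x => by
      show S2 (X.fq q) t x + D2 G t x = x * (Q1 t x + Q2 t x)
      rw [eQ1 t ht x, eQ2 t ht x]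
      ring
    even := h.even
    init := fun x hx => ?_
    bd := fun t _ => ?_
    dV := fun t ht x => h.dV ht x
    dV1 := fun t ht x => h.dV1 ht x
    tV := fun t ht x hx => ?_ }⟩
  · by_cases hx0 : x = 0
    · rw [hx0]
      unfold X.PP
      simp
    · rw [X.PP_ne hx0, h.eqV, S_zero, I_zero, add_zero, X.fq_self h1 (by
        rw [abs_of_nonneg hx.1]; exact hx.2), abs_of_nonneg hx.1]
      field_simp
  · rw [X.PP_ne one_ne_zero, h.one, zero_div]
  · refine (h.tV ht x).congr_deriv ?_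
    congr 1
    show X.md x * X.cl k (V t x / X.md x) ^ 9 = _
    have hxm : X.md x = x := by
      rw [X.md_self (by rw [abs_of_nonneg hx.1]; exact hx.2), abs_of_nonneg hx.1]
    rw [hxm]
    by_cases hx0 : x = 0
    · rw [hx0]; simp
    · rw [X.PP_ne hx0]
      rfl

end LE
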