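import Pool.Agent.H6.LE.Defs

/-! Cut-off function and truncated nonlinearity. -/

namespace LE
open Set Filter Topology MeasureTheory

theorem cut_nonneg (k u : ℝ) : 0 ≤ cut k u := Real.smoothTransition.nonneg _

theorem cut_le_one (k u : ℝ) : cut k u ≤ 1 := Real.smoothTransition.le_one _

theorem cut_one {k u : ℝ} (hk : 0 < k) (h : |u| ≤ k) : cut k u = 1 := by
  unfold cut
  apply Real.smoothTransition.one_of_one_le
  have h1 : u ^ 2 ≤ k ^ 2 := by
    rw [← sq_abs u]; exact pow_le_pow_left₀ (abs_nonneg u) h 2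
  have h2 : u ^ 2 / k ^ 2 ≤ 1 := by
    rw [div_le_one (by positivity)]; exact h1
  linarith

theorem cut_zero {k u : ℝ} (hk : 0 < k) (h : 2 * k ^ 2 ≤ u ^ 2) : cut k u = 0 := by
  unfold cut
  apply Real.smoothTransition.zero_of_nonpos
  have h2 : 2 ≤ u ^ 2 / k ^ 2 := by
    rw [le_div_iff₀ (by positivity)]; exact h
  linarith

theorem cut_smooth (k : ℝ) : ContDiff ℝ ((⊤ : ℕ∞) : WithTop ℕ∞) (cut k) := by
  unfold cut
  apply Real.smoothTransition.contDiff.comp
  fun_prop

theorem g_smooth (k : ℝ) : ContDiff ℝ ((⊤ : ℕ∞) : WithTop ℕ∞) (g k) := by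
  unfold g
  exact (contDiff_id.pow 9).mul (cut_smooth k)

theorem cut_even (k u : ℝ) : cut k (-u) = cut k u := by
  unfold cut; rw [neg_sq]

theorem g_odd (k u : ℝ) : g k (-u) = -g k u := by
  unfold g; rw [cut_even]; ring

theorem g_zero (k : ℝ) : g k 0 = 0 := by
  unfold g; ring

theorem g_near (k : ℝ) : ∀ᶠ u in 𝓝 (0 : ℝ), g k u = u ^ 9 := by
  by_cases hk : k = 0
  · refine Eventually.of_forall fun u => ?_
    have : cut k u = 1 := by
      unfold cut
      apply Real.smoothTransition.one_of_one_le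
      rw [hk]; norm_num
    unfold g; rw [this]; ring
  · have hk' : 0 < |k| := abs_pos.mpr hk
    have : ∀ᶠ u in 𝓝 (0 : ℝ), |u| < |k| := by
      have hc : ContinuousAt (fun u : ℝ => |u|) 0 := by fun_prop
      have := hc.eventually_lt (continuousAt_const (y := |k|)) (by simpa using hk')
      exact this
    filter_upwards [this] with u hu
    have h1 : cut k u = cut |k| u := by unfold cut; rw [sq_abs]
    unfold g; rw [h1, cut_one hk' hu.le]; ring

theorem dg_near (k : ℝ) : ∀ᶠ u in 𝓝 (0 : ℝ), deriv (g k) u = 9 * u ^ 8 := by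
  filter_upwards [(g_near k).eventually_nhds] with u hu
  have h1 : deriv (g k) u = deriv (fun u : ℝ => u ^ 9) u := Filter.EventuallyEq.deriv_eq hu
  rw [h1]; simp

theorem dg_zero (k : ℝ) : deriv (g k) 0 = 0 := by
  rw [(dg_near k).self_of_nhds]; norm_num

theorem ddg_zero (k : ℝ) : deriv (deriv (g k)) 0 = 0 := by
  have h : deriv (g k) =ᶠ[𝓝 0] fun u : ℝ => 9 * u ^ 8 := dg_near k
  rw [h.deriv_eq]
  have : HasDerivAt (fun u : ℝ => 9 * u ^ 8) (9 * (8 * 0 ^ 7 * 1)) 0 := by
    have := ((hasDerivAt_id (0 : ℝ)).pow 8).const_mul 9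
    simpa using this
  rw [this.deriv]; norm_num

theorem g_eq {k u : ℝ} (hk : 0 < k) (h : |u| ≤ k) : g k u = u ^ 9 := by
  unfold g; rw [cut_one hk h, mul_one]

theorem dg_eq {k u : ℝ} (hk : 0 < k) (h : |u| ≤ k) : deriv (g k) u = 9 * u ^ 8 := by
  have hd : DifferentiableAt ℝ (cut k) u := (cut_smooth k).differentiable (by simp) u
  have hmax : IsLocalMax (cut k) u := by
    refine Eventually.of_forall fun v => ?_
    rw [cut_one hk h]; exact cut_le_one k v
  have h0 : HasDerivAt (cut k) 0 u := by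
    have := hd.hasDerivAt; rwa [hmax.deriv_eq_zero] at this
  have h1 : HasDerivAt (g k) (9 * u ^ 8 * cut k u + u ^ 9 * 0) u := by
    have h2 : HasDerivAt (fun u : ℝ => u ^ 9) (9 * u ^ 8) u := by
      simpa using hasDerivAt_pow 9 u
    exact h2.mul h0
  rw [h1.deriv, cut_one hk h]; ring

theorem g_nonneg {k u : ℝ} (hu : 0 ≤ u) : 0 ≤ g k u :=
  mul_nonneg (pow_nonneg hu 9) (cut_nonneg k u)

theorem g_le {k u : ℝ} (hu : 0 ≤ u) : g k u ≤ u ^ 9 := by
  unfold g
  calc u ^ 9 * cut k u ≤ u ^ 9 * 1 :=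
        mul_le_mul_of_nonneg_left (cut_le_one k u) (pow_nonneg hu 9)
    _ = u ^ 9 := mul_one _

/-- `g k u ≤ min u (2k) ^ 9` -/
theorem g_le' {k u : ℝ} (hk : 0 < k) (hu : 0 ≤ u) : g k u ≤ (2 * k) ^ 9 := by
  by_cases h : 2 * k ^ 2 ≤ u ^ 2
  · unfold g; rw [cut_zero hk h, mul_zero]; positivity
  · push Not at h
    have h1 : u ≤ 2 * k := by
      by_contra hc
      push Not at hc
      nlinarith
    exact (g_le hu).trans (pow_le_pow_left₀ hu h1 9)

theorem g_mono_k {k k' u : ℝ} (hk : 0 < k) (h : k ≤ k') (hu : 0 ≤ u) : g k u ≤ g k' u := by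
  unfold g
  apply mul_le_mul_of_nonneg_left _ (pow_nonneg hu 9)
  unfold cut
  apply Real.smoothTransition.monotone
  have h1 : k ^ 2 ≤ k' ^ 2 := pow_le_pow_left₀ hk.le h 2
  have h2 : u ^ 2 / k' ^ 2 ≤ u ^ 2 / k ^ 2 :=
    div_le_div_of_nonneg_left (sq_nonneg u) (by positivity) h1
  linarith

theorem g_compact {k : ℝ} (hk : 0 < k) : HasCompactSupport (g k) := by
  apply HasCompactSupport.of_support_subset_isCompact (isCompact_Icc (a := -(2 * k)) (b := 2 * k))
  intro u hu
  by_contra hc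
  apply hu
  have : 2 * k ^ 2 ≤ u ^ 2 := by
    have h2 : 2 * k < |u| := by
      by_contra h3
      push Not at h3
      exact hc (abs_le.mp h3)
    have h4 : (2 * k) ^ 2 ≤ |u| ^ 2 := pow_le_pow_left₀ (by linarith) h2.le 2
    rw [sq_abs] at h4
    nlinarith
  unfold g; rw [cut_zero hk this, mul_zero]

theorem g_lip {k : ℝ} (hk : 0 < k) : ∃ L, 0 ≤ L ∧ (∀ u v, |g k u - g k v| ≤ L * |u - v|) ∧
    (∀ u, |deriv (g k) u| ≤ L) ∧ (∀ u, |g k u| ≤ L) ∧ (∀ u, |deriv (deriv (g k)) u| ≤ L) := by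
  have hs := g_smooth k
  have hc := g_compact hk
  have hs1 : ContDiff ℝ ((⊤ : ℕ∞) : WithTop ℕ∞) (deriv (g k)) :=
    (contDiff_infty_iff_deriv.mp hs).2
  have hs2 : ContDiff ℝ ((⊤ : ℕ∞) : WithTop ℕ∞) (deriv (deriv (g k))) :=
    (contDiff_infty_iff_deriv.mp hs1).2
  obtain ⟨A, hA⟩ := hc.exists_bound_of_continuous hs.continuous
  obtain ⟨B, hB⟩ := (hc.deriv).exists_bound_of_continuous hs1.continuous
  obtain ⟨C, hC⟩ := (hc.deriv.deriv).exists_bound_of_continuous hs2.continuous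
  have hd : Differentiable ℝ (g k) := hs.differentiable (by simp)
  refine ⟨max A (max B C), ?_, ?_, ?_, ?_, ?_⟩
  · exact le_trans ((abs_nonneg _).trans (by simpa using hA 0)) (le_max_left _ _)
  · intro u v
    have := Convex.norm_image_sub_le_of_norm_deriv_le (f := g k) (s := univ)
      (C := max A (max B C)) (x := v) (y := u) (fun x _ => hd x)
      (fun x _ => (hB x).trans ((le_max_left _ _).trans (le_max_right _ _))) convex_univ
      (mem_univ _) (mem_univ _)
    simpa [Real.norm_eq_abs] using this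
  · intro u
    exact (by simpa using hB u : |deriv (g k) u| ≤ B).trans
      ((le_max_left _ _).trans (le_max_right _ _))
  · intro u
    exact (by simpa using hA u : |g k u| ≤ A).trans (le_max_left _ _)
  · intro u
    exact (by simpa using hC u : |deriv (deriv (g k)) u| ≤ C).trans
      ((le_max_right _ _).trans (le_max_right _ _))

end LE
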