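import Pool.Agent.H6.LE.Defs

/-! Initial data and the auxiliary function F. -/

namespace LE
open Set Filter Topology MeasureTheory

theorem u0_nonneg {x : ℝ} (hx : x ∈ Icc (-1 : ℝ) 1) : 0 ≤ u0 x := by
  have h : 0 ≤ 1 - x ^ 2 := by nlinarith [hx.1, hx.2]
  unfold u0; positivity

theorem u0_pos {x : ℝ} (hx : x ∈ Ioo (-1 : ℝ) 1) : 0 < u0 x := by
  have h : 0 < 1 - x ^ 2 := by nlinarith [hx.1, hx.2]
  unfold u0; positivity

theorem u0_le {x : ℝ} (hx : x ∈ Icc (-1 : ℝ) 1) : u0 x ≤ 33 := by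
  have h : 0 ≤ 1 - x ^ 2 := by nlinarith [hx.1, hx.2]
  have h1 : 1 - x ^ 2 ≤ 1 := by nlinarith [sq_nonneg x]
  have h2 : (1 - x ^ 2) ^ 2 ≤ 1 := pow_le_one₀ h h1
  have h3 : (1 - x ^ 2) ^ 3 ≤ 1 := pow_le_one₀ h h1
  unfold u0; linarith

theorem u0_one : u0 1 = 0 := by unfold u0; norm_num

noncomputable def du0 (r : ℝ) : ℝ := -24 * r * (1 + 3 / 2 * (1 - r ^ 2) + 3 * (1 - r ^ 2) ^ 2)

/-- second derivative of `x * u0 x` -/
noncomputable def ddv0 (x : ℝ) : ℝ := 12 * x * (9 * (1 - x ^ 2) - 42 * (1 - x ^ 2) ^ 2)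

theorem y_deriv (x : ℝ) : HasDerivAt (fun r : ℝ => 1 - r ^ 2) (-(2 * x)) x :=
  HasDerivAt.congr_deriv ((hasDerivAt_const x (1 : ℝ)).sub (hasDerivAt_pow 2 x))
    (by norm_num)

theorem u0_deriv (x : ℝ) : HasDerivAt u0 (du0 x) x := by
  have h0 := y_deriv x
  have h := ((h0.add ((h0.pow 2).const_mul (3 / 4))).add (h0.pow 3)).const_mul 12
  exact HasDerivAt.congr_deriv h (by unfold du0; norm_num; ring)

theorem v0_deriv (x : ℝ) : HasDerivAt (fun x => x * u0 x) (u0 x + x * du0 x) x := by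
  exact HasDerivAt.congr_deriv ((hasDerivAt_id x).mul (u0_deriv x)) (by simp)

theorem v0_deriv2 (x : ℝ) : HasDerivAt (fun x => u0 x + x * du0 x) (ddv0 x) x := by
  have h0 := y_deriv x
  have h1 : HasDerivAt du0 (-24 * (1 + 3 / 2 * (1 - x ^ 2) + 3 * (1 - x ^ 2) ^ 2) +
      (-24 * x) * (3 / 2 * (-(2 * x)) + 3 * (2 * (1 - x ^ 2) * (-(2 * x))))) x := by
    have ha : HasDerivAt (fun r : ℝ => -24 * r) (-24 * 1) x := (hasDerivAt_id x).const_mul (-24)
    have hb := ((hasDerivAt_const x (1 : ℝ)).add (h0.const_mul (3 / 2))).add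
        ((h0.pow 2).const_mul 3)
    exact HasDerivAt.congr_deriv (ha.mul hb) (by simp)
  have h2 := (u0_deriv x).add ((hasDerivAt_id x).mul h1)
  exact HasDerivAt.congr_deriv h2 (by unfold ddv0 du0; simp only [id]; ring)

/-- strict subsolution: `Δ u0 + u0 ^ 9 ≥ u0` -/
theorem v0_sub {x : ℝ} (hx : x ∈ Icc (0 : ℝ) 1) : x * u0 x ≤ ddv0 x + x * u0 x ^ 9 := by
  have hy0 : 0 ≤ 1 - x ^ 2 := by nlinarith [hx.1, hx.2]
  have hy1 : 1 - x ^ 2 ≤ 1 := by nlinarith [sq_nonneg x]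
  have key : u0 x ≤ 12 * (9 * (1 - x ^ 2) - 42 * (1 - x ^ 2) ^ 2) + u0 x ^ 9 := by
    set y := 1 - x ^ 2 with hy
    have hu : u0 x = 12 * (y + 3 / 4 * y ^ 2 + y ^ 3) := rfl
    rw [hu]
    have hh0 : 0 ≤ y + 3 / 4 * y ^ 2 + y ^ 3 := by positivity
    have hhy : y ≤ y + 3 / 4 * y ^ 2 + y ^ 3 := by
      have : 0 ≤ 3 / 4 * y ^ 2 + y ^ 3 := by positivity
      linarith
    rcases le_total y (1 / 6) with h | h
    · have h9 : 0 ≤ (12 * (y + 3 / 4 * y ^ 2 + y ^ 3)) ^ 9 := by positivity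
      have h2 : y ^ 2 ≤ y * (1 / 6) := by nlinarith
      have h3 : y ^ 3 ≤ y * (1 / 36) := by
        have : y ^ 3 = y * y ^ 2 := by ring
        rw [this]
        have : y ^ 2 ≤ 1 / 36 := by nlinarith
        exact mul_le_mul_of_nonneg_left this hy0
      nlinarith
    · set w := 12 * (y + 3 / 4 * y ^ 2 + y ^ 3) with hw
      have hw2 : 2 ≤ w := by rw [hw]; nlinarith
      have hw12 : 12 * y ≤ w := by rw [hw]; nlinarith
      have h8 : (2 : ℝ) ^ 8 ≤ w ^ 8 := pow_le_pow_left₀ (by norm_num) hw2 8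
      have h9 : 256 * w ≤ w ^ 9 := by
        have : w ^ 9 = w ^ 8 * w := by ring
        rw [this]
        have hw0 : 0 ≤ w := by linarith
        nlinarith
      have h2 : y ^ 2 ≤ y := by nlinarith
      nlinarith
  have hx0 := hx.1
  unfold ddv0
  nlinarith [mul_le_mul_of_nonneg_left key hx0]

theorem du0_le {x : ℝ} (hx : x ∈ Icc (0 : ℝ) 1) : du0 x ≤ -24 * x := by
  have hy0 : 0 ≤ 1 - x ^ 2 := by nlinarith [hx.1, hx.2]
  unfold du0
  have h : 0 ≤ 3 / 2 * (1 - x ^ 2) + 3 * (1 - x ^ 2) ^ 2 := by positivity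
  nlinarith [mul_nonneg hx.1 h]

theorem F_eq {u : ℝ} (hu : 0 ≤ u) : F u = (1 + u ^ 9) / (1 + u) := by
  rw [eq_div_iff (by positivity)]
  unfold F; ring

theorem F_ge {u : ℝ} (hu : 0 ≤ u) : u ^ 8 / 2 ≤ F u := by
  rw [F_eq hu, div_le_div_iff₀ (by norm_num) (by positivity)]
  have h : u ^ 8 ≤ 2 + u ^ 9 := by
    rcases le_total u 1 with h1 | h1
    · have : u ^ 8 ≤ 1 := pow_le_one₀ hu h1
      have : 0 ≤ u ^ 9 := by positivity
      linarith
    · have h8 : 0 ≤ u ^ 8 := by positivity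
      have : u ^ 9 = u ^ 8 * u := by ring
      nlinarith
  nlinarith

theorem F_nonneg {u : ℝ} (hu : 0 ≤ u) : 0 ≤ F u := by
  rw [F_eq hu]; positivity

/-- first derivative of `F` -/
noncomputable def F1 (u : ℝ) : ℝ :=
  -1 + 2 * u - 3 * u ^ 2 + 4 * u ^ 3 - 5 * u ^ 4 + 6 * u ^ 5 - 7 * u ^ 6 + 8 * u ^ 7

/-- second derivative of `F` -/
noncomputable def F2 (u : ℝ) : ℝ :=
  2 - 6 * u + 12 * u ^ 2 - 20 * u ^ 3 + 30 * u ^ 4 - 42 * u ^ 5 + 56 * u ^ 6

theorem F_hasDeriv (u : ℝ) : HasDerivAt F (F1 u) u := by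
  have hp (n : ℕ) : HasDerivAt (fun u : ℝ => u ^ n) (n * u ^ (n - 1)) u := hasDerivAt_pow n u
  have h := (((((((((hasDerivAt_const u (1 : ℝ)).sub (hasDerivAt_id u)).add (hp 2)).sub
    (hp 3)).add (hp 4)).sub (hp 5)).add (hp 6)).sub (hp 7)).add (hp 8))
  exact HasDerivAt.congr_deriv h (by unfold F1; norm_num)

theorem F1_hasDeriv (u : ℝ) : HasDerivAt F1 (F2 u) u := by
  have hp (n : ℕ) : HasDerivAt (fun u : ℝ => u ^ n) (n * u ^ (n - 1)) u := hasDerivAt_pow n u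
  have h := ((((((((hasDerivAt_const u (-1 : ℝ)).add ((hasDerivAt_id u).const_mul 2)).sub
    ((hp 2).const_mul 3)).add ((hp 3).const_mul 4)).sub ((hp 4).const_mul 5)).add
    ((hp 5).const_mul 6)).sub ((hp 6).const_mul 7)).add ((hp 7).const_mul 8))
  exact HasDerivAt.congr_deriv h (by unfold F2; norm_num; ring)

theorem F1_eq : deriv F = F1 := funext fun u => (F_hasDeriv u).deriv

theorem F2_eq : deriv (deriv F) = F2 := by
  rw [F1_eq]; exact funext fun u => (F1_hasDeriv u).deriv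

theorem F_convex {u : ℝ} (hu : 0 ≤ u) : 0 ≤ deriv (deriv F) u := by
  rw [F2_eq]
  have h : F2 u * (1 + u) ^ 3 = 2 + 72 * u ^ 7 + 126 * u ^ 8 + 56 * u ^ 9 := by
    unfold F2; ring
  have h1 : 0 ≤ F2 u * (1 + u) ^ 3 := by rw [h]; positivity
  exact nonneg_of_mul_nonneg_left h1 (by positivity)

/-- the Friedman-McLeod inequality `F' f - f' F + 2 ε F F' ≤ 0` for `f = u ^ 9` -/
theorem F_key {u : ℝ} (hu : 0 ≤ u) :
    deriv F u * u ^ 9 - 9 * u ^ 8 * F u + 2 * eps * F u * deriv F u ≤ 0 := by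
  rw [F1_eq]
  have he0 : 0 ≤ eps := by unfold eps; positivity
  have he1 : 18 * eps ≤ 1 := by
    unfold eps
    rw [mul_inv_le_iff₀ (by positivity)]; norm_num
  -- `(1 + u) F' = 9 u^8 - F`
  have h1 : (1 + u) * F1 u = 9 * u ^ 8 - F u := by unfold F1 F; ring
  have h2 : (1 + u) * F u = 1 + u ^ 9 := by unfold F; ring
  have hF := F_nonneg hu
  have hpos : 0 < 1 + u := by linarith
  -- multiply by `1 + u`
  have key : (1 + u) * (F1 u * u ^ 9 - 9 * u ^ 8 * F u + 2 * eps * F u * F1 u) ≤ 0 := by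
    have e : (1 + u) * (F1 u * u ^ 9 - 9 * u ^ 8 * F u + 2 * eps * F u * F1 u) =
        F u * (2 * eps * (9 * u ^ 8) - 2 * eps * F u - u ^ 9) - 9 * u ^ 8 := by
      have : (1 + u) * (F1 u * u ^ 9 - 9 * u ^ 8 * F u + 2 * eps * F u * F1 u) =
        ((1 + u) * F1 u) * u ^ 9 - 9 * u ^ 8 * ((1 + u) * F u) +
          2 * eps * F u * ((1 + u) * F1 u) := by ring
      rw [this, h1, h2]; ring
    rw [e]
    have hu8 : 0 ≤ u ^ 8 := by positivity
    rcases le_total u (18 * eps) with h | h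
    · -- `F ≤ 1`
      have hu1 : u ≤ 1 := h.trans he1
      have hF1 : F u ≤ 1 := by
        have h9 : u ^ 9 ≤ u := by
          calc u ^ 9 = u * u ^ 8 := by ring
            _ ≤ u * 1 := mul_le_mul_of_nonneg_left (pow_le_one₀ hu hu1) hu
            _ = u := mul_one u
        have : (1 + u) * F u ≤ (1 + u) * 1 := by rw [h2]; linarith
        exact le_of_mul_le_mul_left this hpos
      have a1 : F u * (2 * eps * (9 * u ^ 8) - 2 * eps * F u - u ^ 9) ≤
          F u * (18 * eps * u ^ 8) := by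
        apply mul_le_mul_of_nonneg_left _ hF
        have : 0 ≤ 2 * eps * F u := by positivity
        have : 0 ≤ u ^ 9 := by positivity
        linarith
      have a2 : F u * (18 * eps * u ^ 8) ≤ 1 * (1 * u ^ 8) := by
        apply mul_le_mul hF1 _ (by positivity) (by norm_num)
        exact mul_le_mul_of_nonneg_right he1 hu8
      linarith
    · have a1 : 2 * eps * (9 * u ^ 8) - 2 * eps * F u - u ^ 9 ≤ 0 := by
        have : 0 ≤ 2 * eps * F u := by positivity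
        have : u ^ 9 = u * u ^ 8 := by ring
        nlinarith
      have a2 := mul_nonpos_of_nonneg_of_nonpos hF a1
      linarith
  exact nonpos_of_mul_nonpos_right key hpos

theorem F_smooth : ContDiff ℝ ((⊤ : ℕ∞) : WithTop ℕ∞) F := by
  unfold F; fun_prop

end LE
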