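import Pool.Agent.H6.LE.MaxP
import Pool.Agent.H6.LE.Cut
import Pool.Agent.H6.LE.Data

/-! Comparison I. -/

namespace LE
open Set Filter Topology MeasureTheory

variable {k k' : ℝ}

/-- division by `x` of an inequality on `[0,1]` -/
theorem le_of_mul_x {A B : ℝ → ℝ} (hA : Continuous A) (hB : Continuous B)
    (h : ∀ x ∈ Icc (0 : ℝ) 1, x * A x ≤ x * B x) : ∀ x ∈ Icc (0 : ℝ) 1, A x ≤ B x := by
  have hpos : ∀ x ∈ Ioc (0 : ℝ) 1, A x ≤ B x := fun x hx =>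
    le_of_mul_le_mul_left (h x ⟨hx.1.le, hx.2⟩) hx.1
  intro x hx
  rcases hx.1.lt_or_eq with h0 | h0
  · exact hpos x ⟨h0, hx.2⟩
  · subst h0
    have ha : Tendsto A (𝓝[>] 0) (𝓝 (A 0)) := (hA.tendsto 0).mono_left nhdsWithin_le_nhds
    have hb : Tendsto B (𝓝[>] 0) (𝓝 (B 0)) := (hB.tendsto 0).mono_left nhdsWithin_le_nhds
    refine le_of_tendsto_of_tendsto ha hb ?_
    filter_upwards [Ioc_mem_nhdsGT (zero_lt_one : (0 : ℝ) < 1)] with y hy
    exact hpos y hy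

theorem Sol.contP (s : Sol k) (t : ℝ) : Continuous (s.P t) :=
  s.cP.comp (Continuous.prodMk_right t)

theorem Sol.V_zero (s : Sol k) (t : ℝ) : s.V t 0 = 0 := by rw [s.VP]; simp

theorem Sol.nonneg (s : Sol k) (hk : 66 ≤ k) {t x : ℝ} (ht : 0 ≤ t) (hx : x ∈ Icc (0 : ℝ) 1) :
    0 ≤ s.P t x := by
  obtain ⟨L, hL0, hL, -⟩ := g_lip (k := k) (by linarith)
  have key : ∀ τ ∈ Icc 0 t, ∀ y ∈ Icc (0 : ℝ) 1, -s.V τ y ≤ 0 := by
    apply maxp (C := L) (fun τ y => -s.V τ y)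
    · exact s.cV.neg.continuousOn
    · intro y hy
      have hy' : y ∈ Icc (-1 : ℝ) 1 := ⟨by linarith [hy.1], hy.2⟩
      rw [s.VP, s.init y hy']
      nlinarith [u0_nonneg hy', hy.1, mul_nonneg hy.1 (u0_nonneg hy')]
    · intro τ _; simp [s.V_zero]
    · intro τ _; simp [s.bd]
    · intro τ hτ y hy hpos
      have hy' : y ∈ Icc (-1 : ℝ) 1 := ⟨by linarith [hy.1], hy.2.le⟩
      refine ⟨_, fun z => -s.V1 τ z, _, (s.tV τ hτ.1 y hy').neg,
        Eventually.of_forall fun z => (s.dV τ z).neg, (s.dV1 τ y).neg, fun _ => ?_⟩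
      have hVP := s.VP τ y
      have hP : s.P τ y < 0 := by
        by_contra hcon
        push Not at hcon
        nlinarith [mul_nonneg hy.1.le hcon]
      have h1 := hL (s.P τ y) 0
      rw [g_zero, sub_zero, sub_zero, abs_of_neg hP] at h1
      have h2 := (abs_le.1 h1).1
      nlinarith [hy.1, mul_le_mul_of_nonneg_left h2 hy.1.le]
  have h2 : ∀ y ∈ Icc (0 : ℝ) 1, y * (0 : ℝ) ≤ y * s.P t y := by
    intro y hy
    have := key t ⟨ht, le_rfl⟩ y hy
    rw [s.VP] at this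
    linarith
  exact le_of_mul_x continuous_const (s.contP t) h2 x hx

theorem Sol.mono_k (s : Sol k) (s' : Sol k') (hk : 66 ≤ k) (h : k ≤ k') {t x : ℝ} (ht : 0 ≤ t)
    (hx : x ∈ Icc (0 : ℝ) 1) : s.P t x ≤ s'.P t x := by
  obtain ⟨L, hL0, hL, -⟩ := g_lip (k := k) (by linarith)
  have hk' : 66 ≤ k' := hk.trans h
  have key : ∀ τ ∈ Icc 0 t, ∀ y ∈ Icc (0 : ℝ) 1, s.V τ y - s'.V τ y ≤ 0 := by
    apply maxp (C := L) (fun τ y => s.V τ y - s'.V τ y)
    · exact (s.cV.sub s'.cV).continuousOn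
    · intro y hy
      have hy' : y ∈ Icc (-1 : ℝ) 1 := ⟨by linarith [hy.1], hy.2⟩
      rw [s.VP, s'.VP, s.init y hy', s'.init y hy', sub_self]
    · intro τ _; simp [s.V_zero, s'.V_zero]
    · intro τ _; simp [s.bd, s'.bd]
    · intro τ hτ y hy hpos
      have hy' : y ∈ Icc (-1 : ℝ) 1 := ⟨by linarith [hy.1], hy.2.le⟩
      have hy01 : y ∈ Icc (0 : ℝ) 1 := ⟨hy.1.le, hy.2.le⟩
      refine ⟨_, fun z => s.V1 τ z - s'.V1 τ z, _, (s.tV τ hτ.1 y hy').sub (s'.tV τ hτ.1 y hy'),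
        Eventually.of_forall fun z => (s.dV τ z).sub (s'.dV τ z), (s.dV1 τ y).sub (s'.dV1 τ y),
        fun _ => ?_⟩
      have e1 := s.VP τ y
      have e2 := s'.VP τ y
      have hPP : s'.P τ y < s.P τ y := by
        by_contra hcon
        push Not at hcon
        nlinarith [mul_le_mul_of_nonneg_left hcon hy.1.le]
      have hP' := s'.nonneg hk' hτ.1.le hy01
      have h1 := hL (s.P τ y) (s'.P τ y)
      rw [abs_of_pos (sub_pos.2 hPP)] at h1
      have h2 := (abs_le.1 h1).2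
      have h3 := g_mono_k (by linarith : 0 < k) h hP'
      have h4 : g k (s.P τ y) - g k' (s'.P τ y) ≤ L * (s.P τ y - s'.P τ y) := by linarith
      nlinarith [mul_le_mul_of_nonneg_left h4 hy.1.le]
  have h2 : ∀ y ∈ Icc (0 : ℝ) 1, y * s.P t y ≤ y * s'.P t y := by
    intro y hy
    have := key t ⟨ht, le_rfl⟩ y hy
    rw [s.VP, s'.VP] at this
    linarith
  exact le_of_mul_x (s.contP t) (s'.contP t) h2 x hx

theorem Sol.agree (s : Sol k) (s' : Sol k') (hk : 66 ≤ k) (h : k ≤ k') {T : ℝ}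
    (hT : ∀ t ∈ Icc 0 T, ∀ x ∈ Icc (0 : ℝ) 1, s.P t x ≤ k) :
    ∀ t ∈ Icc 0 T, ∀ x ∈ Icc (0 : ℝ) 1, s'.P t x = s.P t x := by
  have hk' : 66 ≤ k' := hk.trans h
  obtain ⟨L, hL0, hL, -⟩ := g_lip (k := k') (by linarith)
  have key : ∀ τ ∈ Icc 0 T, ∀ y ∈ Icc (0 : ℝ) 1, s'.V τ y - s.V τ y ≤ 0 := by
    apply maxp (C := L) (fun τ y => s'.V τ y - s.V τ y)
    · exact (s'.cV.sub s.cV).continuousOn
    · intro y hy
      have hy' : y ∈ Icc (-1 : ℝ) 1 := ⟨by linarith [hy.1], hy.2⟩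
      rw [s.VP, s'.VP, s.init y hy', s'.init y hy', sub_self]
    · intro τ _; simp [s.V_zero, s'.V_zero]
    · intro τ _; simp [s.bd, s'.bd]
    · intro τ hτ y hy hpos
      have hy' : y ∈ Icc (-1 : ℝ) 1 := ⟨by linarith [hy.1], hy.2.le⟩
      have hy01 : y ∈ Icc (0 : ℝ) 1 := ⟨hy.1.le, hy.2.le⟩
      refine ⟨_, fun z => s'.V1 τ z - s.V1 τ z, _, (s'.tV τ hτ.1 y hy').sub (s.tV τ hτ.1 y hy'),
        Eventually.of_forall fun z => (s'.dV τ z).sub (s.dV τ z), (s'.dV1 τ y).sub (s.dV1 τ y),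
        fun _ => ?_⟩
      have e1 := s.VP τ y
      have e2 := s'.VP τ y
      have hPP : s.P τ y < s'.P τ y := by
        by_contra hcon
        push Not at hcon
        nlinarith [mul_le_mul_of_nonneg_left hcon hy.1.le]
      have hP := s.nonneg hk hτ.1.le hy01
      have hPk := hT τ ⟨hτ.1.le, hτ.2⟩ y hy01
      have hgg : g k (s.P τ y) = g k' (s.P τ y) := by
        rw [g_eq (by linarith) (by rw [abs_of_nonneg hP]; exact hPk),
          g_eq (by linarith) (by rw [abs_of_nonneg hP]; linarith)]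
      have h1 := hL (s'.P τ y) (s.P τ y)
      rw [abs_of_pos (sub_pos.2 hPP)] at h1
      have h2 := (abs_le.1 h1).2
      rw [hgg]
      nlinarith [mul_le_mul_of_nonneg_left h2 hy.1.le]
  intro t ht x hx
  refine le_antisymm ?_ (s.mono_k s' hk h ht.1 hx)
  have h2 : ∀ y ∈ Icc (0 : ℝ) 1, y * s'.P t y ≤ y * s.P t y := by
    intro y hy
    have := key t ht y hy
    rw [s.VP, s'.VP] at this
    linarith
  exact le_of_mul_x (s'.contP t) (s.contP t) h2 x hx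

end LE
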