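import Pool.Agent.H6.LE.Comp1

/-! Comparison II. -/

namespace LE
open Set Filter Topology MeasureTheory

variable {k k' : ℝ}

theorem u0_cont : Continuous u0 := by unfold u0; fun_prop

theorem Sol.above_V0 (s : Sol k) (hk : 66 ≤ k) {t x : ℝ} (ht : 0 ≤ t)
    (hx : x ∈ Icc (0 : ℝ) 1) : x * u0 x ≤ s.V t x := by
  obtain ⟨L, hL0, hL, -⟩ := g_lip (k := k) (by linarith)
  have key : ∀ τ ∈ Icc 0 t, ∀ y ∈ Icc (0 : ℝ) 1, y * u0 y - s.V τ y ≤ 0 := by
    apply maxp (C := L) (fun τ y => y * u0 y - s.V τ y)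
    · have h1 : Continuous fun z : ℝ × ℝ => z.2 * u0 z.2 :=
        continuous_snd.mul (u0_cont.comp continuous_snd)
      exact (h1.sub s.cV).continuousOn
    · intro y hy
      have hy' : y ∈ Icc (-1 : ℝ) 1 := ⟨by linarith [hy.1], hy.2⟩
      rw [s.VP, s.init y hy', sub_self]
    · intro τ _; simp [s.V_zero]
    · intro τ _; simp [s.bd, u0_one]
    · intro τ hτ y hy hpos
      have hy' : y ∈ Icc (-1 : ℝ) 1 := ⟨by linarith [hy.1], hy.2.le⟩
      have hy01 : y ∈ Icc (0 : ℝ) 1 := ⟨hy.1.le, hy.2.le⟩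
      refine ⟨_, fun z => (u0 z + z * du0 z) - s.V1 τ z, _, (s.tV τ hτ.1 y hy').const_sub (y * u0 y),
        Eventually.of_forall fun z => (v0_deriv z).sub (s.dV τ z),
        (v0_deriv2 y).sub (s.dV1 τ y), fun _ => ?_⟩
      have e1 := s.VP τ y
      have hPP : s.P τ y < u0 y := by
        by_contra hcon
        push Not at hcon
        nlinarith [mul_le_mul_of_nonneg_left hcon hy.1.le]
      have h1 := hL (u0 y) (s.P τ y)
      rw [abs_of_pos (sub_pos.2 hPP)] at h1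
      have h2 := (abs_le.1 h1).2
      have hu := u0_nonneg hy'
      rw [g_eq (k := k) (u := u0 y) (by linarith)
        (by rw [abs_of_nonneg hu]; linarith [u0_le hy'])] at h2
      have h3 := v0_sub hy01
      nlinarith [mul_le_mul_of_nonneg_left h2 hy.1.le, mul_nonneg hy.1.le hu]
  have := key t ⟨ht, le_rfl⟩ x hx
  linarith

theorem Sol.mono_t (s : Sol k) (hk : 66 ≤ k) {t t' x : ℝ} (ht : 0 ≤ t) (htt : t ≤ t')
    (hx : x ∈ Icc (0 : ℝ) 1) : s.P t x ≤ s.P t' x := by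
  obtain ⟨L, hL0, hL, -⟩ := g_lip (k := k) (by linarith)
  set h : ℝ := t' - t with hh
  have h0 : 0 ≤ h := by linarith
  have key : ∀ τ ∈ Icc 0 t, ∀ y ∈ Icc (0 : ℝ) 1, s.V τ y - s.V (τ + h) y ≤ 0 := by
    apply maxp (C := L) (fun τ y => s.V τ y - s.V (τ + h) y)
    · have h1 : Continuous fun z : ℝ × ℝ => s.V (z.1 + h) z.2 :=
        s.cV.comp (by fun_prop : Continuous fun z : ℝ × ℝ => (z.1 + h, z.2))
      exact (s.cV.sub h1).continuousOn
    · intro y hy
      have hy' : y ∈ Icc (-1 : ℝ) 1 := ⟨by linarith [hy.1], hy.2⟩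
      have := s.above_V0 hk (t := 0 + h) (by linarith) hy
      rw [s.VP 0 y, s.init y hy']
      linarith
    · intro τ _; simp [s.V_zero]
    · intro τ _; simp [s.bd]
    · intro τ hτ y hy hpos
      have hy' : y ∈ Icc (-1 : ℝ) 1 := ⟨by linarith [hy.1], hy.2.le⟩
      have hy01 : y ∈ Icc (0 : ℝ) 1 := ⟨hy.1.le, hy.2.le⟩
      have hτh : 0 < τ + h := by linarith [hτ.1]
      have hd := (s.tV (τ + h) hτh y hy').comp_add_const τ h
      refine ⟨_, fun z => s.V1 τ z - s.V1 (τ + h) z, _, (s.tV τ hτ.1 y hy').sub hd,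
        Eventually.of_forall fun z => (s.dV τ z).sub (s.dV (τ + h) z),
        (s.dV1 τ y).sub (s.dV1 (τ + h) y), fun _ => ?_⟩
      have e1 := s.VP τ y
      have e2 := s.VP (τ + h) y
      have hPP : s.P (τ + h) y < s.P τ y := by
        by_contra hcon
        push Not at hcon
        nlinarith [mul_le_mul_of_nonneg_left hcon hy.1.le]
      have h1 := hL (s.P τ y) (s.P (τ + h) y)
      rw [abs_of_pos (sub_pos.2 hPP)] at h1
      have h2 := (abs_le.1 h1).2
      nlinarith [mul_le_mul_of_nonneg_left h2 hy.1.le]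
  have h2 : ∀ y ∈ Icc (0 : ℝ) 1, y * s.P t y ≤ y * s.P t' y := by
    intro y hy
    have := key t ⟨ht, le_rfl⟩ y hy
    rw [s.VP, s.VP, show t + h = t' by rw [hh]; ring] at this
    linarith
  exact le_of_mul_x (s.contP t) (s.contP t') h2 x hx

theorem Sol.growth (s : Sol k) (hk : 66 ≤ k) {t x : ℝ} (ht : t ∈ Icc (0 : ℝ) 1)
    (hx : x ∈ Icc (0 : ℝ) 1) : (1 + t) * u0 x ≤ s.P t x := by
  obtain ⟨L, hL0, hL, -⟩ := g_lip (k := k) (by linarith)
  have key : ∀ τ ∈ Icc (0 : ℝ) 1, ∀ y ∈ Icc (0 : ℝ) 1, (1 + τ) * (y * u0 y) - s.V τ y ≤ 0 := by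
    apply maxp (C := L) (fun τ y => (1 + τ) * (y * u0 y) - s.V τ y)
    · have h1 : Continuous fun z : ℝ × ℝ => (1 + z.1) * (z.2 * u0 z.2) :=
        (by fun_prop : Continuous fun z : ℝ × ℝ => 1 + z.1).mul
          (continuous_snd.mul (u0_cont.comp continuous_snd))
      exact (h1.sub s.cV).continuousOn
    · intro y hy
      have hy' : y ∈ Icc (-1 : ℝ) 1 := ⟨by linarith [hy.1], hy.2⟩
      rw [s.VP, s.init y hy']; simp
    · intro τ _; simp [s.V_zero]
    · intro τ _; simp [s.bd, u0_one]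
    · intro τ hτ y hy hpos
      have hy' : y ∈ Icc (-1 : ℝ) 1 := ⟨by linarith [hy.1], hy.2.le⟩
      have hy01 : y ∈ Icc (0 : ℝ) 1 := ⟨hy.1.le, hy.2.le⟩
      have hdt : HasDerivAt (fun σ : ℝ => (1 + σ) * (y * u0 y)) (y * u0 y) τ := by
        have := ((hasDerivAt_id τ).const_add 1).mul_const (y * u0 y)
        simpa using this
      refine ⟨_, fun z => (1 + τ) * (u0 z + z * du0 z) - s.V1 τ z, _,
        hdt.sub (s.tV τ hτ.1 y hy'),
        Eventually.of_forall fun z => ((v0_deriv z).const_mul (1 + τ)).sub (s.dV τ z),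
        ((v0_deriv2 y).const_mul (1 + τ)).sub (s.dV1 τ y), fun _ => ?_⟩
      have e1 := s.VP τ y
      have hu := u0_nonneg hy'
      have hτ0 : 0 ≤ 1 + τ := by linarith [hτ.1]
      have hPP : s.P τ y < (1 + τ) * u0 y := by
        by_contra hcon
        push Not at hcon
        nlinarith [mul_le_mul_of_nonneg_left hcon hy.1.le]
      have h1 := hL ((1 + τ) * u0 y) (s.P τ y)
      rw [abs_of_pos (sub_pos.2 hPP)] at h1
      have h2 := (abs_le.1 h1).2
      have hle : (1 + τ) * u0 y ≤ 66 := by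
        nlinarith [u0_le hy', hτ.2, mul_nonneg hτ.1.le hu]
      rw [g_eq (k := k) (u := (1 + τ) * u0 y) (by linarith)
        (by rw [abs_of_nonneg (mul_nonneg hτ0 hu)]; linarith), mul_pow] at h2
      have h3 := v0_sub hy01
      have h4 : 1 + τ ≤ (1 + τ) ^ 9 := by
        have : (1 + τ) ^ 1 ≤ (1 + τ) ^ 9 := pow_le_pow_right₀ (by linarith [hτ.1]) (by norm_num)
        simpa using this
      have h5 : (1 + τ) * u0 y ^ 9 ≤ (1 + τ) ^ 9 * u0 y ^ 9 :=
        mul_le_mul_of_nonneg_right h4 (pow_nonneg hu 9)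
      have h6 := mul_le_mul_of_nonneg_left h3 hτ0
      have h7 := mul_le_mul_of_nonneg_left h5 hy.1.le
      have h8 := mul_le_mul_of_nonneg_left h2 hy.1.le
      have h9 : 0 ≤ τ * (y * u0 y) := mul_nonneg hτ.1.le (mul_nonneg hy.1.le hu)
      nlinarith [h6, h7, h8, h9]
  have h2 : ∀ y ∈ Icc (0 : ℝ) 1, y * ((1 + t) * u0 y) ≤ y * s.P t y := by
    intro y hy
    have := key t ht y hy
    rw [s.VP] at this
    linarith
  exact le_of_mul_x (u0_cont.const_mul (1 + t)) (s.contP t) h2 x hx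

theorem Sol.short (s : Sol k) (hk : 66 ≤ k) {t x : ℝ} (ht : t ∈ Icc (0 : ℝ) ((34 : ℝ) ^ 9)⁻¹)
    (hx : x ∈ Icc (0 : ℝ) 1) : s.P t x ≤ 34 := by
  obtain ⟨L, hL0, hL, -⟩ := g_lip (k := k) (by linarith)
  have hm : ∀ τ ∈ Icc (0 : ℝ) ((34 : ℝ) ^ 9)⁻¹, 33 + 34 ^ 9 * τ ≤ 34 := by
    intro τ hτ
    have h1 : (34 : ℝ) ^ 9 * τ ≤ 34 ^ 9 * ((34 : ℝ) ^ 9)⁻¹ :=
      mul_le_mul_of_nonneg_left hτ.2 (by positivity)
    rw [mul_inv_cancel₀ (by positivity)] at h1
    linarith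
  have key : ∀ τ ∈ Icc (0 : ℝ) ((34 : ℝ) ^ 9)⁻¹, ∀ y ∈ Icc (0 : ℝ) 1,
      s.V τ y - y * (33 + 34 ^ 9 * τ) ≤ 0 := by
    apply maxp (C := L) (fun τ y => s.V τ y - y * (33 + 34 ^ 9 * τ))
    · have h1 : Continuous fun z : ℝ × ℝ => z.2 * (33 + 34 ^ 9 * z.1) := by fun_prop
      exact (s.cV.sub h1).continuousOn
    · intro y hy
      have hy' : y ∈ Icc (-1 : ℝ) 1 := ⟨by linarith [hy.1], hy.2⟩
      rw [s.VP, s.init y hy']
      nlinarith [mul_le_mul_of_nonneg_left (u0_le hy') hy.1]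
    · intro τ _; simp [s.V_zero]
    · intro τ hτ
      rw [s.bd]
      have : 0 ≤ (34 : ℝ) ^ 9 * τ := mul_nonneg (by positivity) hτ.1
      linarith
    · intro τ hτ y hy hpos
      have hy' : y ∈ Icc (-1 : ℝ) 1 := ⟨by linarith [hy.1], hy.2.le⟩
      have hdt : HasDerivAt (fun σ : ℝ => y * (33 + 34 ^ 9 * σ)) (y * 34 ^ 9) τ := by
        have := (((hasDerivAt_id τ).const_mul ((34 : ℝ) ^ 9)).const_add 33).const_mul y
        simpa using this
      have hdx : ∀ z, HasDerivAt (fun w : ℝ => w * (33 + 34 ^ 9 * τ)) (33 + 34 ^ 9 * τ) z := by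
        intro z
        have := (hasDerivAt_id z).mul_const (33 + 34 ^ 9 * τ)
        simpa using this
      refine ⟨_, fun z => s.V1 τ z - (33 + 34 ^ 9 * τ), s.V2 τ y,
        (s.tV τ hτ.1 y hy').sub hdt,
        Eventually.of_forall fun z => (s.dV τ z).sub (hdx z),
        (s.dV1 τ y).sub_const _, fun _ => ?_⟩
      have e1 := s.VP τ y
      set m : ℝ := 33 + 34 ^ 9 * τ with hmdef
      have hm34 : m ≤ 34 := hm τ ⟨hτ.1.le, hτ.2⟩
      have hm0 : 0 ≤ m := by
        have : 0 ≤ (34 : ℝ) ^ 9 * τ := mul_nonneg (by positivity) hτ.1.le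
        rw [hmdef]; linarith
      have hPP : m < s.P τ y := by
        by_contra hcon
        push Not at hcon
        nlinarith [mul_le_mul_of_nonneg_left hcon hy.1.le]
      have h1 := hL (s.P τ y) m
      rw [abs_of_pos (sub_pos.2 hPP)] at h1
      have h2 := (abs_le.1 h1).2
      rw [g_eq (k := k) (u := m) (by linarith) (by rw [abs_of_nonneg hm0]; linarith)] at h2
      have h3 : m ^ 9 ≤ 34 ^ 9 := pow_le_pow_left₀ hm0 hm34 9
      have h4 : g k (s.P τ y) - 34 ^ 9 ≤ L * (s.P τ y - m) := by linarith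
      have h5 := mul_le_mul_of_nonneg_left h4 hy.1.le
      nlinarith [h5]
  have h2 : ∀ y ∈ Icc (0 : ℝ) 1, y * s.P t y ≤ y * 34 := by
    intro y hy
    have := key t ht y hy
    rw [s.VP] at this
    nlinarith [mul_le_mul_of_nonneg_left (hm t ht) hy.1]
  exact le_of_mul_x (s.contP t) continuous_const h2 x hx

end LE
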