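import Pool.Agent.H6.LE.Comp2

/-! Comparison III. -/

namespace LE
open Set Filter Topology MeasureTheory

variable {k k' : ℝ}

theorem Sol.P_one (s : Sol k) (t : ℝ) : s.P t 1 = 0 := by
  have h1 := s.VP t 1
  rw [s.bd t, one_mul] at h1
  exact h1.symm

theorem Sol.P1_zero (s : Sol k) (t : ℝ) : s.P1 t 0 = 0 := by
  have h1 : HasDerivAt (fun x => s.P t (-x)) (-(s.P1 t 0)) 0 := by
    have h2 : HasDerivAt (s.P t) (s.P1 t 0) (-(0 : ℝ)) := by
      rw [neg_zero]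
      exact s.dP t 0
    have h3 := h2.comp (0 : ℝ) (hasDerivAt_neg (0 : ℝ))
    have e : s.P1 t 0 * -1 = -(s.P1 t 0) := by ring
    rw [e] at h3
    exact h3
  have h2 : (fun x => s.P t (-x)) = s.P t := funext fun x => s.even t x
  rw [h2] at h1
  have h3 := h1.unique (s.dP t 0)
  linarith

theorem Sol.P1_init (s : Sol k) {x : ℝ} (hx : x ∈ Icc (-1 : ℝ) 1) : s.P1 0 x = du0 x := by
  have h1 : HasDerivWithinAt u0 (s.P1 0 x) (Icc (-1) 1) x :=
    ((s.dP 0 x).hasDerivWithinAt (s := Icc (-1 : ℝ) 1)).congr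
      (fun y hy => (s.init y hy).symm) (s.init x hx).symm
  exact (uniqueDiffOn_Icc (by norm_num : (-1 : ℝ) < 1) x hx).eq_deriv _ h1
    (u0_deriv x).hasDerivWithinAt

theorem Sol.le_P (s : Sol k) (hk : 66 ≤ k) {t x : ℝ} (ht : 0 ≤ t) (hx : x ∈ Icc (0 : ℝ) 1) :
    u0 x ≤ s.P t x := by
  rw [← s.init x ⟨by linarith [hx.1], hx.2⟩]
  exact s.mono_t hk le_rfl ht hx

theorem Sol.endslope (s : Sol k) (hk : 66 ≤ k) {t : ℝ} (ht : 0 ≤ t) : s.V1 t 1 ≤ -24 := by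
  have h1 : HasDerivAt (fun x => s.V t x - x * u0 x) (s.V1 t 1 - (u0 1 + 1 * du0 1)) 1 :=
    (s.dV t 1).sub (v0_deriv 1)
  have h2 := (hasDerivAt_iff_tendsto_slope.1 h1).mono_left
    (nhdsWithin_mono (1 : ℝ) (fun y (hy : y ∈ Iio (1 : ℝ)) => ne_of_lt hy))
  have h3 : s.V1 t 1 - (u0 1 + 1 * du0 1) ≤ 0 := by
    apply le_of_tendsto h2
    have h4 : Ioo (0 : ℝ) 1 ∈ 𝓝[Iio 1] (1 : ℝ) := Ioo_mem_nhdsLT (by norm_num)
    filter_upwards [h4] with y hy
    rw [slope_def_field, s.bd t, u0_one]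
    have h5 : 0 ≤ s.V t y - y * u0 y := by
      rw [s.VP t y]
      have := s.le_P hk ht ⟨hy.1.le, hy.2.le⟩
      have := mul_le_mul_of_nonneg_left this hy.1.le
      linarith
    apply div_nonpos_of_nonneg_of_nonpos
    · linarith
    · linarith [hy.2]
  have h4 : du0 1 = -24 := by
    unfold du0
    norm_num
  rw [u0_one, h4] at h3
  linarith

theorem Sol.P1_one (s : Sol k) (hk : 66 ≤ k) {t : ℝ} (ht : 0 ≤ t) : s.P1 t 1 ≤ -24 := by
  have h1 := s.V1P t 1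
  have h2 := s.endslope hk ht
  rw [s.P_one t] at h1
  linarith

/-- The derivative of `P2` in `x`. -/
theorem Sol.dP2 (s : Sol k) (t : ℝ) {x : ℝ} (hx : 0 < x) :
    HasDerivAt (s.P2 t) ((s.V3 t x - 3 * s.P2 t x) / x) x := by
  have h1 : HasDerivAt (fun y => (s.V2 t y - 2 * s.P1 t y) / y)
      (((s.V3 t x - 2 * s.P2 t x) * x - (s.V2 t x - 2 * s.P1 t x) * 1) / x ^ 2) x :=
    ((s.dV2 t x).sub ((s.dP1 t x).const_mul 2)).div (hasDerivAt_id x) hx.ne'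
  have h2 : (((s.V3 t x - 2 * s.P2 t x) * x - (s.V2 t x - 2 * s.P1 t x) * 1) / x ^ 2) =
      (s.V3 t x - 3 * s.P2 t x) / x := by
    rw [s.V2P t x]
    field_simp
    ring
  rw [h2] at h1
  apply h1.congr_of_eventuallyEq
  filter_upwards [lt_mem_nhds hx] with y hy
  rw [s.V2P t y]
  field_simp
  ring

/-- The derivative of `P1` in `t`. -/
theorem Sol.tP1 (s : Sol k) {t x : ℝ} (ht : 0 < t) (hx : x ∈ Ioo (0 : ℝ) 1) :
    HasDerivAt (fun r => s.P1 r x)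
      (s.V3 t x / x - s.V2 t x / x ^ 2 + deriv (g k) (s.P t x) * s.P1 t x) t := by
  have h1 := ((s.tV1 t ht x ⟨by linarith [hx.1], hx.2⟩).sub (s.tP t ht x)).div_const x
  have h2 : (fun r => s.P1 r x) = fun r => (s.V1 r x - s.P r x) / x := by
    funext r
    rw [s.V1P r x]
    field_simp [hx.1.ne']
    ring
  have h3 := s.PtV t ht.le x ⟨by linarith [hx.1], hx.2.le⟩
  rw [h2]
  refine h1.congr_deriv ?_
  have h4 : s.Pt t x = (s.V2 t x + x * g k (s.P t x)) / x := by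
    rw [← h3]
    field_simp [hx.1.ne']
  rw [h4, s.V1P t x]
  have := hx.1.ne'
  field_simp
  ring

theorem Sol.radial (s : Sol k) (hk : 66 ≤ k) {t x : ℝ} (ht : 0 ≤ t) (hx : x ∈ Icc (0 : ℝ) 1) :
    s.P1 t x ≤ 0 := by
  obtain ⟨L, hL0, _, hL, _, _⟩ := g_lip (by linarith : 0 < k)
  refine maxp (T := t) (C := L) s.P1 s.cP1.continuousOn ?_ ?_ ?_ ?_ t ⟨ht, le_rfl⟩ x hx
  · intro x hx
    rw [s.P1_init ⟨by linarith [hx.1], hx.2⟩]
    have := du0_le hx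
    linarith [hx.1]
  · intro t _
    rw [s.P1_zero]
  · intro t ht
    have := s.P1_one hk ht.1
    linarith
  · intro t ht x hx hZ
    refine ⟨_, _, _, s.tP1 ht.1 hx, Eventually.of_forall (s.dP1 t), s.dP2 t hx.1, ?_⟩
    intro h2
    have h3 := s.V2P t x
    rw [h2] at h3 ⊢
    have h4 := (abs_le.1 (hL (s.P t x))).2
    have h5 : s.V2 t x / x ^ 2 = 2 * s.P1 t x / x ^ 2 := by rw [h3]; ring
    have h6 : 0 ≤ 2 * s.P1 t x / x ^ 2 := by positivity
    have h7 : deriv (g k) (s.P t x) * s.P1 t x ≤ L * s.P1 t x := by gcongr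
    have h8 : (s.V3 t x - 3 * 0) / x = s.V3 t x / x := by ring
    rw [h5, h8]
    linarith

theorem Sol.anti (s : Sol k) (hk : 66 ≤ k) {t x y : ℝ} (ht : 0 ≤ t) (hx : 0 ≤ x) (hxy : x ≤ y)
    (hy : y ≤ 1) : s.P t y ≤ s.P t x := by
  have h1 : AntitoneOn (s.P t) (Icc 0 1) := by
    apply antitoneOn_of_deriv_nonpos (convex_Icc 0 1)
    · exact fun z _ => (s.dP t z).continuousAt.continuousWithinAt
    · exact fun z _ => (s.dP t z).differentiableAt.differentiableWithinAt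
    · intro z hz
      rw [interior_Icc] at hz
      rw [(s.dP t z).deriv]
      exact s.radial hk ht ⟨hz.1.le, hz.2.le⟩
  exact h1 ⟨hx, hxy.trans hy⟩ ⟨hx.trans hxy, hy⟩ hxy

end LE
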