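import Pool.Agent.H6.LE.Defs

/-! Maximum principle in one space variable. -/

namespace LE
open Set Filter Topology MeasureTheory

/-- at an interior local maximum the second derivative is `≤ 0` -/
theorem second_le_zero {f z1 : ℝ → ℝ} {z2 x : ℝ} (hmax : IsLocalMax f x)
    (h1 : ∀ᶠ y in 𝓝 x, HasDerivAt f (z1 y) y) (h2 : HasDerivAt z1 z2 x) : z2 ≤ 0 := by
  by_contra hneg
  push Not at hneg
  have he : deriv f =ᶠ[𝓝 x] z1 := h1.mono fun y hy => hy.deriv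
  have hd2 : deriv (deriv f) x = z2 := by
    rw [he.deriv_eq]; exact h2.deriv
  have hfx : HasDerivAt f (z1 x) x := h1.self_of_nhds
  have hz : z1 x = 0 := hmax.hasDerivAt_eq_zero hfx
  have hmin : IsLocalMin f x :=
    isLocalMin_of_deriv_deriv_pos (by rw [hd2]; exact hneg) (by rw [hfx.deriv, hz])
      hfx.continuousAt
  have hconst : ∀ᶠ y in 𝓝 x, f y = f x := by
    filter_upwards [hmax, hmin] with y ha hb
    exact le_antisymm ha hb
  have hz0 : ∀ᶠ y in 𝓝 x, z1 y = 0 := by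
    filter_upwards [h1, hconst.eventually_nhds] with y hy hc
    have : HasDerivAt f 0 y := (hasDerivAt_const y (f x)).congr_of_eventuallyEq hc
    exact hy.unique this
  have : HasDerivAt z1 0 x := (hasDerivAt_const x (0 : ℝ)).congr_of_eventuallyEq hz0
  exact absurd (h2.unique this) hneg.ne'

/-- left derivative at a maximum from the left is `≥ 0` -/
theorem left_deriv_nonneg {f : ℝ → ℝ} {d t a : ℝ} (hd : HasDerivAt f d t) (ha : a < t)
    (hm : ∀ s ∈ Icc a t, f s ≤ f t) : 0 ≤ d := by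
  have h := hd.hasDerivWithinAt (s := Iio t)
  rw [hasDerivWithinAt_iff_tendsto_slope' (by simp)] at h
  refine ge_of_tendsto h ?_
  have : Ioo a t ∈ 𝓝[<] t := Ioo_mem_nhdsLT ha
  filter_upwards [this] with s hs
  rw [slope_def_field]
  exact div_nonneg_of_nonpos (by linarith [hm s ⟨hs.1.le, hs.2.le⟩]) (by linarith [hs.2])

theorem maxp {T C : ℝ} (Z : ℝ → ℝ → ℝ)
    (hc : ContinuousOn (fun z : ℝ × ℝ => Z z.1 z.2) (Icc 0 T ×ˢ Icc 0 1))
    (h0 : ∀ x ∈ Icc (0 : ℝ) 1, Z 0 x ≤ 0) (hl : ∀ t ∈ Icc 0 T, Z t 0 ≤ 0)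
    (hr : ∀ t ∈ Icc 0 T, Z t 1 ≤ 0)
    (hp : ∀ t ∈ Ioc 0 T, ∀ x ∈ Ioo (0 : ℝ) 1, 0 < Z t x →
      ∃ (zt : ℝ) (z1 : ℝ → ℝ) (z2 : ℝ), HasDerivAt (fun s => Z s x) zt t ∧
        (∀ᶠ y in 𝓝 x, HasDerivAt (Z t) (z1 y) y) ∧ HasDerivAt z1 z2 x ∧
        (z1 x = 0 → zt ≤ z2 + C * Z t x)) :
    ∀ t ∈ Icc 0 T, ∀ x ∈ Icc (0 : ℝ) 1, Z t x ≤ 0 := by
  intro t ht x hx
  set lam : ℝ := max C 0 + 1 with hlam
  have hlC : C < lam := by rw [hlam]; linarith [le_max_left C 0]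
  set W : ℝ × ℝ → ℝ := fun z => Real.exp (-lam * z.1) * Z z.1 z.2 with hW
  have hK : IsCompact (Icc 0 T ×ˢ Icc (0 : ℝ) 1) := isCompact_Icc.prod isCompact_Icc
  have hWc : ContinuousOn W (Icc 0 T ×ˢ Icc 0 1) := by
    apply ContinuousOn.mul _ hc
    exact (by fun_prop : Continuous fun z : ℝ × ℝ => Real.exp (-lam * z.1)).continuousOn
  obtain ⟨⟨t0, x0⟩, ⟨ht0, hx0⟩, hmax⟩ := hK.exists_isMaxOn ⟨(t, x), ⟨ht, hx⟩⟩ hWc
  have hmax' : ∀ s ∈ Icc 0 T, ∀ y ∈ Icc (0 : ℝ) 1, W (s, y) ≤ W (t0, x0) :=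
    fun s hs y hy => hmax (show (s, y) ∈ Icc 0 T ×ˢ Icc (0 : ℝ) 1 from ⟨hs, hy⟩)
  simp only at ht0 hx0
  by_contra hcon
  push Not at hcon
  have hpos : 0 < W (t0, x0) := lt_of_lt_of_le (mul_pos (Real.exp_pos _) hcon) (hmax' t ht x hx)
  have hZ : 0 < Z t0 x0 := (pos_iff_pos_of_mul_pos hpos).1 (Real.exp_pos _)
  have ht0' : 0 < t0 := by
    rcases ht0.1.lt_or_eq with h | h
    · exact h
    · rw [← h] at hZ; exact absurd (h0 x0 hx0) (not_le.2 hZ)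
  have hx0' : x0 ∈ Ioo (0 : ℝ) 1 := by
    constructor
    · rcases hx0.1.lt_or_eq with h | h
      · exact h
      · rw [← h] at hZ; exact absurd (hl t0 ht0) (not_le.2 hZ)
    · rcases hx0.2.lt_or_eq with h | h
      · exact h
      · rw [h] at hZ; exact absurd (hr t0 ht0) (not_le.2 hZ)
  obtain ⟨zt, z1, z2, hzt, hz1, hz2, himp⟩ := hp t0 ⟨ht0', ht0.2⟩ x0 hx0' hZ
  -- space
  have hlocal : IsLocalMax (Z t0) x0 := by
    filter_upwards [Icc_mem_nhds hx0'.1 hx0'.2] with y hy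
    have := hmax' t0 ht0 y hy
    exact le_of_mul_le_mul_left this (Real.exp_pos _)
  have hz1x : z1 x0 = 0 := hlocal.hasDerivAt_eq_zero hz1.self_of_nhds
  have hz2' : z2 ≤ 0 := second_le_zero hlocal hz1 hz2
  -- time
  have hWt : HasDerivAt (fun s => Real.exp (-lam * s) * Z s x0)
      (Real.exp (-lam * t0) * (-lam) * Z t0 x0 + Real.exp (-lam * t0) * zt) t0 := by
    have he : HasDerivAt (fun s : ℝ => Real.exp (-lam * s)) (Real.exp (-lam * t0) * (-lam)) t0 := by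
      have h := ((hasDerivAt_id t0).const_mul (-lam)).exp
      simpa using h
    exact he.mul hzt
  have hd := left_deriv_nonneg hWt ht0' (fun s hs =>
    hmax' s ⟨hs.1, hs.2.trans ht0.2⟩ x0 hx0)
  have hd2 : 0 ≤ Real.exp (-lam * t0) * (zt - lam * Z t0 x0) := by nlinarith [hd]
  have hzt' : lam * Z t0 x0 ≤ zt := by
    have := (mul_nonneg_iff_of_pos_left (Real.exp_pos (-lam * t0))).1 hd2
    linarith
  have := himp hz1x
  nlinarith [mul_pos (sub_pos.2 hlC) hZ]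

end LE
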