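import Pool.Agent.H6.LE.Rad
import Pool.Agent.H6.LE.MaxP

/-! Comparison principle in the punctured unit ball of `ℝ³` (module J). -/

namespace LE
open Set Filter Topology MeasureTheory Laplacian

/-- at a local maximum the Laplacian is `≤ 0` -/
theorem lap_nonpos {f : E3 → ℝ} {x : E3} (h2 : ContDiffAt ℝ 2 f x) (hmax : IsLocalMax f x) :
    Δ f x ≤ 0 := by
  rw [InnerProductSpace.laplacian_eq_iteratedFDeriv_stdOrthonormalBasis]
  refine Finset.sum_nonpos fun i _ => ?_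
  rw [iteratedFDeriv_two_apply]
  have hl : ∀ s : ℝ, HasDerivAt (fun s : ℝ => x + s • stdOrthonormalBasis ℝ E3 i)
      (stdOrthonormalBasis ℝ E3 i) s := by
    intro s
    simpa using ((hasDerivAt_id s).smul_const (stdOrthonormalBasis ℝ E3 i)).const_add x
  have hcont : Tendsto (fun s : ℝ => x + s • stdOrthonormalBasis ℝ E3 i) (𝓝 0) (𝓝 x) := by
    have := (hl 0).continuousAt.tendsto
    simpa using this
  have hd1 : ∀ᶠ y in 𝓝 x, HasFDerivAt f (fderiv ℝ f y) y := by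
    filter_upwards [h2.eventually (by simp)] with y hy
    exact (hy.differentiableAt (by norm_num)).hasFDerivAt
  have hd2 : HasFDerivAt (fderiv ℝ f) (fderiv ℝ (fderiv ℝ f) x) x := by
    have : ContDiffAt ℝ 1 (fderiv ℝ f) x := h2.fderiv_right (by norm_num)
    exact (this.differentiableAt (by norm_num)).hasFDerivAt
  refine second_le_zero (f := fun s : ℝ => f (x + s • stdOrthonormalBasis ℝ E3 i))
    (z1 := fun s => fderiv ℝ f (x + s • stdOrthonormalBasis ℝ E3 i) (stdOrthonormalBasis ℝ E3 i))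
    (x := 0) ?_ ?_ ?_
  · filter_upwards [hcont.eventually hmax] with s hs
    simpa using hs
  · filter_upwards [hcont.eventually hd1] with s hs
    exact hs.comp_hasDerivAt s (hl s)
  · have h0 : x + (0 : ℝ) • stdOrthonormalBasis ℝ E3 i = x := by simp
    have h3 : HasFDerivAt (fderiv ℝ f) (fderiv ℝ (fderiv ℝ f) x)
        (x + (0 : ℝ) • stdOrthonormalBasis ℝ E3 i) := by rw [h0]; exact hd2
    have h4 := h3.comp_hasDerivAt 0 (hl 0)
    have h5 := h4.clm_apply (hasDerivAt_const (0 : ℝ) (stdOrthonormalBasis ℝ E3 i))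
    simpa using h5

/-- `1 / |x|` is harmonic away from `0` in `ℝ³` -/
theorem inv_norm {x : E3} (hx : x ≠ 0) :
    ContDiffAt ℝ 2 (fun y : E3 => ‖y‖⁻¹) x ∧ Δ (fun y : E3 => ‖y‖⁻¹) x = 0 := by
  have hx' : ‖x‖ ≠ 0 := norm_ne_zero_iff.2 hx
  have hne : ∀ᶠ r : ℝ in 𝓝 ‖x‖, r ≠ 0 := isOpen_ne.mem_nhds hx'
  have h := rad_punct (P := fun r => r⁻¹) (P1 := fun r => -(r ^ 2)⁻¹)
    (P2 := fun r => 2 * (r ^ 3)⁻¹) hx
    (by filter_upwards [hne] with r hr using hasDerivAt_inv hr)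
    (by
      filter_upwards [hne] with r hr
      have h1 : HasDerivAt (fun y : ℝ => y ^ 2) (2 * r) r := by simpa using hasDerivAt_pow 2 r
      have h2 : HasDerivAt (fun y : ℝ => -(y ^ 2)⁻¹) (-(-(2 * r) / (r ^ 2) ^ 2)) r :=
        (h1.fun_inv (pow_ne_zero 2 hr)).fun_neg
      have e : -(-(2 * r) / (r ^ 2) ^ 2) = 2 * (r ^ 3)⁻¹ := by field_simp
      rwa [e] at h2)
    (by
      filter_upwards [hne] with r hr
      have h1 : ContinuousAt (fun y : ℝ => y ^ 3) r := (continuous_pow 3).continuousAt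
      exact continuousAt_const.mul (h1.inv₀ (pow_ne_zero 3 hr)))
  refine ⟨h.1, ?_⟩
  rw [h.2]
  field_simp
  ring

theorem comp3 {T K : ℝ} (a b : ℝ → E3 → ℝ)
    (ha : ContinuousOn (fun z : ℝ × E3 => a z.1 z.2) (Icc 0 T ×ˢ Metric.closedBall 0 1))
    (hb : ContinuousOn (fun z : ℝ × E3 => b z.1 z.2) (Icc 0 T ×ˢ Metric.closedBall 0 1))
    (h0 : ∀ x ∈ Metric.closedBall (0 : E3) 1, a 0 x ≤ b 0 x)
    (hS : ∀ t ∈ Icc 0 T, ∀ x ∈ Metric.sphere (0 : E3) 1, a t x ≤ b t x)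
    (hd : ∀ t ∈ Ioc 0 T, ∀ x ∈ Metric.ball (0 : E3) 1, x ≠ 0 → b t x < a t x →
      ContDiffAt ℝ 2 (a t) x ∧ ContDiffAt ℝ 2 (b t) x ∧ ∃ a' b' : ℝ,
        HasDerivAt (fun s => a s x) a' t ∧ HasDerivAt (fun s => b s x) b' t ∧
        a' - Δ (a t) x - (b' - Δ (b t) x) ≤ K * (a t x - b t x)) :
    ∀ t ∈ Icc 0 T, ∀ x ∈ Metric.closedBall (0 : E3) 1, a t x ≤ b t x := by
  have hK : IsCompact (Icc 0 T ×ˢ Metric.closedBall (0 : E3) 1) :=
    isCompact_Icc.prod (isCompact_closedBall 0 1)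
  have hab : ContinuousOn (fun z : ℝ × E3 => a z.1 z.2 - b z.1 z.2)
      (Icc 0 T ×ˢ Metric.closedBall 0 1) := ha.sub hb
  obtain ⟨C, hC⟩ := hK.exists_bound_of_continuousOn hab
  have key : ∀ t ∈ Icc 0 T, ∀ x ∈ Metric.closedBall (0 : E3) 1, x ≠ 0 → a t x ≤ b t x := by
    intro t0 ht0 x0 hx0 hx00
    by_contra hcon
    push Not at hcon
    obtain ⟨L, hL, hLK⟩ : ∃ L : ℝ, 0 < L ∧ K < L :=
      ⟨|K| + 1, by positivity, by linarith [le_abs_self K]⟩
    obtain ⟨g, hg⟩ : ∃ g : ℝ × E3 → ℝ,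
        g = fun z => Real.exp (-L * z.1) * (a z.1 z.2 - b z.1 z.2) := ⟨_, rfl⟩
    have hn0 : 0 < ‖x0‖ := norm_pos_iff.2 hx00
    have hg0 : 0 < g (t0, x0) := by
      rw [hg]
      exact mul_pos (Real.exp_pos _) (sub_pos.2 hcon)
    obtain ⟨ε, hεd⟩ : ∃ ε : ℝ, ε = g (t0, x0) * ‖x0‖ / 2 := ⟨_, rfl⟩
    have hε : 0 < ε := by rw [hεd]; positivity
    have hC0 : 0 ≤ C := le_trans (norm_nonneg _) (hC (t0, x0) ⟨ht0, hx0⟩)
    obtain ⟨δ, hδd⟩ : ∃ δ : ℝ, δ = ε / (C + 1) := ⟨_, rfl⟩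
    have hδ : 0 < δ := by rw [hδd]; positivity
    obtain ⟨Z, hZd⟩ : ∃ Z : ℝ × E3 → ℝ, Z = fun z => g z - ε * ‖z.2‖⁻¹ := ⟨_, rfl⟩
    have hZ0 : 0 < Z (t0, x0) := by
      have : Z (t0, x0) = g (t0, x0) / 2 := by
        rw [hZd, hεd]
        field_simp
        ring
      rw [this]
      positivity
    have hgC : ∀ t ∈ Icc 0 T, ∀ x ∈ Metric.closedBall (0 : E3) 1, g (t, x) ≤ C := by
      intro t ht x hx
      have h1 := hC (t, x) ⟨ht, hx⟩
      rw [Real.norm_eq_abs] at h1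
      have h2 : Real.exp (-L * t) ≤ 1 := by
        rw [Real.exp_le_one_iff]
        nlinarith [ht.1]
      have h3 : g (t, x) = Real.exp (-L * t) * (a t x - b t x) := by rw [hg]
      have h4 := le_abs_self (a t x - b t x)
      rw [h3]
      calc Real.exp (-L * t) * (a t x - b t x) ≤ Real.exp (-L * t) * |a t x - b t x| :=
            mul_le_mul_of_nonneg_left h4 (Real.exp_pos _).le
        _ ≤ 1 * |a t x - b t x| := mul_le_mul_of_nonneg_right h2 (abs_nonneg _)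
        _ ≤ C := by rw [one_mul]; exact h1
    have hsmall : ∀ t ∈ Icc 0 T, ∀ x ∈ Metric.closedBall (0 : E3) 1, 0 < ‖x‖ → ‖x‖ ≤ δ →
        Z (t, x) < 0 := by
      intro t ht x hx hx1 hx2
      have h1 := hgC t ht x hx
      have h2 : C + 1 ≤ ε * ‖x‖⁻¹ := by
        rw [hδd, le_div_iff₀ (by linarith)] at hx2
        rw [← div_eq_mul_inv, le_div_iff₀ hx1]
        linarith
      have h3 : Z (t, x) = g (t, x) - ε * ‖x‖⁻¹ := by rw [hZd]
      rw [h3]
      linarith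
    have hQ : IsCompact (Icc 0 T ×ˢ (Metric.closedBall (0 : E3) 1 ∩ {x | δ ≤ ‖x‖})) :=
      isCompact_Icc.prod ((isCompact_closedBall 0 1).inter_right
        (isClosed_le continuous_const continuous_norm))
    have hx0Q : (t0, x0) ∈ Icc 0 T ×ˢ (Metric.closedBall (0 : E3) 1 ∩ {x | δ ≤ ‖x‖}) := by
      refine ⟨ht0, hx0, ?_⟩
      by_contra h
      have h' : ‖x0‖ < δ := by simpa using h
      exact absurd (hsmall t0 ht0 x0 hx0 hn0 h'.le) (not_lt.2 hZ0.le)
    have hZc : ContinuousOn Z (Icc 0 T ×ˢ (Metric.closedBall (0 : E3) 1 ∩ {x | δ ≤ ‖x‖})) := by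
      have h1 : ContinuousOn g (Icc 0 T ×ˢ (Metric.closedBall (0 : E3) 1 ∩ {x | δ ≤ ‖x‖})) := by
        rw [hg]
        refine ContinuousOn.mul ?_ (hab.mono (prod_mono_right inter_subset_left))
        exact (by fun_prop : Continuous fun z : ℝ × E3 => Real.exp (-L * z.1)).continuousOn
      have h2 : ContinuousOn (fun z : ℝ × E3 => ‖z.2‖⁻¹)
          (Icc 0 T ×ˢ (Metric.closedBall (0 : E3) 1 ∩ {x | δ ≤ ‖x‖})) := by
        refine ContinuousOn.inv₀ (by fun_prop) ?_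
        rintro ⟨t, x⟩ ⟨_, _, hx⟩
        exact (lt_of_lt_of_le hδ hx).ne'
      rw [hZd]
      exact h1.sub (continuousOn_const.mul h2)
    obtain ⟨⟨t1, x1⟩, ⟨ht1, hx1, hd1⟩, hmax⟩ := hQ.exists_isMaxOn ⟨_, hx0Q⟩ hZc
    have hmax' : ∀ s ∈ Icc 0 T, ∀ y ∈ Metric.closedBall (0 : E3) 1, δ ≤ ‖y‖ →
        Z (s, y) ≤ Z (t1, x1) := fun s hs y hy hy' => hmax ⟨hs, hy, hy'⟩
    have hZ1 : 0 < Z (t1, x1) := lt_of_lt_of_le hZ0 (hmax hx0Q)
    change t1 ∈ Icc 0 T at ht1
    change x1 ∈ Metric.closedBall (0 : E3) 1 at hx1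
    change δ ≤ ‖x1‖ at hd1
    have hn1 : 0 < ‖x1‖ := lt_of_lt_of_le hδ hd1
    have hg1 : 0 < g (t1, x1) := by
      have h1 : 0 < ε * ‖x1‖⁻¹ := by positivity
      have h2 : Z (t1, x1) = g (t1, x1) - ε * ‖x1‖⁻¹ := by rw [hZd]
      linarith
    have hab1 : b t1 x1 < a t1 x1 := by
      by_contra h
      push Not at h
      have h1 : g (t1, x1) ≤ 0 := by
        rw [hg]
        exact mul_nonpos_of_nonneg_of_nonpos (Real.exp_pos _).le (sub_nonpos.2 h)
      linarith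
    have ht1' : t1 ∈ Ioc 0 T := by
      refine ⟨lt_of_le_of_ne ht1.1 ?_, ht1.2⟩
      intro h
      rw [← h] at hab1
      exact absurd (h0 x1 hx1) (not_le.2 hab1)
    have hx1' : ‖x1‖ < 1 := by
      refine lt_of_le_of_ne (by simpa using hx1) ?_
      intro h
      exact absurd (hS t1 ht1 x1 (by simpa using h)) (not_le.2 hab1)
    have hδ1 : δ < ‖x1‖ := by
      refine lt_of_le_of_ne hd1 ?_
      intro h
      exact absurd (hsmall t1 ht1 x1 hx1 hn1 h.ge) (not_lt.2 hZ1.le)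
    have hx10 : x1 ≠ 0 := norm_pos_iff.1 hn1
    obtain ⟨c2a, c2b, a', b', hda, hdb, hineq⟩ := hd t1 ht1' x1 (by simpa using hx1') hx10 hab1
    have hloc : IsLocalMax (fun y => Z (t1, y)) x1 := by
      have h1 : ∀ᶠ y : E3 in 𝓝 x1, ‖y‖ < 1 :=
        (continuous_norm.tendsto x1).eventually_lt_const hx1'
      have h2 : ∀ᶠ y : E3 in 𝓝 x1, δ < ‖y‖ :=
        (continuous_norm.tendsto x1).eventually_const_lt hδ1
      filter_upwards [h1, h2] with y hy1 hy2
      exact hmax' t1 ht1 y (by simpa using hy1.le) hy2.le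
    obtain ⟨c2n, hlapn⟩ := inv_norm hx10
    have e : (fun y => Z (t1, y)) =
        (Real.exp (-L * t1)) • (a t1 - b t1) - ε • (fun y : E3 => ‖y‖⁻¹) := by
      rw [hZd, hg]
      rfl
    have c2ab : ContDiffAt ℝ 2 (a t1 - b t1) x1 := c2a.sub c2b
    have c2l : ContDiffAt ℝ 2 ((Real.exp (-L * t1)) • (a t1 - b t1)) x1 :=
      ContDiffAt.const_smul (Real.exp (-L * t1)) c2ab
    have c2r : ContDiffAt ℝ 2 (ε • (fun y : E3 => ‖y‖⁻¹)) x1 := ContDiffAt.const_smul ε c2n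
    have hc : ContDiffAt ℝ 2 (fun y => Z (t1, y)) x1 := by
      rw [e]
      exact c2l.sub c2r
    have hlap : Δ (fun y => Z (t1, y)) x1 =
        Real.exp (-L * t1) * (Δ (a t1) x1 - Δ (b t1) x1) := by
      rw [e, ContDiffAt.laplacian_sub c2l c2r, InnerProductSpace.laplacian_smul _ c2ab,
        InnerProductSpace.laplacian_smul _ c2n, ContDiffAt.laplacian_sub c2a c2b, hlapn,
        smul_zero, sub_zero, smul_eq_mul]
    have hlap0 := lap_nonpos hc hloc
    rw [hlap] at hlap0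
    have hdt : HasDerivAt (fun s => Z (s, x1)) (Real.exp (-L * t1) * (-L) *
        (a t1 x1 - b t1 x1) + Real.exp (-L * t1) * (a' - b') - 0) t1 := by
      have h1 : HasDerivAt (fun s : ℝ => -L * s) (-L) t1 := by
        simpa using (hasDerivAt_id t1).const_mul (-L)
      have h2 := (h1.exp.mul (hda.sub hdb)).sub (hasDerivAt_const t1 (ε * ‖x1‖⁻¹))
      rw [hZd, hg]
      exact h2
    have htime := left_deriv_nonneg hdt ht1'.1
      (fun s hs => hmax' s ⟨hs.1, hs.2.trans ht1.2⟩ x1 hx1 hd1)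
    have hexp := Real.exp_pos (-L * t1)
    have h1 : Δ (a t1) x1 - Δ (b t1) x1 ≤ 0 := by
      by_contra h
      push Not at h
      have := mul_pos hexp h
      linarith
    have h2 : 0 ≤ -L * (a t1 x1 - b t1 x1) + (a' - b') := by
      by_contra h
      push Not at h
      have h3 := mul_neg_of_pos_of_neg hexp h
      have h4 : Real.exp (-L * t1) * (-L * (a t1 x1 - b t1 x1) + (a' - b')) =
        Real.exp (-L * t1) * (-L) * (a t1 x1 - b t1 x1) + Real.exp (-L * t1) * (a' - b') - 0 := by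
        ring
      linarith
    have h3 : 0 < a t1 x1 - b t1 x1 := sub_pos.2 hab1
    nlinarith
  intro t ht x hx
  by_cases hx0 : x = 0
  · subst hx0
    have hin : (0 : E3) ∈ closure (Metric.closedBall (0 : E3) 1 ∩ {x | x ≠ 0}) := by
      have h1 : Metric.ball (0 : E3) 1 ∩ {x | x ≠ 0} ⊆
        Metric.closedBall (0 : E3) 1 ∩ {x | x ≠ 0} :=
        inter_subset_inter_left _ Metric.ball_subset_closedBall
      refine closure_mono h1 ?_
      rw [Metric.mem_closure_iff]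
      intro ε hε
      obtain ⟨v, hv⟩ := exists_ne (0 : E3)
      have hvn : 0 < ‖v‖ := norm_pos_iff.2 hv
      set m : ℝ := min (ε / 2) (1 / 2) with hm
      have hmpos : 0 < m := lt_min (by linarith) (by norm_num)
      have hnorm : ‖(m / ‖v‖) • v‖ = m := by
        rw [norm_smul, Real.norm_eq_abs, abs_of_pos (by positivity)]
        field_simp
      refine ⟨(m / ‖v‖) • v, ⟨?_, ?_⟩, ?_⟩
      · rw [mem_ball_zero_iff, hnorm]
        exact lt_of_le_of_lt (min_le_right _ _) (by norm_num)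
      · intro h
        rw [h, norm_zero] at hnorm
        linarith
      · rw [dist_comm, dist_zero_right, hnorm]
        exact lt_of_le_of_lt (min_le_left _ _) (by linarith)
    have hca : ContinuousWithinAt (a t) (Metric.closedBall (0 : E3) 1 ∩ {x | x ≠ 0}) 0 := by
      have h1 := ha (t, 0) ⟨ht, hx⟩
      have h2 : ContinuousWithinAt (fun x : E3 => (t, x))
          (Metric.closedBall (0 : E3) 1 ∩ {x | x ≠ 0}) 0 :=
        (Continuous.prodMk_right t).continuousWithinAt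
      have h3 : MapsTo (fun x : E3 => (t, x)) (Metric.closedBall (0 : E3) 1 ∩ {x | x ≠ 0})
        (Icc 0 T ×ˢ Metric.closedBall 0 1) := fun y hy => ⟨ht, hy.1⟩
      exact ContinuousWithinAt.comp (g := fun z : ℝ × E3 => a z.1 z.2)
        (f := fun x : E3 => (t, x)) h1 h2 h3
    have hcb : ContinuousWithinAt (b t) (Metric.closedBall (0 : E3) 1 ∩ {x | x ≠ 0}) 0 := by
      have h1 := hb (t, 0) ⟨ht, hx⟩
      have h2 : ContinuousWithinAt (fun x : E3 => (t, x))
          (Metric.closedBall (0 : E3) 1 ∩ {x | x ≠ 0}) 0 :=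
        (Continuous.prodMk_right t).continuousWithinAt
      have h3 : MapsTo (fun x : E3 => (t, x)) (Metric.closedBall (0 : E3) 1 ∩ {x | x ≠ 0})
        (Icc 0 T ×ˢ Metric.closedBall 0 1) := fun y hy => ⟨ht, hy.1⟩
      exact ContinuousWithinAt.comp (g := fun z : ℝ × E3 => b z.1 z.2)
        (f := fun x : E3 => (t, x)) h1 h2 h3
    have : (𝓝[Metric.closedBall (0 : E3) 1 ∩ {x | x ≠ 0}] (0 : E3)).NeBot :=
      mem_closure_iff_nhdsWithin_neBot.1 hin
    refine le_of_tendsto_of_tendsto hca hcb ?_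
    filter_upwards [self_mem_nhdsWithin] with y hy
    exact key t ht y hy.1 hy.2
  · exact key t ht x hx hx0

end LE
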