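import Pool.Agent.H6.LE.Spread

/-! Complete blow-up. -/

namespace LE
open Set Filter Topology MeasureTheory

/-- the concave function `w (1 + D w ^ 8) ^ (-1 / 8)` -/
noncomputable def Psi (D w : ℝ) : ℝ := w * (1 + D * w ^ 8) ^ (-(1 / 8) : ℝ)

/-- its derivative -/
noncomputable def Psi1 (D w : ℝ) : ℝ := (1 + D * w ^ 8) ^ (-(9 / 8) : ℝ)

/-- its second derivative -/
noncomputable def Psi2 (D w : ℝ) : ℝ :=
  -9 * (D * w ^ 7) * (1 + D * w ^ 8) ^ (-(17 / 8) : ℝ)

theorem base_pos {D : ℝ} (hD : 0 < D) (w : ℝ) : 0 < 1 + D * w ^ 8 := by positivity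

theorem base_deriv (D w : ℝ) : HasDerivAt (fun w => 1 + D * w ^ 8) (D * (8 * w ^ 7)) w := by
  have h := ((hasDerivAt_pow 8 w).const_mul D).const_add 1
  exact h.congr_deriv (by norm_num)

theorem Psi_deriv {D : ℝ} (hD : 0 < D) (w : ℝ) : HasDerivAt (Psi D) (Psi1 D w) w := by
  have hb := base_pos hD w
  have h1 := (base_deriv D w).rpow_const (p := (-(1 / 8) : ℝ)) (Or.inl hb.ne')
  have h2 := (hasDerivAt_id w).mul h1
  refine h2.congr_deriv ?_
  unfold Psi1
  have e1 : (1 + D * w ^ 8) ^ (-(1 / 8) : ℝ)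
      = (1 + D * w ^ 8) ^ (-(9 / 8) : ℝ) * (1 + D * w ^ 8) := by
    rw [← Real.rpow_add_one hb.ne']
    norm_num
  have e2 : (1 + D * w ^ 8) ^ ((-(1 / 8) : ℝ) - 1) = (1 + D * w ^ 8) ^ (-(9 / 8) : ℝ) := by
    norm_num
  rw [e2, e1]
  simp only [id_eq]
  ring

theorem Psi1_deriv {D : ℝ} (hD : 0 < D) (w : ℝ) : HasDerivAt (Psi1 D) (Psi2 D w) w := by
  have hb := base_pos hD w
  have h1 := (base_deriv D w).rpow_const (p := (-(9 / 8) : ℝ)) (Or.inl hb.ne')
  refine h1.congr_deriv ?_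
  unfold Psi2
  have e2 : (1 + D * w ^ 8) ^ ((-(9 / 8) : ℝ) - 1) = (1 + D * w ^ 8) ^ (-(17 / 8) : ℝ) := by
    norm_num
  rw [e2]
  ring

theorem Psi1_pos {D : ℝ} (hD : 0 < D) (w : ℝ) : 0 < Psi1 D w :=
  Real.rpow_pos_of_pos (base_pos hD w) _

theorem Psi2_nonpos {D : ℝ} (hD : 0 < D) {w : ℝ} (hw : 0 ≤ w) : Psi2 D w ≤ 0 := by
  unfold Psi2
  have h1 : 0 ≤ (1 + D * w ^ 8) ^ (-(17 / 8) : ℝ) := (Real.rpow_pos_of_pos (base_pos hD w) _).le
  have h2 : 0 ≤ D * w ^ 7 := by positivity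
  have h3 : 0 ≤ D * w ^ 7 * (1 + D * w ^ 8) ^ (-(17 / 8) : ℝ) := mul_nonneg h2 h1
  nlinarith

theorem Psi_nonneg {D : ℝ} (hD : 0 < D) {w : ℝ} (hw : 0 ≤ w) : 0 ≤ Psi D w :=
  mul_nonneg hw (Real.rpow_pos_of_pos (base_pos hD w) _).le

theorem Psi_zero (D : ℝ) : Psi D 0 = 0 := by unfold Psi; rw [zero_mul]

theorem Psi_mono {D : ℝ} (hD : 0 < D) : Monotone (Psi D) := by
  apply monotone_of_deriv_nonneg
  · exact fun w => (Psi_deriv hD w).differentiableAt
  · intro w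
    rw [(Psi_deriv hD w).deriv]
    exact (Psi1_pos hD w).le

/-- `Ψ' w⁹ = Ψ⁹` -/
theorem Psi_key {D : ℝ} (hD : 0 < D) (w : ℝ) : Psi1 D w * w ^ 9 = Psi D w ^ 9 := by
  unfold Psi Psi1
  rw [mul_pow, ← Real.rpow_mul_natCast (base_pos hD w).le]
  have : (-(1 / 8) : ℝ) * ((9 : ℕ) : ℝ) = -(9 / 8) := by norm_num
  rw [this, mul_comm]

theorem Psi_le {D : ℝ} (hD : 0 < D) {w : ℝ} (hw : 0 ≤ w) : Psi D w ≤ D ^ (-(1 / 8) : ℝ) := by
  rcases hw.eq_or_lt with h0 | h0
  · rw [← h0, Psi_zero]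
    exact (Real.rpow_pos_of_pos hD _).le
  · unfold Psi
    have h1 : (1 + D * w ^ 8) ^ (-(1 / 8) : ℝ) ≤ (D * w ^ 8) ^ (-(1 / 8) : ℝ) :=
      Real.rpow_le_rpow_of_nonpos (by positivity) (by linarith) (by norm_num)
    have h2 : (D * w ^ 8) ^ (-(1 / 8) : ℝ) = D ^ (-(1 / 8) : ℝ) * w⁻¹ := by
      rw [Real.mul_rpow hD.le (by positivity)]
      congr 1
      rw [← Real.rpow_natCast, ← Real.rpow_mul h0.le]
      have : ((8 : ℕ) : ℝ) * (-(1 / 8)) = -1 := by norm_num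
      rw [this, Real.rpow_neg_one]
    calc w * (1 + D * w ^ 8) ^ (-(1 / 8) : ℝ) ≤ w * (D ^ (-(1 / 8) : ℝ) * w⁻¹) := by
          rw [← h2]; exact mul_le_mul_of_nonneg_left h1 hw
      _ = D ^ (-(1 / 8) : ℝ) := by field_simp

theorem Psi_ge {τ u : ℝ} (hτ : 0 < τ) (hu : 0 ≤ u) (hu' : u ≤ 33) :
    u ≤ Psi (((1 + τ) ^ 8 - 1) / (33 ^ 8 * (1 + τ) ^ 8)) ((1 + τ) * u) := by
  set D := ((1 + τ) ^ 8 - 1) / (33 ^ 8 * (1 + τ) ^ 8) with hD
  have h1τ : 1 < (1 + τ) ^ 8 := one_lt_pow₀ (by linarith) (by norm_num)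
  have hDpos : 0 < D := by
    rw [hD]
    apply div_pos (by linarith)
    positivity
  unfold Psi
  have h1 : 1 + D * ((1 + τ) * u) ^ 8 ≤ (1 + τ) ^ 8 := by
    have e1 : D * ((1 + τ) * u) ^ 8 = ((1 + τ) ^ 8 - 1) * (u ^ 8 / 33 ^ 8) := by
      rw [hD]
      have : (1 + τ) ≠ 0 := by linarith
      field_simp
    rw [e1]
    have e2 : u ^ 8 / 33 ^ 8 ≤ 1 := by
      rw [div_le_one (by positivity)]
      gcongr
    have e3 : ((1 + τ) ^ 8 - 1) * (u ^ 8 / 33 ^ 8) ≤ ((1 + τ) ^ 8 - 1) * 1 :=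
      mul_le_mul_of_nonneg_left e2 (by linarith)
    linarith
  have h2 : ((1 + τ) ^ 8) ^ (-(1 / 8) : ℝ) ≤ (1 + D * ((1 + τ) * u) ^ 8) ^ (-(1 / 8) : ℝ) :=
    Real.rpow_le_rpow_of_nonpos (base_pos hDpos _) h1 (by norm_num)
  have h3 : ((1 + τ) ^ 8) ^ (-(1 / 8) : ℝ) = (1 + τ)⁻¹ := by
    rw [← Real.rpow_natCast, ← Real.rpow_mul (by linarith)]
    have : ((8 : ℕ) : ℝ) * (-(1 / 8)) = -1 := by norm_num
    rw [this, Real.rpow_neg_one]
  rw [h3] at h2
  have h4 : u = (1 + τ) * u * (1 + τ)⁻¹ := by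
    have : (1 + τ) ≠ 0 := by linarith
    field_simp
  calc u = (1 + τ) * u * (1 + τ)⁻¹ := h4
    _ ≤ _ := mul_le_mul_of_nonneg_left h2 (by positivity)

/-- the correction `4 d³ M x / (x + d)` -/
theorem bump_deriv {d x : ℝ} (K : ℝ) (h : 0 < x + d) :
    HasDerivAt (fun x => K * (x / (x + d))) (K * (d / (x + d) ^ 2)) x := by
  have h0 : HasDerivAt (fun x : ℝ => x + d) 1 x := (hasDerivAt_id x).add_const d
  have h1 := ((hasDerivAt_id x).div h0 h.ne').const_mul K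
  refine h1.congr_deriv ?_
  simp only [id_eq]
  congr 1
  ring

theorem bump_deriv2 {d x : ℝ} (K : ℝ) (h : 0 < x + d) :
    HasDerivAt (fun x => K * (d / (x + d) ^ 2)) (K * (-(2 * d) / (x + d) ^ 3)) x := by
  have h0 : HasDerivAt (fun x : ℝ => x + d) 1 x := (hasDerivAt_id x).add_const d
  have h2 : HasDerivAt (fun x : ℝ => (x + d) ^ 2) (((2 : ℕ) : ℝ) * (x + d) ^ (2 - 1) * 1) x :=
    h0.pow 2
  have h1 := ((hasDerivAt_const x d).div h2 (by positivity)).const_mul K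
  refine h1.congr_deriv ?_
  congr 1
  push_cast
  field_simp
  ring

/-- the main comparison -/
theorem cmpMain {k k' : ℝ} (_hk : 66 ≤ k) (hk' : 66 ≤ k') (s : Sol k) (s' : Sol k') {T τ d : ℝ}
    (_hT : 0 ≤ T) (hτ : 0 < τ) (hτ1 : τ ≤ 1) (hd : 0 < d)
    (hb : ∀ t ∈ Icc 0 (T + τ), ∀ x ∈ Icc d 1, s'.P t x ≤ k') {L : ℝ} (hL : 0 ≤ L)
    (hLip : ∀ u v, |g k u - g k v| ≤ L * |u - v|) :
    ∀ t ∈ Icc 0 T, ∀ x ∈ Icc (0 : ℝ) 1,
      s.V t x ≤ x * ((((1 + τ) ^ 8 - 1) / (33 ^ 8 * (1 + τ) ^ 8)) ^ (-(1 / 8) : ℝ))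
        + Real.exp (L * T) * (4 * d ^ 3 *
          ((((1 + τ) ^ 8 - 1) / (33 ^ 8 * (1 + τ) ^ 8)) ^ (-(1 / 8) : ℝ)) ^ 9) := by
  set D := ((1 + τ) ^ 8 - 1) / (33 ^ 8 * (1 + τ) ^ 8) with hD
  have h1τ : 1 < (1 + τ) ^ 8 := one_lt_pow₀ (by linarith) (by norm_num)
  have hDpos : 0 < D := by
    rw [hD]
    apply div_pos (by linarith)
    positivity
  set B := D ^ (-(1 / 8) : ℝ) with hB
  have hB0 : 0 < B := Real.rpow_pos_of_pos hDpos _
  set K := 4 * d ^ 3 * B ^ 9 with hK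
  have hK0 : 0 < K := by positivity
  have hmax := maxp (T := T) (C := L)
    (fun t x => s.V t x - x * Psi D (s'.P (t + τ) x) - Real.exp (L * t) * (K * (x / (x + d))))
    ?_ ?_ ?_ ?_ ?_
  · intro t ht x hx
    have h1 := hmax t ht x hx
    have hP0 : 0 ≤ s'.P (t + τ) x := s'.nonneg hk' (by linarith [ht.1]) hx
    have h2 : x * Psi D (s'.P (t + τ) x) ≤ x * B :=
      mul_le_mul_of_nonneg_left (Psi_le hDpos hP0) hx.1
    have h3 : Real.exp (L * t) * (K * (x / (x + d))) ≤ Real.exp (L * T) * K := by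
      have e1 : Real.exp (L * t) ≤ Real.exp (L * T) :=
        Real.exp_le_exp.mpr (mul_le_mul_of_nonneg_left ht.2 hL)
      have e2 : K * (x / (x + d)) ≤ K := by
        have : x / (x + d) ≤ 1 := by
          rw [div_le_one (by linarith [hx.1])]
          linarith
        nlinarith
      have e3 : 0 ≤ x / (x + d) := div_nonneg hx.1 (by linarith [hx.1])
      exact mul_le_mul e1 e2 (mul_nonneg hK0.le e3) (Real.exp_pos _).le
    linarith
  · -- continuity
    have c1 : Continuous fun z : ℝ × ℝ => Psi D (s'.P (z.1 + τ) z.2) := by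
      have hc : Continuous (Psi D) :=
        continuous_iff_continuousAt.mpr fun w => (Psi_deriv hDpos w).continuousAt
      exact hc.comp (s'.cP.comp ((continuous_fst.add continuous_const).prodMk continuous_snd))
    have c2 : ContinuousOn (fun z : ℝ × ℝ => z.2 / (z.2 + d)) (Icc 0 T ×ˢ Icc 0 1) := by
      apply ContinuousOn.div
      · fun_prop
      · fun_prop
      · intro z hz
        have := hz.2.1
        linarith
    have c3 : Continuous fun z : ℝ × ℝ => Real.exp (L * z.1) := by fun_prop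
    exact ((s.cV.sub (continuous_snd.mul c1)).continuousOn).sub
      (c3.continuousOn.mul (continuousOn_const.mul c2))
  · -- initial time
    intro x hx
    show s.V 0 x - x * Psi D (s'.P (0 + τ) x) - Real.exp (L * 0) * (K * (x / (x + d))) ≤ 0
    have hu : u0 x ≤ 33 := u0_le ⟨by linarith [hx.1], hx.2⟩
    have hu0 : 0 ≤ u0 x := u0_nonneg ⟨by linarith [hx.1], hx.2⟩
    have h1 : (1 + τ) * u0 x ≤ s'.P τ x := s'.growth hk' ⟨hτ.le, hτ1⟩ hx
    have h2 : u0 x ≤ Psi D (s'.P τ x) := le_trans (Psi_ge hτ hu0 hu) (Psi_mono hDpos h1)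
    have h3 : s.V 0 x = x * u0 x := by rw [s.VP, s.init x ⟨by linarith [hx.1], hx.2⟩]
    have h4 : 0 ≤ Real.exp (L * 0) * (K * (x / (x + d))) := by
      have e3 : 0 ≤ x / (x + d) := div_nonneg hx.1 (by linarith [hx.1])
      positivity
    rw [h3, zero_add]
    have h5 := mul_le_mul_of_nonneg_left h2 hx.1
    linarith
  · -- `x = 0`
    intro t ht
    show s.V t 0 - 0 * Psi D (s'.P (t + τ) 0) - Real.exp (L * t) * (K * (0 / (0 + d))) ≤ 0
    rw [s.VP]
    simp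
  · -- `x = 1`
    intro t ht
    show s.V t 1 - 1 * Psi D (s'.P (t + τ) 1) - Real.exp (L * t) * (K * (1 / (1 + d))) ≤ 0
    rw [s.bd, s'.P_one, Psi_zero]
    have : 0 ≤ Real.exp (L * t) * (K * (1 / (1 + d))) := by positivity
    linarith
  · -- interior
    intro t ht x hx hZ
    have hx1 : x ∈ Icc (0 : ℝ) 1 := ⟨hx.1.le, hx.2.le⟩
    have hx2 : x ∈ Icc (-1 : ℝ) 1 := ⟨by linarith [hx.1], hx.2.le⟩
    have htτ : 0 < t + τ := by linarith [ht.1]
    have hxd : 0 < x + d := by linarith [hx.1]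
    set q := s'.P (t + τ) x with hq
    set q1 := s'.P1 (t + τ) x with hq1
    set q2 := s'.P2 (t + τ) x with hq2
    set qt := s'.Pt (t + τ) x with hqt
    have hq0 : 0 ≤ q := s'.nonneg hk' htτ.le hx1
    refine ⟨(s.V2 t x + x * g k (s.P t x)) - x * (Psi1 D q * qt)
        - Real.exp (L * t) * (L * 1) * (K * (x / (x + d))),
      fun y => s.V1 t y - (1 * Psi D (s'.P (t + τ) y)
        + y * (Psi1 D (s'.P (t + τ) y) * s'.P1 (t + τ) y))
        - Real.exp (L * t) * (K * (d / (y + d) ^ 2)),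
      s.V2 t x - (1 * (Psi1 D q * q1)
        + (1 * (Psi1 D q * q1) + x * ((Psi2 D q * q1) * q1 + Psi1 D q * q2)))
        - Real.exp (L * t) * (K * (-(2 * d) / (x + d) ^ 3)), ?_, ?_, ?_, ?_⟩
    · have h1 := s.tV t ht.1 x hx2
      have h2 : HasDerivAt (fun t' => s'.P (t' + τ) x) qt t :=
        (s'.tP (t + τ) htτ x).comp_add_const t τ
      have h3 : HasDerivAt (fun t' => Psi D (s'.P (t' + τ) x)) (Psi1 D q * qt) t :=
        (Psi_deriv hDpos _).comp t h2
      have h4 : HasDerivAt (fun t' : ℝ => Real.exp (L * t')) (Real.exp (L * t) * (L * 1)) t :=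
        ((hasDerivAt_id t).const_mul L).exp
      exact (h1.sub (h3.const_mul x)).sub (h4.mul_const _)
    · have hev : ∀ᶠ y in 𝓝 x, 0 < y + d := by
        have : ContinuousAt (fun y : ℝ => y + d) x := by fun_prop
        exact this.eventually (lt_mem_nhds hxd)
      filter_upwards [hev] with y hy
      have h3 : HasDerivAt (fun y => Psi D (s'.P (t + τ) y))
          (Psi1 D (s'.P (t + τ) y) * s'.P1 (t + τ) y) y :=
        (Psi_deriv hDpos _).comp y (s'.dP (t + τ) y)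
      exact ((s.dV t y).sub ((hasDerivAt_id y).mul h3)).sub ((bump_deriv K hy).const_mul _)
    · have h3 : HasDerivAt (fun y => Psi D (s'.P (t + τ) y)) (Psi1 D q * q1) x :=
        (Psi_deriv hDpos _).comp x (s'.dP (t + τ) x)
      have h4 : HasDerivAt (fun y => Psi1 D (s'.P (t + τ) y)) (Psi2 D q * q1) x :=
        (Psi1_deriv hDpos _).comp x (s'.dP (t + τ) x)
      have h5 := (h3.const_mul 1).add ((hasDerivAt_id x).mul (h4.mul (s'.dP1 (t + τ) x)))
      exact ((s.dV1 t x).sub h5).sub ((bump_deriv2 K hxd).const_mul _)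
    · intro _
      -- the equation for `P`
      have hPt : x * qt = 2 * q1 + x * q2 + x * g k' q := by
        rw [s'.PtV (t + τ) htτ.le x hx2, s'.V2P]
      -- the nonlinearity of `s`
      have hZ' : 0 < s.V t x - x * Psi D q - Real.exp (L * t) * (K * (x / (x + d))) := hZ
      set E := Real.exp (L * t) * (K * (x / (x + d))) with hE
      have hE0 : 0 ≤ E := by
        have e3 : 0 ≤ x / (x + d) := div_nonneg hx.1.le hxd.le
        positivity
      have hV : s.V t x = x * s.P t x := s.VP t x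
      have hPsi0 : 0 ≤ Psi D q := Psi_nonneg hDpos hq0
      have hPP : Psi D q ≤ s.P t x := by
        by_contra hcon
        push Not at hcon
        have := mul_lt_mul_of_pos_left hcon hx.1
        rw [hV] at hZ'
        linarith
      have hg1 : x * g k (s.P t x) ≤ x * Psi D q ^ 9 + L * (s.V t x - x * Psi D q) := by
        have e1 := hLip (s.P t x) (Psi D q)
        rw [abs_of_nonneg (sub_nonneg.mpr hPP)] at e1
        have e2 : g k (s.P t x) - g k (Psi D q) ≤ L * (s.P t x - Psi D q) :=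
          le_trans (le_abs_self _) e1
        have e3 : g k (Psi D q) ≤ Psi D q ^ 9 := g_le hPsi0
        have e4 : g k (s.P t x) ≤ Psi D q ^ 9 + L * (s.P t x - Psi D q) := by linarith
        have e5 := mul_le_mul_of_nonneg_left e4 hx.1.le
        rw [hV]
        linarith [e5]
      -- supersolution inequality
      have hsup : Psi1 D q * (x * g k' q) ≥ x * Psi D q ^ 9 + K * (-(2 * d) / (x + d) ^ 3) := by
        rcases le_total d x with hdx | hdx
        · have hqk : q ≤ k' := hb (t + τ) ⟨htτ.le, by linarith [ht.2]⟩ x ⟨hdx, hx.2.le⟩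
          have e1 : g k' q = q ^ 9 := g_eq (by linarith) (by rw [abs_of_nonneg hq0]; exact hqk)
          have e2 : K * (-(2 * d) / (x + d) ^ 3) ≤ 0 := by
            apply mul_nonpos_of_nonneg_of_nonpos hK0.le
            apply div_nonpos_of_nonpos_of_nonneg _ (by positivity)
            linarith
          have e3 : Psi1 D q * (x * g k' q) = x * Psi D q ^ 9 := by
            rw [e1, ← Psi_key hDpos q]
            ring
          rw [e3]
          linarith
        · have e1 : 0 ≤ Psi1 D q * (x * g k' q) :=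
            mul_nonneg (Psi1_pos hDpos q).le (mul_nonneg hx.1.le (g_nonneg hq0))
          have e2 : Psi D q ^ 9 ≤ B ^ 9 := by
            have := Psi_le hDpos hq0
            gcongr
          have e3 : K * (-(2 * d) / (x + d) ^ 3) ≤ -(x * B ^ 9) := by
            have e4 : (x + d) ^ 3 ≤ 8 * d ^ 3 := by
              calc (x + d) ^ 3 ≤ (d + d) ^ 3 := by gcongr
                _ = 8 * d ^ 3 := by ring
            have e5 : x * B ^ 9 ≤ K * (2 * d) / (x + d) ^ 3 := by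
              rw [le_div_iff₀ (by positivity)]
              calc x * B ^ 9 * (x + d) ^ 3 ≤ d * B ^ 9 * (8 * d ^ 3) := by gcongr
                _ = K * (2 * d) := by rw [hK]; ring
            have e6 : K * (-(2 * d) / (x + d) ^ 3) = -(K * (2 * d) / (x + d) ^ 3) := by ring
            rw [e6]
            linarith
          have e7 := mul_le_mul_of_nonneg_left e2 hx.1.le
          linarith
      have hexp1 : 1 ≤ Real.exp (L * t) := Real.one_le_exp (mul_nonneg hL ht.1.le)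
      have hbneg : K * (-(2 * d) / (x + d) ^ 3) ≤ 0 := by
        apply mul_nonpos_of_nonneg_of_nonpos hK0.le
        apply div_nonpos_of_nonpos_of_nonneg _ (by positivity)
        linarith
      have hmul : Real.exp (L * t) * (K * (-(2 * d) / (x + d) ^ 3))
          ≤ K * (-(2 * d) / (x + d) ^ 3) := by nlinarith
      have hconc : x * (Psi2 D q * q1 * q1) ≤ 0 := by
        apply mul_nonpos_of_nonneg_of_nonpos hx.1.le
        have := Psi2_nonpos hDpos hq0
        have h2 : 0 ≤ q1 * q1 := mul_self_nonneg q1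
        have : Psi2 D q * (q1 * q1) ≤ 0 := mul_nonpos_of_nonpos_of_nonneg this h2
        linarith [mul_assoc (Psi2 D q) q1 q1]
      have e8 : x * (Psi1 D q * qt) = Psi1 D q * (2 * q1 + x * q2 + x * g k' q) := by
        rw [← hPt]; ring
      have e9 : Real.exp (L * t) * (L * 1) * (K * (x / (x + d))) = L * E := by
        rw [hE]; ring
      rw [e8, e9]
      have e10 : Psi1 D q * (2 * q1 + x * q2 + x * g k' q)
          = 2 * (Psi1 D q * q1) + x * (Psi1 D q * q2) + Psi1 D q * (x * g k' q) := by ring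
      rw [e10]
      have e11 : x * (Psi2 D q * q1 * q1 + Psi1 D q * q2)
          = x * (Psi2 D q * q1 * q1) + x * (Psi1 D q * q2) := by ring
      rw [e11]
      have e12 : L * (s.V t x - x * Psi D q - E) = L * (s.V t x - x * Psi D q) - L * E := by ring
      rw [e12]
      linarith

/-- G2 -/
theorem complete (s : ∀ n : ℕ, Sol (66 + (n : ℝ))) {x0 t0 C : ℝ} (hx0 : x0 ∈ Ioo (0 : ℝ) 1)
    (ht0 : 0 < t0) (h : ∀ n, (s n).V t0 x0 ≤ C) {T : ℝ} (hT : 0 ≤ T) (hTt : T < t0) :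
    ∃ B, ∀ n, ∀ t ∈ Icc 0 T, ∀ x ∈ Icc (0 : ℝ) 1, (s n).P t x ≤ B := by
  have hk : ∀ n : ℕ, (66 : ℝ) ≤ 66 + (n : ℝ) := fun n => by
    have : (0 : ℝ) ≤ (n : ℝ) := Nat.cast_nonneg n
    linarith
  -- intermediate time
  obtain ⟨s1, hs1T, hs1t, hs1c⟩ : ∃ s1, T < s1 ∧ s1 < t0 ∧ t0 - s1 ≤ 1 / 12 := by
    refine ⟨max ((T + t0) / 2) (t0 - 1 / 12), ?_, ?_, ?_⟩
    · exact lt_of_lt_of_le (by linarith) (le_max_left _ _)
    · exact max_lt (by linarith) (by linarith)
    · have := le_max_right ((T + t0) / 2) (t0 - 1 / 12)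
      linarith
  -- bounds away from the origin
  have hbd : ∀ δ ∈ Ioo (0 : ℝ) 1, ∃ Cδ, ∀ n, ∀ t ∈ Icc 0 s1, ∀ x ∈ Icc δ 1,
      (s n).P t x ≤ Cδ := by
    intro δ hδ
    obtain ⟨c, hc, hsp⟩ := spread hδ hx0 (r := t0 - s1) (by linarith) hs1c
    refine ⟨C / c, ?_⟩
    intro n t ht x hx
    have hs10 : 0 ≤ s1 := by linarith
    have h1 := hsp _ (hk n) (s n) s1 hs10
    rw [add_sub_cancel] at h1
    have h2 : (s n).P s1 δ ≤ C / c := by
      rw [le_div_iff₀ hc, mul_comm]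
      exact le_trans h1 (h n)
    have h3 : (s n).P t x ≤ (s n).P s1 x :=
      (s n).mono_t (hk n) ht.1 ht.2 ⟨by linarith [hδ.1, hx.1], hx.2⟩
    have h4 : (s n).P s1 x ≤ (s n).P s1 δ :=
      (s n).anti (hk n) hs10 hδ.1.le hx.1 hx.2
    linarith
  set τ : ℝ := min 1 (s1 - T) with hτ
  have hτ0 : 0 < τ := lt_min one_pos (by linarith)
  have hτ1 : τ ≤ 1 := min_le_left _ _
  have hτs : T + τ ≤ s1 := by
    have := min_le_right 1 (s1 - T)
    linarith
  set B : ℝ := (((1 + τ) ^ 8 - 1) / (33 ^ 8 * (1 + τ) ^ 8)) ^ (-(1 / 8) : ℝ) with hB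
  refine ⟨B, ?_⟩
  intro j t ht
  obtain ⟨L, hL, hLip, -⟩ := g_lip (k := 66 + (j : ℝ)) (by linarith [hk j])
  -- `V ≤ x B`
  have hV : ∀ x ∈ Icc (0 : ℝ) 1, (s j).V t x ≤ x * B := by
    intro x hx
    have hcmp : ∀ d ∈ Ioo (0 : ℝ) 1, (s j).V t x ≤ x * B
        + Real.exp (L * T) * (4 * d ^ 3 * B ^ 9) := by
      intro d hd
      obtain ⟨Cd, hCd⟩ := hbd d hd
      obtain ⟨n, hn⟩ := exists_nat_ge Cd
      apply cmpMain (hk j) (hk n) (s j) (s n) hT hτ0 hτ1 hd.1 _ hL hLip t ht x hx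
      intro t' ht' x' hx'
      have h1 := hCd n t' ⟨ht'.1, le_trans ht'.2 hτs⟩ x' hx'
      linarith
    have hlim : Tendsto (fun d : ℝ => x * B + Real.exp (L * T) * (4 * d ^ 3 * B ^ 9)) (𝓝[>] 0)
        (𝓝 (x * B + Real.exp (L * T) * (4 * 0 ^ 3 * B ^ 9))) := by
      apply Tendsto.mono_left _ nhdsWithin_le_nhds
      have : Continuous fun d : ℝ => x * B + Real.exp (L * T) * (4 * d ^ 3 * B ^ 9) := by fun_prop
      exact this.tendsto 0
    have hge := ge_of_tendsto hlim (b := (s j).V t x) (by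
      filter_upwards [Ioo_mem_nhdsGT (zero_lt_one (α := ℝ))] with d hd
      exact hcmp d hd)
    simpa using hge
  -- `P ≤ B` for `x > 0`
  have hPx : ∀ x ∈ Ioc (0 : ℝ) 1, (s j).P t x ≤ B := by
    intro x hx
    have h1 := hV x ⟨hx.1.le, hx.2⟩
    rw [(s j).VP] at h1
    exact le_of_mul_le_mul_left h1 hx.1
  intro x hx
  rcases hx.1.eq_or_lt with h0 | h0
  · -- continuity at zero
    rw [← h0]
    have hc : Continuous ((s j).P t) := (s j).cP.comp (continuous_const.prodMk continuous_id)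
    have hlim : Tendsto ((s j).P t) (𝓝[>] 0) (𝓝 ((s j).P t 0)) :=
      (hc.tendsto 0).mono_left nhdsWithin_le_nhds
    apply le_of_tendsto hlim
    filter_upwards [Ioo_mem_nhdsGT (zero_lt_one (α := ℝ))] with d hd
    exact hPx d ⟨hd.1, hd.2.le⟩
  · exact hPx x ⟨h0, hx.2⟩

end LE
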