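import Mathlib

/-! Lane-Emden heat flow `u_t - Δ u = u ^ 9` on the unit ball of `ℝ³`, radial data:
basic definitions (one space variable, `V = x * u`). -/

namespace LE
open Set Filter Topology MeasureTheory

/-- smooth cut-off: `1` for `|u| ≤ k`, `0` for `u ^ 2 ≥ 2 k ^ 2` -/
noncomputable def cut (k u : ℝ) : ℝ := Real.smoothTransition (2 - u ^ 2 / k ^ 2)

/-- truncated nonlinearity -/
noncomputable def g (k u : ℝ) : ℝ := u ^ 9 * cut k u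

/-- initial profile -/
noncomputable def u0 (r : ℝ) : ℝ :=
  12 * ((1 - r ^ 2) + 3 / 4 * (1 - r ^ 2) ^ 2 + (1 - r ^ 2) ^ 3)

/-- representative of `x` modulo `2` in `[-1, 1]` -/
noncomputable def fold (x : ℝ) : ℝ := x - 2 * round (x / 2)

/-- initial value of `V`, odd and `2`-periodic -/
noncomputable def V0 (x : ℝ) : ℝ := fold x * u0 (fold x)

/-- Friedman-McLeod auxiliary function, equal to `(1 + u ^ 9) / (1 + u)` -/
noncomputable def F (u : ℝ) : ℝ := 1 - u + u ^ 2 - u ^ 3 + u ^ 4 - u ^ 5 + u ^ 6 - u ^ 7 + u ^ 8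

noncomputable def eps : ℝ := ((33 : ℝ) ^ 8)⁻¹

/-- A global classical radial solution of the truncated problem
`u_t - Δ u = g k u`, `u = 0` at `|x| = 1`, `u = u0` at `t = 0`,
written with `P = u` (even in `x`), `V = x * P` (odd).
For `t < 0` all functions are constant in time. -/
structure Sol (k : ℝ) where
  V : ℝ → ℝ → ℝ
  V1 : ℝ → ℝ → ℝ
  V2 : ℝ → ℝ → ℝ
  V3 : ℝ → ℝ → ℝ
  P : ℝ → ℝ → ℝ
  P1 : ℝ → ℝ → ℝ
  P2 : ℝ → ℝ → ℝ
  Pt : ℝ → ℝ → ℝ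
  cV : Continuous fun z : ℝ × ℝ => V z.1 z.2
  cV1 : Continuous fun z : ℝ × ℝ => V1 z.1 z.2
  cV2 : Continuous fun z : ℝ × ℝ => V2 z.1 z.2
  cV3 : Continuous fun z : ℝ × ℝ => V3 z.1 z.2
  cP : Continuous fun z : ℝ × ℝ => P z.1 z.2
  cP1 : Continuous fun z : ℝ × ℝ => P1 z.1 z.2
  cP2 : Continuous fun z : ℝ × ℝ => P2 z.1 z.2
  cPt : Continuous fun z : ℝ × ℝ => Pt z.1 z.2
  dV : ∀ t x, HasDerivAt (V t) (V1 t x) x
  dV1 : ∀ t x, HasDerivAt (V1 t) (V2 t x) x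
  dV2 : ∀ t x, HasDerivAt (V2 t) (V3 t x) x
  dP : ∀ t x, HasDerivAt (P t) (P1 t x) x
  dP1 : ∀ t x, HasDerivAt (P1 t) (P2 t x) x
  VP : ∀ t x, V t x = x * P t x
  V1P : ∀ t x, V1 t x = P t x + x * P1 t x
  V2P : ∀ t x, V2 t x = 2 * P1 t x + x * P2 t x
  even : ∀ t x, P t (-x) = P t x
  bd : ∀ t, V t 1 = 0
  init : ∀ x ∈ Icc (-1 : ℝ) 1, P 0 x = u0 x
  tV : ∀ t > 0, ∀ x ∈ Icc (-1 : ℝ) 1,
    HasDerivAt (fun s => V s x) (V2 t x + x * g k (P t x)) t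
  tV1 : ∀ t > 0, ∀ x ∈ Ioo (-1 : ℝ) 1,
    HasDerivAt (fun s => V1 s x)
      (V3 t x + g k (P t x) + deriv (g k) (P t x) * (V1 t x - P t x)) t
  tP : ∀ t > 0, ∀ x, HasDerivAt (fun s => P s x) (Pt t x) t
  PtV : ∀ t ≥ 0, ∀ x ∈ Icc (-1 : ℝ) 1, x * Pt t x = V2 t x + x * g k (P t x)

end LE
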