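import Pool.Agent.H6.LE.Tstar

/-! Energy bounds in radial form (module K). -/

namespace LE
open Set Filter Topology MeasureTheory

variable {k : ℝ}

/-- the time derivative is nonnegative -/
theorem Sol.Pt_nonneg (s : Sol k) (hk : 66 ≤ k) {t x : ℝ} (ht : 0 < t) (hx : x ∈ Icc (0 : ℝ) 1) :
    0 ≤ s.Pt t x := by
  have hm : MonotoneOn (fun r => s.P r x) (Ioi (0 : ℝ)) := by
    intro r hr r' _ hrr
    exact s.mono_t hk (le_of_lt hr) hrr hx
  have h1 := hm.derivWithin_nonneg (x := t)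
  rw [(s.tP t ht x).hasDerivWithinAt.derivWithin (isOpen_Ioi.uniqueDiffWithinAt ht)] at h1
  exact h1

theorem Sol.grad_le (s : Sol k) (hk : 66 ≤ k) {T : ℝ}
    (hT : ∀ t ∈ Icc 0 T, ∀ x ∈ Icc (0 : ℝ) 1, s.P t x ≤ k) {t : ℝ} (ht : t ∈ Ioc 0 T) :
    ∫ x in (0 : ℝ)..1, x ^ 2 * s.P1 t x ^ 2 ≤ ∫ x in (0 : ℝ)..1, x ^ 2 * s.P t x ^ 10 := by
  have cP : Continuous (s.P t) := s.cP.comp (continuous_const.prodMk continuous_id)
  have cP1 : Continuous (s.P1 t) := s.cP1.comp (continuous_const.prodMk continuous_id)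
  have cV2 : Continuous (s.V2 t) := s.cV2.comp (continuous_const.prodMk continuous_id)
  have hd : ∀ x, HasDerivAt (fun x => s.P t x * (x * s.V1 t x - s.V t x))
      (x ^ 2 * s.P1 t x ^ 2 + x * s.P t x * s.V2 t x) x := by
    intro x
    have h1 := (s.dP t x).mul (((hasDerivAt_id x).mul (s.dV1 t x)).sub (s.dV t x))
    refine h1.congr_deriv ?_
    have e1 := s.V1P t x
    have e2 := s.VP t x
    simp only [id_eq, Pi.sub_apply, Pi.mul_apply]
    rw [e1, e2]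
    ring
  have c1 : Continuous fun x => x ^ 2 * s.P1 t x ^ 2 := by fun_prop
  have c2 : Continuous fun x => x * s.P t x * s.V2 t x := by fun_prop
  have c3 : Continuous fun x => x ^ 2 * s.P t x ^ 10 := by fun_prop
  have hP1 : s.P t 1 = 0 := by
    have h := s.VP t 1
    rw [s.bd, one_mul] at h
    exact h.symm
  have h1 := intervalIntegral.integral_eq_sub_of_hasDerivAt (a := (0 : ℝ)) (b := 1)
    (fun x _ => hd x) ((c1.add c2).intervalIntegrable _ _)
  rw [intervalIntegral.integral_add (c1.intervalIntegrable _ _) (c2.intervalIntegrable _ _)] at h1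
  have hV0 : s.V t 0 = 0 := by rw [s.VP, zero_mul]
  rw [hP1, hV0] at h1
  have h2 : ∫ x in (0 : ℝ)..1, x ^ 2 * s.P1 t x ^ 2
      = ∫ x in (0 : ℝ)..1, -(x * s.P t x * s.V2 t x) := by
    rw [intervalIntegral.integral_neg]
    linarith
  rw [h2]
  apply intervalIntegral.integral_mono_on zero_le_one (c2.neg.intervalIntegrable _ _)
    (c3.intervalIntegrable _ _)
  intro x hx
  have hP0 : 0 ≤ s.P t x := s.nonneg hk ht.1.le hx
  have hPk : s.P t x ≤ k := hT t ⟨ht.1.le, ht.2⟩ x hx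
  have hg : g k (s.P t x) = s.P t x ^ 9 :=
    g_eq (by linarith) (by rw [abs_of_nonneg hP0]; exact hPk)
  have hPt : 0 ≤ s.Pt t x := s.Pt_nonneg hk ht.1 hx
  have e := s.PtV t ht.1.le x ⟨by linarith [hx.1], hx.2⟩
  rw [hg] at e
  have e' : s.V2 t x = x * s.Pt t x - x * s.P t x ^ 9 := by linarith
  show -(x * s.P t x * s.V2 t x) ≤ x ^ 2 * s.P t x ^ 10
  rw [e']
  have h3 : 0 ≤ x ^ 2 * (s.P t x * s.Pt t x) := by positivity
  nlinarith [h3]

/-- integrability of the profile bound: `x² (C / x²)^{10/7}` -/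
theorem profile_int {f : ℝ → ℝ} (hf : ∀ x ∈ Ioc (0 : ℝ) 1, 0 ≤ f x ∧ f x ^ 7 ≤ 4 / (7 * eps) / x ^ 2)
    {x : ℝ} (hx : x ∈ Ioc (0 : ℝ) 1) :
    x ^ 2 * f x ^ 10 ≤ (4 / (7 * eps)) ^ ((10 : ℝ) / 7) * x ^ (-(6 : ℝ) / 7) := by
  obtain ⟨h0, h7⟩ := hf x hx
  have heps : 0 < eps := by unfold eps; positivity
  set C := 4 / (7 * eps) with hC
  have hC0 : 0 < C := by positivity
  have hx0 := hx.1
  have e1 : f x ^ 10 = (f x ^ 7) ^ ((10 : ℝ) / 7) := by
    rw [← Real.rpow_natCast (f x) 7, ← Real.rpow_mul h0, ← Real.rpow_natCast (f x) 10]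
    norm_num
  have e2 : (f x ^ 7) ^ ((10 : ℝ) / 7) ≤ (C / x ^ 2) ^ ((10 : ℝ) / 7) :=
    Real.rpow_le_rpow (by positivity) h7 (by norm_num)
  have e3 : (C / x ^ 2) ^ ((10 : ℝ) / 7) = C ^ ((10 : ℝ) / 7) * x ^ (-(20 : ℝ) / 7) := by
    rw [Real.div_rpow hC0.le (by positivity), div_eq_mul_inv]
    congr 1
    rw [← Real.rpow_natCast x 2, ← Real.rpow_mul hx0.le, ← Real.rpow_neg hx0.le]
    norm_num
  have e4 : x ^ 2 * (C ^ ((10 : ℝ) / 7) * x ^ (-(20 : ℝ) / 7))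
      = C ^ ((10 : ℝ) / 7) * x ^ (-(6 : ℝ) / 7) := by
    have : x ^ 2 * x ^ (-(20 : ℝ) / 7) = x ^ (-(6 : ℝ) / 7) := by
      rw [← Real.rpow_natCast x 2, ← Real.rpow_add hx0]
      norm_num
    rw [← this]
    ring
  calc x ^ 2 * f x ^ 10 ≤ x ^ 2 * (C ^ ((10 : ℝ) / 7) * x ^ (-(20 : ℝ) / 7)) := by
        rw [e1, ← e3]
        exact mul_le_mul_of_nonneg_left e2 (by positivity)
    _ = _ := e4

/-- continuity of `Pu t` on `[0, 1]` -/
theorem Pu_contOn {t : ℝ} (ht : t ∈ Ico 0 Ts) : ContinuousOn (Pu t) (Icc 0 1) := by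
  obtain ⟨n, -, hn⟩ := local_sol ht.2
  have hc : Continuous ((sol n).P t) := (sol n).cP.comp (continuous_const.prodMk continuous_id)
  exact hc.continuousOn.congr fun x hx => Pu_eq hn ⟨ht.1, le_rfl⟩ hx

theorem Pu_int10 {t : ℝ} (ht : t ∈ Ico 0 Ts) : ∫ x in (0 : ℝ)..1, x ^ 2 * Pu t x ^ 10 ≤
    7 * (4 / (7 * eps)) ^ ((10 : ℝ) / 7) := by
  have hc : ContinuousOn (fun x => x ^ 2 * Pu t x ^ 10) (uIcc (0 : ℝ) 1) := by
    rw [uIcc_of_le zero_le_one]
    have := Pu_contOn ht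
    fun_prop
  have hi : IntervalIntegrable (fun x : ℝ => (4 / (7 * eps)) ^ ((10 : ℝ) / 7) * x ^ (-(6 : ℝ) / 7))
      volume 0 1 := (intervalIntegral.intervalIntegrable_rpow' (by norm_num)).const_mul _
  calc ∫ x in (0 : ℝ)..1, x ^ 2 * Pu t x ^ 10
      ≤ ∫ x in (0 : ℝ)..1, (4 / (7 * eps)) ^ ((10 : ℝ) / 7) * x ^ (-(6 : ℝ) / 7) := by
        apply intervalIntegral.integral_mono_on_of_le_Ioo zero_le_one hc.intervalIntegrable hi
        intro x hx
        exact profile_int (f := Pu t)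
          (fun y hy => ⟨Pu_nonneg ht ⟨hy.1.le, hy.2⟩, Pu_profile ht hy⟩) ⟨hx.1, hx.2.le⟩
    _ = 7 * (4 / (7 * eps)) ^ ((10 : ℝ) / 7) := by
        rw [intervalIntegral.integral_const_mul, integral_rpow (Or.inl (by norm_num))]
        have h1 : (-(6 : ℝ) / 7 + 1) = 1 / 7 := by norm_num
        rw [h1, Real.one_rpow, Real.zero_rpow (by norm_num)]
        ring

/-- the profile is a.e. measurable on `(0, 1]` -/
theorem rho_meas : AEStronglyMeasurable (fun x => (rho x).toReal)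
    (volume.restrict (Ioc (0 : ℝ) 1)) := by
  have hTs := Ts_pos
  -- a sequence tending to `Ts` from the left
  set τ : ℕ → ℝ := fun n => Ts - Ts / ((n : ℝ) + 2) with hτ
  have h1 : ∀ n, τ n ∈ Ioo 0 Ts := by
    intro n
    have hn : (0 : ℝ) ≤ n := Nat.cast_nonneg n
    have h2 : 0 < Ts / ((n : ℝ) + 2) := by positivity
    have h3 : Ts / ((n : ℝ) + 2) < Ts := by
      rw [div_lt_iff₀ (by positivity)]
      nlinarith
    exact ⟨by simp only [hτ]; linarith, by simp only [hτ]; linarith⟩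
  have h2 : Tendsto τ atTop (𝓝[<] Ts) := by
    rw [tendsto_nhdsWithin_iff]
    refine ⟨?_, Eventually.of_forall fun n => (h1 n).2⟩
    have h3 : Tendsto (fun n : ℕ => Ts / ((n : ℝ) + 2)) atTop (𝓝 0) := by
      apply Tendsto.div_atTop tendsto_const_nhds
      exact tendsto_atTop_add_const_right _ _ tendsto_natCast_atTop_atTop
    have h4 := (tendsto_const_nhds (x := Ts)).sub h3
    simpa using h4
  apply aestronglyMeasurable_of_tendsto_ae (u := atTop) (f := fun n x => Pu (τ n) x)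
  · intro n
    have hc := Pu_contOn (t := τ n) ⟨(h1 n).1.le, (h1 n).2⟩
    exact (hc.mono Ioc_subset_Icc_self).aestronglyMeasurable measurableSet_Ioc
  · rw [ae_restrict_iff' measurableSet_Ioc]
    refine Eventually.of_forall fun x hx => ?_
    exact (rho_tendsto hx).comp h2

theorem Pu_le_rho {t x : ℝ} (ht : t ∈ Ioo 0 Ts) (hx : x ∈ Ioc (0 : ℝ) 1) :
    Pu t x ≤ (rho x).toReal := by
  have h1 := le_rho (x := x) ht
  have h2 := ENNReal.toReal_mono (rho_lt hx).ne h1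
  rwa [ENNReal.toReal_ofReal (Pu_nonneg ⟨ht.1.le, ht.2⟩ ⟨hx.1.le, hx.2⟩)] at h2

theorem rho_sq_le {x : ℝ} (hx : x ∈ Ioc (0 : ℝ) 1) :
    x ^ 2 * (rho x).toReal ^ 2 ≤ 1 + 4 / (7 * eps) := by
  have h1 := rho_profile hx
  set r := (rho x).toReal with hr
  have hr0 : 0 ≤ r := ENNReal.toReal_nonneg
  have hx0 := hx.1
  have h2 : r ^ 2 ≤ 1 + r ^ 7 := by
    rcases le_total r 1 with h | h
    · have h3 : r ^ 2 ≤ 1 := pow_le_one₀ hr0 h
      have h4 : 0 ≤ r ^ 7 := by positivity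
      linarith
    · have h3 : r ^ 2 ≤ r ^ 7 := pow_le_pow_right₀ h (by norm_num)
      linarith
  have h3 : x ^ 2 ≤ 1 := pow_le_one₀ hx0.le hx.2
  calc x ^ 2 * r ^ 2 ≤ x ^ 2 * (1 + r ^ 7) := mul_le_mul_of_nonneg_left h2 (by positivity)
    _ ≤ x ^ 2 * (1 + 4 / (7 * eps) / x ^ 2) := by
        apply mul_le_mul_of_nonneg_left _ (by positivity)
        linarith
    _ = x ^ 2 + 4 / (7 * eps) := by
        have : x ≠ 0 := hx0.ne'
        rw [mul_add, mul_one, mul_div_cancel₀ _ (pow_ne_zero 2 this)]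
    _ ≤ 1 + 4 / (7 * eps) := by linarith

/-- `L²` convergence to the profile, radial form -/
theorem Pu_L2 : Tendsto (fun t => ∫ x in (0 : ℝ)..1, x ^ 2 * (Pu t x - (rho x).toReal) ^ 2)
    (𝓝[<] Ts) (𝓝 0) := by
  have hTs := Ts_pos
  have hev : ∀ᶠ t in 𝓝[<] Ts, t ∈ Ioo 0 Ts := Ioo_mem_nhdsLT hTs
  have h0 : ∫ x in (0 : ℝ)..1, (0 : ℝ) = 0 := by simp
  suffices h : Tendsto (fun t => ∫ x in (0 : ℝ)..1, x ^ 2 * (Pu t x - (rho x).toReal) ^ 2)
      (𝓝[<] Ts) (𝓝 (∫ x in (0 : ℝ)..1, (0 : ℝ))) by rwa [h0] at h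
  apply intervalIntegral.tendsto_integral_filter_of_dominated_convergence
    (fun _ => 1 + 4 / (7 * eps))
  · filter_upwards [hev] with t ht
    rw [uIoc_of_le zero_le_one]
    have hc := Pu_contOn (t := t) ⟨ht.1.le, ht.2⟩
    have h1 : AEStronglyMeasurable (Pu t) (volume.restrict (Ioc (0 : ℝ) 1)) :=
      (hc.mono Ioc_subset_Icc_self).aestronglyMeasurable measurableSet_Ioc
    have h2 : AEStronglyMeasurable (fun x : ℝ => x ^ 2) (volume.restrict (Ioc (0 : ℝ) 1)) :=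
      (by fun_prop : Continuous fun x : ℝ => x ^ 2).aestronglyMeasurable
    exact h2.mul ((h1.sub rho_meas).pow 2)
  · filter_upwards [hev] with t ht
    refine Eventually.of_forall fun x hx => ?_
    rw [uIoc_of_le zero_le_one] at hx
    have h1 := Pu_le_rho ht hx
    have h2 := Pu_nonneg (t := t) ⟨ht.1.le, ht.2⟩ ⟨hx.1.le, hx.2⟩
    rw [Real.norm_eq_abs, abs_of_nonneg (by positivity)]
    refine le_trans ?_ (rho_sq_le hx)
    apply mul_le_mul_of_nonneg_left _ (by positivity)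
    nlinarith
  · exact intervalIntegrable_const
  · refine Eventually.of_forall fun x hx => ?_
    rw [uIoc_of_le zero_le_one] at hx
    have h1 := rho_tendsto hx
    have h2 := ((h1.sub_const (rho x).toReal).pow 2).const_mul (x ^ 2)
    simpa using h2

theorem rho_int : IntegrableOn (fun x => x ^ 2 * (rho x).toReal ^ 2) (Ioo 0 1) := by
  apply IntegrableOn.mono_set _ Ioo_subset_Ioc_self
  have h2 : AEStronglyMeasurable (fun x : ℝ => x ^ 2) (volume.restrict (Ioc (0 : ℝ) 1)) :=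
    (by fun_prop : Continuous fun x : ℝ => x ^ 2).aestronglyMeasurable
  have h3 : AEStronglyMeasurable (fun x => x ^ 2 * (rho x).toReal ^ 2)
      (volume.restrict (Ioc (0 : ℝ) 1)) := h2.mul (rho_meas.pow 2)
  refine (integrable_const (1 + 4 / (7 * eps))).mono' h3 ?_
  rw [ae_restrict_iff' measurableSet_Ioc]
  refine Eventually.of_forall fun x hx => ?_
  rw [Real.norm_eq_abs, abs_of_nonneg (by positivity)]
  exact rho_sq_le hx

end LE
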