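import Pool.Agent.H6.LE.Heat3

/-! Duhamel operator: time derivative. -/

namespace LE
open Set Filter Topology MeasureTheory

/-- Fubini on the triangle for weakly singular kernels -/
theorem h63_tri {k : ℝ → ℝ → ℝ} (hk : Measurable fun p : ℝ × ℝ => k p.1 p.2) {t C : ℝ}
    (ht : 0 ≤ t) (hb : ∀ u s, 0 < s → s < u → u ≤ t → |k u s| ≤ C * (u - s) ^ (-(1 / 2) : ℝ)) :
    ∫ u in (0 : ℝ)..t, ∫ s in (0 : ℝ)..u, k u s = ∫ s in (0 : ℝ)..t, ∫ u in s..t, k u s := by
  set A : Set (ℝ × ℝ) := {p | 0 < p.2 ∧ p.2 < p.1 ∧ p.1 ≤ t} with hA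
  have hAm : MeasurableSet A := by
    refine (measurableSet_lt measurable_const measurable_snd).inter
      ((measurableSet_lt measurable_snd measurable_fst).inter
      (measurableSet_le measurable_fst measurable_const))
  set F : ℝ → ℝ → ℝ := fun u s => A.indicator (fun p => k p.1 p.2) (u, s) with hF
  set f0 : ℝ → ℝ := (Ioc 0 t).indicator (fun _ => (1 : ℝ)) with hf0
  set g0 : ℝ → ℝ := (Ioc 0 t).indicator (fun r : ℝ => r ^ (-(1 / 2) : ℝ)) with hg0
  have hf0i : Integrable f0 := by
    rw [hf0, integrable_indicator_iff measurableSet_Ioc]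
    exact integrableOn_const (by simp)
  have hg0i : Integrable g0 := by
    rw [hg0, integrable_indicator_iff measurableSet_Ioc]
    exact (intervalIntegrable_iff_integrableOn_Ioc_of_le ht).1 (h63_rpow_int 0 t)
  have hconv := hf0i.convolution_integrand (ContinuousLinearMap.mul ℝ ℝ) hg0i
  have hFi : Integrable (Function.uncurry F) (volume.prod volume) := by
    refine Integrable.mono' (hconv.const_mul C) ?_ (Eventually.of_forall (fun p => ?_))
    · exact (hk.indicator hAm).aestronglyMeasurable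
    · obtain ⟨u, s⟩ := p
      simp only [Function.uncurry, hF, ContinuousLinearMap.mul_apply']
      by_cases hp : (u, s) ∈ A
      · rw [indicator_of_mem hp]
        obtain ⟨h1, h2, h3⟩ := hp
        simp only at h1 h2 h3
        have m1 : s ∈ Ioc 0 t := ⟨h1, by linarith⟩
        have m2 : u - s ∈ Ioc 0 t := ⟨by linarith, by linarith⟩
        have e1 : f0 s = 1 := indicator_of_mem m1 _
        have e2 : g0 (u - s) = (u - s) ^ (-(1 / 2) : ℝ) := indicator_of_mem m2 _
        rw [e1, e2, one_mul]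
        exact hb u s h1 h2 h3
      · rw [indicator_of_notMem hp, norm_zero]
        by_cases hs : f0 s * g0 (u - s) = 0
        · rw [hs, mul_zero]
        · have hs1 : f0 s ≠ 0 := left_ne_zero_of_mul hs
          have hs2 : g0 (u - s) ≠ 0 := right_ne_zero_of_mul hs
          have m1 : s ∈ Ioc 0 t := by
            by_contra hc
            exact hs1 (indicator_of_notMem hc _)
          have m2 : u - s ∈ Ioc 0 t := by
            by_contra hc
            exact hs2 (indicator_of_notMem hc _)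
          have e1 : f0 s = 1 := indicator_of_mem m1 _
          have e2 : g0 (u - s) = (u - s) ^ (-(1 / 2) : ℝ) := indicator_of_mem m2 _
          rw [e1, e2, one_mul]
          have hCn : 0 ≤ C := by
            have ht0 : 0 < t := lt_of_lt_of_le m1.1 m1.2
            have := (abs_nonneg _).trans (hb t (t / 2) (by linarith) (by linarith) le_rfl)
            have hpos : 0 < (t - t / 2) ^ (-(1 / 2) : ℝ) := Real.rpow_pos_of_pos (by linarith) _
            by_contra hc
            push Not at hc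
            nlinarith [mul_pos_of_neg_of_neg hc (neg_neg_of_pos hpos)]
          exact mul_nonneg hCn (Real.rpow_nonneg m2.1.le _)
  have hswap := integral_integral_swap hFi
  have hL : ∫ u, ∫ s, F u s = ∫ u in (0 : ℝ)..t, ∫ s in (0 : ℝ)..u, k u s := by
    rw [intervalIntegral.integral_of_le ht, ← integral_indicator measurableSet_Ioc]
    refine integral_congr_ae (Eventually.of_forall (fun u => ?_))
    simp only
    by_cases hu : u ∈ Ioc 0 t
    · rw [indicator_of_mem hu, intervalIntegral.integral_of_le hu.1.le,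
        integral_Ioc_eq_integral_Ioo, ← integral_indicator measurableSet_Ioo]
      refine integral_congr_ae (Eventually.of_forall (fun s => ?_))
      simp only [hF]
      by_cases hs : s ∈ Ioo 0 u
      · rw [indicator_of_mem hs, indicator_of_mem]
        exact ⟨hs.1, hs.2, hu.2⟩
      · rw [indicator_of_notMem hs, indicator_of_notMem]
        exact fun hc => hs ⟨hc.1, hc.2.1⟩
    · rw [indicator_of_notMem hu]
      have : (fun s => F u s) = fun _ => 0 := by
        funext s
        simp only [hF]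
        rw [indicator_of_notMem]
        exact fun hc => hu ⟨hc.1.trans hc.2.1, hc.2.2⟩
      rw [this, integral_zero]
  have hR : ∫ s, ∫ u, F u s = ∫ s in (0 : ℝ)..t, ∫ u in s..t, k u s := by
    rw [intervalIntegral.integral_of_le ht, ← integral_indicator measurableSet_Ioc]
    refine integral_congr_ae (Eventually.of_forall (fun s => ?_))
    simp only
    by_cases hs : s ∈ Ioc 0 t
    · rw [indicator_of_mem hs, intervalIntegral.integral_of_le hs.2,
        ← integral_indicator measurableSet_Ioc]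
      refine integral_congr_ae (Eventually.of_forall (fun u => ?_))
      simp only [hF]
      by_cases hu : u ∈ Ioc s t
      · rw [indicator_of_mem hu, indicator_of_mem]
        exact ⟨hs.1, hu.1, hu.2⟩
      · rw [indicator_of_notMem hu, indicator_of_notMem]
        exact fun hc => hu ⟨hc.2.1, hc.2.2⟩
    · rw [indicator_of_notMem hs]
      have : (fun u => F u s) = fun _ => 0 := by
        funext u
        simp only [hF]
        rw [indicator_of_notMem]
        exact fun hc => hs ⟨hc.1, hc.2.1.le.trans hc.2.2⟩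
      rw [this, integral_zero]
  rw [← hL, ← hR, hswap]

theorem h63_H_derivσ {G G1 : ℝ → ℝ → ℝ} (h : PC G) (h1 : PC G1)
    (hd : ∀ s x, HasDerivAt (G s) (G1 s x) x) (s x σ : ℝ) :
    HasDerivAt (fun y => h63_H G s x y) (h63_K G1 s x σ) σ := by
  have hpr := h63_prob
  obtain ⟨B, hB⟩ := h.bdd s
  have hB := hB s le_rfl
  obtain ⟨B1, hB1⟩ := h1.bdd s
  have hB1 := hB1 s le_rfl
  have hg : Continuous (G s) := h.cont.comp (by fun_prop : Continuous fun x : ℝ => (s, x))
  have hg1 : Continuous (G1 s) := h1.cont.comp (by fun_prop : Continuous fun x : ℝ => (s, x))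
  refine (hasDerivAt_integral_of_dominated_loc_of_deriv_le (μ := gam) (s := univ)
    (F := fun y z => G s (x + y * z)) (F' := fun y z => z * G1 s (x + y * z))
    (bound := fun z => |z| * B1) univ_mem ?_ ?_ ?_ ?_ (h63_int_abs.mul_const _) ?_).2
  · exact Eventually.of_forall (fun y => (hg.comp (by fun_prop)).aestronglyMeasurable)
  · exact Integrable.mono' (integrable_const B) (hg.comp (by fun_prop)).aestronglyMeasurable
      (Eventually.of_forall (fun z => hB _))
  · exact (continuous_id.mul (hg1.comp (by fun_prop))).aestronglyMeasurable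
  · refine Eventually.of_forall (fun z y _ => ?_)
    rw [Real.norm_eq_abs, abs_mul]
    exact mul_le_mul_of_nonneg_left (hB1 _) (abs_nonneg _)
  · refine Eventually.of_forall (fun z y _ => ?_)
    have h1 : HasDerivAt (fun y : ℝ => x + y * z) z y := by
      have := ((hasDerivAt_id y).mul_const z).const_add x
      simpa using this
    have := (hd s (x + y * z)).comp y h1
    rw [mul_comm]
    exact this

theorem h63_H_derivr {G G1 : ℝ → ℝ → ℝ} (h : PC G) (h1 : PC G1)
    (hd : ∀ s x, HasDerivAt (G s) (G1 s x) x) (s x : ℝ) {r : ℝ} (hr : 0 < r) :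
    HasDerivAt (fun y => h63_H G s x (√(2 * y))) ((√(2 * r))⁻¹ * h63_K G1 s x (√(2 * r))) r := by
  have h2 : HasDerivAt (fun y : ℝ => √(2 * y)) ((√(2 * r))⁻¹) r := by
    have h3 : HasDerivAt (fun y : ℝ => 2 * y) 2 r := by
      simpa using (hasDerivAt_id r).const_mul 2
    have := h3.sqrt (by positivity)
    refine this.congr_deriv ?_
    rw [div_mul_eq_div_div, div_self two_ne_zero, one_div]
  have := (h63_H_derivσ h h1 hd s x (√(2 * r))).comp r h2
  rw [mul_comm]
  exact this

theorem h63_inv (r : ℝ) (hr : 0 ≤ r) : (√(2 * r))⁻¹ = (√2)⁻¹ * r ^ (-(1 / 2) : ℝ) := by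
  rw [Real.rpow_neg hr, ← Real.sqrt_eq_rpow, Real.sqrt_mul (by norm_num), mul_inv]

theorem h63_FTC {G G1 : ℝ → ℝ → ℝ} (h : PC G) (h1 : PC G1)
    (hd : ∀ s x, HasDerivAt (G s) (G1 s x) x) (s x : ℝ) {r : ℝ} (hr : 0 ≤ r) :
    ∫ y in (0 : ℝ)..r, (√(2 * y))⁻¹ * h63_K G1 s x (√(2 * y)) = h63_H G s x (√(2 * r)) - G s x := by
  have hpr := h63_prob
  obtain ⟨B1, hB1⟩ := h1.bdd s
  have hB1 := hB1 s le_rfl
  rw [intervalIntegral.integral_eq_sub_of_hasDerivAt_of_le hr
    (f := fun y => h63_H G s x (√(2 * y))) ?_ ?_ ?_]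
  · simp [h63_H]
  · exact ((h63_H_cont h).comp (by fun_prop : Continuous fun y : ℝ =>
      (s, x, √(2 * y)))).continuousOn
  · exact fun y hy => h63_H_derivr h h1 hd s x hy.1
  · have hcont : Continuous fun y : ℝ => h63_K G1 s x (√(2 * y)) :=
      (h63_K_cont h1).comp (by fun_prop : Continuous fun y : ℝ => (s, x, √(2 * y)))
    have hi := ((h63_rpow_int 0 r).const_mul (√2)⁻¹).mul_continuousOn hcont.continuousOn
    rw [intervalIntegrable_iff_integrableOn_Ioc_of_le hr] at hi ⊢
    refine hi.congr_fun (fun y hy => ?_) measurableSet_Ioc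
    simp only
    rw [h63_inv y hy.1.le]

theorem h63_D_int {G1 : ℝ → ℝ → ℝ} (x : ℝ) {u : ℝ} (hu : 0 < u) :
    D G1 u x = ∫ s in (0 : ℝ)..u, (√(2 * (u - s)))⁻¹ * h63_K G1 s x (√(2 * (u - s))) := by
  have e1 := intervalIntegral.integral_comp_mul_left (a := 0) (b := 1)
    (fun s => (√(2 * (u - s)))⁻¹ * h63_K G1 s x (√(2 * (u - s)))) hu.ne'
  rw [mul_zero, mul_one, smul_eq_mul] at e1
  have e2 : ∫ s in (0 : ℝ)..u, (√(2 * (u - s)))⁻¹ * h63_K G1 s x (√(2 * (u - s))) =
      u * ∫ ρ in (0 : ℝ)..1, (√(2 * (u - u * ρ)))⁻¹ * h63_K G1 (u * ρ) x (√(2 * (u - u * ρ))) := by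
    rw [e1, ← mul_assoc, mul_inv_cancel₀ hu.ne', one_mul]
  rw [e2, h63_D_eq, max_eq_left hu.le]
  have e3 := intervalIntegral.integral_comp_sub_left (a := 0) (b := 1)
    (fun ρ : ℝ => √(u / 2) * ρ ^ (-(1 / 2) : ℝ) * h63_K G1 (u * (1 - ρ)) x (√(2 * u * ρ))) 1
  rw [sub_self, sub_zero] at e3
  rw [← e3, ← intervalIntegral.integral_const_mul]
  refine intervalIntegral.integral_congr_ae (Eventually.of_forall (fun ρ hρ => ?_))
  rw [uIoc_of_le zero_le_one] at hρ
  have h0 : (0 : ℝ) ≤ 1 - ρ := by linarith [hρ.2]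
  rw [show 1 - (1 - ρ) = ρ by ring, show 2 * (u - u * ρ) = 2 * u * (1 - ρ) by ring, ← mul_assoc]
  congr 1
  rw [show 2 * u * (1 - ρ) = 2 * (u * (1 - ρ)) by ring, h63_inv _ (mul_nonneg hu.le h0),
    Real.mul_rpow hu.le h0, ← mul_assoc, ← mul_assoc]
  congr 1
  rw [Real.rpow_neg hu.le, ← Real.sqrt_eq_rpow, Real.sqrt_div hu.le]
  have hsu : √u ≠ 0 := (Real.sqrt_pos.2 hu).ne'
  have h3 : √u * √u = u := Real.mul_self_sqrt hu.le
  rw [div_eq_mul_inv]
  field_simp
  linarith [h3]

theorem h63_I_int {G : ℝ → ℝ → ℝ} (x : ℝ) {t : ℝ} (ht : 0 < t) :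
    I G t x = ∫ s in (0 : ℝ)..t, h63_H G s x (√(2 * (t - s))) := by
  have e1 := intervalIntegral.integral_comp_mul_left (a := 0) (b := 1)
    (fun s => h63_H G s x (√(2 * (t - s)))) ht.ne'
  rw [mul_zero, mul_one, smul_eq_mul] at e1
  have e2 : ∫ s in (0 : ℝ)..t, h63_H G s x (√(2 * (t - s))) =
      t * ∫ ρ in (0 : ℝ)..1, h63_H G (t * ρ) x (√(2 * (t - t * ρ))) := by
    rw [e1, ← mul_assoc, mul_inv_cancel₀ ht.ne', one_mul]
  rw [e2, h63_I_eq, max_eq_left ht.le]
  have e3 := intervalIntegral.integral_comp_sub_left (a := 0) (b := 1)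
    (fun ρ : ℝ => t * h63_H G (t * (1 - ρ)) x (√(2 * t * ρ))) 1
  rw [sub_self, sub_zero] at e3
  rw [← e3, ← intervalIntegral.integral_const_mul]
  refine intervalIntegral.integral_congr (fun ρ _ => ?_)
  beta_reduce
  rw [show 1 - (1 - ρ) = ρ by ring, show 2 * (t - t * ρ) = 2 * t * (1 - ρ) by ring]

/-- integrated form of the heat equation -/
theorem h63_I_FTC {G G1 : ℝ → ℝ → ℝ} (h : PC G) (h1 : PC G1)
    (hd : ∀ s x, HasDerivAt (G s) (G1 s x) x) {t : ℝ} (ht : 0 < t) (x : ℝ) :
    I G t x = ∫ u in (0 : ℝ)..t, (G u x + D G1 u x) := by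
  obtain ⟨B1, hB1⟩ := h1.bdd t
  have hGc : Continuous fun u => G u x :=
    h.cont.comp (by fun_prop : Continuous fun u : ℝ => (u, x))
  have hDc : Continuous fun u => D G1 u x :=
    (D_PC h1).cont.comp (by fun_prop : Continuous fun u : ℝ => (u, x))
  have htri := h63_tri (k := fun u s => (√(2 * (u - s)))⁻¹ * h63_K G1 s x (√(2 * (u - s))))
    (t := t) (C := (√2)⁻¹ * (h63_c * B1)) ?_ ht.le ?_
  · rw [intervalIntegral.integral_add (hGc.intervalIntegrable _ _) (hDc.intervalIntegrable _ _)]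
    have e1 : ∫ u in (0 : ℝ)..t, D G1 u x = ∫ u in (0 : ℝ)..t, ∫ s in (0 : ℝ)..u,
        (√(2 * (u - s)))⁻¹ * h63_K G1 s x (√(2 * (u - s))) := by
      refine intervalIntegral.integral_congr_ae (Eventually.of_forall (fun u hu => ?_))
      rw [uIoc_of_le ht.le] at hu
      exact h63_D_int x hu.1
    have e2 : ∫ s in (0 : ℝ)..t, ∫ u in s..t,
        (√(2 * (u - s)))⁻¹ * h63_K G1 s x (√(2 * (u - s))) =
        ∫ s in (0 : ℝ)..t, (h63_H G s x (√(2 * (t - s))) - G s x) := by
      refine intervalIntegral.integral_congr_ae (Eventually.of_forall (fun s hs => ?_))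
      rw [uIoc_of_le ht.le] at hs
      rw [intervalIntegral.integral_comp_sub_right
        (fun y => (√(2 * y))⁻¹ * h63_K G1 s x (√(2 * y))) s, sub_self]
      exact h63_FTC h h1 hd s x (by linarith [hs.2])
    have hHc : Continuous fun s => h63_H G s x (√(2 * (t - s))) :=
      (h63_H_cont h).comp (by fun_prop : Continuous fun s : ℝ => (s, x, √(2 * (t - s))))
    rw [e1, htri, e2, intervalIntegral.integral_sub (hHc.intervalIntegrable _ _)
      (hGc.intervalIntegrable _ _), ← h63_I_int x ht]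
    ring
  · refine Measurable.mul ?_ ?_
    · exact (by fun_prop : Measurable fun p : ℝ × ℝ => √(2 * (p.1 - p.2))).inv
    · exact ((h63_K_cont h1).comp (by fun_prop : Continuous fun p : ℝ × ℝ =>
        (p.2, x, √(2 * (p.1 - p.2))))).measurable
  · intro u s hs hsu hut
    have hr : 0 < u - s := by linarith
    rw [abs_mul, abs_of_nonneg (inv_nonneg.2 (Real.sqrt_nonneg _)), h63_inv _ hr.le]
    have hK := h63_K_bound h1 (s := s) (B := B1) (fun y => hB1 s (by linarith) y) x
      (√(2 * (u - s)))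
    have hp : 0 ≤ (√2)⁻¹ * (u - s) ^ (-(1 / 2) : ℝ) :=
      mul_nonneg (inv_nonneg.2 (Real.sqrt_nonneg _)) (Real.rpow_nonneg hr.le _)
    calc _ ≤ (√2)⁻¹ * (u - s) ^ (-(1 / 2) : ℝ) * (h63_c * B1) := mul_le_mul_of_nonneg_left hK hp
      _ = _ := by ring

/-- time derivative of the Duhamel operator for a source which is `C¹` in space -/
theorem I_time {G G1 : ℝ → ℝ → ℝ} (h : PC G) (h1 : PC G1)
    (hd : ∀ s x, HasDerivAt (G s) (G1 s x) x) {t : ℝ} (ht : 0 < t) (x : ℝ) :
    HasDerivAt (fun s => I G s x) (G t x + D G1 t x) t := by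
  have hc : Continuous fun u => G u x + D G1 u x :=
    (h.cont.comp (by fun_prop : Continuous fun u : ℝ => (u, x))).add
      ((D_PC h1).cont.comp (by fun_prop : Continuous fun u : ℝ => (u, x)))
  have hdd := intervalIntegral.integral_hasDerivAt_right (hc.intervalIntegrable 0 t)
    (hc.stronglyMeasurableAtFilter _ _) hc.continuousAt
  refine hdd.congr_of_eventuallyEq ?_
  filter_upwards [lt_mem_nhds ht] with s hs
  exact h63_I_FTC h h1 hd hs x

end LE
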