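import Pool.Agent.H6.LE.Mild
import Pool.Agent.H6.LE.Avg
import Pool.Agent.H6.LE.Heat4

/-! Existence of a global classical solution of the truncated problem. -/

namespace LE
open Set Filter Topology MeasureTheory

theorem ex_PC_add {A B : ℝ → ℝ → ℝ} (hA : PC A) (hB : PC B) : PC (fun t x => A t x + B t x) :=
  ⟨hA.cont.add hB.cont, fun s x => by simp only [hA.per, hB.per],
    fun s x hs => by simp only [hA.frz s x hs, hB.frz s x hs]⟩

theorem ex_PC_fold {Q : ℝ → ℝ → ℝ} (hc : Continuous fun z : ℝ × ℝ => Q z.1 z.2)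
    (h : ∀ t, Q t 1 = Q t (-1)) (hf : ∀ t x, t ≤ 0 → Q t x = Q 0 x) :
    PC (fun t x => Q t (fold x)) :=
  ⟨cont_fold hc h, fun s x => by simp only [fold_per], fun s x hs => hf s (fold x) hs⟩

theorem ex_fold {A : ℝ → ℝ → ℝ} (hA : PC A) (t x : ℝ) : A t (fold x) = A t x := by
  have hp : Function.Periodic (A t) 2 := fun y => hA.per t y
  have h1 := hp.sub_int_mul_eq (x := x) (round (x / 2))
  unfold fold
  rw [mul_comm]
  exact h1

theorem ex_abs_fold_cont : Continuous fun x : ℝ => |fold x| := by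
  have h := cont_fold (Q := fun _ y => |y|) (continuous_snd.abs) (fun _ => by simp)
  exact h.comp (Continuous.prodMk_right (0 : ℝ))

theorem ex_Nf_cont {k : ℝ} (hk : 0 < k) : Continuous fun z : ℝ × ℝ => Nf k z.1 z.2 := by
  obtain ⟨L, hL0, -, -, hL, -⟩ := g_lip hk
  have hg : Continuous (g k) := (g_smooth k).continuous
  have hc : Continuous fun z : ℝ × ℝ => |fold z.1| := ex_abs_fold_cont.comp continuous_fst
  rw [continuous_iff_continuousAt]
  rintro ⟨x, v⟩
  by_cases h0 : |fold x| = 0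
  · have h1 : Nf k x v = 0 := by simp [Nf, h0]
    have hb : ∀ z : ℝ × ℝ, ‖Nf k z.1 z.2‖ ≤ |fold z.1| * L := by
      intro z
      unfold Nf
      rw [norm_mul, Real.norm_eq_abs, Real.norm_eq_abs, abs_abs]
      exact mul_le_mul_of_nonneg_left (hL _) (abs_nonneg _)
    unfold ContinuousAt
    simp only [h1]
    refine squeeze_zero_norm (a := fun z : ℝ × ℝ => |fold z.1| * L) hb ?_
    have h2 : Tendsto (fun z : ℝ × ℝ => |fold z.1| * L) (𝓝 (x, v)) (𝓝 (|fold x| * L)) :=
      (hc.mul continuous_const).continuousAt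
    rwa [h0, zero_mul] at h2
  · unfold Nf
    have h3 : ContinuousAt (fun z : ℝ × ℝ => |fold z.1|) (x, v) := hc.continuousAt
    have h4 : ContinuousAt (fun z : ℝ × ℝ => z.2 / |fold z.1|) (x, v) :=
      continuousAt_snd.div h3 h0
    exact h3.mul (hg.continuousAt.comp h4)

theorem ex_Nf_eq (k y p : ℝ) : |y| * g k (y * p / |y|) = y * g k p := by
  rcases lt_trichotomy y 0 with hy | hy | hy
  · rw [abs_of_neg hy]
    have : y * p / -y = -p := by
      rw [div_neg, mul_div_cancel_left₀ p hy.ne]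
    rw [this, g_odd]
    ring
  · simp [hy]
  · rw [abs_of_pos hy]
    have : y * p / y = p := mul_div_cancel_left₀ p hy.ne'
    rw [this]

theorem ex_hasDerivAt_zero {h : ℝ → ℝ} (hc : ContinuousAt h 0) :
    HasDerivAt (fun y => y * h y) (h 0) 0 := by
  rw [hasDerivAt_iff_tendsto_slope]
  have h1 : Tendsto h (𝓝[≠] 0) (𝓝 (h 0)) := hc.tendsto.mono_left nhdsWithin_le_nhds
  refine h1.congr' ?_
  filter_upwards [self_mem_nhdsWithin] with y hy
  have hy' : y ≠ 0 := hy
  rw [slope_def_field]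
  field_simp
  ring

noncomputable def ex_d3 (x : ℝ) : ℝ :=
  12 * (9 * (1 - x ^ 2) - 42 * (1 - x ^ 2) ^ 2) +
    12 * x * (9 * (-(2 * x)) - 42 * (2 * (1 - x ^ 2) * (-(2 * x))))

theorem ex_d3_deriv (x : ℝ) : HasDerivAt ddv0 (ex_d3 x) x := by
  unfold ddv0 ex_d3
  have h1 : HasDerivAt (fun x : ℝ => 1 - x ^ 2) (-(2 * x)) x := by
    simpa using ((hasDerivAt_id x).pow 2).const_sub 1
  have h2 : HasDerivAt (fun x : ℝ => (1 - x ^ 2) ^ 2) (2 * (1 - x ^ 2) * (-(2 * x))) x := by
    have h := h1.fun_pow 2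
    refine h.congr_deriv ?_
    norm_num
  have h3 := (h1.const_mul 9).sub (h2.const_mul 42)
  have h4 : HasDerivAt (fun x : ℝ => 12 * x) 12 x := by
    simpa using (hasDerivAt_id x).const_mul (12 : ℝ)
  exact h4.mul h3

theorem ex_u0_neg_one : u0 (-1) = 0 := by
  unfold u0
  norm_num

theorem exists_sol {k : ℝ} (hk : 1 ≤ k) : Nonempty (Sol k) := by
  have hk0 : 0 < k := by linarith
  obtain ⟨V, hV, hodd, hmild⟩ := mild hk
  have hg : ContDiff ℝ ((⊤ : ℕ∞) : WithTop ℕ∞) (g k) := g_smooth k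
  have hgd : Differentiable ℝ (g k) := hg.differentiable (by simp)
  have hg1 : ContDiff ℝ ((⊤ : ℕ∞) : WithTop ℕ∞) (deriv (g k)) := by
    have := (contDiff_infty_iff_deriv (𝕜 := ℝ)).1 hg
    exact this.2
  have hg1d : Differentiable ℝ (deriv (g k)) := hg1.differentiable (by simp)
  have hg2 : ContDiff ℝ ((⊤ : ℕ∞) : WithTop ℕ∞) (deriv (deriv (g k))) := by
    have := (contDiff_infty_iff_deriv (𝕜 := ℝ)).1 hg1
    exact this.2
  have hcg : Continuous (g k) := hg.continuous
  have hcg1 : Continuous (deriv (g k)) := hg1.continuous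
  have hcg2 : Continuous (deriv (deriv (g k))) := hg2.continuous
  -- values of `V`
  have hV0 : ∀ t, V t 0 = 0 := by
    intro t
    have := hodd t 0
    rw [neg_zero] at this
    linarith
  have hV1 : ∀ t, V t 1 = 0 := by
    intro t
    have h1 := hodd t 1
    have h2 := hV.per t (-1)
    norm_num at h2
    linarith
  have hVm1 : ∀ t, V t (-1) = 0 := by
    intro t
    rw [hodd, hV1, neg_zero]
  -- source
  obtain ⟨G, hGdef⟩ : ∃ G : ℝ → ℝ → ℝ, G = fun s y => Nf k y (V s y) := ⟨_, rfl⟩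
  rw [← hGdef] at hmild
  have hG : PC G := by
    refine ⟨?_, ?_, ?_⟩
    · rw [hGdef]
      exact (ex_Nf_cont hk0).comp (continuous_snd.prodMk hV.cont)
    · intro s x
      simp only [hGdef, Nf, fold_per, hV.per]
    · intro s x hs
      simp only [hGdef, Nf, hV.frz s x hs]
  -- initial data
  obtain ⟨q1, hq1⟩ : ∃ q1 : ℝ → ℝ, q1 = fun y => u0 y + y * du0 y := ⟨_, rfl⟩
  have hv01 : ∀ x, HasDerivAt (fun x => x * u0 x) (q1 x) x := by
    rw [hq1]
    exact v0_deriv
  have hv02 : ∀ x, HasDerivAt q1 (ddv0 x) x := by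
    rw [hq1]
    exact v0_deriv2
  obtain ⟨hV0c, hV0p, hV0o⟩ := V0_props
  have hu1 : u0 1 = 0 := u0_one
  have hum1 : u0 (-1) = 0 := ex_u0_neg_one
  have hq1c : Continuous q1 := continuous_iff_continuousAt.2 fun y => (hv02 y).continuousAt
  have hddc : Continuous ddv0 := continuous_iff_continuousAt.2 fun y => (ex_d3_deriv y).continuousAt
  have hd3c : Continuous ex_d3 := by
    unfold ex_d3
    fun_prop
  have hq1e : q1 1 = q1 (-1) := by
    simp only [hq1, hu1, hum1]
    unfold du0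
    norm_num
  have hdde : ddv0 1 = ddv0 (-1) := by
    unfold ddv0
    norm_num
  have hd3e : ex_d3 1 = ex_d3 (-1) := by
    unfold ex_d3
    norm_num
  obtain ⟨W1, hW1⟩ : ∃ W1 : ℝ → ℝ, W1 = fun x => q1 (fold x) := ⟨_, rfl⟩
  obtain ⟨W2, hW2⟩ : ∃ W2 : ℝ → ℝ, W2 = fun x => ddv0 (fold x) := ⟨_, rfl⟩
  obtain ⟨W3, hW3⟩ : ∃ W3 : ℝ → ℝ, W3 = fun x => ex_d3 (fold x) := ⟨_, rfl⟩
  have hW1c : Continuous W1 := by
    rw [hW1]
    exact (cont_fold (Q := fun _ y => q1 y) (hq1c.comp continuous_snd) (fun _ => hq1e)).comp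
      (Continuous.prodMk_right (0 : ℝ))
  have hW2c : Continuous W2 := by
    rw [hW2]
    exact (cont_fold (Q := fun _ y => ddv0 y) (hddc.comp continuous_snd) (fun _ => hdde)).comp
      (Continuous.prodMk_right (0 : ℝ))
  have hW3c : Continuous W3 := by
    rw [hW3]
    exact (cont_fold (Q := fun _ y => ex_d3 y) (hd3c.comp continuous_snd) (fun _ => hd3e)).comp
      (Continuous.prodMk_right (0 : ℝ))
  have hW1p : ∀ x, W1 (x + 2) = W1 x := fun x => by simp only [hW1, fold_per]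
  have hW2p : ∀ x, W2 (x + 2) = W2 x := fun x => by simp only [hW2, fold_per]
  have hW3p : ∀ x, W3 (x + 2) = W3 x := fun x => by simp only [hW3, fold_per]
  have hdV0 : ∀ x, HasDerivAt V0 (W1 x) x := by
    intro x
    rw [hW1]
    exact deriv_fold (q := fun y => y * u0 y) (q1 := q1) hv01 (by simp [hu1, hum1]) hq1e x
  have hdW1 : ∀ x, HasDerivAt W1 (W2 x) x := by
    intro x
    rw [hW1, hW2]
    exact deriv_fold (q := q1) (q1 := ddv0) hv02 hq1e hdde x
  have hdW2 : ∀ x, HasDerivAt W2 (W3 x) x := by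
    intro x
    rw [hW2, hW3]
    exact deriv_fold (q := ddv0) (q1 := ex_d3) ex_d3_deriv hdde hd3e x
  -- first derivative
  have hVeq : ∀ t x, V t x = S V0 t x + I G t x := hmild
  obtain ⟨V1, hV1def⟩ : ∃ A : ℝ → ℝ → ℝ, A = fun t x => S W1 t x + D G t x := ⟨_, rfl⟩
  have hPV1 : PC V1 := hV1def ▸ ex_PC_add (S_PC hW1c hW1p) (D_PC hG)
  have dV : ∀ t x, HasDerivAt (V t) (V1 t x) x := by
    intro t x
    have h1 : V t = fun x => S V0 t x + I G t x := funext fun x => hVeq t x
    rw [h1, hV1def]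
    exact (S_deriv hW1c hW1p hV0p hdV0 t x).add (I_deriv hG t x)
  obtain ⟨P, hP⟩ : ∃ A : ℝ → ℝ → ℝ, A = Pof V1 := ⟨_, rfl⟩
  have cP : Continuous fun z : ℝ × ℝ => P z.1 z.2 := hP ▸ Pof_cont hPV1.cont
  have VP : ∀ t x, V t x = x * P t x := hP ▸ Pof_mul hPV1.cont dV hV0
  have hPt1 : ∀ t, P t 1 = 0 := by
    intro t
    have := VP t 1
    rw [hV1, one_mul] at this
    exact this.symm
  have hPtm1 : ∀ t, P t (-1) = 0 := by
    intro t
    have := VP t (-1)
    rw [hVm1] at this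
    linarith
  have hPf : ∀ t x, t ≤ 0 → P t x = P 0 x := by
    intro t x ht
    simp only [hP, Pof]
    refine intervalIntegral.integral_congr fun θ _ => ?_
    exact hPV1.frz t (θ * x) ht
  have hP0 : ∀ t, P t 0 = V1 t 0 := by
    intro t
    simp [hP, Pof]
  have even : ∀ t x, P t (-x) = P t x := by
    intro t x
    by_cases hx : x = 0
    · rw [hx, neg_zero]
    · have h1 := VP t (-x)
      have h2 := VP t x
      rw [hodd, h2] at h1
      have h3 : x * (P t (-x) - P t x) = 0 := by linarith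
      rcases mul_eq_zero.1 h3 with h | h
      · exact absurd h hx
      · linarith
  -- source in terms of `P`
  obtain ⟨Q, hQ⟩ : ∃ A : ℝ → ℝ → ℝ, A = fun t y => y * g k (P t y) := ⟨_, rfl⟩
  obtain ⟨Q1, hQ1⟩ : ∃ A : ℝ → ℝ → ℝ, A = fun t y => g k (P t y) +
    deriv (g k) (P t y) * (V1 t y - P t y) := ⟨_, rfl⟩
  have hGQ : ∀ t x, G t x = Q t (fold x) := by
    intro t x
    simp only [hGdef, Nf, hQ]
    rw [← ex_fold hV t x, VP t (fold x)]
    exact ex_Nf_eq k (fold x) (P t (fold x))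
  have hQ1v : ∀ t, Q t 1 = 0 := by
    intro t
    simp [hQ, hPt1, g_zero]
  have hQm1v : ∀ t, Q t (-1) = 0 := by
    intro t
    simp [hQ, hPtm1, g_zero]
  have hQe : ∀ t, Q t 1 = Q t (-1) := fun t => by rw [hQ1v, hQm1v]
  have hQ1e : ∀ t, Q1 t 1 = Q1 t (-1) := by
    intro t
    simp [hQ1, hPt1, hPtm1, g_zero, dg_zero]
  have hQ1c : Continuous fun z : ℝ × ℝ => Q1 z.1 z.2 := by
    rw [hQ1]
    exact (hcg.comp cP).add ((hcg1.comp cP).mul (hPV1.cont.sub cP))
  have hcPt : ∀ t, Continuous (P t) := fun t => cP.comp (Continuous.prodMk_right t)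
  have dQ : ∀ t y, HasDerivAt (Q t) (Q1 t y) y := by
    intro t y
    by_cases hy : y = 0
    · subst hy
      have h1 : Q1 t 0 = g k (P t 0) := by
        simp only [hQ1]
        rw [← hP0 t]
        ring
      rw [h1, hQ]
      exact ex_hasDerivAt_zero (h := fun y => g k (P t y)) ((hcg.comp (hcPt t)).continuousAt)
    · have hPd : HasDerivAt (P t) ((V1 t y - P t y) / y) y := by
        have h2 : HasDerivAt (fun y => V t y / y) ((V1 t y * y - V t y * 1) / y ^ 2) y :=
          (dV t y).div (hasDerivAt_id y) hy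
        have h3 : (V1 t y * y - V t y * 1) / y ^ 2 = (V1 t y - P t y) / y := by
          rw [VP t y]
          field_simp
        rw [h3] at h2
        refine h2.congr_of_eventuallyEq ?_
        filter_upwards [isOpen_ne.mem_nhds hy] with z hz
        have hz' : z ≠ 0 := hz
        rw [VP t z]
        field_simp
      have h4 : HasDerivAt (fun y => g k (P t y)) (deriv (g k) (P t y) * ((V1 t y - P t y) / y)) y :=
        (hgd (P t y)).hasDerivAt.comp y hPd
      have h5 := (hasDerivAt_id y).mul h4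
      rw [hQ]
      refine h5.congr_deriv ?_
      simp only [hQ1, id]
      field_simp
  obtain ⟨G1, hG1def⟩ : ∃ A : ℝ → ℝ → ℝ, A = fun t x => Q1 t (fold x) := ⟨_, rfl⟩
  have hG1 : PC G1 := by
    rw [hG1def]
    refine ex_PC_fold hQ1c hQ1e ?_
    intro t x ht
    simp only [hQ1, hPf t x ht, hPV1.frz t x ht]
  have hGfun : ∀ t, G t = fun x => Q t (fold x) := fun t => funext fun x => hGQ t x
  have dG : ∀ t x, HasDerivAt (G t) (G1 t x) x := by
    intro t x
    rw [hGfun t, hG1def]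
    exact deriv_fold (dQ t) (hQe t) (hQ1e t) x
  -- second derivative
  have hV1eq : ∀ t x, V1 t x = S W1 t x + I G1 t x := by
    intro t x
    simp only [hV1def, D_eq hG hG1 dG t x]
  obtain ⟨V2, hV2def⟩ : ∃ A : ℝ → ℝ → ℝ, A = fun t x => S W2 t x + D G1 t x := ⟨_, rfl⟩
  have hPV2 : PC V2 := hV2def ▸ ex_PC_add (S_PC hW2c hW2p) (D_PC hG1)
  have dV1 : ∀ t x, HasDerivAt (V1 t) (V2 t x) x := by
    intro t x
    have h1 : V1 t = fun x => S W1 t x + I G1 t x := funext fun x => hV1eq t x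
    rw [h1, hV2def]
    exact (S_deriv hW2c hW2p hW1p hdW1 t x).add (I_deriv hG1 t x)
  obtain ⟨P1, hP1⟩ : ∃ A : ℝ → ℝ → ℝ, A = Pof1 V2 := ⟨_, rfl⟩
  have cP1 : Continuous fun z : ℝ × ℝ => P1 z.1 z.2 := hP1 ▸ Pof1_cont hPV2.cont
  have dP : ∀ t x, HasDerivAt (P t) (P1 t x) x := by
    rw [hP, hP1]
    exact Pof_deriv hPV2.cont dV1
  have V1P : ∀ t x, V1 t x = P t x + x * P1 t x := by
    intro t x
    have h1 : HasDerivAt (V t) (1 * P t x + x * P1 t x) x := by
      have h2 : V t = fun x => x * P t x := funext fun x => VP t x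
      rw [h2]
      exact (hasDerivAt_id x).mul (dP t x)
    rw [(dV t x).unique h1, one_mul]
  have hP1f : ∀ t x, t ≤ 0 → P1 t x = P1 0 x := by
    intro t x ht
    simp only [hP1, Pof1]
    refine intervalIntegral.integral_congr fun θ _ => ?_
    simp only [hPV2.frz t (θ * x) ht]
  obtain ⟨Q2, hQ2⟩ : ∃ A : ℝ → ℝ → ℝ, A = fun t y => deriv (g k) (P t y) * V2 t y +
    deriv (deriv (g k)) (P t y) * P1 t y * (V1 t y - P t y) := ⟨_, rfl⟩
  have hQ2c : Continuous fun z : ℝ × ℝ => Q2 z.1 z.2 := by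
    rw [hQ2]
    exact ((hcg1.comp cP).mul hPV2.cont).add (((hcg2.comp cP).mul cP1).mul (hPV1.cont.sub cP))
  have hQ2e : ∀ t, Q2 t 1 = Q2 t (-1) := by
    intro t
    simp [hQ2, hPt1, hPtm1, dg_zero, ddg_zero]
  have dQ1 : ∀ t y, HasDerivAt (Q1 t) (Q2 t y) y := by
    intro t y
    have h1 : HasDerivAt (fun y => g k (P t y)) (deriv (g k) (P t y) * P1 t y) y :=
      (hgd (P t y)).hasDerivAt.comp y (dP t y)
    have h2 : HasDerivAt (fun y => deriv (g k) (P t y)) (deriv (deriv (g k)) (P t y) * P1 t y) y :=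
      (hg1d (P t y)).hasDerivAt.comp y (dP t y)
    have h3 : HasDerivAt (fun y => V1 t y - P t y) (V2 t y - P1 t y) y := (dV1 t y).sub (dP t y)
    have h4 := h1.add (h2.mul h3)
    rw [hQ1]
    refine h4.congr_deriv ?_
    simp only [hQ2]
    ring
  obtain ⟨G2, hG2def⟩ : ∃ A : ℝ → ℝ → ℝ, A = fun t x => Q2 t (fold x) := ⟨_, rfl⟩
  have hG2 : PC G2 := by
    rw [hG2def]
    refine ex_PC_fold hQ2c hQ2e ?_
    intro t x ht
    simp only [hQ2, hPf t x ht, hPV1.frz t x ht, hPV2.frz t x ht, hP1f t x ht]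
  have dG1 : ∀ t x, HasDerivAt (G1 t) (G2 t x) x := by
    intro t x
    rw [hG1def, hG2def]
    exact deriv_fold (dQ1 t) (hQ1e t) (hQ2e t) x
  -- third derivative
  have hV2eq : ∀ t x, V2 t x = S W2 t x + I G2 t x := by
    intro t x
    simp only [hV2def, D_eq hG1 hG2 dG1 t x]
  obtain ⟨V3, hV3def⟩ : ∃ A : ℝ → ℝ → ℝ, A = fun t x => S W3 t x + D G2 t x := ⟨_, rfl⟩
  have hPV3 : PC V3 := hV3def ▸ ex_PC_add (S_PC hW3c hW3p) (D_PC hG2)
  have dV2 : ∀ t x, HasDerivAt (V2 t) (V3 t x) x := by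
    intro t x
    have h1 : V2 t = fun x => S W2 t x + I G2 t x := funext fun x => hV2eq t x
    rw [h1, hV3def]
    exact (S_deriv hW3c hW3p hW2p hdW2 t x).add (I_deriv hG2 t x)
  obtain ⟨P2, hP2⟩ : ∃ A : ℝ → ℝ → ℝ, A = Pof2 V3 := ⟨_, rfl⟩
  have cP2 : Continuous fun z : ℝ × ℝ => P2 z.1 z.2 := hP2 ▸ Pof2_cont hPV3.cont
  have dP1 : ∀ t x, HasDerivAt (P1 t) (P2 t x) x := by
    rw [hP1, hP2]
    exact Pof1_deriv hPV3.cont dV2
  have V2P : ∀ t x, V2 t x = 2 * P1 t x + x * P2 t x := by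
    intro t x
    have h1 : HasDerivAt (V1 t) (P1 t x + (1 * P1 t x + x * P2 t x)) x := by
      have h2 : V1 t = fun x => P t x + x * P1 t x := funext fun x => V1P t x
      rw [h2]
      exact (dP t x).add ((hasDerivAt_id x).mul (dP1 t x))
    rw [(dV1 t x).unique h1]
    ring
  -- values at zero
  have hP10 : ∀ t, P1 t 0 = 0 := by
    intro t
    have h1 : HasDerivAt (fun x => P t (-x)) (P1 t (-0) * (-1)) 0 :=
      (dP t (-0)).comp 0 (hasDerivAt_neg (0 : ℝ))
    have h2 : (fun x => P t (-x)) = P t := funext fun x => even t x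
    rw [h2, neg_zero] at h1
    have h3 := h1.unique (dP t 0)
    linarith
  have hV20 : ∀ t, V2 t 0 = 0 := by
    intro t
    rw [V2P, hP10]
    ring
  -- source on the fundamental interval
  have hGx : ∀ t, ∀ x ∈ Icc (-1 : ℝ) 1, G t x = x * g k (P t x) := by
    intro t x hx
    rw [hGQ]
    rcases fold_cases x hx with h | ⟨h1, h2⟩ | ⟨h1, h2⟩
    · rw [h, hQ]
    · rw [h2, h1, hQm1v, hPt1, g_zero, mul_zero]
    · rw [h2, h1, hQ1v, hPtm1, g_zero, mul_zero]
  -- time derivatives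
  have tV : ∀ t > 0, ∀ x, HasDerivAt (fun s => V s x) (V2 t x + G t x) t := by
    intro t ht x
    have h1 : (fun s => V s x) = fun s => S V0 s x + I G s x := funext fun s => hVeq s x
    rw [h1]
    have h2 := (S_time hW2c hV0p hW1p hW2p hdV0 hdW1 ht x).add (I_time hG hG1 dG ht x)
    refine h2.congr_deriv ?_
    simp only [hV2def]
    ring
  have tV1 : ∀ t > 0, ∀ x, HasDerivAt (fun s => V1 s x) (V3 t x + G1 t x) t := by
    intro t ht x
    have h1 : (fun s => V1 s x) = fun s => S W1 s x + I G1 s x := funext fun s => hV1eq s x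
    rw [h1]
    have h2 := (S_time hW3c hW1p hW2p hW3p hdW1 hdW2 ht x).add (I_time hG1 hG2 dG1 ht x)
    refine h2.congr_deriv ?_
    simp only [hV3def]
    ring
  have hPW : PC (fun t x => V3 t x + G1 t x) := ex_PC_add hPV3 hG1
  refine ⟨{ V := V, V1 := V1, V2 := V2, V3 := V3, P := P, P1 := P1, P2 := P2,
            Pt := Pof (fun t x => V3 t x + G1 t x), cV := hV.cont, cV1 := hPV1.cont,
            cV2 := hPV2.cont, cV3 := hPV3.cont, cP := cP, cP1 := cP1, cP2 := cP2,
            cPt := Pof_cont hPW.cont, dV := dV, dV1 := dV1, dV2 := dV2, dP := dP, dP1 := dP1,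
            VP := VP, V1P := V1P, V2P := V2P, even := even, bd := hV1,
            init := ?_, tV := ?_, tV1 := ?_, tP := ?_, PtV := ?_ }⟩
  · intro x hx
    have hI0 : ∀ x, V 0 x = V0 x := by
      intro x
      rw [hVeq, S_zero, I_zero, add_zero]
    by_cases hx0 : x = 0
    · rw [hx0, hP0, hV1eq, S_zero, I_zero, add_zero]
      have h0 : fold 0 = 0 := fold_self (by norm_num)
      simp only [hW1, hq1, h0]
      ring
    · have h1 : V0 x = x * u0 x := by
        unfold V0
        rcases fold_cases x hx with h | ⟨h1, h2⟩ | ⟨h1, h2⟩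
        · rw [h]
        · rw [h2, h1, hum1, hu1]
          ring
        · rw [h2, h1, hum1, hu1]
          ring
      have h2 := VP 0 x
      rw [hI0, h1] at h2
      exact (mul_left_cancel₀ hx0 h2).symm
  · intro t ht x hx
    rw [← hGx t x hx]
    exact tV t ht x
  · intro t ht x hx
    have h1 : V3 t x + g k (P t x) + deriv (g k) (P t x) * (V1 t x - P t x) = V3 t x + G1 t x := by
      simp only [hG1def, fold_self hx, hQ1]
      ring
    rw [h1]
    exact tV1 t ht x
  · intro t ht x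
    have h1 := Pof_time hPV1.cont hPW.cont tV1 ht x
    rw [← hP] at h1
    exact h1
  · intro t _ x hx
    have h1 := Pof_mul (V := fun t x => V2 t x + G t x) (W := fun t x => V3 t x + G1 t x)
      hPW.cont (fun t x => (dV2 t x).add (dG t x)) (fun t => by
        have h2 : G t 0 = 0 := by rw [hGx t 0 (by norm_num), zero_mul]
        simp only [hV20 t, h2, add_zero]) t x
    rw [← h1, hGx t x hx]

end LE
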