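import Pool.Agent.H6.LE.Comp3

/-! Friedman-McLeod estimate. -/

namespace LE
open Set Filter Topology MeasureTheory

variable {k k' : ℝ}

theorem F_deriv (u : ℝ) : HasDerivAt F (deriv F u) u :=
  ((F_smooth.differentiable (by simp)) u).hasDerivAt

theorem F_deriv2 (u : ℝ) : HasDerivAt (deriv F) (deriv (deriv F) u) u := by
  have h1 : ContDiff ℝ ((⊤ : ℕ∞) : WithTop ℕ∞) (deriv F) :=
    (contDiff_infty_iff_deriv.1 F_smooth).2
  exact ((h1.differentiable (by simp)) u).hasDerivAt

theorem F_bd (k : ℝ) : ∃ M, 0 ≤ M ∧ ∀ u ∈ Icc (0 : ℝ) k, |deriv F u| ≤ M := by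
  have h1 : ContinuousOn (deriv F) (Icc 0 k) :=
    fun u _ => (F_deriv2 u).continuousAt.continuousWithinAt
  obtain ⟨M, hM⟩ := isCompact_Icc.exists_bound_of_continuousOn h1
  refine ⟨|M|, abs_nonneg M, fun u hu => ?_⟩
  have := hM u hu
  rw [Real.norm_eq_abs] at this
  exact this.trans (le_abs_self M)

theorem eps_pos : 0 < eps := by
  unfold eps
  positivity

theorem eps_F {u : ℝ} (hu : 0 ≤ u) (h : u ≤ 33) : eps * F u ≤ 2 := by
  have h1 : F u ≤ 1 + u ^ 8 := by
    rw [F_eq hu, div_le_iff₀ (by linarith)]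
    have : 0 ≤ u ^ 8 := by positivity
    nlinarith
  have h2 : u ^ 8 ≤ 33 ^ 8 := by gcongr
  have h3 : eps * (33 : ℝ) ^ 8 = 1 := by
    unfold eps
    norm_num
  have h4 : eps ≤ 1 := by
    unfold eps
    norm_num
  have h5 := mul_le_mul_of_nonneg_left (h1.trans (by linarith : 1 + u ^ 8 ≤ 1 + 33 ^ 8))
    eps_pos.le
  linarith

theorem Sol.fm (s : Sol k) (hk : 66 ≤ k) {T : ℝ}
    (hT : ∀ t ∈ Icc 0 T, ∀ x ∈ Icc (0 : ℝ) 1, s.P t x ≤ k) :
    ∀ t ∈ Icc 0 T, ∀ x ∈ Icc (0 : ℝ) 1, s.P1 t x + eps * x * F (s.P t x) ≤ 0 := by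
  have hk0 : 0 < k := by linarith
  have he := eps_pos
  obtain ⟨L, hL0, _, hL, _, _⟩ := g_lip hk0
  obtain ⟨M, hM0, hM⟩ := F_bd k
  have hFc : Continuous F := F_smooth.continuous
  refine maxp (T := T) (C := L + 2 * eps * M) (fun t x => s.P1 t x + eps * x * F (s.P t x))
    ?_ ?_ ?_ ?_ ?_
  · have h1 : Continuous fun z : ℝ × ℝ => s.P1 z.1 z.2 + eps * z.2 * F (s.P z.1 z.2) :=
      s.cP1.add ((continuous_const.mul continuous_snd).mul (hFc.comp s.cP))
    exact h1.continuousOn
  · intro x hx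
    have hx' : x ∈ Icc (-1 : ℝ) 1 := ⟨by linarith [hx.1], hx.2⟩
    show s.P1 0 x + eps * x * F (s.P 0 x) ≤ 0
    rw [s.P1_init hx', s.init x hx']
    have h1 := du0_le hx
    have h2 := eps_F (u0_nonneg hx') (u0_le hx')
    have h3 := mul_le_mul_of_nonneg_left h2 hx.1
    linarith [hx.1]
  · intro t _
    show s.P1 t 0 + eps * 0 * F (s.P t 0) ≤ 0
    rw [s.P1_zero]
    simp
  · intro t ht
    show s.P1 t 1 + eps * 1 * F (s.P t 1) ≤ 0
    have h1 := s.P1_one hk ht.1
    rw [s.P_one t]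
    have h2 := eps_F (le_refl (0 : ℝ)) (by norm_num)
    linarith
  · intro t ht x hx hZ
    replace hZ : 0 < s.P1 t x + eps * x * F (s.P t x) := hZ
    have ht0 : 0 ≤ t := ht.1.le
    have hxI : x ∈ Icc (0 : ℝ) 1 := ⟨hx.1.le, hx.2.le⟩
    have hP0 := s.nonneg hk ht0 hxI
    have hPk := hT t ⟨ht0, ht.2⟩ x hxI
    set p := s.P t x with hp
    set p1 := s.P1 t x with hp1
    set p2 := s.P2 t x with hp2
    have d1 : HasDerivAt (fun r => s.P1 r x + eps * x * F (s.P r x))
        ((s.V3 t x / x - s.V2 t x / x ^ 2 + deriv (g k) p * p1) +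
          eps * x * (deriv F p * s.Pt t x)) t :=
      (s.tP1 ht.1 hx).add ((HasDerivAt.comp t (F_deriv _) (s.tP t ht.1 x)).const_mul (eps * x))
    have d2 : ∀ y, HasDerivAt (fun y => s.P1 t y + eps * y * F (s.P t y))
        (s.P2 t y + (eps * F (s.P t y) + eps * y * (deriv F (s.P t y) * s.P1 t y))) y := by
      intro y
      have e1 : HasDerivAt (fun y => eps * y) eps y := by
        simpa using (hasDerivAt_id y).const_mul eps
      exact (s.dP1 t y).add (e1.mul (HasDerivAt.comp y (F_deriv _) (s.dP t y)))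
    have d3 : HasDerivAt
        (fun y => s.P2 t y + (eps * F (s.P t y) + eps * y * (deriv F (s.P t y) * s.P1 t y)))
        ((s.V3 t x - 3 * p2) / x + (eps * (deriv F p * p1) + (eps * (deriv F p * p1) +
          eps * x * (deriv (deriv F) p * p1 * p1 + deriv F p * p2)))) x := by
      have e1 : HasDerivAt (fun y => eps * y) eps x := by
        simpa using (hasDerivAt_id x).const_mul eps
      have e2 : HasDerivAt (fun y => deriv F (s.P t y) * s.P1 t y)
          (deriv (deriv F) p * p1 * p1 + deriv F p * p2) x :=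
        (HasDerivAt.comp x (F_deriv2 _) (s.dP t x)).mul (s.dP1 t x)
      exact (s.dP2 t hx.1).add (((HasDerivAt.comp x (F_deriv _) (s.dP t x)).const_mul eps).add
        (e1.mul e2))
    refine ⟨_, _, _, d1, Eventually.of_forall d2, d3, ?_⟩
    intro h0
    replace h0 : p2 + (eps * F p + eps * x * (deriv F p * p1)) = 0 := h0
    show (s.V3 t x / x - s.V2 t x / x ^ 2 + deriv (g k) p * p1) +
      eps * x * (deriv F p * s.Pt t x) ≤ (s.V3 t x - 3 * p2) / x + (eps * (deriv F p * p1) +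
        (eps * (deriv F p * p1) + eps * x * (deriv (deriv F) p * p1 * p1 + deriv F p * p2))) +
      (L + 2 * eps * M) * (p1 + eps * x * F p)
    have hx0 := hx.1
    have hxne := hx0.ne'
    have hpt : s.Pt t x = (s.V2 t x + x * g k p) / x := by
      rw [← s.PtV t ht0 x ⟨by linarith, hx.2.le⟩]
      field_simp
    have hV2 : s.V2 t x = 2 * p1 + x * p2 := s.V2P t x
    have habs : |p| ≤ k := by
      rw [abs_of_nonneg hP0]
      exact hPk
    have hg : g k p = p ^ 9 := g_eq hk0 habs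
    have hdg : deriv (g k) p = 9 * p ^ 8 := dg_eq hk0 habs
    have hkey := F_key hP0
    have hconv := F_convex hP0
    have hp2' : p2 = -(eps * F p + eps * x * (deriv F p * p1)) := by linarith
    -- the identity
    have hid : (s.V3 t x / x - s.V2 t x / x ^ 2 + deriv (g k) p * p1) +
        eps * x * (deriv F p * s.Pt t x) = (s.V3 t x - 3 * p2) / x + (eps * (deriv F p * p1) +
        (eps * (deriv F p * p1) + eps * x * (deriv (deriv F) p * p1 * p1 + deriv F p * p2))) +
        (9 * p ^ 8 - 2 / x ^ 2 - 2 * eps * deriv F p) * (p1 + eps * x * F p) +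
        eps * x * (deriv F p * p ^ 9 - 9 * p ^ 8 * F p + 2 * eps * F p * deriv F p -
          deriv (deriv F) p * p1 ^ 2) := by
      rw [hdg, hpt, hV2, hg, hp2']
      field_simp
      ring
    rw [hid]
    have i1 : 9 * p ^ 8 ≤ L := by
      rw [← hdg]
      exact (abs_le.1 (hL p)).2
    have i2 : -deriv F p ≤ M := by
      have := (abs_le.1 (hM p ⟨hP0, hPk⟩)).1
      linarith
    have i3 : 0 ≤ 2 / x ^ 2 := by positivity
    have i4 : 9 * p ^ 8 - 2 / x ^ 2 - 2 * eps * deriv F p ≤ L + 2 * eps * M := by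
      have := mul_le_mul_of_nonneg_left i2 (by linarith : 0 ≤ 2 * eps)
      linarith
    have i5 := mul_le_mul_of_nonneg_right i4 hZ.le
    have i6 : deriv F p * p ^ 9 - 9 * p ^ 8 * F p + 2 * eps * F p * deriv F p -
          deriv (deriv F) p * p1 ^ 2 ≤ 0 := by
      have : 0 ≤ deriv (deriv F) p * p1 ^ 2 := by positivity
      linarith
    have i7 : eps * x * (deriv F p * p ^ 9 - 9 * p ^ 8 * F p + 2 * eps * F p * deriv F p -
          deriv (deriv F) p * p1 ^ 2) ≤ 0 :=
      mul_nonpos_of_nonneg_of_nonpos (by positivity) i6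
    linarith

end LE
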