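import Pool.Agent.H6.LE.Defs

/-! The folding map. -/

namespace LE
open Set Filter Topology MeasureTheory

theorem fold_mem (x : ℝ) : fold x ∈ Icc (-1 : ℝ) 1 := by
  have h := abs_sub_round (x / 2)
  rw [abs_le] at h
  unfold fold
  constructor <;> linarith [h.1, h.2]

/-- value of `fold` on the interval `[2m-1, 2m+1)` -/
theorem fold_eq {x : ℝ} (m : ℤ) (h1 : 2 * (m : ℝ) - 1 ≤ x) (h2 : x < 2 * m + 1) :
    fold x = x - 2 * m := by
  have : round (x / 2) = m := by
    rw [round_eq, Int.floor_eq_iff]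
    constructor <;> linarith
  unfold fold; rw [this]

theorem fold_self {x : ℝ} (hx : x ∈ Ioo (-1 : ℝ) 1) : fold x = x := by
  have := fold_eq (x := x) 0 (by push_cast; linarith [hx.1]) (by push_cast; linarith [hx.2])
  simpa using this

theorem fold_per (x : ℝ) : fold (x + 2) = fold x := by
  unfold fold
  have : (x + 2) / 2 = x / 2 + 1 := by ring
  rw [this, round_add_one]; push_cast; ring

theorem fold_one : fold 1 = -1 := by
  have := fold_eq (x := 1) 1 (by push_cast; norm_num) (by push_cast; norm_num)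
  rw [this]; norm_num

theorem fold_neg_one : fold (-1) = -1 := by
  have := fold_eq (x := -1) 0 (by push_cast; norm_num) (by push_cast; norm_num)
  rw [this]; norm_num

/-- at odd integers `fold` may be `1` or `-1` -/
theorem fold_cases (x : ℝ) (hx : x ∈ Icc (-1 : ℝ) 1) : fold x = x ∨ (x = 1 ∧ fold x = -1) ∨
    (x = -1 ∧ fold x = 1) := by
  rcases eq_or_lt_of_le hx.2 with h | h
  · right; left; exact ⟨h, by rw [h]; exact fold_one⟩
  · left
    have := fold_eq (x := x) 0 (by push_cast; linarith [hx.1]) (by push_cast; linarith)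
    simpa using this

/-- local form of `q ∘ fold` -/
theorem comp_fold {q : ℝ → ℝ} (h : q 1 = q (-1)) (m : ℤ) {x : ℝ} (h1 : 2 * (m : ℝ) - 1 < x)
    (h2 : x < 2 * m + 3) :
    q (fold x) = if x ≤ 2 * m + 1 then q (x - 2 * m) else q (x - 2 * m - 2) := by
  split_ifs with hx
  · rcases eq_or_lt_of_le hx with he | hl
    · have : fold x = x - 2 * ((m + 1 : ℤ) : ℝ) :=
        fold_eq (m + 1) (by push_cast; linarith) (by push_cast; linarith)
      rw [this, he]; push_cast
      have e1 : 2 * (m : ℝ) + 1 - 2 * (m + 1) = -1 := by ring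
      have e2 : 2 * (m : ℝ) + 1 - 2 * m = 1 := by ring
      rw [e1, e2, h]
    · rw [fold_eq m h1.le hl]
  · push Not at hx
    have : fold x = x - 2 * ((m + 1 : ℤ) : ℝ) :=
      fold_eq (m + 1) (by push_cast; linarith) (by push_cast; linarith)
    rw [this]; push_cast
    congr 1; ring

theorem cont_fold {Q : ℝ → ℝ → ℝ} (hc : Continuous fun z : ℝ × ℝ => Q z.1 z.2)
    (h : ∀ t, Q t 1 = Q t (-1)) : Continuous fun z : ℝ × ℝ => Q z.1 (fold z.2) := by
  rw [continuous_iff_continuousAt]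
  rintro ⟨t0, x0⟩
  set m : ℤ := ⌊x0 / 2⌋ with hm
  have hm1 : (m : ℝ) ≤ x0 / 2 := Int.floor_le _
  have hm2 : x0 / 2 < m + 1 := Int.lt_floor_add_one _
  have hcont : Continuous fun z : ℝ × ℝ =>
      if z.2 ≤ 2 * m + 1 then Q z.1 (z.2 - 2 * m) else Q z.1 (z.2 - 2 * m - 2) := by
    apply Continuous.if_le
    · exact hc.comp (by fun_prop : Continuous fun z : ℝ × ℝ => (z.1, z.2 - 2 * (m : ℝ)))
    · exact hc.comp (by fun_prop : Continuous fun z : ℝ × ℝ => (z.1, z.2 - 2 * (m : ℝ) - 2))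
    · fun_prop
    · fun_prop
    · intro z hz
      rw [hz]
      have e1 : 2 * (m : ℝ) + 1 - 2 * m = 1 := by ring
      have e2 : (1 : ℝ) - 2 = -1 := by norm_num
      rw [e1, e2, h]
  refine hcont.continuousAt.congr ?_
  have hopen : IsOpen {z : ℝ × ℝ | 2 * (m : ℝ) - 1 < z.2 ∧ z.2 < 2 * m + 3} :=
    (isOpen_lt continuous_const continuous_snd).inter (isOpen_lt continuous_snd continuous_const)
  filter_upwards [hopen.mem_nhds (show (t0, x0) ∈ _ from ⟨by linarith, by linarith⟩)] with z hz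
  exact (comp_fold (q := Q z.1) (h z.1) m hz.1 hz.2).symm

theorem deriv_fold {q q1 : ℝ → ℝ} (hd : ∀ y, HasDerivAt q (q1 y) y) (h : q 1 = q (-1))
    (h1 : q1 1 = q1 (-1)) (x : ℝ) : HasDerivAt (fun x => q (fold x)) (q1 (fold x)) x := by
  set m : ℤ := ⌊x / 2⌋ with hm
  have hm1 : (m : ℝ) ≤ x / 2 := Int.floor_le _
  have hm2 : x / 2 < m + 1 := Int.lt_floor_add_one _
  have hx1 : 2 * (m : ℝ) - 1 < x := by linarith
  have hx2 : x < 2 * m + 3 := by linarith
  have hL (y : ℝ) : HasDerivAt (fun x => q (x - 2 * m)) (q1 (y - 2 * m)) y := by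
    exact HasDerivAt.congr_deriv ((hd (y - 2 * m)).comp y
      ((hasDerivAt_id y).sub_const (2 * (m : ℝ)))) (by simp)
  have hR (y : ℝ) : HasDerivAt (fun x => q (x - 2 * m - 2)) (q1 (y - 2 * m - 2)) y := by
    exact HasDerivAt.congr_deriv ((hd (y - 2 * m - 2)).comp y
      (((hasDerivAt_id y).sub_const (2 * (m : ℝ))).sub_const 2)) (by simp)
  have hnear : ∀ᶠ y in 𝓝 x, 2 * (m : ℝ) - 1 < y ∧ y < 2 * m + 3 :=
    (Ioo_mem_nhds hx1 hx2)
  rw [comp_fold (q := q1) h1 m hx1 hx2]
  rcases lt_trichotomy x (2 * m + 1) with hlt | heq | hgt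
  · rw [if_pos hlt.le]
    refine (hL x).congr_of_eventuallyEq ?_
    filter_upwards [hnear, Iio_mem_nhds hlt] with y hy hy'
    rw [comp_fold h m hy.1 hy.2, if_pos (le_of_lt hy')]
  · rw [if_pos heq.le]
    have e1 : x - 2 * m = 1 := by rw [heq]; ring
    have e2 : x - 2 * m - 2 = -1 := by rw [heq]; ring
    have hl : HasDerivWithinAt (fun x => q (fold x)) (q1 (x - 2 * m)) (Iic x) x := by
      refine (hL x).hasDerivWithinAt.congr_of_eventuallyEq ?_ ?_
      · filter_upwards [nhdsWithin_le_nhds hnear, self_mem_nhdsWithin] with y hy hy'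
        rw [comp_fold h m hy.1 hy.2, if_pos (by rw [← heq]; exact hy')]
      · rw [comp_fold h m hx1 hx2, if_pos heq.le]
    have hr : HasDerivWithinAt (fun x => q (fold x)) (q1 (x - 2 * m)) (Ici x) x := by
      have hv : q1 (x - 2 * m) = q1 (x - 2 * m - 2) := by rw [e2, e1, h1]
      rw [hv]
      refine (hR x).hasDerivWithinAt.congr_of_eventuallyEq ?_ ?_
      · filter_upwards [nhdsWithin_le_nhds hnear, self_mem_nhdsWithin] with y hy hy'
        rw [comp_fold h m hy.1 hy.2]
        split_ifs with hc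
        · have : y = x := le_antisymm (by rw [heq]; exact hc) hy'
          rw [this, e2, e1, h]
        · rfl
      · rw [comp_fold h m hx1 hx2, if_pos heq.le, e2, e1, h]
    have := hl.union hr
    rw [Iic_union_Ici] at this
    exact this.hasDerivAt univ_mem
  · rw [if_neg (not_le.mpr hgt)]
    refine (hR x).congr_of_eventuallyEq ?_
    filter_upwards [hnear, Ioi_mem_nhds hgt] with y hy hy'
    rw [comp_fold h m hy.1 hy.2, if_neg (not_le.mpr hy')]

end LE
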