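import Pool.Agent.H6.LE.HeatDefs

/-! Heat semigroup. -/

namespace LE
open Set Filter Topology MeasureTheory

theorem h1_prob : IsProbabilityMeasure gam := by
  unfold gam
  infer_instance

theorem h1_neg (f : ℝ → ℝ) : ∫ z, f (-z) ∂gam = ∫ z, f z ∂gam := by
  have h := ProbabilityTheory.gaussianReal_map_neg (μ := 0) (v := 1)
  rw [neg_zero] at h
  have h2 : gam.map (MeasurableEquiv.neg ℝ) = gam := h
  calc ∫ z, f (-z) ∂gam = ∫ z, f ((MeasurableEquiv.neg ℝ) z) ∂gam := rfl
    _ = ∫ z, f z ∂(gam.map (MeasurableEquiv.neg ℝ)) :=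
        (integral_map_equiv (MeasurableEquiv.neg ℝ) f).symm
    _ = ∫ z, f z ∂gam := by rw [h2]

theorem PC.bdd {G : ℝ → ℝ → ℝ} (h : PC G) (T : ℝ) : ∃ B, ∀ s ≤ T, ∀ x, |G s x| ≤ B := by
  obtain ⟨B, hB⟩ := ((isCompact_Icc (a := (0:ℝ)) (b := max T 0)).prod
    (isCompact_Icc (a := (0:ℝ)) (b := 2))).exists_bound_of_continuousOn h.cont.continuousOn
  refine ⟨B, fun s hs x => ?_⟩
  have h1 : G s x = G (max s 0) x := by
    rcases le_total s 0 with h0 | h0
    · rw [max_eq_right h0]; exact h.frz s x h0
    · rw [max_eq_left h0]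
  obtain ⟨y, hy, hxy⟩ := Function.Periodic.exists_mem_Ico₀ (f := G (max s 0)) (c := 2)
    (h.per (max s 0)) (by norm_num) x
  rw [h1, hxy]
  have := hB (max s 0, y) ⟨⟨le_max_right _ _, max_le_max hs le_rfl⟩, ⟨hy.1, hy.2.le⟩⟩
  rwa [Real.norm_eq_abs] at this

theorem h1_bdd {f : ℝ → ℝ} (hf : Continuous f) (hp : ∀ x, f (x + 2) = f x) :
    ∃ B, ∀ x, |f x| ≤ B := by
  have h : PC (fun _ x => f x) := ⟨hf.comp continuous_snd, fun _ x => hp x, fun _ _ _ => rfl⟩
  obtain ⟨B, hB⟩ := h.bdd 0
  exact ⟨B, fun x => hB 0 le_rfl x⟩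

theorem h1_int {f : ℝ → ℝ} (hf : Continuous f) (hp : ∀ x, f (x + 2) = f x) (x c : ℝ) :
    Integrable (fun z => f (x + c * z)) gam := by
  have := h1_prob
  obtain ⟨B, hB⟩ := h1_bdd hf hp
  refine Integrable.mono' (integrable_const B)
    (hf.comp (by fun_prop : Continuous fun z : ℝ => x + c * z)).aestronglyMeasurable
    (Eventually.of_forall fun z => ?_)
  rw [Real.norm_eq_abs]
  exact hB _

theorem S_PC {f : ℝ → ℝ} (hf : Continuous f) (hp : ∀ x, f (x + 2) = f x) : PC (S f) := by
  have := h1_prob
  obtain ⟨B, hB⟩ := h1_bdd hf hp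
  refine ⟨?_, ?_, ?_⟩
  · unfold S
    refine continuous_of_dominated (bound := fun _ => B) ?_ ?_ (integrable_const B) ?_
    · intro p
      exact (hf.comp (by fun_prop : Continuous fun z : ℝ =>
        p.2 + √(2 * max p.1 0) * z)).aestronglyMeasurable
    · intro p
      refine Eventually.of_forall fun z => ?_
      rw [Real.norm_eq_abs]
      exact hB _
    · refine Eventually.of_forall fun z => ?_
      exact hf.comp (by fun_prop)
  · intro t x
    unfold S
    refine integral_congr_ae (Eventually.of_forall fun z => ?_)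
    simp only
    rw [← hp (x + √(2 * max t 0) * z)]
    congr 1
    ring
  · intro t x ht
    unfold S
    rw [max_eq_right ht, max_self]

theorem S_zero (f : ℝ → ℝ) (x : ℝ) : S f 0 x = f x := by
  have := h1_prob
  unfold S
  simp

theorem S_odd {f : ℝ → ℝ} (ho : ∀ x, f (-x) = -f x) (t x : ℝ) : S f t (-x) = -S f t x := by
  unfold S
  rw [← h1_neg (fun z => f (x + √(2 * max t 0) * z)), ← integral_neg]
  refine integral_congr_ae (Eventually.of_forall fun z => ?_)
  simp only
  rw [← ho]
  congr 1
  ring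

theorem S_deriv {f f1 : ℝ → ℝ} (hf1 : Continuous f1) (hp : ∀ x, f1 (x + 2) = f1 x)
    (hpf : ∀ x, f (x + 2) = f x)
    (hd : ∀ x, HasDerivAt f (f1 x) x) (t x : ℝ) : HasDerivAt (S f t) (S f1 t x) x := by
  have := h1_prob
  have hf : Continuous f := continuous_iff_continuousAt.2 fun x => (hd x).continuousAt
  obtain ⟨B, hB⟩ := h1_bdd hf1 hp
  have key := hasDerivAt_integral_of_dominated_loc_of_deriv_le (μ := gam) (x₀ := x)
    (F := fun y z => f (y + √(2 * max t 0) * z))
    (F' := fun y z => f1 (y + √(2 * max t 0) * z)) (bound := fun _ => B) (s := univ)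
    univ_mem
    (Eventually.of_forall fun y => (h1_int hf hpf y _).1) (h1_int hf hpf x _)
    (h1_int hf1 hp x _).1
    (Eventually.of_forall fun z y _ => by rw [Real.norm_eq_abs]; exact hB _)
    (integrable_const B)
    (Eventually.of_forall fun z y _ => by
      have h1 : HasDerivAt (fun y : ℝ => y + √(2 * max t 0) * z) 1 y :=
        (hasDerivAt_id y).add_const _
      have h2 := (hd (y + √(2 * max t 0) * z)).comp y h1
      rw [mul_one] at h2
      exact h2)
  exact key.2

theorem h1_int_abs : Integrable (fun z : ℝ => |z|) gam := by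
  have := h1_prob
  have h := (ProbabilityTheory.memLp_id_gaussianReal (μ := 0) (v := 1) 1)
  exact (h.integrable (by simp)).abs

/-- Stein's lemma (Gaussian integration by parts) -/
theorem stein {h h' : ℝ → ℝ} (hd : ∀ x, HasDerivAt h (h' x) x) (hc : Continuous h') {B B' : ℝ}
    (hB : ∀ x, |h x| ≤ B) (hB' : ∀ x, |h' x| ≤ B') :
    ∫ z, z * h z ∂gam = ∫ z, h' z ∂gam := by
  have hh : Continuous h := continuous_iff_continuousAt.2 fun x => (hd x).continuousAt
  have := h1_prob
  -- density
  have hv : (1 : NNReal) ≠ 0 := one_ne_zero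
  have hpdf : ∀ z, HasDerivAt (ProbabilityTheory.gaussianPDFReal 0 1)
      (-z * ProbabilityTheory.gaussianPDFReal 0 1 z) z := by
    intro z
    have e : ProbabilityTheory.gaussianPDFReal 0 1 =
        fun x => (√(2 * Real.pi * (1 : NNReal)))⁻¹ * Real.exp (-(x - 0) ^ 2 / (2 * (1 : NNReal))) := by
      funext x
      rfl
    rw [e]
    simp only
    have h1 : HasDerivAt (fun x : ℝ => -(x - 0) ^ 2 / (2 * ((1 : NNReal) : ℝ))) (-z) z := by
      have h2 : HasDerivAt (fun x : ℝ => -(x - 0) ^ 2 / (2 * ((1 : NNReal) : ℝ)))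
          (-(2 * (z - 0) ^ 1 * 1) / (2 * ((1 : NNReal) : ℝ))) z := by
        have h3 : HasDerivAt (fun x : ℝ => x - 0) 1 z := (hasDerivAt_id z).sub_const 0
        have h4 := ((h3.pow 2).neg).div_const (2 * ((1 : NNReal) : ℝ))
        simpa using h4
      have h6 : (-z : ℝ) = -(2 * (z - 0) ^ 1 * 1) / (2 * ((1 : NNReal) : ℝ)) := by
        rw [NNReal.coe_one]; ring
      rw [h6]
      exact h2
    have h5 := (h1.exp).const_mul ((√(2 * Real.pi * (1 : NNReal)))⁻¹)
    have h7 : -z * ((√(2 * Real.pi * (1 : NNReal)))⁻¹ *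
        Real.exp (-(z - 0) ^ 2 / (2 * (1 : NNReal)))) = (√(2 * Real.pi * (1 : NNReal)))⁻¹ *
        (Real.exp (-(z - 0) ^ 2 / (2 * ((1 : NNReal) : ℝ))) * -z) := by
      ring
    rw [h7]
    exact h5
  have hI : ∀ u : ℝ → ℝ, ∫ z, u z ∂gam =
      ∫ z, ProbabilityTheory.gaussianPDFReal 0 1 z * u z := by
    intro u
    unfold gam
    rw [ProbabilityTheory.integral_gaussianReal_eq_integral_smul hv]
    simp [smul_eq_mul]
  have hint : ∀ u : ℝ → ℝ, Integrable u gam →
      Integrable (fun z => ProbabilityTheory.gaussianPDFReal 0 1 z * u z) volume := by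
    intro u hu
    unfold gam at hu
    rw [ProbabilityTheory.gaussianReal_of_var_ne_zero _ hv] at hu
    have h1 := (integrable_withDensity_iff_integrable_smul'
      (ProbabilityTheory.measurable_gaussianPDF 0 1)
      (Eventually.of_forall fun x => by
        unfold ProbabilityTheory.gaussianPDF; exact ENNReal.ofReal_lt_top)).1 hu
    refine h1.congr (Eventually.of_forall fun z => ?_)
    simp only [smul_eq_mul]
    rw [ProbabilityTheory.toReal_gaussianPDF]
  have i1 : Integrable (fun z : ℝ => z * h z) gam := by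
    refine Integrable.mono' (h1_int_abs.mul_const B)
      (continuous_id.mul hh).aestronglyMeasurable (Eventually.of_forall fun z => ?_)
    rw [Real.norm_eq_abs]
    show |z * h z| ≤ |z| * B
    rw [abs_mul]
    exact mul_le_mul_of_nonneg_left (hB _) (abs_nonneg _)
  have i2 : Integrable h' gam := Integrable.mono' (integrable_const B') hc.aestronglyMeasurable
    (Eventually.of_forall fun z => by rw [Real.norm_eq_abs]; exact hB' z)
  have i3 : Integrable h gam := Integrable.mono' (integrable_const B) hh.aestronglyMeasurable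
    (Eventually.of_forall fun z => by rw [Real.norm_eq_abs]; exact hB z)
  have j1 := hint _ i1
  have j2 := hint _ i2
  have j3 := hint _ i3
  rw [hI, hI]
  have key := MeasureTheory.integral_mul_deriv_eq_deriv_mul_of_integrable
    (u := h) (v := ProbabilityTheory.gaussianPDFReal 0 1) (u' := h')
    (v' := fun z => -z * ProbabilityTheory.gaussianPDFReal 0 1 z) (fun x _ => hd x)
    (fun x _ => hpdf x)
    (by
      refine j1.neg.congr (Eventually.of_forall fun z => ?_)
      simp only [Pi.neg_apply, Pi.mul_apply]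
      ring)
    (by
      refine j2.congr (Eventually.of_forall fun z => ?_)
      simp only [Pi.mul_apply]
      ring)
    (by
      refine j3.congr (Eventually.of_forall fun z => ?_)
      simp only [Pi.mul_apply]
      ring)
  have e1 : ∫ z, ProbabilityTheory.gaussianPDFReal 0 1 z * (z * h z) =
      -∫ z, h z * (-z * ProbabilityTheory.gaussianPDFReal 0 1 z) := by
    rw [← integral_neg]
    refine integral_congr_ae (Eventually.of_forall fun z => ?_)
    simp only
    ring
  rw [e1, key, neg_neg]
  refine integral_congr_ae (Eventually.of_forall fun z => ?_)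
  simp only
  ring

/-- heat equation for the semigroup, `f` of class `C²` -/
theorem S_time {f f1 f2 : ℝ → ℝ} (hf2 : Continuous f2) (hp : ∀ x, f (x + 2) = f x)
    (hp1 : ∀ x, f1 (x + 2) = f1 x) (hp2 : ∀ x, f2 (x + 2) = f2 x)
    (hd : ∀ x, HasDerivAt f (f1 x) x) (hd1 : ∀ x, HasDerivAt f1 (f2 x) x)
    {t : ℝ} (ht : 0 < t) (x : ℝ) : HasDerivAt (fun s => S f s x) (S f2 t x) t := by
  have := h1_prob
  have hf : Continuous f := continuous_iff_continuousAt.2 fun x => (hd x).continuousAt
  have hf1 : Continuous f1 := continuous_iff_continuousAt.2 fun x => (hd1 x).continuousAt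
  obtain ⟨B1, hB1⟩ := h1_bdd hf1 hp1
  obtain ⟨B2, hB2⟩ := h1_bdd hf2 hp2
  have hB1' : 0 ≤ B1 := (abs_nonneg _).trans (hB1 0)
  -- derivative in the scale
  have hs : ∀ c : ℝ, HasDerivAt (fun c => ∫ z, f (x + c * z) ∂gam)
      (∫ z, z * f1 (x + c * z) ∂gam) c := by
    intro c
    have key := hasDerivAt_integral_of_dominated_loc_of_deriv_le (μ := gam) (x₀ := c)
      (F := fun c z => f (x + c * z))
      (F' := fun c z => z * f1 (x + c * z)) (bound := fun z => |z| * B1) (s := univ)
      univ_mem
      (Eventually.of_forall fun y => (h1_int hf hp x _).1) (h1_int hf hp x _)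
      (continuous_id.mul (hf1.comp (by fun_prop :
        Continuous fun z : ℝ => x + c * z))).aestronglyMeasurable
      (Eventually.of_forall fun z y _ => by
        rw [Real.norm_eq_abs, abs_mul]
        exact mul_le_mul_of_nonneg_left (hB1 _) (abs_nonneg _))
      (h1_int_abs.mul_const B1)
      (Eventually.of_forall fun z y _ => by
        have h1 : HasDerivAt (fun y : ℝ => x + y * z) z y := by
          simpa using ((hasDerivAt_id y).mul_const z).const_add x
        have h2 := (hd (x + y * z)).comp y h1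
        rw [mul_comm] at h2
        exact h2)
    exact key.2
  have hst : ∀ c : ℝ, ∫ z, z * f1 (x + c * z) ∂gam = ∫ z, c * f2 (x + c * z) ∂gam := by
    intro c
    refine stein (h := fun z => f1 (x + c * z)) (h' := fun z => c * f2 (x + c * z))
      (B := B1) (B' := |c| * B2) ?_ ?_ ?_ ?_
    · intro z
      have h1 : HasDerivAt (fun z : ℝ => x + c * z) c z := by
        simpa using ((hasDerivAt_id z).const_mul c).const_add x
      have h2 := (hd1 (x + c * z)).comp z h1
      rw [mul_comm] at h2
      exact h2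
    · exact continuous_const.mul (hf2.comp (by fun_prop))
    · intro z; exact hB1 _
    · intro z
      rw [abs_mul]
      exact mul_le_mul_of_nonneg_left (hB2 _) (abs_nonneg _)
  have hr : HasDerivAt (fun s : ℝ => √(2 * s)) (1 / √(2 * t)) t := by
    have h1 : HasDerivAt (fun s : ℝ => 2 * s) 2 t := by
      simpa using (hasDerivAt_id t).const_mul (2 : ℝ)
    have h2 := h1.sqrt (by positivity)
    convert h2 using 1
    field_simp
  have hcomp := (hs (√(2 * t))).comp t hr
  have hval : (∫ z, z * f1 (x + √(2 * t) * z) ∂gam) * (1 / √(2 * t)) = S f2 t x := by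
    rw [hst, integral_const_mul]
    unfold S
    rw [max_eq_left ht.le]
    have : √(2 * t) ≠ 0 := by positivity
    field_simp
  rw [hval] at hcomp
  refine hcomp.congr_of_eventuallyEq ?_
  filter_upwards [lt_mem_nhds ht] with s hs0
  simp only [Function.comp]
  unfold S
  rw [max_eq_left hs0.le]

end LE
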