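import Pool.Agent.H6.LE.Heat1

/-! Duhamel operator: continuity, bounds. -/

namespace LE
open Set Filter Topology MeasureTheory

/-- Gaussian average -/
noncomputable def h1_A (G : ℝ → ℝ → ℝ) (s x c : ℝ) : ℝ := ∫ z, G s (x + c * z) ∂gam

theorem h1_I_eq (G : ℝ → ℝ → ℝ) (t x : ℝ) : I G t x = ∫ ρ in (0 : ℝ)..1,
    max t 0 * h1_A G (max t 0 * (1 - ρ)) x (√(2 * max t 0 * ρ)) := by
  unfold I h1_A
  refine intervalIntegral.integral_congr (fun ρ _ => ?_)
  rw [integral_const_mul]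

theorem h1_A_cont {G : ℝ → ℝ → ℝ} (h : PC G) :
    Continuous fun p : ℝ × ℝ × ℝ => h1_A G p.1 p.2.1 p.2.2 := by
  have := h1_prob
  rw [continuous_iff_continuousAt]
  intro p
  obtain ⟨B, hB⟩ := h.bdd (p.1 + 1)
  refine continuousAt_of_dominated (bound := fun _ => B) ?_ ?_ (integrable_const B) ?_
  · exact Eventually.of_forall (fun q => (h.cont.comp (by fun_prop : Continuous fun z : ℝ =>
      (q.1, q.2.1 + q.2.2 * z))).aestronglyMeasurable)
  · have : ∀ᶠ q : ℝ × ℝ × ℝ in 𝓝 p, q.1 < p.1 + 1 :=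
      (continuous_fst.tendsto p).eventually_lt_const (by linarith)
    filter_upwards [this] with q hq
    refine Eventually.of_forall (fun z => ?_)
    rw [Real.norm_eq_abs]
    exact hB _ hq.le _
  · refine Eventually.of_forall (fun z => ?_)
    exact (h.cont.comp
      (by fun_prop : Continuous fun q : ℝ × ℝ × ℝ => (q.1, q.2.1 + q.2.2 * z))).continuousAt

theorem h1_A_bound {G : ℝ → ℝ → ℝ} {s B : ℝ}
    (hB : ∀ x, |G s x| ≤ B) (x c : ℝ) : |h1_A G s x c| ≤ B := by
  have := h1_prob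
  have := norm_integral_le_of_norm_le (μ := gam) (f := fun z => G s (x + c * z))
    (g := fun _ => B) (integrable_const B)
    (Eventually.of_forall (fun z => by rw [Real.norm_eq_abs]; exact hB _))
  rw [Real.norm_eq_abs] at this
  simpa [h1_A] using this

theorem h1_int_cont {G : ℝ → ℝ → ℝ} (h : PC G) (t x : ℝ) : Continuous fun ρ : ℝ =>
    max t 0 * h1_A G (max t 0 * (1 - ρ)) x (√(2 * max t 0 * ρ)) :=
  continuous_const.mul ((h1_A_cont h).comp (by fun_prop : Continuous fun ρ : ℝ =>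
    (max t 0 * (1 - ρ), x, √(2 * max t 0 * ρ))))

theorem I_PC {G : ℝ → ℝ → ℝ} (h : PC G) : PC (I G) := by
  have := h1_prob
  refine ⟨?_, ?_, ?_⟩
  · have e : (fun z : ℝ × ℝ => I G z.1 z.2) = fun z : ℝ × ℝ => ∫ ρ in (0 : ℝ)..1,
        max z.1 0 * h1_A G (max z.1 0 * (1 - ρ)) z.2 (√(2 * max z.1 0 * ρ)) := by
      funext z
      exact h1_I_eq G z.1 z.2
    rw [e]
    refine intervalIntegral.continuous_parametric_intervalIntegral_of_continuous' ?_ 0 1
    have h1 : Continuous fun p : (ℝ × ℝ) × ℝ =>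
        (max p.1.1 0 * (1 - p.2), p.1.2, √(2 * max p.1.1 0 * p.2)) := by fun_prop
    have h2 : Continuous fun p : (ℝ × ℝ) × ℝ => max p.1.1 0 := by fun_prop
    exact h2.mul ((h1_A_cont h).comp h1)
  · intro t x
    rw [h1_I_eq, h1_I_eq]
    refine intervalIntegral.integral_congr (fun ρ _ => ?_)
    congr 1
    unfold h1_A
    refine integral_congr_ae (Eventually.of_forall fun z => ?_)
    simp only
    rw [← h.per _ (x + √(2 * max t 0 * ρ) * z)]
    congr 1
    ring
  · intro t x ht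
    unfold I
    rw [max_eq_right ht, max_self]

theorem I_zero (G : ℝ → ℝ → ℝ) (x : ℝ) : I G 0 x = 0 := by
  unfold I
  simp

theorem I_odd {G : ℝ → ℝ → ℝ} (ho : ∀ s x, G s (-x) = -G s x) (t x : ℝ) :
    I G t (-x) = -I G t x := by
  rw [h1_I_eq, h1_I_eq, ← intervalIntegral.integral_neg]
  refine intervalIntegral.integral_congr (fun ρ _ => ?_)
  rw [← mul_neg]
  congr 1
  unfold h1_A
  rw [← h1_neg (fun z => G (max t 0 * (1 - ρ)) (x + √(2 * max t 0 * ρ) * z)), ← integral_neg]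
  refine integral_congr_ae (Eventually.of_forall fun z => ?_)
  simp only
  rw [← ho]
  congr 1
  ring

theorem I_sub {G H : ℝ → ℝ → ℝ} (hG : PC G) (hH : PC H) (t x : ℝ) :
    I (fun s y => G s y - H s y) t x = I G t x - I H t x := by
  rw [h1_I_eq, h1_I_eq, h1_I_eq, ← intervalIntegral.integral_sub
    ((h1_int_cont hG t x).intervalIntegrable _ _) ((h1_int_cont hH t x).intervalIntegrable _ _)]
  refine intervalIntegral.integral_congr (fun ρ _ => ?_)
  rw [← mul_sub]
  congr 1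
  unfold h1_A
  have hc : ∀ s, Continuous (G s) := fun s => hG.cont.comp
    (by fun_prop : Continuous fun y : ℝ => (s, y))
  have hc' : ∀ s, Continuous (H s) := fun s => hH.cont.comp
    (by fun_prop : Continuous fun y : ℝ => (s, y))
  exact integral_sub (h1_int (hc _) (hG.per _) _ _) (h1_int (hc' _) (hH.per _) _ _)

/-- pointwise bound of the Duhamel operator -/
theorem I_le {G : ℝ → ℝ → ℝ} (hG : PC G) {b : ℝ → ℝ} (hb : Continuous b) {t : ℝ} (ht : 0 ≤ t)
    (h : ∀ s ∈ Icc 0 t, ∀ x, |G s x| ≤ b s) (x : ℝ) : |I G t x| ≤ ∫ s in (0 : ℝ)..t, b s := by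
  rw [h1_I_eq, max_eq_left ht]
  have h1 : |∫ ρ in (0 : ℝ)..1, t * h1_A G (t * (1 - ρ)) x (√(2 * t * ρ))| ≤
      ∫ ρ in (0 : ℝ)..1, t * b (t * (1 - ρ)) := by
    rw [← Real.norm_eq_abs]
    refine intervalIntegral.norm_integral_le_of_norm_le zero_le_one ?_ ?_
    · refine Eventually.of_forall fun ρ hρ => ?_
      rw [Real.norm_eq_abs, abs_mul, abs_of_nonneg ht]
      refine mul_le_mul_of_nonneg_left (h1_A_bound (h _ ⟨?_, ?_⟩) _ _) ht
      · exact mul_nonneg ht (by linarith [hρ.2])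
      · nlinarith [hρ.1]
    · exact (continuous_const.mul (hb.comp (by fun_prop))).intervalIntegrable _ _
  refine h1.trans (le_of_eq ?_)
  rw [intervalIntegral.integral_const_mul]
  have h2 := intervalIntegral.mul_integral_comp_sub_mul (f := b) (a := (0:ℝ)) (b := 1) t t
  have h3 : ∫ ρ in (0 : ℝ)..1, b (t * (1 - ρ)) = ∫ ρ in (0 : ℝ)..1, b (t - t * ρ) := by
    refine intervalIntegral.integral_congr (fun ρ _ => ?_)
    congr 1
    ring
  rw [h3, h2]
  simp

end LE
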