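import Pool.Agent.H6.LE.Heat2

/-! Duhamel operator: space derivatives. -/

namespace LE
open Set Filter Topology MeasureTheory

theorem h63_prob : IsProbabilityMeasure gam := by
  unfold gam
  infer_instance

theorem h63_int_id : Integrable (fun z : ℝ => z) gam := by
  have := h63_prob
  have h := (ProbabilityTheory.memLp_id_gaussianReal (μ := 0) (v := 1) 1)
  exact h.integrable (by simp)

theorem h63_int_abs : Integrable (fun z : ℝ => |z|) gam := h63_int_id.abs

theorem h63_int_one : Integrable (fun _ : ℝ => (1 : ℝ)) gam := by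
  have := h63_prob
  exact integrable_const 1

theorem h63_int_sq : Integrable (fun z : ℝ => z ^ 2) gam := by
  have := h63_prob
  have h := (ProbabilityTheory.memLp_id_gaussianReal (μ := 0) (v := 1) 2)
  have h2 := h.integrable_sq
  exact h2

/-- weighted Gaussian averages are continuous -/
theorem h63_cont {G : ℝ → ℝ → ℝ} (h : PC G) {w : ℝ → ℝ} (hw : Integrable w gam) :
    Continuous fun p : ℝ × ℝ × ℝ => ∫ z, w z * G p.1 (p.2.1 + p.2.2 * z) ∂gam := by
  have := h63_prob
  rw [continuous_iff_continuousAt]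
  intro p
  obtain ⟨B, hB⟩ := h.bdd (p.1 + 1)
  refine continuousAt_of_dominated (bound := fun z => |w z| * B) ?_ ?_ (hw.abs.mul_const B) ?_
  · refine Eventually.of_forall (fun q => hw.1.mul ?_)
    exact (h.cont.comp (by fun_prop : Continuous fun z : ℝ => (q.1, q.2.1 + q.2.2 * z))
      ).aestronglyMeasurable
  · have : ∀ᶠ q : ℝ × ℝ × ℝ in 𝓝 p, q.1 < p.1 + 1 :=
      (continuous_fst.tendsto p).eventually_lt_const (by linarith)
    filter_upwards [this] with q hq
    refine Eventually.of_forall (fun z => ?_)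
    rw [Real.norm_eq_abs, abs_mul]
    exact mul_le_mul_of_nonneg_left (hB _ hq.le _) (abs_nonneg _)
  · refine Eventually.of_forall (fun z => ?_)
    exact (continuous_const.mul (h.cont.comp
      (by fun_prop : Continuous fun q : ℝ × ℝ × ℝ => (q.1, q.2.1 + q.2.2 * z)))).continuousAt

theorem h63_bound {G : ℝ → ℝ → ℝ} (h : PC G) {w : ℝ → ℝ} (hw : Integrable w gam) {s B : ℝ}
    (hB : ∀ x, |G s x| ≤ B) (x σ : ℝ) :
    |∫ z, w z * G s (x + σ * z) ∂gam| ≤ (∫ z, |w z| ∂gam) * B := by
  have := h63_prob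
  rw [← integral_mul_const]
  have := norm_integral_le_of_norm_le (μ := gam) (f := fun z => w z * G s (x + σ * z))
    (g := fun z => |w z| * B) (hw.abs.mul_const B)
    (Eventually.of_forall (fun z => by
      rw [Real.norm_eq_abs, abs_mul]
      exact mul_le_mul_of_nonneg_left (hB _) (abs_nonneg _)))
  rwa [Real.norm_eq_abs] at this

noncomputable def h63_H (G : ℝ → ℝ → ℝ) (s x σ : ℝ) : ℝ := ∫ z, G s (x + σ * z) ∂gam

noncomputable def h63_K (G : ℝ → ℝ → ℝ) (s x σ : ℝ) : ℝ := ∫ z, z * G s (x + σ * z) ∂gam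

theorem h63_H_cont {G : ℝ → ℝ → ℝ} (h : PC G) :
    Continuous fun p : ℝ × ℝ × ℝ => h63_H G p.1 p.2.1 p.2.2 := by
  have := h63_cont h h63_int_one
  simpa [h63_H] using this

theorem h63_K_cont {G : ℝ → ℝ → ℝ} (h : PC G) :
    Continuous fun p : ℝ × ℝ × ℝ => h63_K G p.1 p.2.1 p.2.2 :=
  h63_cont h h63_int_id

theorem h63_H_bound {G : ℝ → ℝ → ℝ} (h : PC G) {s B : ℝ}
    (hB : ∀ x, |G s x| ≤ B) (x σ : ℝ) : |h63_H G s x σ| ≤ B := by
  have := h63_prob
  have := h63_bound h h63_int_one hB x σ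
  simpa [h63_H] using this

noncomputable def h63_c : ℝ := ∫ z, |z| ∂gam

theorem h63_c_nonneg : 0 ≤ h63_c := integral_nonneg (fun z => abs_nonneg z)

theorem h63_K_bound {G : ℝ → ℝ → ℝ} (h : PC G) {s B : ℝ}
    (hB : ∀ x, |G s x| ≤ B) (x σ : ℝ) : |h63_K G s x σ| ≤ h63_c * B :=
  h63_bound h h63_int_id hB x σ

theorem h63_I_eq (G : ℝ → ℝ → ℝ) (t x : ℝ) : I G t x = ∫ ρ in (0 : ℝ)..1,
    max t 0 * h63_H G (max t 0 * (1 - ρ)) x (√(2 * max t 0 * ρ)) := by
  unfold I
  refine intervalIntegral.integral_congr (fun ρ _ => ?_)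
  simp only [h63_H]
  rw [integral_const_mul]

theorem h63_D_eq (G : ℝ → ℝ → ℝ) (t x : ℝ) : D G t x = ∫ ρ in (0 : ℝ)..1,
    √(max t 0 / 2) * ρ ^ (-(1 / 2) : ℝ) *
      h63_K G (max t 0 * (1 - ρ)) x (√(2 * max t 0 * ρ)) := by
  unfold D
  refine intervalIntegral.integral_congr (fun ρ _ => ?_)
  simp only [h63_K]
  rw [← integral_const_mul]
  refine integral_congr_ae (Eventually.of_forall (fun z => ?_))
  simp only
  ring

theorem h63_rpow_int (a b : ℝ) :
    IntervalIntegrable (fun ρ : ℝ => ρ ^ (-(1 / 2) : ℝ)) volume a b :=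
  intervalIntegral.intervalIntegrable_rpow' (by norm_num)

theorem D_PC {G : ℝ → ℝ → ℝ} (h : PC G) : PC (D G) := by
  refine ⟨?_, ?_, ?_⟩
  · rw [continuous_iff_continuousAt]
    intro p
    obtain ⟨B, hB⟩ := h.bdd (max (p.1 + 1) 0)
    have hfun : (fun z : ℝ × ℝ => D G z.1 z.2) = fun z : ℝ × ℝ => √(max z.1 0 / 2) *
        ∫ ρ in (0 : ℝ)..1, ρ ^ (-(1 / 2) : ℝ) *
          h63_K G (max z.1 0 * (1 - ρ)) z.2 (√(2 * max z.1 0 * ρ)) := by
      funext z
      rw [h63_D_eq, ← intervalIntegral.integral_const_mul]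
      refine intervalIntegral.integral_congr (fun ρ _ => ?_)
      ring
    rw [hfun]
    refine ContinuousAt.mul (by fun_prop) ?_
    refine intervalIntegral.continuousAt_of_dominated_interval
      (bound := fun ρ => ρ ^ (-(1 / 2) : ℝ) * (h63_c * B)) ?_ ?_ ((h63_rpow_int 0 1).mul_const _) ?_
    · refine Eventually.of_forall (fun q => ?_)
      refine AEStronglyMeasurable.mul ?_ ?_
      · exact (measurable_id.pow_const _).aestronglyMeasurable
      · exact ((h63_K_cont h).comp (by fun_prop : Continuous fun ρ : ℝ =>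
          (max q.1 0 * (1 - ρ), q.2, √(2 * max q.1 0 * ρ)))).aestronglyMeasurable
    · have : ∀ᶠ q : ℝ × ℝ in 𝓝 p, q.1 < p.1 + 1 :=
        (continuous_fst.tendsto p).eventually_lt_const (by linarith)
      filter_upwards [this] with q hq
      refine Eventually.of_forall (fun ρ hρ => ?_)
      rw [uIoc_of_le zero_le_one] at hρ
      have hr : (0 : ℝ) ≤ ρ ^ (-(1 / 2) : ℝ) := Real.rpow_nonneg hρ.1.le _
      rw [Real.norm_eq_abs, abs_mul, abs_of_nonneg hr]
      refine mul_le_mul_of_nonneg_left (h63_K_bound h (fun x => hB _ ?_ x) _ _) hr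
      have h0 : (0 : ℝ) ≤ max q.1 0 := le_max_right _ _
      have h1 : max q.1 0 ≤ max (p.1 + 1) 0 := max_le_max hq.le le_rfl
      nlinarith [hρ.1, hρ.2]
    · refine Eventually.of_forall (fun ρ _ => ?_)
      exact (continuous_const.mul ((h63_K_cont h).comp (by fun_prop : Continuous fun q : ℝ × ℝ =>
        (max q.1 0 * (1 - ρ), q.2, √(2 * max q.1 0 * ρ))))).continuousAt
  · intro s x
    rw [h63_D_eq, h63_D_eq]
    refine intervalIntegral.integral_congr (fun ρ _ => ?_)
    simp only [h63_K]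
    congr 1
    refine integral_congr_ae (Eventually.of_forall (fun z => ?_))
    simp only
    rw [← h.per _ (x + √(2 * max s 0 * ρ) * z),
      show x + √(2 * max s 0 * ρ) * z + 2 = x + 2 + √(2 * max s 0 * ρ) * z by ring]
  · intro s x hs
    unfold D
    rw [max_eq_right hs, max_eq_right le_rfl]

theorem h63_grow {f f' : ℝ → ℝ} (hd : ∀ z, HasDerivAt f (f' z) z) {B : ℝ}
    (hB : ∀ z, |f' z| ≤ B) (z : ℝ) : |f z| ≤ |f 0| + B * |z| := by
  have := Convex.norm_image_sub_le_of_norm_hasDerivWithin_le (f := f) (f' := f') (C := B)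
    (s := univ) (x := 0) (y := z) (fun w _ => (hd w).hasDerivWithinAt)
    (fun w _ => hB w) convex_univ (mem_univ _) (mem_univ _)
  rw [Real.norm_eq_abs, Real.norm_eq_abs, sub_zero] at this
  calc |f z| = |f 0 + (f z - f 0)| := by ring_nf
    _ ≤ |f 0| + |f z - f 0| := abs_add_le _ _
    _ ≤ _ := by linarith

theorem h63_zf_int {f f' : ℝ → ℝ} (hd : ∀ z, HasDerivAt f (f' z) z) {B : ℝ}
    (hB : ∀ z, |f' z| ≤ B) : Integrable (fun z => z * f z) gam := by
  have hfc : Continuous f := continuous_iff_continuousAt.2 (fun z => (hd z).continuousAt)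
  refine Integrable.mono' ((h63_int_abs.const_mul |f 0|).add (h63_int_sq.const_mul B))
    (continuous_id.mul hfc).aestronglyMeasurable (Eventually.of_forall (fun z => ?_))
  rw [Real.norm_eq_abs, abs_mul]
  have h1 := mul_le_mul_of_nonneg_left (h63_grow hd hB z) (abs_nonneg z)
  have h2 : |z| * |z| = z ^ 2 := by rw [← sq, sq_abs]
  have h3 : |z| * (|f 0| + B * |z|) = |f 0| * |z| + B * z ^ 2 := by
    rw [← h2]
    ring
  simp only [Pi.add_apply]
  linarith

/-- Stein's identity -/
theorem h63_stein {f f' : ℝ → ℝ} (hd : ∀ z, HasDerivAt f (f' z) z) (hf' : Continuous f') {B : ℝ}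
    (hB : ∀ z, |f' z| ≤ B) : ∫ z, z * f z ∂gam = ∫ z, f' z ∂gam := by
  have hpr := h63_prob
  set φ : ℝ → ℝ := ProbabilityTheory.gaussianPDFReal 0 1 with hφ
  have hfc : Continuous f := continuous_iff_continuousAt.2 (fun z => (hd z).continuousAt)
  have hφd : ∀ z, HasDerivAt φ (-z * φ z) z := by
    intro z
    have h1 : HasDerivAt (fun z : ℝ => -(z - 0) ^ 2 / (2 * ((1 : NNReal) : ℝ))) (-z) z := by
      have h := (hasDerivAt_pow 2 z).neg.div_const 2
      have e : (fun z : ℝ => -(z - 0) ^ 2 / (2 * ((1 : NNReal) : ℝ))) = fun z => -z ^ 2 / 2 := by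
        funext z
        simp
      rw [e]
      refine HasDerivAt.congr_deriv h ?_
      norm_num
      ring
    have h2 : HasDerivAt φ _ z := (h1.exp).const_mul ((√(2 * Real.pi * ((1 : NNReal) : ℝ)))⁻¹)
    refine h2.congr_deriv ?_
    rw [hφ, ProbabilityTheory.gaussianPDFReal]
    ring
  have hint : ∀ g : ℝ → ℝ, ∫ z, g z ∂gam = ∫ z, φ z * g z := by
    intro g
    unfold gam
    rw [ProbabilityTheory.integral_gaussianReal_eq_integral_smul one_ne_zero]
    simp [hφ]
  have hI : ∀ g : ℝ → ℝ, Integrable g gam → Integrable (fun z => φ z * g z) := by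
    intro g hg
    unfold gam at hg
    rw [ProbabilityTheory.gaussianReal_of_var_ne_zero 0 one_ne_zero] at hg
    have := (integrable_withDensity_iff_integrable_smul'
      (ProbabilityTheory.measurable_gaussianPDF 0 1)
      (Eventually.of_forall (fun x => ProbabilityTheory.gaussianPDF_lt_top))).1 hg
    simpa [ProbabilityTheory.toReal_gaussianPDF] using this
  have hgrow := h63_grow hd hB
  have hf'i : Integrable f' gam := by
    refine Integrable.mono' (integrable_const B) hf'.aestronglyMeasurable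
      (Eventually.of_forall (fun z => hB z))
  have hfi : Integrable f gam := by
    refine Integrable.mono' ((integrable_const |f 0|).add (h63_int_abs.const_mul B))
      hfc.aestronglyMeasurable (Eventually.of_forall (fun z => hgrow z))
  have hzfi : Integrable (fun z => z * f z) gam := h63_zf_int hd hB
  rw [hint, hint]
  have key := integral_mul_deriv_eq_deriv_mul_of_integrable (u := f) (u' := f') (v := φ)
    (v' := fun z => -z * φ z) (fun z _ => hd z) (fun z _ => hφd z) ?_ ?_ ?_
  · have e1 : ∫ z, φ z * (z * f z) = -∫ z, f z * (-z * φ z) := by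
      rw [← integral_neg]
      refine integral_congr_ae (Eventually.of_forall (fun z => ?_))
      simp only
      ring
    rw [e1, key, neg_neg]
    refine integral_congr_ae (Eventually.of_forall (fun z => ?_))
    simp only
    ring
  · refine (hI _ hzfi).neg.congr (Eventually.of_forall (fun z => ?_))
    simp only [Pi.neg_apply, Pi.mul_apply]
    ring
  · refine (hI _ hf'i).congr (Eventually.of_forall (fun z => ?_))
    simp only [Pi.mul_apply]
    ring
  · refine (hI _ hfi).congr (Eventually.of_forall (fun z => ?_))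
    simp only [Pi.mul_apply]
    ring

theorem h63_H_deriv {G : ℝ → ℝ → ℝ} (h : PC G) (s x : ℝ) {σ : ℝ} (hσ : 0 < σ) :
    HasDerivAt (fun y => h63_H G s y σ) (σ⁻¹ * h63_K G s x σ) x := by
  have hpr := h63_prob
  obtain ⟨B, hB⟩ := h.bdd s
  have hB := hB s le_rfl
  have hg : Continuous (G s) := h.cont.comp (by fun_prop : Continuous fun x : ℝ => (s, x))
  set Φ : ℝ → ℝ := fun y => ∫ u in (0 : ℝ)..y, G s u with hΦ
  have hΦd : ∀ y, HasDerivAt Φ (G s y) y := fun y =>
    intervalIntegral.integral_hasDerivAt_right (hg.intervalIntegrable _ _)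
      (hg.stronglyMeasurableAtFilter _ _) hg.continuousAt
  have hΦc : Continuous Φ := continuous_iff_continuousAt.2 (fun z => (hΦd z).continuousAt)
  have hcomp : ∀ y z, HasDerivAt (fun z => Φ (y + σ * z)) (σ * G s (y + σ * z)) z := by
    intro y z
    have h1 : HasDerivAt (fun z : ℝ => y + σ * z) σ z := by
      have := ((hasDerivAt_id z).const_mul σ).const_add y
      simpa using this
    have := (hΦd (y + σ * z)).comp z h1
    rw [mul_comm]
    exact this
  have hbd : ∀ y z, |σ * G s (y + σ * z)| ≤ σ * B := by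
    intro y z
    rw [abs_mul, abs_of_pos hσ]
    exact mul_le_mul_of_nonneg_left (hB _) hσ.le
  have hH : ∀ y, h63_H G s y σ = σ⁻¹ * ∫ z, z * Φ (y + σ * z) ∂gam := by
    intro y
    rw [h63_stein (hcomp y) (by fun_prop) (hbd y), integral_const_mul, ← mul_assoc,
      inv_mul_cancel₀ hσ.ne', one_mul, h63_H]
  rw [show (fun y => h63_H G s y σ) = fun y => σ⁻¹ * ∫ z, z * Φ (y + σ * z) ∂gam from funext hH]
  refine HasDerivAt.const_mul _ ?_
  refine (hasDerivAt_integral_of_dominated_loc_of_deriv_le (μ := gam) (s := univ)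
    (F := fun y z => z * Φ (y + σ * z)) (F' := fun y z => z * G s (y + σ * z))
    (bound := fun z => |z| * B) univ_mem ?_ ?_ ?_ ?_ (h63_int_abs.mul_const B) ?_).2
  · exact Eventually.of_forall (fun y =>
      (continuous_id.mul (hΦc.comp (by fun_prop))).aestronglyMeasurable)
  · exact h63_zf_int (hcomp x) (hbd x)
  · exact (continuous_id.mul (hg.comp (by fun_prop))).aestronglyMeasurable
  · refine Eventually.of_forall (fun z y _ => ?_)
    rw [Real.norm_eq_abs, abs_mul]
    exact mul_le_mul_of_nonneg_left (hB _) (abs_nonneg _)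
  · refine Eventually.of_forall (fun z y _ => ?_)
    refine HasDerivAt.const_mul _ ?_
    have h1 : HasDerivAt (fun y : ℝ => y + σ * z) 1 y := (hasDerivAt_id y).add_const _
    have := (hΦd (y + σ * z)).comp y h1
    rw [mul_one] at this
    exact this

theorem h63_H_deriv1 {G G1 : ℝ → ℝ → ℝ} (h : PC G) (h1 : PC G1)
    (hd : ∀ s x, HasDerivAt (G s) (G1 s x) x) (s x σ : ℝ) :
    HasDerivAt (fun y => h63_H G s y σ) (h63_H G1 s x σ) x := by
  have hpr := h63_prob
  obtain ⟨B, hB⟩ := h.bdd s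
  have hB := hB s le_rfl
  obtain ⟨B1, hB1⟩ := h1.bdd s
  have hB1 := hB1 s le_rfl
  have hg : Continuous (G s) := h.cont.comp (by fun_prop : Continuous fun x : ℝ => (s, x))
  have hg1 : Continuous (G1 s) := h1.cont.comp (by fun_prop : Continuous fun x : ℝ => (s, x))
  refine (hasDerivAt_integral_of_dominated_loc_of_deriv_le (μ := gam) (s := univ)
    (F := fun y z => G s (y + σ * z)) (F' := fun y z => G1 s (y + σ * z))
    (bound := fun z => B1) univ_mem ?_ ?_ ?_ ?_ (integrable_const _) ?_).2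
  · exact Eventually.of_forall (fun y => (hg.comp (by fun_prop)).aestronglyMeasurable)
  · exact Integrable.mono' (integrable_const B) (hg.comp (by fun_prop)).aestronglyMeasurable
      (Eventually.of_forall (fun z => hB _))
  · exact (hg1.comp (by fun_prop)).aestronglyMeasurable
  · exact Eventually.of_forall (fun z y _ => hB1 _)
  · refine Eventually.of_forall (fun z y _ => ?_)
    have h1 : HasDerivAt (fun y : ℝ => y + σ * z) 1 y := (hasDerivAt_id y).add_const _
    have := (hd s (y + σ * z)).comp y h1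
    rw [mul_one] at this
    exact this

theorem I_deriv {G : ℝ → ℝ → ℝ} (h : PC G) (t x : ℝ) : HasDerivAt (I G t) (D G t x) x := by
  obtain ⟨B, hB⟩ := h.bdd (max t 0)
  have hIf : I G t = fun y => ∫ ρ in (0 : ℝ)..1,
    max t 0 * h63_H G (max t 0 * (1 - ρ)) y (√(2 * max t 0 * ρ)) := funext (h63_I_eq G t)
  rw [hIf, h63_D_eq]
  rcases le_or_gt t 0 with ht | ht
  · rw [max_eq_right ht]
    simp only [zero_mul, mul_zero, zero_div, Real.sqrt_zero, intervalIntegral.integral_zero]
    exact hasDerivAt_const _ _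
  · rw [max_eq_left ht.le] at *
    have hle : ∀ ρ ∈ Ioc (0 : ℝ) 1, t * (1 - ρ) ≤ t := by
      intro ρ hρ
      nlinarith [hρ.1]
    refine (intervalIntegral.hasDerivAt_integral_of_dominated_loc_of_deriv_le (s := univ)
      (F := fun y ρ => t * h63_H G (t * (1 - ρ)) y (√(2 * t * ρ)))
      (F' := fun y ρ => √(t / 2) * ρ ^ (-(1 / 2) : ℝ) * h63_K G (t * (1 - ρ)) y (√(2 * t * ρ)))
      (bound := fun ρ => √(t / 2) * ρ ^ (-(1 / 2) : ℝ) * (h63_c * B))
      univ_mem ?_ ?_ ?_ ?_ (((h63_rpow_int 0 1).const_mul _).mul_const _) ?_).2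
    · refine Eventually.of_forall (fun y => ?_)
      exact (continuous_const.mul ((h63_H_cont h).comp (by fun_prop : Continuous fun ρ : ℝ =>
          (t * (1 - ρ), y, √(2 * t * ρ))))).aestronglyMeasurable
    · exact (continuous_const.mul ((h63_H_cont h).comp (by fun_prop : Continuous fun ρ : ℝ =>
          (t * (1 - ρ), x, √(2 * t * ρ))))).intervalIntegrable _ _
    · refine AEStronglyMeasurable.mul ?_ ?_
      · exact ((measurable_id.pow_const _).const_mul _).aestronglyMeasurable
      · exact ((h63_K_cont h).comp (by fun_prop : Continuous fun ρ : ℝ =>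
          (t * (1 - ρ), x, √(2 * t * ρ)))).aestronglyMeasurable
    · refine Eventually.of_forall (fun ρ hρ y _ => ?_)
      rw [uIoc_of_le zero_le_one] at hρ
      have hr : (0 : ℝ) ≤ √(t / 2) * ρ ^ (-(1 / 2) : ℝ) :=
        mul_nonneg (Real.sqrt_nonneg _) (Real.rpow_nonneg hρ.1.le _)
      rw [Real.norm_eq_abs, abs_mul, abs_of_nonneg hr]
      exact mul_le_mul_of_nonneg_left (h63_K_bound h (fun x => hB _ (hle ρ hρ) x) _ _) hr
    · refine Eventually.of_forall (fun ρ hρ y _ => ?_)
      rw [uIoc_of_le zero_le_one] at hρ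
      have hσ : 0 < √(2 * t * ρ) := Real.sqrt_pos.2 (by have := hρ.1; positivity)
      have := (h63_H_deriv h (t * (1 - ρ)) y hσ).const_mul t
      refine this.congr_deriv ?_
      rw [← mul_assoc]
      congr 1
      rw [Real.rpow_neg hρ.1.le, ← Real.sqrt_eq_rpow, ← div_eq_mul_inv, ← div_eq_mul_inv,
        ← Real.sqrt_div' _ hρ.1.le]
      rw [div_eq_iff hσ.ne', ← Real.sqrt_mul (by have := hρ.1; positivity)]
      have e : t / 2 / ρ * (2 * t * ρ) = t ^ 2 := by
        have := hρ.1.ne'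
        field_simp
      rw [e, Real.sqrt_sq ht.le]

theorem I_deriv1 {G G1 : ℝ → ℝ → ℝ} (h : PC G) (h1 : PC G1)
    (hd : ∀ s x, HasDerivAt (G s) (G1 s x) x) (t x : ℝ) : HasDerivAt (I G t) (I G1 t x) x := by
  obtain ⟨B1, hB1⟩ := h1.bdd (max t 0)
  have hIf : I G t = fun y => ∫ ρ in (0 : ℝ)..1,
    max t 0 * h63_H G (max t 0 * (1 - ρ)) y (√(2 * max t 0 * ρ)) := funext (h63_I_eq G t)
  rw [hIf, h63_I_eq]
  have h0 : (0 : ℝ) ≤ max t 0 := le_max_right _ _
  refine (intervalIntegral.hasDerivAt_integral_of_dominated_loc_of_deriv_le (s := univ)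
    (F := fun y ρ => max t 0 * h63_H G (max t 0 * (1 - ρ)) y (√(2 * max t 0 * ρ)))
    (F' := fun y ρ => max t 0 * h63_H G1 (max t 0 * (1 - ρ)) y (√(2 * max t 0 * ρ)))
    (bound := fun ρ => max t 0 * B1)
    univ_mem ?_ ?_ ?_ ?_ (by simp) ?_).2
  · refine Eventually.of_forall (fun y => ?_)
    exact (continuous_const.mul ((h63_H_cont h).comp (by fun_prop : Continuous fun ρ : ℝ =>
        (max t 0 * (1 - ρ), y, √(2 * max t 0 * ρ))))).aestronglyMeasurable
  · exact (continuous_const.mul ((h63_H_cont h).comp (by fun_prop : Continuous fun ρ : ℝ =>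
        (max t 0 * (1 - ρ), x, √(2 * max t 0 * ρ))))).intervalIntegrable _ _
  · exact (continuous_const.mul ((h63_H_cont h1).comp (by fun_prop : Continuous fun ρ : ℝ =>
        (max t 0 * (1 - ρ), x, √(2 * max t 0 * ρ))))).aestronglyMeasurable
  · refine Eventually.of_forall (fun ρ hρ y _ => ?_)
    rw [uIoc_of_le zero_le_one] at hρ
    rw [Real.norm_eq_abs, abs_mul, abs_of_nonneg h0]
    refine mul_le_mul_of_nonneg_left (h63_H_bound h1 (fun x => hB1 _ ?_ x) _ _) h0
    nlinarith [hρ.1]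
  · refine Eventually.of_forall (fun ρ _ y _ => ?_)
    exact (h63_H_deriv1 h h1 hd _ y _).const_mul _

theorem D_eq {G G1 : ℝ → ℝ → ℝ} (h : PC G) (h1 : PC G1)
    (hd : ∀ s x, HasDerivAt (G s) (G1 s x) x) (t x : ℝ) : D G t x = I G1 t x :=
  (I_deriv h t x).unique (I_deriv1 h h1 hd t x)

end LE
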