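import Pool.Agent.H6.LE.Defs

/-! Gaussian heat semigroup on the line and Duhamel operators: definitions. -/

namespace LE
open Set Filter Topology MeasureTheory

/-- standard Gaussian measure -/
noncomputable def gam : Measure ℝ := ProbabilityTheory.gaussianReal 0 1

/-- jointly continuous, 2-periodic in space, constant in time for `s ≤ 0` -/
structure PC (G : ℝ → ℝ → ℝ) : Prop where
  cont : Continuous fun z : ℝ × ℝ => G z.1 z.2
  per : ∀ s x, G s (x + 2) = G s x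
  frz : ∀ s x, s ≤ 0 → G s x = G 0 x

/-- heat semigroup `exp (t ∂²)` (with `t` replaced by `max t 0`) -/
noncomputable def S (f : ℝ → ℝ) (t x : ℝ) : ℝ := ∫ z, f (x + √(2 * max t 0) * z) ∂gam

/-- Duhamel operator `∫_0^t S_{t-s} G(s) ds`, with `s = t (1 - ρ)` -/
noncomputable def I (G : ℝ → ℝ → ℝ) (t x : ℝ) : ℝ :=
  ∫ ρ in (0 : ℝ)..1, ∫ z, max t 0 * G (max t 0 * (1 - ρ)) (x + √(2 * max t 0 * ρ) * z) ∂gam

/-- `∂ₓ` of the Duhamel operator -/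
noncomputable def D (G : ℝ → ℝ → ℝ) (t x : ℝ) : ℝ :=
  ∫ ρ in (0 : ℝ)..1, ∫ z, √(max t 0 / 2) * ρ ^ (-(1 / 2) : ℝ) * z *
    G (max t 0 * (1 - ρ)) (x + √(2 * max t 0 * ρ) * z) ∂gam

/-- truncated nonlinearity for `V`, `2`-periodic in `x` -/
noncomputable def Nf (k x v : ℝ) : ℝ := |fold x| * g k (v / |fold x|)

/-- averages along `[0, x]` -/
noncomputable def Pof (W : ℝ → ℝ → ℝ) (t x : ℝ) : ℝ := ∫ θ in (0 : ℝ)..1, W t (θ * x)
noncomputable def Pof1 (W : ℝ → ℝ → ℝ) (t x : ℝ) : ℝ := ∫ θ in (0 : ℝ)..1, θ * W t (θ * x)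
noncomputable def Pof2 (W : ℝ → ℝ → ℝ) (t x : ℝ) : ℝ := ∫ θ in (0 : ℝ)..1, θ ^ 2 * W t (θ * x)

end LE
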