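import Pool.Agent.H6.LE.Comp2

/-! Finite time blow-up. -/

namespace LE
open Set Filter Topology MeasureTheory

variable {k k' : ℝ}

theorem Sol.V_nonneg (s : Sol k) (hk : 66 ≤ k) {t x : ℝ} (ht : 0 ≤ t) (hx : x ∈ Icc (0 : ℝ) 1) :
    0 ≤ s.V t x := by
  rw [s.VP]
  exact mul_nonneg hx.1 (s.nonneg hk ht hx)

theorem Sol.cVt (s : Sol k) (t : ℝ) : Continuous (s.V t) :=
  s.cV.comp (continuous_const.prodMk continuous_id)

theorem Sol.cPt' (s : Sol k) (t : ℝ) : Continuous (s.P t) :=
  s.cP.comp (continuous_const.prodMk continuous_id)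

theorem Sol.cV1t (s : Sol k) (t : ℝ) : Continuous (s.V1 t) :=
  s.cV1.comp (continuous_const.prodMk continuous_id)

theorem Sol.cV2t (s : Sol k) (t : ℝ) : Continuous (s.V2 t) :=
  s.cV2.comp (continuous_const.prodMk continuous_id)

theorem g_cont (k : ℝ) : Continuous (g k) := (g_smooth k).continuous

/-- the first Fourier coefficient -/
noncomputable def Sol.a (s : Sol k) (t : ℝ) : ℝ := ∫ x in (0 : ℝ)..1, s.V t x * Real.sin (Real.pi * x)

theorem Sol.a_cont (s : Sol k) : Continuous s.a := by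
  unfold Sol.a
  apply intervalIntegral.continuous_parametric_intervalIntegral_of_continuous'
  exact s.cV.mul (by fun_prop)

/-- derivative of the first Fourier coefficient -/
theorem Sol.a_deriv (s : Sol k) {t : ℝ} (ht : 0 < t) :
    HasDerivAt s.a (∫ x in (0 : ℝ)..1, (s.V2 t x + x * g k (s.P t x)) * Real.sin (Real.pi * x)) t := by
  have hcont : Continuous fun z : ℝ × ℝ =>
      (s.V2 z.1 z.2 + z.2 * g k (s.P z.1 z.2)) * Real.sin (Real.pi * z.2) := by
    have h1 := s.cV2
    have h2 : Continuous fun z : ℝ × ℝ => g k (s.P z.1 z.2) := (g_cont k).comp s.cP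
    fun_prop
  -- bound on a compact set
  obtain ⟨B, hB⟩ : ∃ B, ∀ z ∈ Icc (t / 2) (2 * t) ×ˢ Icc (0 : ℝ) 1,
      ‖(s.V2 z.1 z.2 + z.2 * g k (s.P z.1 z.2)) * Real.sin (Real.pi * z.2)‖ ≤ B :=
    (isCompact_Icc.prod isCompact_Icc).exists_bound_of_continuousOn hcont.continuousOn
  have hmem : Ioo (t / 2) (2 * t) ∈ 𝓝 t := Ioo_mem_nhds (by linarith) (by linarith)
  have := intervalIntegral.hasDerivAt_integral_of_dominated_loc_of_deriv_le
    (μ := volume) (a := (0 : ℝ)) (b := 1) (bound := fun _ => B)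
    (F := fun t x => s.V t x * Real.sin (Real.pi * x))
    (F' := fun t x => (s.V2 t x + x * g k (s.P t x)) * Real.sin (Real.pi * x))
    (x₀ := t) hmem ?_ ?_ ?_ ?_ ?_ ?_
  · exact this.2
  · refine Eventually.of_forall fun t => ?_
    have : Continuous fun x => s.V t x * Real.sin (Real.pi * x) := by
      have := s.cVt t
      fun_prop
    exact this.aestronglyMeasurable
  · have : Continuous fun x => s.V t x * Real.sin (Real.pi * x) := by
      have := s.cVt t
      fun_prop
    exact this.intervalIntegrable _ _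
  · have : Continuous fun x => (s.V2 t x + x * g k (s.P t x)) * Real.sin (Real.pi * x) :=
      hcont.comp (continuous_const.prodMk continuous_id)
    exact this.aestronglyMeasurable
  · refine Eventually.of_forall fun x hx r hr => ?_
    rw [uIoc_of_le zero_le_one] at hx
    exact hB (r, x) ⟨⟨hr.1.le, hr.2.le⟩, ⟨hx.1.le, hx.2⟩⟩
  · exact intervalIntegrable_const
  · refine Eventually.of_forall fun x hx r hr => ?_
    rw [uIoc_of_le zero_le_one] at hx
    have hr0 : 0 < r := lt_trans (by linarith) hr.1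
    exact (s.tV r hr0 x ⟨by linarith [hx.1], hx.2⟩).mul_const _

/-- integration by parts -/
theorem Sol.parts (s : Sol k) (t : ℝ) :
    ∫ x in (0 : ℝ)..1, s.V2 t x * Real.sin (Real.pi * x) = -(Real.pi ^ 2) * s.a t := by
  have hd : ∀ x, HasDerivAt (fun x => s.V1 t x * Real.sin (Real.pi * x)
      - Real.pi * (s.V t x * Real.cos (Real.pi * x)))
      (s.V2 t x * Real.sin (Real.pi * x) + Real.pi ^ 2 * (s.V t x * Real.sin (Real.pi * x))) x := by
    intro x
    have hs : HasDerivAt (fun x : ℝ => Real.sin (Real.pi * x))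
        (Real.cos (Real.pi * x) * (Real.pi * 1)) x :=
      ((hasDerivAt_id x).const_mul Real.pi).sin
    have hc : HasDerivAt (fun x : ℝ => Real.cos (Real.pi * x))
        (-Real.sin (Real.pi * x) * (Real.pi * 1)) x :=
      ((hasDerivAt_id x).const_mul Real.pi).cos
    have h := ((s.dV1 t x).mul hs).sub (((s.dV t x).mul hc).const_mul Real.pi)
    exact h.congr_deriv (by ring)
  have hc1 : Continuous fun x => s.V2 t x * Real.sin (Real.pi * x) := by
    have := s.cV2t t
    fun_prop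
  have hc2 : Continuous fun x => s.V t x * Real.sin (Real.pi * x) := by
    have := s.cVt t
    fun_prop
  have hc3 : Continuous fun x => Real.pi ^ 2 * (s.V t x * Real.sin (Real.pi * x)) := by
    fun_prop
  have h1 := intervalIntegral.integral_eq_sub_of_hasDerivAt (a := (0 : ℝ)) (b := 1)
    (fun x _ => hd x) ((hc1.add hc3).intervalIntegrable _ _)
  rw [intervalIntegral.integral_add (hc1.intervalIntegrable _ _)
    (hc3.intervalIntegrable _ _),
    intervalIntegral.integral_const_mul] at h1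
  rw [s.V_zero, s.bd] at h1
  simp only [mul_one, Real.sin_pi, mul_zero, Real.sin_zero, zero_mul, sub_zero] at h1
  unfold Sol.a
  linarith

theorem int_x_sin : ∫ x in (0 : ℝ)..1, x * Real.sin (Real.pi * x) = 1 / Real.pi := by
  have hpi : Real.pi ≠ 0 := Real.pi_ne_zero
  have hd : ∀ x, HasDerivAt (fun x => -(x * Real.cos (Real.pi * x)) / Real.pi
      + Real.sin (Real.pi * x) / Real.pi ^ 2) (x * Real.sin (Real.pi * x)) x := by
    intro x
    have hs : HasDerivAt (fun x : ℝ => Real.sin (Real.pi * x))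
        (Real.cos (Real.pi * x) * (Real.pi * 1)) x :=
      ((hasDerivAt_id x).const_mul Real.pi).sin
    have hc : HasDerivAt (fun x : ℝ => Real.cos (Real.pi * x))
        (-Real.sin (Real.pi * x) * (Real.pi * 1)) x :=
      ((hasDerivAt_id x).const_mul Real.pi).cos
    have h := ((((hasDerivAt_id x).mul hc).neg).div_const Real.pi).add (hs.div_const (Real.pi ^ 2))
    refine h.congr_deriv ?_
    simp only [id_eq]
    field_simp
    ring
  have hc : Continuous fun x : ℝ => x * Real.sin (Real.pi * x) := by fun_prop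
  rw [intervalIntegral.integral_eq_sub_of_hasDerivAt (fun x _ => hd x)
    (hc.intervalIntegrable _ _)]
  simp only [mul_one, Real.sin_pi, Real.cos_pi, mul_zero, Real.sin_zero, zero_mul]
  field_simp
  ring

/-- lower bound at the initial time -/
theorem Sol.a_zero (s : Sol k) (hk : 66 ≤ k) : 1 / 2 ≤ s.a 0 := by
  have hc2 : Continuous fun x => s.V 0 x * Real.sin (Real.pi * x) := by
    have := s.cVt 0
    fun_prop
  have hsplit := intervalIntegral.integral_add_adjacent_intervals
    (hc2.intervalIntegrable (μ := volume) 0 (1 / 2)) (hc2.intervalIntegrable (μ := volume) (1 / 2) 1)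
  have h1 : 0 ≤ ∫ x in (1 / 2 : ℝ)..1, s.V 0 x * Real.sin (Real.pi * x) := by
    apply intervalIntegral.integral_nonneg (by norm_num)
    intro x hx
    refine mul_nonneg (s.V_nonneg hk le_rfl ⟨by linarith [hx.1], hx.2⟩) ?_
    apply Real.sin_nonneg_of_nonneg_of_le_pi
    · have := Real.pi_pos
      have := hx.1
      positivity
    · have := Real.pi_pos
      nlinarith [hx.2]
  have h2 : ∫ x in (0 : ℝ)..(1 / 2), 18 * x ^ 2 ≤
      ∫ x in (0 : ℝ)..(1 / 2), s.V 0 x * Real.sin (Real.pi * x) := by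
    apply intervalIntegral.integral_mono_on (by norm_num)
      ((by fun_prop : Continuous fun x : ℝ => 18 * x ^ 2).intervalIntegrable _ _)
      (hc2.intervalIntegrable _ _)
    intro x hx
    have hpi := Real.pi_pos
    have hu : 9 ≤ u0 x := by
      unfold u0
      have hx2 : x ^ 2 ≤ 1 / 4 := by nlinarith [hx.1, hx.2]
      have h3 : 3 / 4 ≤ 1 - x ^ 2 := by linarith
      have h4 : 0 ≤ (1 - x ^ 2) ^ 2 := by positivity
      have h5 : 0 ≤ (1 - x ^ 2) ^ 3 := by positivity
      linarith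
    have hsin : 2 * x ≤ Real.sin (Real.pi * x) := by
      have h3 := Real.mul_le_sin (x := Real.pi * x) (mul_nonneg hpi.le hx.1)
        (by nlinarith [hx.2])
      have h4 : 2 / Real.pi * (Real.pi * x) = 2 * x := by field_simp
      rwa [h4] at h3
    rw [s.VP, s.init x ⟨by linarith [hx.1], by linarith [hx.2]⟩]
    have hx0 := hx.1
    calc 18 * x ^ 2 = (x * 9) * (2 * x) := by ring
      _ ≤ (x * u0 x) * Real.sin (Real.pi * x) := by
        apply mul_le_mul _ hsin (by positivity) (by positivity)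
        exact mul_le_mul_of_nonneg_left hu hx0
  have h3 : ∫ x in (0 : ℝ)..(1 / 2), 18 * x ^ 2 = 3 / 4 := by
    rw [intervalIntegral.integral_const_mul, integral_pow]
    norm_num
  unfold Sol.a
  linarith

/-- `a' ≥ -π² a + π⁸ a⁹` -/
theorem Sol.a_ineq (s : Sol k) (hk : 66 ≤ k) {t : ℝ} (ht : 0 ≤ t)
    (hT : ∀ x ∈ Icc (0 : ℝ) 1, s.P t x ≤ k) (ha : 0 ≤ s.a t) :
    -(Real.pi ^ 2) * s.a t + Real.pi ^ 8 * s.a t ^ 9 ≤
      ∫ x in (0 : ℝ)..1, (s.V2 t x + x * g k (s.P t x)) * Real.sin (Real.pi * x) := by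
  have hpi := Real.pi_pos
  have hcg : Continuous fun x => g k (s.P t x) := (g_cont k).comp (s.cPt' t)
  have hc1 : Continuous fun x => s.V2 t x * Real.sin (Real.pi * x) := by
    have := s.cV2t t
    fun_prop
  have hc2 : Continuous fun x => x * g k (s.P t x) * Real.sin (Real.pi * x) := by
    fun_prop
  have hc3 : Continuous fun x => s.V t x * Real.sin (Real.pi * x) := by
    have := s.cVt t
    fun_prop
  have hc4 : Continuous fun x : ℝ => x * Real.sin (Real.pi * x) := by fun_prop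
  have h1 : ∫ x in (0 : ℝ)..1, (s.V2 t x + x * g k (s.P t x)) * Real.sin (Real.pi * x)
      = (∫ x in (0 : ℝ)..1, s.V2 t x * Real.sin (Real.pi * x))
        + ∫ x in (0 : ℝ)..1, x * g k (s.P t x) * Real.sin (Real.pi * x) := by
    rw [← intervalIntegral.integral_add (hc1.intervalIntegrable _ _) (hc2.intervalIntegrable _ _)]
    congr 1
    funext x
    ring
  rw [h1, s.parts]
  set c : ℝ := Real.pi * s.a t with hc
  have hc0 : 0 ≤ c := mul_nonneg hpi.le ha
  have h2 : ∫ x in (0 : ℝ)..1, (9 * c ^ 8 * (s.V t x * Real.sin (Real.pi * x))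
        - 8 * c ^ 9 * (x * Real.sin (Real.pi * x)))
      ≤ ∫ x in (0 : ℝ)..1, x * g k (s.P t x) * Real.sin (Real.pi * x) := by
    apply intervalIntegral.integral_mono_on zero_le_one
      ((by fun_prop : Continuous fun x : ℝ => 9 * c ^ 8 * (s.V t x * Real.sin (Real.pi * x))
        - 8 * c ^ 9 * (x * Real.sin (Real.pi * x))).intervalIntegrable _ _)
      (hc2.intervalIntegrable _ _)
    intro x hx
    have hP0 := s.nonneg hk ht hx
    have hPk := hT x hx
    have hg : g k (s.P t x) = s.P t x ^ 9 :=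
      g_eq (by linarith) (by rw [abs_of_nonneg hP0]; exact hPk)
    have hsin : 0 ≤ Real.sin (Real.pi * x) := by
      apply Real.sin_nonneg_of_nonneg_of_le_pi (mul_nonneg hpi.le hx.1)
      nlinarith [hx.2]
    rw [hg, s.VP]
    have key : 9 * c ^ 8 * s.P t x - 8 * c ^ 9 ≤ s.P t x ^ 9 := by
      set p := s.P t x with hp
      -- tangent line inequality
      have : 0 ≤ (p - c) ^ 2 * (p ^ 7 + 2 * p ^ 6 * c + 3 * p ^ 5 * c ^ 2 + 4 * p ^ 4 * c ^ 3
          + 5 * p ^ 3 * c ^ 4 + 6 * p ^ 2 * c ^ 5 + 7 * p * c ^ 6 + 8 * c ^ 7) := by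
        positivity
      nlinarith [this]
    have hxs : 0 ≤ x * Real.sin (Real.pi * x) := mul_nonneg hx.1 hsin
    nlinarith [mul_le_mul_of_nonneg_right key hxs]
  have h3 : ∫ x in (0 : ℝ)..1, (9 * c ^ 8 * (s.V t x * Real.sin (Real.pi * x))
        - 8 * c ^ 9 * (x * Real.sin (Real.pi * x)))
      = 9 * c ^ 8 * s.a t - 8 * c ^ 9 * (1 / Real.pi) := by
    have hc5 : Continuous fun x => 9 * c ^ 8 * (s.V t x * Real.sin (Real.pi * x)) := by fun_prop
    have hc6 : Continuous fun x => 8 * c ^ 9 * (x * Real.sin (Real.pi * x)) := by fun_prop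
    rw [intervalIntegral.integral_sub (hc5.intervalIntegrable _ _)
      (hc6.intervalIntegrable _ _),
      intervalIntegral.integral_const_mul, intervalIntegral.integral_const_mul, int_x_sin]
    rfl
  have h4 : 9 * c ^ 8 * s.a t - 8 * c ^ 9 * (1 / Real.pi) = Real.pi ^ 8 * s.a t ^ 9 := by
    rw [hc]
    field_simp
    ring
  linarith

theorem Sol.kaplan (s : Sol k) (hk : 66 ≤ k) {T : ℝ}
    (hT : ∀ t ∈ Icc 0 T, ∀ x ∈ Icc (0 : ℝ) 1, s.P t x ≤ k) : T ≤ 1 := by
  by_contra hcon
  push Not at hcon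
  have hpi := Real.pi_gt_three
  -- monotonicity of `a`
  have ha : ∀ t, 0 ≤ t → 1 / 2 ≤ s.a t := by
    intro t ht
    refine le_trans (s.a_zero hk) ?_
    unfold Sol.a
    have hc0 : Continuous fun x => s.V 0 x * Real.sin (Real.pi * x) := by
      have := s.cVt 0
      fun_prop
    have hct : Continuous fun x => s.V t x * Real.sin (Real.pi * x) := by
      have := s.cVt t
      fun_prop
    apply intervalIntegral.integral_mono_on zero_le_one (hc0.intervalIntegrable _ _)
      (hct.intervalIntegrable _ _)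
    intro x hx
    have hsin : 0 ≤ Real.sin (Real.pi * x) := by
      apply Real.sin_nonneg_of_nonneg_of_le_pi (mul_nonneg (by linarith) hx.1)
      nlinarith [hx.2]
    apply mul_le_mul_of_nonneg_right _ hsin
    rw [s.VP, s.VP]
    exact mul_le_mul_of_nonneg_left (s.mono_t hk le_rfl ht hx) hx.1
  have hcont : ContinuousOn (fun t => (s.a t ^ 8)⁻¹) (Icc 0 1) := by
    apply ContinuousOn.inv₀
    · exact (s.a_cont.pow 8).continuousOn
    · intro t ht
      have := ha t ht.1
      positivity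
  set I' : ℝ → ℝ := fun t =>
    ∫ x in (0 : ℝ)..1, (s.V2 t x + x * g k (s.P t x)) * Real.sin (Real.pi * x) with hI
  have hder : ∀ t ∈ Ioo (0 : ℝ) 1, HasDerivAt (fun t => (s.a t ^ 8)⁻¹)
      (-(((8 : ℕ) : ℝ) * s.a t ^ (8 - 1) * I' t) / (s.a t ^ 8) ^ 2) t := by
    intro t ht
    have h1 := s.a_deriv ht.1
    have h2 := ha t ht.1.le
    exact (h1.pow 8).inv (pow_ne_zero _ (by linarith))
  obtain ⟨c, hc, hcc⟩ := exists_hasDerivAt_eq_slope (fun t => (s.a t ^ 8)⁻¹)
    (fun t => -(((8 : ℕ) : ℝ) * s.a t ^ (8 - 1) * I' t) / (s.a t ^ 8) ^ 2) zero_lt_one hcont hder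
  have hac := ha c hc.1.le
  have ha0 := ha 0 le_rfl
  have ha1 := ha 1 zero_le_one
  have hineq := s.a_ineq hk hc.1.le (hT c ⟨hc.1.le, by linarith [hc.2]⟩) (by linarith)
  -- `I' c ≥ 500 a^9`
  have h1 : 500 * s.a c ^ 9 ≤ I' c := by
    refine le_trans ?_ hineq
    have hp2 : 9 ≤ Real.pi ^ 2 := by nlinarith
    have hp2' : Real.pi ^ 2 ≤ 10 := by
      have := Real.pi_lt_d2
      nlinarith
    have hp8 : 6561 ≤ Real.pi ^ 8 := by
      have : Real.pi ^ 8 = (Real.pi ^ 2) ^ 4 := by ring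
      rw [this]
      calc (6561 : ℝ) = 9 ^ 4 := by norm_num
        _ ≤ (Real.pi ^ 2) ^ 4 := by gcongr
    set y := s.a c with hy
    have hy8 : (1 / 2 : ℝ) ^ 8 ≤ y ^ 8 := by gcongr
    have hy9 : y ≤ 256 * y ^ 9 := by
      have : y ^ 9 = y ^ 8 * y := by ring
      rw [this]
      nlinarith
    have hy0 : 0 ≤ y ^ 9 := by positivity
    nlinarith [mul_le_mul_of_nonneg_right hp8 hy0]
  have h2 : -(((8 : ℕ) : ℝ) * s.a c ^ (8 - 1) * I' c) / (s.a c ^ 8) ^ 2 ≤ -4000 := by
    have hpos : 0 < s.a c := by linarith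
    rw [div_le_iff₀ (by positivity)]
    have h3 : s.a c ^ 7 * (500 * s.a c ^ 9) ≤ s.a c ^ 7 * I' c :=
      mul_le_mul_of_nonneg_left h1 (by positivity)
    have h4 : (s.a c ^ 8) ^ 2 = s.a c ^ 7 * s.a c ^ 9 := by ring
    rw [h4]
    push_cast
    norm_num
    nlinarith
  rw [hcc] at h2
  have h3 : (s.a 0 ^ 8)⁻¹ ≤ 256 := by
    rw [inv_le_comm₀ (by positivity) (by norm_num)]
    calc (256 : ℝ)⁻¹ = (1 / 2) ^ 8 := by norm_num
      _ ≤ s.a 0 ^ 8 := by gcongr
  have h4 : 0 < (s.a 1 ^ 8)⁻¹ := by positivity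
  have h5 : ((s.a 1 ^ 8)⁻¹ - (s.a 0 ^ 8)⁻¹) / (1 - 0) = (s.a 1 ^ 8)⁻¹ - (s.a 0 ^ 8)⁻¹ := by
    rw [sub_zero, div_one]
  rw [h5] at h2
  linarith

end LE
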