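import Pool.Agent.H6.LE.SmoothS
import Pool.Agent.H6.LE.Heat3
import Pool.Agent.H10.LE.Duh

/-! Duhamel operator for sources which are Lipschitz in space (module X2). -/

namespace LE
open Set Filter Topology MeasureTheory

/-- `∂ₓₓ` of the Duhamel operator -/
noncomputable def D2 (G : ℝ → ℝ → ℝ) (t x : ℝ) : ℝ :=
  ∫ ρ in (0 : ℝ)..1, ∫ z, 1 / (2 * ρ) * (z ^ 2 - 1) *
    (G (max t 0 * (1 - ρ)) (x + √(2 * max t 0 * ρ) * z) - G (max t 0 * (1 - ρ)) x) ∂gam

def LipX (G : ℝ → ℝ → ℝ) : Prop := ∀ T, ∃ L, ∀ s ≤ T, ∀ x y, |G s x - G s y| ≤ L * |x - y|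

namespace X

/-- joint continuity of Gaussian integrals, locally bounded functions -/
theorem gam_contL {T : Type} [TopologicalSpace T] [FirstCountableTopology T] {G : T → ℝ → ℝ}
    (hG : Continuous fun z : T × ℝ => G z.1 z.2)
    (hB : ∀ s0, ∃ B, ∀ᶠ s in 𝓝 s0, ∀ x, |G s x| ≤ B) {w : ℝ → ℝ}
    (hw : Continuous w) (C : ℝ) (n : ℕ) (hwC : ∀ z, |w z| ≤ C * (1 + |z|) ^ n)
    {σ x : T → ℝ} (hσ : Continuous σ) (hx : Continuous x) :
    Continuous fun s => ∫ z, w z * G s (x s + σ s * z) ∂gam := by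
  rw [continuous_iff_continuousAt]
  intro s0
  obtain ⟨B, hB⟩ := hB s0
  refine continuousAt_of_dominated (bound := fun z => (C * (1 + |z|) ^ n) * B)
    (Eventually.of_forall fun s => ?_)
    (hB.mono fun s hs => ae_of_all _ fun z => ?_) (((pw_int n).const_mul C).mul_const B)
    (ae_of_all _ fun z => ?_)
  · exact (hw.mul (hG.comp (by fun_prop : Continuous fun z : ℝ =>
      (s, x s + σ s * z)))).aestronglyMeasurable
  · rw [Real.norm_eq_abs, abs_mul]
    exact mul_le_mul (hwC z) (hs _) (abs_nonneg _) ((abs_nonneg _).trans (hwC z))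
  · exact (continuous_const.mul (hG.comp (by fun_prop : Continuous fun s : T =>
      (s, x s + σ s * z)))).continuousAt

/-- composition of the time variable with a continuous function -/
theorem pc_cont {G : ℝ → ℝ → ℝ} (h : PC G) {T : Type} [TopologicalSpace T]
    [FirstCountableTopology T] {τ : T → ℝ} (hτ : Continuous τ) {w : ℝ → ℝ}
    (hw : Continuous w) (C : ℝ) (n : ℕ) (hwC : ∀ z, |w z| ≤ C * (1 + |z|) ^ n)
    {σ x : T → ℝ} (hσ : Continuous σ) (hx : Continuous x) :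
    Continuous fun s => ∫ z, w z * G (τ s) (x s + σ s * z) ∂gam := by
  refine gam_contL (G := fun s y => G (τ s) y)
    (h.cont.comp (by fun_prop : Continuous fun z : T × ℝ => (τ z.1, z.2))) (fun s0 => ?_)
    hw C n hwC hσ hx
  obtain ⟨B, hB⟩ := h.bdd (τ s0 + 1)
  refine ⟨B, ?_⟩
  have := hτ.continuousAt.eventually (gt_mem_nhds (show τ s0 < τ s0 + 1 by linarith))
  exact this.mono fun s hs x => hB _ hs.le x

theorem pcf {G : ℝ → ℝ → ℝ} (h : PC G) (s : ℝ) : Continuous (G s) :=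
  h.cont.comp (by fun_prop : Continuous fun x : ℝ => (s, x))

theorem int_w2 : ∫ z : ℝ, (z ^ 2 - 1) ∂gam = 0 := by
  have h := stein (h := fun z => z) (h' := fun _ => 1) (fun z => hasDerivAt_id z)
    (gi continuous_id 1 1 (by simp))
    (gi (by fun_prop) 1 2 (fun z => by
      rw [one_mul, abs_mul]
      nlinarith [abs_nonneg z]))
    (integrable_const _)
  have i2 : Integrable (fun z : ℝ => z ^ 2) gam := gi (by fun_prop) 1 2 (fun z => by
      rw [one_mul, abs_pow]
      exact pow_le_pow_left₀ (abs_nonneg _) (by linarith) 2)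
  rw [integral_sub i2 (integrable_const _), h]
  have : ∀ z : ℝ, z ^ 2 = z * z := fun z => by ring
  simp only [this, sub_self]

/-- third absolute moment -/
noncomputable def M3 : ℝ := ∫ z : ℝ, |z ^ 2 - 1| * |z| ∂gam

theorem M3_nonneg : 0 ≤ M3 := integral_nonneg fun _ => mul_nonneg (abs_nonneg _) (abs_nonneg _)

theorem M3_int : Integrable (fun z : ℝ => |z ^ 2 - 1| * |z|) gam :=
  gi (by fun_prop) 1 3 (fun z => by
    rw [abs_mul, abs_abs, abs_abs, one_mul, pow_succ]
    have := w2_le z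
    rw [one_mul] at this
    have h0 : (0 : ℝ) ≤ (1 + |z|) ^ 2 := by positivity
    exact mul_le_mul this (by linarith) (abs_nonneg _) h0)

theorem w2_sub {f : ℝ → ℝ} (hf : Continuous f) {B : ℝ} (hB : ∀ x, |f x| ≤ B) (σ x : ℝ) :
    ∫ z, (z ^ 2 - 1) * (f (x + σ * z) - f x) ∂gam = ∫ z, (z ^ 2 - 1) * f (x + σ * z) ∂gam := by
  have i1 := wf_int hf hB (w := fun z => z ^ 2 - 1) (by fun_prop) 1 2 w2_le σ x
  have i2 : Integrable (fun z : ℝ => (z ^ 2 - 1) * f x) gam :=
    (gi (by fun_prop) 1 2 w2_le).mul_const _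
  have e : (fun z : ℝ => (z ^ 2 - 1) * (f (x + σ * z) - f x)) =
      fun z => (z ^ 2 - 1) * f (x + σ * z) - (z ^ 2 - 1) * f x := by
    ext z; ring
  rw [e, integral_sub i1 i2, integral_mul_const, int_w2, zero_mul, sub_zero]

theorem w2_lip {f : ℝ → ℝ} (hf : Continuous f) {B : ℝ} (hB : ∀ x, |f x| ≤ B) {L : ℝ}
    (hL : ∀ x y, |f x - f y| ≤ L * |x - y|) {σ : ℝ} (hσ : 0 ≤ σ) (x : ℝ) :
    |∫ z, (z ^ 2 - 1) * f (x + σ * z) ∂gam| ≤ L * σ * M3 := by
  rw [← w2_sub hf hB]
  have h := norm_integral_le_of_norm_le (μ := gam)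
    (f := fun z => (z ^ 2 - 1) * (f (x + σ * z) - f x))
    (g := fun z => L * σ * (|z ^ 2 - 1| * |z|)) (M3_int.const_mul _) (ae_of_all _ fun z => by
      rw [Real.norm_eq_abs, abs_mul]
      have h1 := hL (x + σ * z) x
      have e : x + σ * z - x = σ * z := by ring
      rw [e, abs_mul, abs_of_nonneg hσ] at h1
      calc |z ^ 2 - 1| * |f (x + σ * z) - f x| ≤ |z ^ 2 - 1| * (L * (σ * |z|)) :=
            mul_le_mul_of_nonneg_left h1 (abs_nonneg _)
        _ = _ := by ring)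
  rw [integral_const_mul, Real.norm_eq_abs] at h
  exact h

noncomputable def A (G : ℝ → ℝ → ℝ) (t ρ x : ℝ) : ℝ :=
  ∫ z, (z ^ 2 - 1) * G (max t 0 * (1 - ρ)) (x + √(2 * max t 0 * ρ) * z) ∂gam

theorem A_cont {G : ℝ → ℝ → ℝ} (h : PC G) :
    Continuous fun p : ℝ × ℝ × ℝ => A G p.1 p.2.1 p.2.2 :=
  pc_cont h (T := ℝ × ℝ × ℝ) (τ := fun p => max p.1 0 * (1 - p.2.1)) (by fun_prop)
    (w := fun z => z ^ 2 - 1) (by fun_prop) 1 2 w2_le
    (σ := fun p => √(2 * max p.1 0 * p.2.1)) (x := fun p => p.2.2) (by fun_prop) (by fun_prop)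

theorem D2_eq {G : ℝ → ℝ → ℝ} (h : PC G) (t x : ℝ) :
    D2 G t x = ∫ ρ in (0 : ℝ)..1, 1 / (2 * ρ) * A G t ρ x := by
  unfold D2 A
  refine intervalIntegral.integral_congr fun ρ _ => ?_
  obtain ⟨B, hB⟩ := h.bdd (max t 0 * (1 - ρ))
  show ∫ z, _ ∂gam = 1 / (2 * ρ) * ∫ z, _ ∂gam
  rw [← w2_sub (pcf h _) (hB _ le_rfl), ← integral_const_mul]
  refine integral_congr_ae (ae_of_all _ fun z => ?_)
  simp only
  ring

theorem sqrt_div (ρ : ℝ) (hρ : 0 < ρ) : √ρ / ρ = ρ ^ (-(1 / 2) : ℝ) := by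
  rw [Real.sqrt_eq_rpow, div_eq_mul_inv, ← Real.rpow_neg_one ρ, ← Real.rpow_add hρ]
  norm_num

theorem A_le {G : ℝ → ℝ → ℝ} (h : PC G) (hL : LipX G) (T : ℝ) : ∃ C, ∀ t ≤ T, ∀ ρ ∈ Ioc (0 : ℝ) 1,
    ∀ x, |1 / (2 * ρ) * A G t ρ x| ≤ C * ρ ^ (-(1 / 2) : ℝ) := by
  obtain ⟨L, hL⟩ := hL (max T 0)
  have hL0 : 0 ≤ L := by
    have := (abs_nonneg _).trans (hL 0 (le_max_right _ _) 1 0)
    simpa using this
  refine ⟨L * √(2 * max T 0) * M3 / 2, fun t ht ρ hρ x => ?_⟩
  have hs : max t 0 * (1 - ρ) ≤ max T 0 := by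
    calc max t 0 * (1 - ρ) ≤ max t 0 * 1 :=
          mul_le_mul_of_nonneg_left (by linarith [hρ.1]) (le_max_right _ _)
      _ ≤ max T 0 := by rw [mul_one]; exact max_le_max_right _ ht
  obtain ⟨B, hB⟩ := h.bdd (max t 0 * (1 - ρ))
  have h1 := w2_lip (pcf h (max t 0 * (1 - ρ))) (hB _ le_rfl) (hL _ hs)
    (Real.sqrt_nonneg (2 * max t 0 * ρ)) x
  have h2 : √(2 * max t 0 * ρ) ≤ √(2 * max T 0) * √ρ := by
    rw [← Real.sqrt_mul (by positivity)]
    refine Real.sqrt_le_sqrt ?_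
    have := max_le_max_right 0 ht
    have := hρ.1
    gcongr
  rw [abs_mul, abs_of_nonneg (by have := hρ.1; positivity), ← sqrt_div ρ hρ.1]
  have hM := M3_nonneg
  calc 1 / (2 * ρ) * |A G t ρ x| ≤ 1 / (2 * ρ) * (L * (√(2 * max T 0) * √ρ) * M3) := by
        have := hρ.1
        refine mul_le_mul_of_nonneg_left (h1.trans ?_) (by positivity)
        gcongr
    _ = _ := by
        have := hρ.1.ne'
        field_simp

theorem rho_int (C : ℝ) : IntervalIntegrable (fun ρ : ℝ => C * ρ ^ (-(1 / 2) : ℝ)) volume 0 1 :=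
  (intervalIntegral.intervalIntegrable_rpow' (by norm_num)).const_mul C

theorem D2_meas {G : ℝ → ℝ → ℝ} (h : PC G) (t x : ℝ) :
    AEStronglyMeasurable (fun ρ => 1 / (2 * ρ) * A G t ρ x) (volume.restrict (uIoc (0 : ℝ) 1)) := by
  rw [uIoc_of_le zero_le_one]
  refine ContinuousOn.aestronglyMeasurable ?_ measurableSet_Ioc
  refine ContinuousOn.mul (ContinuousOn.div continuousOn_const (by fun_prop) fun ρ hρ => by
    have := hρ.1.ne'
    positivity) (Continuous.continuousOn ?_)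
  exact (A_cont h).comp (by fun_prop : Continuous fun ρ : ℝ => (t, ρ, x))

end X

theorem D_lip {G : ℝ → ℝ → ℝ} (h : PC G) (T : ℝ) : ∃ L, ∀ s ≤ T, ∀ x y,
    |I G s x - I G s y| ≤ L * |x - y| := by
  obtain ⟨L, hL⟩ := (D_PC h).bdd T
  refine ⟨L, fun s hs x y => ?_⟩
  have := Convex.norm_image_sub_le_of_norm_hasDerivWithin_le (f := I G s) (f' := D G s)
    (s := univ) (C := L) (fun x _ => (I_deriv h s x).hasDerivWithinAt)
    (fun x _ => by rw [Real.norm_eq_abs]; exact hL s hs x) convex_univ (mem_univ y) (mem_univ x)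
  simpa [Real.norm_eq_abs] using this

theorem D2_PC {G : ℝ → ℝ → ℝ} (h : PC G) (hL : LipX G) : PC (D2 G) := by
  refine ⟨?_, ?_, ?_⟩
  · rw [continuous_iff_continuousAt]
    intro z0
    obtain ⟨C, hC⟩ := X.A_le h hL (z0.1 + 1)
    have e : (fun z : ℝ × ℝ => D2 G z.1 z.2) =
        fun z => ∫ ρ in (0 : ℝ)..1, 1 / (2 * ρ) * X.A G z.1 ρ z.2 := by
      ext z; exact X.D2_eq h _ _
    rw [e]
    refine intervalIntegral.continuousAt_of_dominated_interval
      (bound := fun ρ => C * ρ ^ (-(1 / 2) : ℝ))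
      (Eventually.of_forall fun z => X.D2_meas h z.1 z.2) ?_ (X.rho_int C)
      (ae_of_all _ fun ρ _ => ?_)
    · have : ∀ᶠ z : ℝ × ℝ in 𝓝 z0, z.1 < z0.1 + 1 :=
        continuous_fst.continuousAt.eventually (gt_mem_nhds (show z0.1 < z0.1 + 1 by linarith))
      filter_upwards [this] with z hz
      refine ae_of_all _ fun ρ hρ => ?_
      rw [uIoc_of_le zero_le_one] at hρ
      rw [Real.norm_eq_abs]
      exact hC _ hz.le ρ hρ _
    · exact (continuous_const.mul ((X.A_cont h).comp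
        (by fun_prop : Continuous fun z : ℝ × ℝ => (z.1, ρ, z.2)))).continuousAt
  · intro s x
    unfold D2
    refine intervalIntegral.integral_congr fun ρ _ => ?_
    refine integral_congr_ae (ae_of_all _ fun z => ?_)
    simp only
    rw [h.per, show x + 2 + √(2 * max s 0 * ρ) * z = (x + √(2 * max s 0 * ρ) * z) + 2 by ring,
      h.per]
  · intro s x hs
    unfold D2
    rw [max_eq_right hs, max_self]

theorem D_deriv {G : ℝ → ℝ → ℝ} (h : PC G) (hL : LipX G) (t x : ℝ) :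
    HasDerivAt (D G t) (D2 G t x) x := by
  rcases le_or_gt t 0 with ht | ht
  · have e1 : D G t = fun _ => 0 := by
      ext y
      unfold D
      rw [max_eq_right ht]
      simp
    have e2 : D2 G t x = 0 := by
      unfold D2
      rw [max_eq_right ht]
      simp
    rw [e1, e2]
    exact hasDerivAt_const _ _
  · have hm : max t 0 = t := max_eq_left ht.le
    obtain ⟨C, hC⟩ := X.A_le h hL t
    have e1 : D G t = fun y => ∫ ρ in (0 : ℝ)..1, √(t / 2) * ρ ^ (-(1 / 2) : ℝ) *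
        ∫ z, z * G (t * (1 - ρ)) (y + √(2 * t * ρ) * z) ∂gam := by
      ext y
      unfold D
      rw [hm]
      refine intervalIntegral.integral_congr fun ρ _ => ?_
      show ∫ z, _ ∂gam = _ * ∫ z, _ ∂gam
      rw [← integral_const_mul]
      refine integral_congr_ae (ae_of_all _ fun z => ?_)
      simp only
      ring
    rw [e1, X.D2_eq h]
    obtain ⟨B, hB⟩ := h.bdd t
    have hs : ∀ ρ ∈ Ioc (0 : ℝ) 1, t * (1 - ρ) ≤ t := by
      intro ρ hρ
      nlinarith [hρ.1]
    have hcont : ∀ y : ℝ, Continuous fun ρ => ∫ z, z * G (t * (1 - ρ)) (y + √(2 * t * ρ) * z) ∂gam :=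
      fun y => X.pc_cont h (T := ℝ) (τ := fun ρ => t * (1 - ρ)) (by fun_prop)
        (w := fun z => z) continuous_id 1 1 X.w1_le (σ := fun ρ => √(2 * t * ρ))
        (x := fun _ => y) (by fun_prop) (by fun_prop)
    have hmeas : ∀ y : ℝ, AEStronglyMeasurable (fun ρ => √(t / 2) * ρ ^ (-(1 / 2) : ℝ) *
        ∫ z, z * G (t * (1 - ρ)) (y + √(2 * t * ρ) * z) ∂gam) (volume.restrict (uIoc (0 : ℝ) 1)) := by
      intro y
      refine AEStronglyMeasurable.mul ?_ (hcont y).aestronglyMeasurable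
      exact (Measurable.const_mul (by fun_prop) _).aestronglyMeasurable
    refine (intervalIntegral.hasDerivAt_integral_of_dominated_loc_of_deriv_le (s := univ)
      (F' := fun y ρ => 1 / (2 * ρ) * X.A G t ρ y) (bound := fun ρ => C * ρ ^ (-(1 / 2) : ℝ))
      univ_mem (Eventually.of_forall hmeas) ?_ (X.D2_meas h t x) ?_ (X.rho_int C) ?_).2
    · -- integrable
      have hi := X.rho_int (√(t / 2) * ∫ z, |z| * B ∂gam)
      refine hi.mono_fun (hmeas x) ?_
      rw [EventuallyLE, ae_restrict_iff' measurableSet_uIoc]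
      refine ae_of_all _ fun ρ hρ => ?_
      rw [uIoc_of_le zero_le_one] at hρ
      have h1 : ‖∫ z, z * G (t * (1 - ρ)) (x + √(2 * t * ρ) * z) ∂gam‖ ≤ ∫ z, |z| * B ∂gam := by
        refine norm_integral_le_of_norm_le ?_ (ae_of_all _ fun z => ?_)
        · exact (X.gi (f := fun z => |z|) (by fun_prop) 1 1 (by simp)).mul_const B
        · rw [Real.norm_eq_abs, abs_mul]
          exact mul_le_mul_of_nonneg_left (hB _ (hs ρ hρ) _) (abs_nonneg _)
      have h2 : 0 ≤ ρ ^ (-(1 / 2) : ℝ) := Real.rpow_nonneg hρ.1.le _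
      rw [norm_mul, norm_mul, Real.norm_of_nonneg (Real.sqrt_nonneg _), Real.norm_of_nonneg h2]
      refine le_trans ?_ (le_abs_self _)
      calc √(t / 2) * ρ ^ (-(1 / 2) : ℝ) * ‖∫ z, z * G (t * (1 - ρ)) (x + √(2 * t * ρ) * z) ∂gam‖
          ≤ √(t / 2) * ρ ^ (-(1 / 2) : ℝ) * ∫ z, |z| * B ∂gam := by gcongr
        _ = _ := by ring
    · refine ae_of_all _ fun ρ hρ y _ => ?_
      rw [uIoc_of_le zero_le_one] at hρ
      rw [Real.norm_eq_abs]
      exact hC t le_rfl ρ hρ y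
    · refine ae_of_all _ fun ρ hρ y _ => ?_
      rw [uIoc_of_le zero_le_one] at hρ
      have hτ : 0 < t * ρ := mul_pos ht hρ.1
      have h1 := X.S_d2' (X.pcf h (t * (1 - ρ))) (hB _ (hs ρ hρ)) hτ y
      have e2 : ∀ y, √(t / 2) * ρ ^ (-(1 / 2) : ℝ) *
          ∫ z, z * G (t * (1 - ρ)) (y + √(2 * t * ρ) * z) ∂gam =
          t * S1 (G (t * (1 - ρ))) (t * ρ) y := by
        intro y
        rw [X.S1_eq', ← X.sqrt_div ρ hρ.1, ← mul_assoc, ← mul_assoc 2 t ρ]
        congr 1
        have h3 : √(2 * t * ρ) ≠ 0 := (Real.sqrt_pos.2 (by have := hρ.1; positivity)).ne'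
        have h4 := hρ.1.ne'
        rw [← div_eq_mul_inv, eq_div_iff h3]
        have h5 : √(t / 2) * √ρ * √(2 * t * ρ) = t * ρ := by
          rw [← Real.sqrt_mul (by positivity), ← Real.sqrt_mul (by have := hρ.1; positivity)]
          have : t / 2 * ρ * (2 * t * ρ) = (t * ρ) ^ 2 := by ring
          rw [this, Real.sqrt_sq hτ.le]
        have h6 : √(t / 2) * (√ρ / ρ) * √(2 * t * ρ) =
            (√(t / 2) * √ρ * √(2 * t * ρ)) / ρ := by ring
        rw [h6, h5, mul_div_assoc, div_self h4, mul_one]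
      have e3 : 1 / (2 * ρ) * X.A G t ρ y = t * S2 (G (t * (1 - ρ))) (t * ρ) y := by
        rw [X.S2_eq']
        unfold X.A
        rw [hm, ← mul_assoc 2 t ρ, ← mul_assoc t]
        have h4 := hρ.1.ne'
        have h5 := ht.ne'
        congr 1
        field_simp
      simp only [e2, e3]
      exact h1.const_mul t

theorem I_time_lip {G : ℝ → ℝ → ℝ} (h : PC G) (hL : LipX G) {t : ℝ} (ht : 0 < t) (x : ℝ) :
    HasDerivAt (fun s => I G s x) (G t x + D2 G t x) t := by
  obtain ⟨B, hB⟩ := h.bdd t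
  obtain ⟨L, hL'⟩ := hL t
  have hL0 : 0 ≤ L := by
    have := (abs_nonneg _).trans (hL' t le_rfl 1 0)
    simpa using this
  have hH : Continuous fun z : ℝ × ℝ => S (G z.2) z.1 x := by
    have := X.pc_cont h (T := ℝ × ℝ) (τ := fun z => z.2) (by fun_prop) (w := fun _ => 1)
      continuous_const 1 0 (by simp) (σ := fun z => √(2 * max z.1 0)) (x := fun _ => x)
      (by fun_prop) (by fun_prop)
    simpa [S] using this
  have hlip : ∀ s ∈ Ioo 0 t, ∀ r', |S (G s) r' x - S (G s) (t - s) x| ≤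
      (L * √2 * ∫ z, |z| ∂gam) * (t - s) ^ (-(1 / 2) : ℝ) * |r' - (t - s)| := by
    intro s hs r'
    have hr : 0 < t - s := by linarith [hs.2]
    set r := t - s with hrdef
    have iS : ∀ r, Integrable (fun z => G s (x + √(2 * max r 0) * z)) gam := by
      intro r
      have := X.wf_int (X.pcf h s) (hB s hs.2.le) (w := fun _ => 1) continuous_const 1 0
        (by simp) (√(2 * max r 0)) x
      simpa using this
    have h1 : |S (G s) r' x - S (G s) r x| ≤
        L * |√(2 * max r' 0) - √(2 * max r 0)| * ∫ z, |z| ∂gam := by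
      unfold S
      rw [← integral_sub (iS _) (iS _), ← integral_const_mul, ← Real.norm_eq_abs]
      refine norm_integral_le_of_norm_le ?_ (ae_of_all _ fun z => ?_)
      · exact (X.gi (f := fun z => |z|) (by fun_prop) 1 1 (by simp)).const_mul _
      · rw [Real.norm_eq_abs]
        refine (hL' s hs.2.le _ _).trans (le_of_eq ?_)
        have e : x + √(2 * max r' 0) * z - (x + √(2 * max r 0) * z) =
            (√(2 * max r' 0) - √(2 * max r 0)) * z := by ring
        rw [e, abs_mul]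
        ring
    have h2 : |√(2 * max r' 0) - √(2 * max r 0)| ≤ √2 * (r ^ (-(1 / 2) : ℝ) * |r' - r|) := by
      rw [Real.sqrt_mul (by norm_num), Real.sqrt_mul (by norm_num), ← mul_sub, abs_mul,
        abs_of_nonneg (Real.sqrt_nonneg 2)]
      refine mul_le_mul_of_nonneg_left ?_ (Real.sqrt_nonneg 2)
      rw [max_eq_left hr.le, ← X.sqrt_div r hr]
      have h3 : 0 < √r := Real.sqrt_pos.2 hr
      have h4 : √r * √r = r := Real.mul_self_sqrt hr.le
      have h5 : √(max r' 0) * √(max r' 0) = max r' 0 := Real.mul_self_sqrt (le_max_right _ _)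
      have h6 : |√(max r' 0) - √r| * √r ≤ |max r' 0 - r| := by
        have h7 : |max r' 0 - r| = |√(max r' 0) - √r| * (√(max r' 0) + √r) := by
          have h9 : max r' 0 - r = (√(max r' 0) - √r) * (√(max r' 0) + √r) := by
            nlinarith
          rw [h9, abs_mul, abs_of_nonneg (show 0 ≤ √(max r' 0) + √r by positivity)]
        rw [h7]
        refine mul_le_mul_of_nonneg_left ?_ (abs_nonneg _)
        linarith [Real.sqrt_nonneg (max r' 0)]
      have h8 : |max r' 0 - r| ≤ |r' - r| := by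
        have := abs_max_sub_max_le_abs r' r 0
        rwa [max_eq_left hr.le] at this
      calc |√(max r' 0) - √r| = (|√(max r' 0) - √r| * √r) * (√r / r) := by
            rw [mul_assoc, ← mul_div_assoc, h4, div_self hr.ne', mul_one]
        _ ≤ |r' - r| * (√r / r) :=
            mul_le_mul_of_nonneg_right (h6.trans h8) (by positivity)
        _ = _ := by ring
    have h0 : 0 ≤ ∫ z : ℝ, |z| ∂gam := integral_nonneg fun z => abs_nonneg z
    calc |S (G s) r' x - S (G s) r x| ≤ L * |√(2 * max r' 0) - √(2 * max r 0)| * ∫ z, |z| ∂gam := h1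
      _ ≤ L * (√2 * (r ^ (-(1 / 2) : ℝ) * |r' - r|)) * ∫ z, |z| ∂gam := by gcongr
      _ = _ := by ring
  have hK : ContinuousOn (fun s => S2 (G s) (t - s) x) (Ioo 0 t) := by
    have e : (fun s => S2 (G s) (t - s) x) = fun s => (2 * (t - s))⁻¹ *
        ∫ z, (z ^ 2 - 1) * G s (x + √(2 * (t - s)) * z) ∂gam := by
      ext s; exact X.S2_eq' _ _ _
    rw [e]
    refine ContinuousOn.mul (ContinuousOn.inv₀ (by fun_prop) fun s hs => ?_)
      (Continuous.continuousOn ?_)
    · have : t - s ≠ 0 := by linarith [hs.2]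
      positivity
    · exact X.pc_cont h (T := ℝ) (τ := fun s => s) (by fun_prop) (w := fun z => z ^ 2 - 1)
        (by fun_prop) 1 2 X.w2_le (σ := fun s => √(2 * (t - s))) (x := fun _ => x)
        (by fun_prop) (by fun_prop)
  have key := X.duh (H := fun r s => S (G s) r x) (K := fun r s => S2 (G s) r x) hH ht
    (fun s hs => X.S_dt' (X.pcf h s) (hB s hs.2.le) (by linarith [hs.2]) x)
    hlip (hK.aestronglyMeasurable measurableSet_Ioo)
  -- change of variables
  have hI : ∀ τ > 0, I G τ x = ∫ s in (0 : ℝ)..τ, S (G s) (τ - s) x := by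
    intro τ hτ
    have h1 := intervalIntegral.integral_comp_sub_mul (a := 0) (b := 1)
      (fun s => S (G s) (τ - s) x) hτ.ne' τ
    rw [mul_one, sub_self, mul_zero, sub_zero] at h1
    have h2 : ∫ s in (0 : ℝ)..τ, S (G s) (τ - s) x =
        τ * ∫ ρ in (0 : ℝ)..1, S (G (τ - τ * ρ)) (τ - (τ - τ * ρ)) x := by
      rw [h1, smul_eq_mul, ← mul_assoc, mul_inv_cancel₀ hτ.ne', one_mul]
    rw [h2, ← intervalIntegral.integral_const_mul]
    unfold I
    refine intervalIntegral.integral_congr fun ρ hρ => ?_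
    rw [uIcc_of_le zero_le_one] at hρ
    show ∫ z, _ ∂gam = _
    rw [integral_const_mul, max_eq_left hτ.le]
    unfold S
    have e1 : τ - (τ - τ * ρ) = τ * ρ := by ring
    have e2 : τ - τ * ρ = τ * (1 - ρ) := by ring
    rw [e1, e2, max_eq_left (mul_nonneg hτ.le hρ.1), mul_assoc 2 τ ρ]
  have hD : D2 G t x = ∫ s in (0 : ℝ)..t, S2 (G s) (t - s) x := by
    have h1 := intervalIntegral.integral_comp_sub_mul (a := 0) (b := 1)
      (fun s => S2 (G s) (t - s) x) ht.ne' t
    rw [mul_one, sub_self, mul_zero, sub_zero] at h1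
    have h2 : ∫ s in (0 : ℝ)..t, S2 (G s) (t - s) x =
        t * ∫ ρ in (0 : ℝ)..1, S2 (G (t - t * ρ)) (t - (t - t * ρ)) x := by
      rw [h1, smul_eq_mul, ← mul_assoc, mul_inv_cancel₀ ht.ne', one_mul]
    rw [h2, ← intervalIntegral.integral_const_mul, X.D2_eq h]
    refine intervalIntegral.integral_congr_ae (ae_of_all _ fun ρ hρ => ?_)
    rw [uIoc_of_le zero_le_one] at hρ
    have e1 : t - (t - t * ρ) = t * ρ := by ring
    have e2 : t - t * ρ = t * (1 - ρ) := by ring
    rw [e1, e2, X.S2_eq']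
    unfold X.A
    rw [max_eq_left ht.le, ← mul_assoc 2 t ρ, ← mul_assoc t]
    have h4 := hρ.1.ne'
    have h5 := ht.ne'
    congr 1
    field_simp
  have e0 : S (G t) 0 x = G t x := by
    unfold S
    simp
  rw [hD]
  rw [e0] at key
  refine key.congr_of_eventuallyEq ?_
  filter_upwards [lt_mem_nhds ht] with τ hτ
  exact hI τ hτ

end LE
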