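import Pool.Agent.H6.LE.Official
import Pool.Agent.H6.LE.Energy

/-! Assembly (module L). -/

namespace LE
open Set Filter Topology MeasureTheory Laplacian
open scoped ENNReal

/-- the level of the solution used up to the time `T` -/
theorem near_sol {t : ℝ} (ht : t ∈ Ico 0 Ts) : ∃ (T : ℝ) (n : ℕ), t < T ∧ T < Ts ∧
    (∀ s ∈ Icc 0 T, ∀ x ∈ Icc (0 : ℝ) 1, (sol n).P s x ≤ 66 + n) ∧
    ∀ s ∈ Icc 0 T, ∀ x ∈ Icc (0 : ℝ) 1, Pu s x = (sol n).P s x := by
  obtain ⟨T, h1, h2⟩ := exists_between ht.2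
  obtain ⟨n, h3, h4⟩ := local_sol h2
  exact ⟨T, n, h1, h2, h3, fun s hs x hx => Pu_eq h4 hs hx⟩

theorem lvl (n : ℕ) : (66 : ℝ) ≤ 66 + (n : ℝ) := by
  have : (0 : ℝ) ≤ n := Nat.cast_nonneg n
  linarith

theorem clos : closure (Metric.ball (0 : E3) 1) = Metric.closedBall 0 1 :=
  closure_ball (0 : E3) one_ne_zero

theorem norm_mem {x : E3} (hx : x ∈ Metric.closedBall (0 : E3) 1) : ‖x‖ ∈ Icc (0 : ℝ) 1 :=
  ⟨norm_nonneg x, by simpa using hx⟩

theorem norm_mem' {x : E3} (hx : x ∈ Metric.ball (0 : E3) 1) : ‖x‖ ∈ Ico (0 : ℝ) 1 :=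
  ⟨norm_nonneg x, by simpa using hx⟩

/-- `Pt` at the origin. -/
theorem Sol.Pt_eq {k : ℝ} (s : Sol k) {t x : ℝ} (ht : 0 ≤ t) (hx : x ∈ Icc (0 : ℝ) 1) :
    s.Pt t x = (if x = 0 then 3 * s.P2 t 0 else s.P2 t x + 2 * s.P1 t x / x) + g k (s.P t x) := by
  have key : ∀ y ∈ Icc (-1 : ℝ) 1, y ≠ 0 →
      s.Pt t y = s.P2 t y + 2 * s.P1 t y / y + g k (s.P t y) := by
    intro y hy hy0
    have h1 := s.PtV t ht y hy
    rw [s.V2P t y] at h1
    have h2 : s.Pt t y = (2 * s.P1 t y + y * s.P2 t y + y * g k (s.P t y)) / y := by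
      rw [← h1]
      field_simp
    rw [h2]
    field_simp
    ring
  by_cases h0 : x = 0
  · subst h0
    rw [if_pos rfl]
    have c1 : Tendsto (s.Pt t) (𝓝[≠] 0) (𝓝 (s.Pt t 0)) := by
      have : Continuous (s.Pt t) := s.cPt.comp (by fun_prop : Continuous fun y : ℝ => (t, y))
      exact this.continuousAt.tendsto.mono_left nhdsWithin_le_nhds
    have c2 : Tendsto (fun y => s.P2 t y + 2 * s.P1 t y / y + g k (s.P t y)) (𝓝[≠] 0)
        (𝓝 (s.P2 t 0 + 2 * s.P2 t 0 + g k (s.P t 0))) := by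
      have e1 : Continuous (s.P2 t) := s.cP2.comp (by fun_prop : Continuous fun y : ℝ => (t, y))
      have e2 : Continuous (s.P t) := s.cP.comp (by fun_prop : Continuous fun y : ℝ => (t, y))
      have e3 : Continuous fun y => g k (s.P t y) := (g_smooth k).continuous.comp e2
      have e4 := hasDerivAt_iff_tendsto_slope.1 (s.dP1 t 0)
      have e5 : Tendsto (fun y => 2 * s.P1 t y / y) (𝓝[≠] 0) (𝓝 (2 * s.P2 t 0)) := by
        refine (e4.const_mul 2).congr fun y => ?_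
        rw [slope_def_field, s.P1_zero]
        ring
      exact ((e1.continuousAt.tendsto.mono_left nhdsWithin_le_nhds).add e5).add
        (e3.continuousAt.tendsto.mono_left nhdsWithin_le_nhds)
    have c3 : s.Pt t =ᶠ[𝓝[≠] 0] fun y => s.P2 t y + 2 * s.P1 t y / y + g k (s.P t y) := by
      have h1 : Ioo (-1 : ℝ) 1 ∈ 𝓝 (0 : ℝ) := Ioo_mem_nhds (by norm_num) (by norm_num)
      filter_upwards [self_mem_nhdsWithin, mem_nhdsWithin_of_mem_nhds h1] with y hy hy1
      exact key y ⟨hy1.1.le, hy1.2.le⟩ hy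
    have c4 := tendsto_nhds_unique (c1.congr' c3) c2
    rw [c4]
    ring
  · rw [if_neg h0]
    exact key x ⟨by linarith [hx.1], hx.2⟩ h0

/-- the solution -/
noncomputable def uu (t : ℝ) (x : E3) : ℝ := Pu t ‖x‖

section near

variable {T : ℝ} {n : ℕ}
  (h4 : ∀ s ∈ Icc 0 T, ∀ x ∈ Icc (0 : ℝ) 1, Pu s x = (sol n).P s x)

include h4

theorem uu_tderiv {t : ℝ} (ht : t ∈ Ioo 0 T) {x : E3} (hx : x ∈ Metric.closedBall (0 : E3) 1) :
    HasDerivAt (fun s => uu s x) ((sol n).Pt t ‖x‖) t := by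
  refine ((sol n).tP t ht.1 ‖x‖).congr_of_eventuallyEq ?_
  filter_upwards [Ioo_mem_nhds ht.1 ht.2] with s hs
  exact h4 s ⟨hs.1.le, hs.2.le⟩ _ (norm_mem hx)

theorem uu_space {t : ℝ} (ht : t ∈ Icc 0 T) {x : E3} (hx : x ∈ Metric.ball (0 : E3) 1) :
    uu t =ᶠ[𝓝 x] fun y => (sol n).P t ‖y‖ := by
  filter_upwards [Metric.isOpen_ball.mem_nhds hx] with y hy
  exact h4 t ht _ (norm_mem (Metric.ball_subset_closedBall hy))

end near

theorem cP2t {k : ℝ} (s : Sol k) (t : ℝ) : Continuous (s.P2 t) :=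
  s.cP2.comp (by fun_prop : Continuous fun y : ℝ => (t, y))

theorem cP1t {k : ℝ} (s : Sol k) (t : ℝ) : Continuous (s.P1 t) :=
  s.cP1.comp (by fun_prop : Continuous fun y : ℝ => (t, y))

theorem cPt' {k : ℝ} (s : Sol k) (t : ℝ) : Continuous (s.P t) :=
  s.cP.comp (by fun_prop : Continuous fun y : ℝ => (t, y))

theorem smooth : St.SmoothSolution (Metric.ball (0 : E3) 1) 10 Ts uu := by
  constructor
  · rw [clos]
    rintro ⟨t, x⟩ ⟨ht, hx⟩
    obtain ⟨T, n, h1, h2, h3, h4⟩ := near_sol ⟨ht.1.le, ht.2⟩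
    have base : ContDiffOn ℝ 1 (fun z : ℝ × E3 => (sol n).P z.1 ‖z.2‖) (Ioi 0 ×ˢ univ) :=
      rad_c1 (sol n).cP1 (sol n).cPt (sol n).dP (sol n).tP (sol n).even
    have h5 := (base (t, x) ⟨ht.1, mem_univ _⟩).mono
      (t := Ioo 0 Ts ×ˢ Metric.closedBall (0 : E3) 1) (fun y hy => ⟨hy.1.1, mem_univ _⟩)
    refine h5.congr_of_eventuallyEq ?_ (h4 t ⟨ht.1.le, h1.le⟩ _ (norm_mem hx))
    have h6 : {z : ℝ × E3 | z.1 < T} ∈ 𝓝 (t, x) :=
      (isOpen_lt continuous_fst continuous_const).mem_nhds h1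
    filter_upwards [self_mem_nhdsWithin, mem_nhdsWithin_of_mem_nhds h6] with y hy hy1
    exact h4 y.1 ⟨hy.1.1.le, le_of_lt hy1⟩ _ (norm_mem hy.2)
  · rw [clos]
    rintro ⟨t, x⟩ ⟨ht, hx⟩
    obtain ⟨T, n, h1, h2, h3, h4⟩ := near_sol ht
    have base : Continuous (fun z : ℝ × E3 => (sol n).P z.1 ‖z.2‖) :=
      (sol n).cP.comp (by fun_prop : Continuous fun z : ℝ × E3 => (z.1, ‖z.2‖))
    have h5 : ContinuousWithinAt (fun z : ℝ × E3 => (sol n).P z.1 ‖z.2‖)
      (Ico 0 Ts ×ˢ Metric.closedBall (0 : E3) 1) (t, x) := base.continuousWithinAt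
    refine h5.congr_of_eventuallyEq ?_ (h4 t ⟨ht.1, h1.le⟩ _ (norm_mem hx))
    have h6 : {z : ℝ × E3 | z.1 < T} ∈ 𝓝 (t, x) :=
      (isOpen_lt continuous_fst continuous_const).mem_nhds h1
    filter_upwards [self_mem_nhdsWithin, mem_nhdsWithin_of_mem_nhds h6] with y hy hy1
    exact h4 y.1 ⟨hy.1.1, le_of_lt hy1⟩ _ (norm_mem hy.2)
  · intro t ht x hx
    obtain ⟨T, n, h1, h2, h3, h4⟩ := near_sol ⟨ht.1.le, ht.2⟩
    exact (rad_c2 ((sol n).dP t) ((sol n).dP1 t) (cP2t _ t)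
      ((sol n).even t)).contDiffAt.congr_of_eventuallyEq (uu_space h4 ⟨ht.1.le, h1.le⟩ hx)
  · intro t ht x hx
    obtain ⟨T, n, h1, h2, h3, h4⟩ := near_sol ⟨ht.1.le, ht.2⟩
    have hxc := norm_mem (Metric.ball_subset_closedBall hx)
    have htT : t ∈ Icc 0 T := ⟨ht.1.le, h1.le⟩
    refine (uu_tderiv h4 ⟨ht.1, h1⟩ (Metric.ball_subset_closedBall hx)).congr_deriv ?_
    have h5 := (InnerProductSpace.laplacian_congr_nhds (uu_space h4 htT hx)).eq_of_nhds
    rw [rad_lap ((sol n).dP t) ((sol n).dP1 t) (cP2t _ t) ((sol n).even t)] at h5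
    rw [h5, (sol n).Pt_eq ht.1.le hxc]
    have h6 : uu t x = (sol n).P t ‖x‖ := h4 t htT _ hxc
    have h7 := (sol n).nonneg (lvl n) ht.1.le hxc
    have h8 := h3 t htT _ hxc
    have h9 : g (66 + (n : ℝ)) ((sol n).P t ‖x‖) = (sol n).P t ‖x‖ ^ 9 :=
      g_eq (by have := lvl n; linarith) (by rw [abs_of_nonneg h7]; exact h8)
    rw [h6, h9, abs_of_nonneg h7]
    by_cases hx0 : x = 0
    · subst hx0
      simp
      ring
    · have : ‖x‖ ≠ 0 := norm_ne_zero_iff.2 hx0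
      rw [if_neg this, if_neg hx0]
      ring
  · intro t ht x hx
    rw [frontier_ball (0 : E3) one_ne_zero] at hx
    have h1 : ‖x‖ = 1 := by simpa using hx
    show Pu t ‖x‖ = 0
    rw [h1]
    exact Pu_one ht
  · intro T' hT'
    obtain ⟨T, n, h1, h2, h3, h4⟩ := near_sol (t := max T' 0)
      ⟨le_max_right _ _, max_lt hT' Ts_pos⟩
    have hT1 : T' < T := (le_max_left _ _).trans_lt h1
    have c1 : Continuous fun z : ℝ × E3 => (sol n).Pt z.1 ‖z.2‖ ^ 2 :=
      ((sol n).cPt.comp (by fun_prop : Continuous fun z : ℝ × E3 => (z.1, ‖z.2‖))).pow 2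
    have c2 : IntegrableOn (fun z : ℝ × E3 => (sol n).Pt z.1 ‖z.2‖ ^ 2)
        (Icc 0 T ×ˢ Metric.closedBall (0 : E3) 1) :=
      c1.continuousOn.integrableOn_compact (isCompact_Icc.prod (isCompact_closedBall _ _))
    have c3 := c2.mono_set (t := Icc 0 T ×ˢ Metric.closedBall (0 : E3) 1)
      (s := Ioo 0 T' ×ˢ Metric.ball (0 : E3) 1)
      (prod_mono (fun s hs => ⟨hs.1.le, hs.2.le.trans hT1.le⟩) Metric.ball_subset_closedBall)
    refine c3.congr_fun ?_ (measurableSet_Ioo.prod measurableSet_ball)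
    rintro ⟨s, x⟩ ⟨hs, hx⟩
    have h5 := (uu_tderiv h4 (t := s) ⟨hs.1, hs.2.trans hT1⟩
      (Metric.ball_subset_closedBall hx)).deriv
    show (sol n).Pt s ‖x‖ ^ 2 = deriv (fun r => uu r x) s ^ 2
    rw [h5]

/-- the uniform bound -/
noncomputable def CA : ℝ := 7 * (4 / (7 * eps)) ^ ((10 : ℝ) / 7)

theorem uu_cont_on {t : ℝ} (ht : t ∈ Ico 0 Ts) :
    ContinuousOn (uu t) (Metric.closedBall (0 : E3) 1) := by
  obtain ⟨T, n, h1, h2, h3, h4⟩ := near_sol ht
  have h5 : Continuous fun x : E3 => (sol n).P t ‖x‖ := (cPt' (sol n) t).comp continuous_norm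
  exact h5.continuousOn.congr fun x hx => h4 t ⟨ht.1, h1.le⟩ _ (norm_mem hx)

theorem bdd_energy : St.BoundedEnergy (Metric.ball (0 : E3) 1) 10 Ts uu := by
  have key : ∀ t ∈ Ioo 0 Ts, ∃ (n : ℕ),
      (∀ x ∈ Metric.ball (0 : E3) 1, ‖fderiv ℝ (uu t) x‖ = |(sol n).P1 t ‖x‖|) ∧
      (∀ x ∈ Icc (0 : ℝ) 1, Pu t x = (sol n).P t x) ∧
      ∫ x in (0 : ℝ)..1, x ^ 2 * (sol n).P1 t x ^ 2 ≤
        ∫ x in (0 : ℝ)..1, x ^ 2 * (sol n).P t x ^ 10 := by
    intro t ht
    obtain ⟨T, n, h1, h2, h3, h4⟩ := near_sol ⟨ht.1.le, ht.2⟩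
    refine ⟨n, fun x hx => ?_, fun x hx => h4 t ⟨ht.1.le, h1.le⟩ x hx, ?_⟩
    · rw [(uu_space h4 ⟨ht.1.le, h1.le⟩ hx).fderiv_eq,
        rad_fderiv ((sol n).dP t) ((sol n).even t)]
    · exact (sol n).grad_le (lvl n) h3 ⟨ht.1, h1.le⟩
  refine ⟨fun t ht => ?_, 4 * Real.pi * CA, fun t ht => ?_⟩
  · obtain ⟨n, k1, k2, _⟩ := key t ht
    constructor
    · have c1 : Continuous fun x : E3 => |(sol n).P1 t ‖x‖| ^ 2 :=
        (((cP1t (sol n) t).comp continuous_norm).abs).pow 2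
      have c2 : IntegrableOn (fun x : E3 => |(sol n).P1 t ‖x‖| ^ 2)
          (Metric.closedBall (0 : E3) 1) :=
        c1.continuousOn.integrableOn_compact (isCompact_closedBall _ _)
      refine (c2.mono_set Metric.ball_subset_closedBall).congr_fun ?_ measurableSet_ball
      intro x hx
      simp only
      rw [k1 x hx]
    · have c1 : ContinuousOn (fun x : E3 => |uu t x| ^ 10) (Metric.closedBall (0 : E3) 1) :=
        ((uu_cont_on ⟨ht.1.le, ht.2⟩).abs).pow 10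
      exact (c1.integrableOn_compact (isCompact_closedBall _ _)).mono_set
        Metric.ball_subset_closedBall
  · obtain ⟨n, k1, k2, k3⟩ := key t ht
    have c1 : Continuous fun r : ℝ => r ^ 2 * (sol n).P1 t r ^ 2 :=
      (continuous_pow 2).mul ((cP1t (sol n) t).pow 2)
    have c2 : Continuous fun r : ℝ => r ^ 2 * (sol n).P t r ^ 10 :=
      (continuous_pow 2).mul ((cPt' (sol n) t).pow 10)
    have e1 : St.energy (Metric.ball (0 : E3) 1) 10 (uu t) = 4 * Real.pi *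
        (1 / 2 * (∫ x in (0 : ℝ)..1, x ^ 2 * (sol n).P1 t x ^ 2) -
          1 / 10 * ∫ x in (0 : ℝ)..1, x ^ 2 * (sol n).P t x ^ 10) := by
      have e2 : St.energy (Metric.ball (0 : E3) 1) 10 (uu t) =
          ∫ x in Metric.ball (0 : E3) 1,
            (fun r => 1 / 2 * (sol n).P1 t r ^ 2 - 1 / 10 * (sol n).P t r ^ 10) ‖x‖ := by
        unfold St.energy
        apply setIntegral_congr_fun measurableSet_ball
        intro x hx
        have g1 : uu t x = (sol n).P t ‖x‖ :=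
          k2 _ (norm_mem (Metric.ball_subset_closedBall hx))
        simp only
        rw [k1 x hx, g1, sq_abs, Even.pow_abs (by decide : Even 10)]
        norm_num
      have e7 : ∫ r in (0 : ℝ)..1, r ^ 2 * (1 / 2 * (sol n).P1 t r ^ 2 -
          1 / 10 * (sol n).P t r ^ 10) =
          1 / 2 * (∫ x in (0 : ℝ)..1, x ^ 2 * (sol n).P1 t x ^ 2) -
          1 / 10 * ∫ x in (0 : ℝ)..1, x ^ 2 * (sol n).P t x ^ 10 := by
        rw [← intervalIntegral.integral_const_mul, ← intervalIntegral.integral_const_mul,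
          ← intervalIntegral.integral_sub ((c1.const_mul _).intervalIntegrable _ _)
            ((c2.const_mul _).intervalIntegrable _ _)]
        apply intervalIntegral.integral_congr
        intro r _
        simp only
        ring
      rw [e2, rad_int (fun r => 1 / 2 * (sol n).P1 t r ^ 2 - 1 / 10 * (sol n).P t r ^ 10), e7]
    have e3 : ∫ x in (0 : ℝ)..1, x ^ 2 * (sol n).P t x ^ 10 ≤ CA := by
      have e4 := Pu_int10 (t := t) ⟨ht.1.le, ht.2⟩
      have e5 : ∫ x in (0 : ℝ)..1, x ^ 2 * Pu t x ^ 10 =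
          ∫ x in (0 : ℝ)..1, x ^ 2 * (sol n).P t x ^ 10 := by
        apply intervalIntegral.integral_congr
        intro r hr
        rw [uIcc_of_le zero_le_one] at hr
        simp only
        rw [k2 r hr]
      rw [e5] at e4
      exact e4
    have e6 : 0 ≤ ∫ x in (0 : ℝ)..1, x ^ 2 * (sol n).P1 t x ^ 2 :=
      intervalIntegral.integral_nonneg zero_le_one fun x _ => by positivity
    rw [e1, abs_mul, abs_of_nonneg (by positivity : (0 : ℝ) ≤ 4 * Real.pi)]
    apply mul_le_mul_of_nonneg_left _ (by positivity)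
    rw [abs_le]
    constructor
    · linarith
    · linarith

/-- the final value is measurable and square integrable -/
theorem vT_meas : AEStronglyMeasurable (fun x => (vT x).toReal)
    (volume.restrict (Metric.ball (0 : E3) 1)) := by
  obtain ⟨v, _, h2, h3⟩ := exists_seq_strictMono_tendsto' Ts_pos
  have h4 : Tendsto v atTop (𝓝[<] Ts) :=
    tendsto_nhdsWithin_iff.2 ⟨h3, Eventually.of_forall fun n => (h2 n).2⟩
  refine aestronglyMeasurable_of_tendsto_ae atTop (f := fun n x => uu (v n) x) ?_ ?_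
  · intro n
    exact ((uu_cont_on ⟨(h2 n).1.le, (h2 n).2⟩).mono
      Metric.ball_subset_closedBall).aestronglyMeasurable measurableSet_ball
  · have h5 : ∀ᵐ x ∂(volume : Measure E3), x ≠ 0 := by
      rw [ae_iff]
      simp
    filter_upwards [ae_restrict_of_ae h5, ae_restrict_mem measurableSet_ball] with x hx0 hx
    have hn := norm_mem' hx
    exact (rho_tendsto ⟨norm_pos_iff.2 hx0, hn.2.le⟩).comp h4

theorem vT_mem : MemLp (fun x => (vT x).toReal) 2
    (volume.restrict (Metric.ball (0 : E3) 1)) := by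
  rw [memLp_two_iff_integrable_sq vT_meas]
  exact (rad_integrable (fun r => (rho r).toReal ^ 2)).2 rho_int

theorem final : St.IsFinalValue (Metric.ball (0 : E3) 1) Ts uu vT := by
  have h5 : ∀ᵐ x ∂(volume : Measure E3), x ≠ 0 := by
    rw [ae_iff]
    simp
  refine ⟨?_, vT_mem, ?_⟩
  · filter_upwards [ae_restrict_of_ae h5, ae_restrict_mem measurableSet_ball] with x hx0 hx
    exact (rho_lt ⟨norm_pos_iff.2 hx0, (norm_mem' hx).2.le⟩).ne
  · have h6 : ∀ t ∈ Ioo 0 Ts, eLpNorm (fun x => uu t x - (vT x).toReal) 2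
        (volume.restrict (Metric.ball (0 : E3) 1)) = ENNReal.ofReal
        ((4 * Real.pi * ∫ x in (0 : ℝ)..1, x ^ 2 * (Pu t x - (rho x).toReal) ^ 2) ^
          (2 : ℝ)⁻¹) := by
      intro t ht
      have m1 : MemLp (uu t) 2 (volume.restrict (Metric.ball (0 : E3) 1)) := by
        have c1 := uu_cont_on (t := t) ⟨ht.1.le, ht.2⟩
        rw [memLp_two_iff_integrable_sq ((c1.mono
          Metric.ball_subset_closedBall).aestronglyMeasurable measurableSet_ball)]
        exact ((c1.pow 2).integrableOn_compact (isCompact_closedBall _ _)).mono_set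
          Metric.ball_subset_closedBall
      have m2 := (m1.sub vT_mem).eLpNorm_eq_integral_rpow_norm (by norm_num) (by norm_num)
      have m3 : ∫ x in Metric.ball (0 : E3) 1, ‖(uu t - fun x => (vT x).toReal) x‖ ^
          (2 : ℝ≥0∞).toReal = 4 * Real.pi *
          ∫ x in (0 : ℝ)..1, x ^ 2 * (Pu t x - (rho x).toReal) ^ 2 := by
        rw [← rad_int (fun r => (Pu t r - (rho r).toReal) ^ 2)]
        apply setIntegral_congr_fun measurableSet_ball
        intro x _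
        simp only [ENNReal.toReal_ofNat, Real.rpow_ofNat, Pi.sub_apply, Real.norm_eq_abs, sq_abs]
        rfl
      rw [m3] at m2
      exact m2
    have h7 : Tendsto (fun t => ENNReal.ofReal
        ((4 * Real.pi * ∫ x in (0 : ℝ)..1, x ^ 2 * (Pu t x - (rho x).toReal) ^ 2) ^
          (2 : ℝ)⁻¹)) (𝓝[<] Ts) (𝓝 0) := by
      have k1 := (Pu_L2.const_mul (4 * Real.pi)).rpow_const (p := (2 : ℝ)⁻¹)
        (Or.inr (by norm_num))
      have k2 := ENNReal.tendsto_ofReal k1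
      rw [mul_zero, Real.zero_rpow (by norm_num), ENNReal.ofReal_zero] at k2
      exact k2
    refine h7.congr' ?_
    filter_upwards [Ioo_mem_nhdsLT Ts_pos] with t ht
    exact (h6 t ht).symm

theorem main : ∃ (T : ℝ) (u : ℝ → E3 → ℝ) (v : E3 → ℝ≥0∞), 0 < T ∧
    St.SmoothSolution (Metric.ball (0 : E3) 1) 10 T u ∧
    (∀ t ∈ Ico 0 T, ∀ x ∈ closure (Metric.ball (0 : E3) 1), 0 ≤ u t x) ∧
    St.BoundedEnergy (Metric.ball (0 : E3) 1) 10 T u ∧
    St.IsFinalValue (Metric.ball (0 : E3) 1) T u v ∧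
    St.InstantaneousCompleteBlowup (Metric.ball (0 : E3) 1) 10 v := by
  refine ⟨Ts, uu, vT, Ts_pos, smooth, fun t ht x hx => ?_, bdd_energy, final, blowup⟩
  rw [clos] at hx
  exact Pu_nonneg ht (norm_mem hx)

end LE
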