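import Pool.Agent.H6.LE.Picard
import Pool.Agent.H6.LE.Cut
import Pool.Agent.H6.LE.Data
import Pool.Agent.H6.LE.Fold

/-! The mild solution. -/

namespace LE
open Set Filter Topology MeasureTheory

/-- `fold` is odd up to the ambiguity at odd integers -/
theorem fold_neg_cases (x : ℝ) : fold (-x) = -fold x ∨ (fold x = 1 ∧ fold (-x) = 1) ∨
    (fold x = -1 ∧ fold (-x) = -1) := by
  have h1 := fold_mem x
  have h2 := fold_mem (-x)
  have h3 : fold (-x) + fold x = ((-2 * (round (-x / 2) + round (x / 2)) : ℤ) : ℝ) := by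
    unfold fold
    push_cast
    ring
  set j : ℤ := round (-x / 2) + round (x / 2) with hj
  have h4 : fold (-x) + fold x = -2 * (j : ℝ) := by rw [h3]; push_cast; ring
  have hj1 : (j : ℝ) ≤ 1 := by linarith [h1.1, h2.1]
  have hj2 : (-1 : ℝ) ≤ j := by linarith [h1.2, h2.2]
  have hj1' : j ≤ 1 := by exact_mod_cast hj1
  have hj2' : -1 ≤ j := by exact_mod_cast hj2
  have hcases : j = -1 ∨ j = 0 ∨ j = 1 := by omega
  rcases hcases with h | h | h
  · right; left
    rw [h] at h4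
    push_cast at h4
    constructor <;> linarith [h1.2, h2.2]
  · left
    rw [h] at h4
    push_cast at h4
    linarith
  · right; right
    rw [h] at h4
    push_cast at h4
    constructor <;> linarith [h1.1, h2.1]

theorem abs_fold_neg (x : ℝ) : |fold (-x)| = |fold x| := by
  rcases fold_neg_cases x with h | ⟨h, h'⟩ | ⟨h, h'⟩
  · rw [h, abs_neg]
  · rw [h, h']
  · rw [h, h']

theorem u0_even (x : ℝ) : u0 (-x) = u0 x := by
  unfold u0
  rw [neg_sq]

theorem V0_props : Continuous V0 ∧ (∀ x, V0 (x + 2) = V0 x) ∧ (∀ x, V0 (-x) = -V0 x) := by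
  have hu1 : u0 (-1) = 0 := by rw [u0_even, u0_one]
  refine ⟨?_, ?_, ?_⟩
  · have hc : Continuous fun z : ℝ × ℝ => (fun _ y => y * u0 y : ℝ → ℝ → ℝ) z.1 z.2 := by
      show Continuous fun z : ℝ × ℝ => z.2 * u0 z.2
      unfold u0
      fun_prop
    have h := cont_fold (Q := fun _ y => y * u0 y) hc (by
      intro t
      show 1 * u0 1 = -1 * u0 (-1)
      rw [u0_one, hu1]
      ring)
    have h2 : Continuous fun x : ℝ => ((0 : ℝ), x) := by fun_prop
    exact h.comp h2
  · intro x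
    unfold V0
    rw [fold_per]
  · intro x
    unfold V0
    rcases fold_neg_cases x with h | ⟨h, h'⟩ | ⟨h, h'⟩
    · rw [h, u0_even]
      ring
    · rw [h, h', u0_one]
      ring
    · rw [h, h', hu1]
      ring

theorem abs_fold_cont : Continuous fun x => |fold x| := by
  have hc : Continuous fun z : ℝ × ℝ => (fun _ y => |y| : ℝ → ℝ → ℝ) z.1 z.2 := by
    show Continuous fun z : ℝ × ℝ => |z.2|
    fun_prop
  have h := cont_fold (Q := fun _ y => |y|) hc (by
    intro t
    show |(1 : ℝ)| = |(-1 : ℝ)|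
    rw [abs_neg])
  have h2 : Continuous fun x : ℝ => ((0 : ℝ), x) := by fun_prop
  exact h.comp h2

theorem Nf_cont {k : ℝ} (hk : 0 < k) : Continuous fun z : ℝ × ℝ => Nf k z.1 z.2 := by
  obtain ⟨L, hL, -, -, hgL, -⟩ := g_lip hk
  have hm : Continuous fun z : ℝ × ℝ => |fold z.1| := abs_fold_cont.comp continuous_fst
  rw [continuous_iff_continuousAt]
  intro z
  by_cases h0 : |fold z.1| = 0
  · have hz : Nf k z.1 z.2 = 0 := by
      unfold Nf
      rw [h0, zero_mul]
    show Tendsto (fun z : ℝ × ℝ => Nf k z.1 z.2) (𝓝 z) (𝓝 (Nf k z.1 z.2))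
    rw [hz]
    apply squeeze_zero_norm (a := fun z : ℝ × ℝ => |fold z.1| * L)
    · intro w
      unfold Nf
      rw [Real.norm_eq_abs, abs_mul, abs_abs]
      exact mul_le_mul_of_nonneg_left (hgL _) (abs_nonneg _)
    · have h1 : Tendsto (fun z : ℝ × ℝ => |fold z.1| * L) (𝓝 z) (𝓝 (|fold z.1| * L)) :=
        (hm.mul continuous_const).tendsto z
      rwa [h0, zero_mul] at h1
  · have hg : Continuous (g k) := (g_smooth k).continuous
    have h1 : ContinuousAt (fun z : ℝ × ℝ => z.2 / |fold z.1|) z :=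
      continuousAt_snd.div hm.continuousAt h0
    exact hm.continuousAt.mul (hg.continuousAt.comp h1)

theorem Nf_per {k : ℝ} (x v : ℝ) : Nf k (x + 2) v = Nf k x v := by
  unfold Nf
  rw [fold_per]

theorem Nf_odd {k : ℝ} (x v : ℝ) : Nf k (-x) (-v) = -Nf k x v := by
  unfold Nf
  rw [abs_fold_neg, neg_div, g_odd]
  ring

theorem Nf_lip {k L : ℝ} (hL : ∀ u v, |g k u - g k v| ≤ L * |u - v|) (x v w : ℝ)
    (hL0 : 0 ≤ L) : |Nf k x v - Nf k x w| ≤ L * |v - w| := by
  unfold Nf
  rcases (abs_nonneg (fold x)).eq_or_lt with h0 | h0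
  · rw [← h0, zero_mul, zero_mul, sub_zero, abs_zero]
    positivity
  · rw [← mul_sub, abs_mul, abs_abs]
    calc |fold x| * abs (g k (v / |fold x|) - g k (w / |fold x|))
        ≤ |fold x| * (L * abs (v / |fold x| - w / |fold x|)) :=
          mul_le_mul_of_nonneg_left (hL _ _) h0.le
      _ = L * |v - w| := by
          rw [← sub_div, abs_div, abs_abs]
          field_simp

theorem Nf_bd {k L : ℝ} (hL : ∀ u, |g k u| ≤ L) (x v : ℝ) : |Nf k x v| ≤ L := by
  have hL0 : 0 ≤ L := le_trans (abs_nonneg _) (hL 0)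
  unfold Nf
  rw [abs_mul, abs_abs]
  have h1 : |fold x| ≤ 1 := abs_le.mpr (fold_mem x)
  calc |fold x| * abs (g k (v / |fold x|)) ≤ 1 * L :=
        mul_le_mul h1 (hL _) (abs_nonneg _) zero_le_one
    _ = L := one_mul L

theorem mild {k : ℝ} (hk : 1 ≤ k) : ∃ V : ℝ → ℝ → ℝ, PC V ∧ (∀ t x, V t (-x) = -V t x) ∧
      ∀ t x, V t x = S V0 t x + I (fun s y => Nf k y (V s y)) t x := by
  have hk0 : 0 < k := by linarith
  obtain ⟨L, hL, hLip, -, hgL, -⟩ := g_lip hk0
  obtain ⟨h1, h2, h3⟩ := V0_props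
  exact picard (N := Nf k) (Nf_cont hk0) Nf_per Nf_odd hL (fun x v w => Nf_lip hLip x v w hL)
    (Nf_bd hgL) h1 h2 h3

end LE
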