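import Mathlib

/-! Definitions for the final statement: the Lane-Emden heat flow
`u_t - Δ u = |u|^(p-2) u` on a domain `Ω` of `ℝ^n` with zero boundary values. -/

namespace LE.St
open Set Filter Topology MeasureTheory Laplacian
open scoped ENNReal

variable {n : ℕ}

/-- `u` is a smooth solution on `]0, T[` of `u_t - Δ u = |u|^(p-2) u` in `Ω`, `u = 0` on `∂Ω`.
It is of class `C¹` up to the boundary on `]0, T[`, continuous down to `t = 0`, of class `C²` in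
space inside `Ω`, and its time derivative is locally square integrable on `closure Ω × [0, T[`. -/
structure SmoothSolution (Ω : Set (EuclideanSpace ℝ (Fin n))) (p : ℕ) (T : ℝ)
    (u : ℝ → EuclideanSpace ℝ (Fin n) → ℝ) : Prop where
  c1 : ContDiffOn ℝ 1 (fun z : ℝ × EuclideanSpace ℝ (Fin n) => u z.1 z.2) (Ioo 0 T ×ˢ closure Ω)
  c0 : ContinuousOn (fun z : ℝ × EuclideanSpace ℝ (Fin n) => u z.1 z.2) (Ico 0 T ×ˢ closure Ω)
  c2 : ∀ t ∈ Ioo 0 T, ∀ x ∈ Ω, ContDiffAt ℝ 2 (u t) x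
  pde : ∀ t ∈ Ioo 0 T, ∀ x ∈ Ω,
    HasDerivAt (fun s => u s x) (Δ (u t) x + |u t x| ^ (p - 2) * u t x) t
  boundary : ∀ t ∈ Ico 0 T, ∀ x ∈ frontier Ω, u t x = 0
  time_deriv : ∀ T' < T, IntegrableOn
    (fun z : ℝ × EuclideanSpace ℝ (Fin n) => (deriv (fun s => u s z.2) z.1) ^ 2) (Ioo 0 T' ×ˢ Ω)

/-- The energy `E(v) = ∫_Ω (1/2 |∇ v|² - 1/p |v|^p)`. -/
noncomputable def energy (Ω : Set (EuclideanSpace ℝ (Fin n))) (p : ℕ)
    (v : EuclideanSpace ℝ (Fin n) → ℝ) : ℝ :=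
  ∫ x in Ω, (1 / 2 * ‖fderiv ℝ v x‖ ^ 2 - 1 / p * |v x| ^ p)

/-- bounded energy on `]0, T[` -/
def BoundedEnergy (Ω : Set (EuclideanSpace ℝ (Fin n))) (p : ℕ) (T : ℝ)
    (u : ℝ → EuclideanSpace ℝ (Fin n) → ℝ) : Prop :=
  (∀ t ∈ Ioo 0 T, IntegrableOn (fun x => ‖fderiv ℝ (u t) x‖ ^ 2) Ω ∧
    IntegrableOn (fun x => |u t x| ^ p) Ω) ∧
  ∃ C, ∀ t ∈ Ioo 0 T, |energy Ω p (u t)| ≤ C

/-- The `[0, ∞]`-valued function `v` is (a representative of) the `L²(Ω)`-limit `u(T)` of `u(t)`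
as `t ↑ T`. -/
def IsFinalValue (Ω : Set (EuclideanSpace ℝ (Fin n))) (T : ℝ)
    (u : ℝ → EuclideanSpace ℝ (Fin n) → ℝ) (v : EuclideanSpace ℝ (Fin n) → ℝ≥0∞) : Prop :=
  (∀ᵐ x ∂(volume.restrict Ω), v x ≠ ∞) ∧ MemLp (fun x => (v x).toReal) 2 (volume.restrict Ω) ∧
  Tendsto (fun t => eLpNorm (fun x => u t x - (v x).toReal) 2 (volume.restrict Ω)) (𝓝[<] T) (𝓝 0)

/-- `w` is the classical solution of the truncated problem
`w_t - Δ w = min (w^(p-1)) (k^(p-1))` in `Ω × ]0, ∞[` with `w = 0` on `∂Ω` and `w = min v k` at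
`t = 0`. -/
structure IsTruncated (Ω : Set (EuclideanSpace ℝ (Fin n))) (p : ℕ)
    (v : EuclideanSpace ℝ (Fin n) → ℝ≥0∞) (k : ℕ)
    (w : ℝ → EuclideanSpace ℝ (Fin n) → ℝ) : Prop where
  cont : ContinuousOn (fun z : ℝ × EuclideanSpace ℝ (Fin n) => w z.1 z.2) (Ici 0 ×ˢ closure Ω)
  init : ∀ x ∈ closure Ω, w 0 x = (min (v x) k).toReal
  boundary : ∀ t ≥ 0, ∀ x ∈ frontier Ω, w t x = 0
  pde : ∀ t > 0, ∀ x ∈ Ω, ContDiffAt ℝ 2 (w t) x ∧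
    HasDerivAt (fun s => w s x) (Δ (w t) x + min (w t x ^ (p - 1)) (k ^ (p - 1))) t

/-- The data `v` lead to instantaneous complete blow-up: for each `k ≥ 1` the truncated problem
has exactly one solution `w k`, and the limit of `w k t x` is `+∞` for all `t > 0` and `x ∈ Ω`. -/
def InstantaneousCompleteBlowup (Ω : Set (EuclideanSpace ℝ (Fin n))) (p : ℕ)
    (v : EuclideanSpace ℝ (Fin n) → ℝ≥0∞) : Prop :=
  ∃ w : ℕ → ℝ → EuclideanSpace ℝ (Fin n) → ℝ,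
    (∀ k ≥ 1, IsTruncated Ω p v k (w k) ∧
      ∀ w', IsTruncated Ω p v k w' → ∀ t ≥ 0, ∀ x ∈ closure Ω, w' t x = w k t x) ∧
    ∀ t > 0, ∀ x ∈ Ω, Tendsto (fun k => w k t x) atTop atTop

end LE.St
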