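import Pool.Agent.H6.LE.FM

/-! Bound of the profile. -/

namespace LE
open Set Filter Topology MeasureTheory

variable {k k' : ℝ}

theorem Sol.P_pos (s : Sol k) (hk : 66 ≤ k) {t x : ℝ} (ht : 0 ≤ t) (hx0 : 0 ≤ x) (hx1 : x < 1) :
    0 < s.P t x :=
  (u0_pos ⟨by linarith, hx1⟩).trans_le (s.le_P hk ht ⟨hx0, hx1.le⟩)

theorem Sol.profile (s : Sol k) (hk : 66 ≤ k) {T : ℝ}
    (hT : ∀ t ∈ Icc 0 T, ∀ x ∈ Icc (0 : ℝ) 1, s.P t x ≤ k) :
    ∀ t ∈ Icc 0 T, ∀ x ∈ Ioc (0 : ℝ) 1, s.P t x ^ 7 ≤ 4 / (7 * eps) / x ^ 2 := by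
  intro t ht x hx
  have he := eps_pos
  have hx0 := hx.1
  rcases eq_or_lt_of_le hx.2 with h1 | h1
  · rw [h1, s.P_one t]
    norm_num
    positivity
  have hpos : ∀ y ∈ Icc 0 x, 0 < s.P t y := fun y hy =>
    s.P_pos hk ht.1 hy.1 (hy.2.trans_lt h1)
  have hd : ∀ y ∈ Icc 0 x, HasDerivAt (fun y => (s.P t y ^ 7)⁻¹ - 7 * eps / 4 * y ^ 2)
      (-(7 * s.P t y ^ 6 * s.P1 t y) / (s.P t y ^ 7) ^ 2 - 7 * eps / 4 * (2 * y)) y := by
    intro y hy
    have e1 : HasDerivAt (fun y => s.P t y ^ 7) (7 * s.P t y ^ 6 * s.P1 t y) y := by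
      have := (s.dP t y).fun_pow 7
      simpa using this
    have e2 : HasDerivAt (fun y : ℝ => 7 * eps / 4 * y ^ 2) (7 * eps / 4 * (2 * y)) y := by
      have := (hasDerivAt_pow 2 y).const_mul (7 * eps / 4)
      simpa using this
    exact (e1.fun_inv (pow_pos (hpos y hy) 7).ne').sub e2
  have hm : MonotoneOn (fun y => (s.P t y ^ 7)⁻¹ - 7 * eps / 4 * y ^ 2) (Icc 0 x) := by
    apply monotoneOn_of_deriv_nonneg (convex_Icc 0 x)
    · exact fun y hy => (hd y hy).continuousAt.continuousWithinAt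
    · intro y hy
      rw [interior_Icc] at hy
      exact (hd y ⟨hy.1.le, hy.2.le⟩).differentiableAt.differentiableWithinAt
    · intro y hy
      rw [interior_Icc] at hy
      have hy' : y ∈ Icc 0 x := ⟨hy.1.le, hy.2.le⟩
      rw [(hd y hy').deriv]
      have hp := hpos y hy'
      have f1 := s.fm hk hT t ht y ⟨hy.1.le, hy.2.le.trans hx.2⟩
      have f2 := F_ge hp.le
      have f3 : eps * y * (s.P t y ^ 8 / 2) ≤ eps * y * F (s.P t y) :=
        mul_le_mul_of_nonneg_left f2 (mul_nonneg he.le hy.1.le)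
      have f4 : eps * y * (s.P t y ^ 8 / 2) ≤ -s.P1 t y := by linarith
      have f5 : 7 * s.P t y ^ 6 * (eps * y * (s.P t y ^ 8 / 2)) ≤
          7 * s.P t y ^ 6 * (-s.P1 t y) := mul_le_mul_of_nonneg_left f4 (by positivity)
      have f6 : 7 * eps / 4 * (2 * y) ≤ -(7 * s.P t y ^ 6 * s.P1 t y) / (s.P t y ^ 7) ^ 2 := by
        rw [le_div_iff₀ (by positivity)]
        calc 7 * eps / 4 * (2 * y) * (s.P t y ^ 7) ^ 2
            = 7 * s.P t y ^ 6 * (eps * y * (s.P t y ^ 8 / 2)) := by ring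
          _ ≤ _ := f5
          _ = _ := by ring
      linarith
  have h2 := hm ⟨le_rfl, hx0.le⟩ ⟨hx0.le, le_rfl⟩ hx0.le
  simp only at h2
  have h3 : 0 < (s.P t 0 ^ 7)⁻¹ := by
    have := hpos 0 ⟨le_rfl, hx0.le⟩
    positivity
  have h4 : 7 * eps / 4 * x ^ 2 ≤ (s.P t x ^ 7)⁻¹ := by
    have e1 : (7 * eps / 4 * (0 : ℝ) ^ 2) = 0 := by ring
    rw [e1] at h2
    linarith
  have h5 : 0 < s.P t x ^ 7 := pow_pos (hpos x ⟨hx0.le, le_rfl⟩) 7
  have h6 : s.P t x ^ 7 ≤ (7 * eps / 4 * x ^ 2)⁻¹ := by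
    rw [← inv_inv (s.P t x ^ 7)]
    exact inv_anti₀ (by positivity) h4
  refine h6.trans (le_of_eq ?_)
  field_simp

end LE
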