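import Pool.Agent.H6.LE.Exist
import Pool.Agent.H6.LE.Profile
import Pool.Agent.H6.LE.Kaplan
import Pool.Agent.H6.LE.Complete

/-! The blow-up time `Ts`, the solution `Pu` on `[0, Ts[` and the blow-up profile `rho`
(module H). -/

namespace LE
open Set Filter Topology MeasureTheory
open scoped ENNReal

/-- truncated solutions, level `66 + n` -/
noncomputable def sol (n : ℕ) : Sol (66 + (n : ℝ)) :=
  Classical.choice (exists_sol (by have : (0 : ℝ) ≤ n := Nat.cast_nonneg n; linarith))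

def Bdd (T : ℝ) : Prop := ∃ B, ∀ n, ∀ t ∈ Icc 0 T, ∀ x ∈ Icc (0 : ℝ) 1, (sol n).P t x ≤ B

noncomputable def Ts : ℝ := sSup {T | 0 ≤ T ∧ Bdd T}

noncomputable def Pu (t x : ℝ) : ℝ := ⨆ n : ℕ, (sol n).P t x

theorem h66 (n : ℕ) : (66 : ℝ) ≤ 66 + (n : ℝ) := by
  have : (0 : ℝ) ≤ n := Nat.cast_nonneg n
  linarith

theorem sol_mono {m n : ℕ} (h : m ≤ n) {t x : ℝ} (ht : 0 ≤ t) (hx : x ∈ Icc (0 : ℝ) 1) :
    (sol m).P t x ≤ (sol n).P t x :=
  (sol m).mono_k (sol n) (h66 m) (by have : (m : ℝ) ≤ n := by exact_mod_cast h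
                                     linarith) ht hx

theorem Bdd_le_one {T : ℝ} (h : Bdd T) : T ≤ 1 := by
  obtain ⟨B, hB⟩ := h
  obtain ⟨n, hn⟩ := exists_nat_ge B
  exact (sol n).kaplan (h66 n) (T := T) fun t ht x hx => (hB n t ht x hx).trans (by linarith)

theorem Bdd_anti {T T' : ℝ} (h : Bdd T') (hT : T ≤ T') : Bdd T := by
  obtain ⟨B, hB⟩ := h
  exact ⟨B, fun n t ht x hx => hB n t ⟨ht.1, ht.2.trans hT⟩ x hx⟩

theorem bddAbove_S : BddAbove {T | 0 ≤ T ∧ Bdd T} := ⟨1, fun _ hT => Bdd_le_one hT.2⟩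

theorem short_mem : ((34 : ℝ) ^ 9)⁻¹ ∈ {T | 0 ≤ T ∧ Bdd T} :=
  ⟨by positivity, 34, fun n _ ht _ hx => (sol n).short (h66 n) ht hx⟩

theorem Ts_pos : 0 < Ts :=
  lt_of_lt_of_le (by positivity : (0 : ℝ) < ((34 : ℝ) ^ 9)⁻¹) (le_csSup bddAbove_S short_mem)

theorem Ts_le : Ts ≤ 1 := csSup_le ⟨_, short_mem⟩ fun _ hT => Bdd_le_one hT.2

theorem Bdd_of_lt {T : ℝ} (h : T < Ts) : Bdd T := by
  obtain ⟨T', hT', hlt⟩ := exists_lt_of_lt_csSup ⟨_, short_mem⟩ h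
  exact Bdd_anti hT'.2 hlt.le

theorem not_Bdd {T : ℝ} (h : Ts < T) : ¬ Bdd T := fun hb =>
  absurd (le_csSup bddAbove_S ⟨Ts_pos.le.trans h.le, hb⟩) (not_le.2 h)

/-- before `Ts` all truncated solutions of high level agree -/
theorem local_sol {T : ℝ} (h : T < Ts) : ∃ n : ℕ,
    (∀ t ∈ Icc 0 T, ∀ x ∈ Icc (0 : ℝ) 1, (sol n).P t x ≤ 66 + n) ∧
    ∀ m ≥ n, ∀ t ∈ Icc 0 T, ∀ x ∈ Icc (0 : ℝ) 1, (sol m).P t x = (sol n).P t x := by
  obtain ⟨B, hB⟩ := Bdd_of_lt h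
  obtain ⟨n, hn⟩ := exists_nat_ge B
  have h1 : ∀ t ∈ Icc 0 T, ∀ x ∈ Icc (0 : ℝ) 1, (sol n).P t x ≤ 66 + n :=
    fun t ht x hx => (hB n t ht x hx).trans (by linarith)
  refine ⟨n, h1, fun m hm => ?_⟩
  exact (sol n).agree (sol m) (h66 n) (by have : (n : ℝ) ≤ m := by exact_mod_cast hm
                                          linarith) h1

theorem Pu_eq {T : ℝ} {n : ℕ}
    (hn : ∀ m ≥ n, ∀ t ∈ Icc 0 T, ∀ x ∈ Icc (0 : ℝ) 1, (sol m).P t x = (sol n).P t x)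
    {t x : ℝ} (ht : t ∈ Icc 0 T) (hx : x ∈ Icc (0 : ℝ) 1) : Pu t x = (sol n).P t x := by
  have hub : ∀ m, (sol m).P t x ≤ (sol n).P t x := by
    intro m
    rcases le_total m n with h | h
    · exact sol_mono h ht.1 hx
    · exact (hn m h t ht x hx).le
  exact le_antisymm (ciSup_le hub) (le_ciSup ⟨_, by rintro _ ⟨m, rfl⟩; exact hub m⟩ n)

theorem exists_n {t : ℝ} (ht : t < Ts) : ∃ n : ℕ,
    (∀ τ ∈ Icc 0 t, ∀ x ∈ Icc (0 : ℝ) 1, (sol n).P τ x ≤ 66 + n) ∧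
    (∀ τ ∈ Icc 0 t, ∀ x ∈ Icc (0 : ℝ) 1, Pu τ x = (sol n).P τ x) := by
  obtain ⟨n, h1, h2⟩ := local_sol ht
  exact ⟨n, h1, fun τ hτ x hx => Pu_eq h2 hτ hx⟩

theorem Pu_nonneg {t x : ℝ} (ht : t ∈ Ico 0 Ts) (hx : x ∈ Icc (0 : ℝ) 1) : 0 ≤ Pu t x := by
  obtain ⟨n, -, h2⟩ := exists_n ht.2
  rw [h2 t ⟨ht.1, le_rfl⟩ x hx]
  exact (sol n).nonneg (h66 n) ht.1 hx

theorem sol_one (n : ℕ) (t : ℝ) : (sol n).P t 1 = 0 := by
  have h1 := (sol n).VP t 1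
  rw [(sol n).bd t, one_mul] at h1
  exact h1.symm

theorem Pu_one {t : ℝ} (ht : t ∈ Ico 0 Ts) : Pu t 1 = 0 := by
  obtain ⟨n, -, h2⟩ := exists_n ht.2
  rw [h2 t ⟨ht.1, le_rfl⟩ 1 ⟨zero_le_one, le_rfl⟩, sol_one]

theorem sol_le_Pu (n : ℕ) {t x : ℝ} (ht : t ∈ Ico 0 Ts) (hx : x ∈ Icc (0 : ℝ) 1) :
    (sol n).P t x ≤ Pu t x := by
  obtain ⟨m, h1, h2⟩ := local_sol ht.2
  have htt : t ∈ Icc 0 t := ⟨ht.1, le_rfl⟩
  rw [Pu_eq h2 htt hx]
  rcases le_total n m with h | h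
  · exact sol_mono h ht.1 hx
  · exact (h2 n h t htt x hx).le

theorem Pu_mono {t t' x : ℝ} (ht : 0 ≤ t) (h : t ≤ t') (h' : t' < Ts) (hx : x ∈ Icc (0 : ℝ) 1) :
    Pu t x ≤ Pu t' x := by
  obtain ⟨n, -, h2⟩ := exists_n h'
  rw [h2 t ⟨ht, h⟩ x hx, h2 t' ⟨ht.trans h, le_rfl⟩ x hx]
  exact (sol n).mono_t (h66 n) ht h hx

theorem Pu_anti {t x y : ℝ} (ht : t ∈ Ico 0 Ts) (hx : 0 ≤ x) (hxy : x ≤ y) (hy : y ≤ 1) :
    Pu t y ≤ Pu t x := by
  obtain ⟨n, -, h2⟩ := exists_n ht.2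
  rw [h2 t ⟨ht.1, le_rfl⟩ x ⟨hx, hxy.trans hy⟩, h2 t ⟨ht.1, le_rfl⟩ y ⟨hx.trans hxy, hy⟩]
  exact (sol n).anti (h66 n) ht.1 hx hxy hy

theorem Pu_profile {t x : ℝ} (ht : t ∈ Ico 0 Ts) (hx : x ∈ Ioc (0 : ℝ) 1) :
    Pu t x ^ 7 ≤ 4 / (7 * eps) / x ^ 2 := by
  obtain ⟨n, h1, h2⟩ := exists_n ht.2
  rw [h2 t ⟨ht.1, le_rfl⟩ x ⟨hx.1.le, hx.2⟩]
  exact (sol n).profile (h66 n) h1 t ⟨ht.1, le_rfl⟩ x hx

/-- short time bound started at time `t1`, abstract constant -/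
theorem Sol.shortA {k : ℝ} (s : Sol k) (hk : 66 ≤ k) {B A t1 : ℝ} (hB : 0 ≤ B) (hBk : B + 1 ≤ k)
    (hApos : 0 < A) (hA9 : ∀ m : ℝ, 0 ≤ m → m ≤ B + 1 → m ^ 9 ≤ A)
    (ht1 : 0 ≤ t1) (h : ∀ x ∈ Icc (0 : ℝ) 1, s.P t1 x ≤ B) {t x : ℝ}
    (ht : t ∈ Icc t1 (t1 + A⁻¹)) (hx : x ∈ Icc (0 : ℝ) 1) : s.P t x ≤ B + 1 := by
  obtain ⟨L, hL0, hL, -⟩ := g_lip (k := k) (by linarith)
  have hm : ∀ τ ∈ Icc (0 : ℝ) A⁻¹, B + A * τ ≤ B + 1 := by
    intro τ hτ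
    have h1 : A * τ ≤ A * A⁻¹ := mul_le_mul_of_nonneg_left hτ.2 hApos.le
    rw [mul_inv_cancel₀ hApos.ne'] at h1
    linarith
  have key : ∀ τ ∈ Icc (0 : ℝ) A⁻¹, ∀ y ∈ Icc (0 : ℝ) 1,
      s.V (τ + t1) y - y * (B + A * τ) ≤ 0 := by
    apply maxp (C := L) (fun τ y => s.V (τ + t1) y - y * (B + A * τ))
    · have h1 : Continuous fun z : ℝ × ℝ => z.2 * (B + A * z.1) := by fun_prop
      have h2 : Continuous fun z : ℝ × ℝ => s.V (z.1 + t1) z.2 :=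
        s.cV.comp (by fun_prop : Continuous fun z : ℝ × ℝ => (z.1 + t1, z.2))
      exact (h2.sub h1).continuousOn
    · intro y hy
      rw [s.VP, zero_add, mul_zero, add_zero]
      linarith [mul_le_mul_of_nonneg_left (h y hy) hy.1]
    · intro τ _; simp [s.V_zero]
    · intro τ hτ
      rw [s.bd]
      have : 0 ≤ A * τ := mul_nonneg hApos.le hτ.1
      linarith
    · intro τ hτ y hy hpos
      have hy' : y ∈ Icc (-1 : ℝ) 1 := ⟨by linarith [hy.1], hy.2.le⟩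
      have hdt : HasDerivAt (fun σ : ℝ => y * (B + A * σ)) (y * A) τ := by
        have := (((hasDerivAt_id τ).const_mul A).const_add B).const_mul y
        simpa using this
      have hdx : ∀ z, HasDerivAt (fun w : ℝ => w * (B + A * τ)) (B + A * τ) z := by
        intro z
        have := (hasDerivAt_id z).mul_const (B + A * τ)
        simpa using this
      have hτ1 : 0 < τ + t1 := by linarith [hτ.1]
      have hd := (s.tV (τ + t1) hτ1 y hy').comp_add_const τ t1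
      refine ⟨_, fun z => s.V1 (τ + t1) z - (B + A * τ), s.V2 (τ + t1) y, hd.sub hdt,
        Eventually.of_forall fun z => (s.dV (τ + t1) z).sub (hdx z),
        (s.dV1 (τ + t1) y).sub_const _, fun _ => ?_⟩
      have e1 := s.VP (τ + t1) y
      set m : ℝ := B + A * τ with hmdef
      have hmB : m ≤ B + 1 := hm τ ⟨hτ.1.le, hτ.2⟩
      have hm0 : 0 ≤ m := by
        have : 0 ≤ A * τ := mul_nonneg hApos.le hτ.1.le
        rw [hmdef]; linarith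
      have hPP : m < s.P (τ + t1) y := by
        by_contra hcon
        push Not at hcon
        have := mul_le_mul_of_nonneg_left hcon hy.1.le
        linarith
      have h1 := hL (s.P (τ + t1) y) m
      rw [abs_of_pos (sub_pos.2 hPP)] at h1
      have h2 := (abs_le.1 h1).2
      rw [g_eq (k := k) (u := m) (by linarith) (by rw [abs_of_nonneg hm0]; linarith)] at h2
      have h3 : m ^ 9 ≤ A := hA9 m hm0 hmB
      have h4 : g k (s.P (τ + t1) y) - A ≤ L * (s.P (τ + t1) y - m) := by linarith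
      have h5 := mul_le_mul_of_nonneg_left h4 hy.1.le
      rw [e1]
      have h6 : y * (L * (s.P (τ + t1) y - m)) = L * (y * s.P (τ + t1) y - y * m) := by ring
      rw [h6] at h5
      linarith
  have h2 : ∀ y ∈ Icc (0 : ℝ) 1, y * s.P t y ≤ y * (B + 1) := by
    intro y hy
    have hτ : t - t1 ∈ Icc (0 : ℝ) A⁻¹ := ⟨by linarith [ht.1], by linarith [ht.2]⟩
    have := key (t - t1) hτ y hy
    rw [s.VP, sub_add_cancel] at this
    linarith [mul_le_mul_of_nonneg_left (hm _ hτ) hy.1]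
  exact le_of_mul_x (s.contP t) continuous_const h2 x hx

/-- short time bound started at time `t1` -/
theorem Sol.short' {k : ℝ} (s : Sol k) (hk : 66 ≤ k) {B t1 : ℝ} (hB : 0 ≤ B) (hBk : B + 1 ≤ k)
    (ht1 : 0 ≤ t1) (h : ∀ x ∈ Icc (0 : ℝ) 1, s.P t1 x ≤ B) {t x : ℝ}
    (ht : t ∈ Icc t1 (t1 + ((B + 1) ^ 9)⁻¹)) (hx : x ∈ Icc (0 : ℝ) 1) : s.P t x ≤ B + 1 :=
  s.shortA hk hB hBk (pow_pos (by linarith) 9) (fun _ h0 h1 => pow_le_pow_left₀ h0 h1 9)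
    ht1 h ht hx

/-- blow-up at the centre -/
theorem Pu_center (B : ℝ) : ∃ t ∈ Ioo 0 Ts, B < Pu t 0 := by
  by_contra hcon
  push Not at hcon
  set C : ℝ := max B 33 with hC
  have hC0 : 0 ≤ C := le_trans (by norm_num) (le_max_right B 33)
  have h1 : ∀ n, ∀ t ∈ Ico 0 Ts, ∀ x ∈ Icc (0 : ℝ) 1, (sol n).P t x ≤ C := by
    intro n t ht x hx
    rcases ht.1.lt_or_eq with h0 | h0
    · calc (sol n).P t x ≤ Pu t x := sol_le_Pu n ht hx
        _ ≤ Pu t 0 := Pu_anti ht le_rfl hx.1 hx.2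
        _ ≤ B := hcon t ⟨h0, ht.2⟩
        _ ≤ C := le_max_left _ _
    · have hx' : x ∈ Icc (-1 : ℝ) 1 := ⟨by linarith [hx.1], hx.2⟩
      rw [← h0, (sol n).init x hx']
      exact (u0_le hx').trans (le_max_right _ _)
  have h2 : ∀ n, ∀ x ∈ Icc (0 : ℝ) 1, (sol n).P Ts x ≤ C := by
    intro n x hx
    have hc : Continuous fun t => (sol n).P t x :=
      (sol n).cP.comp (by fun_prop : Continuous fun t : ℝ => (t, x))
    have ht : Tendsto (fun t => (sol n).P t x) (𝓝[<] Ts) (𝓝 ((sol n).P Ts x)) :=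
      (hc.tendsto Ts).mono_left nhdsWithin_le_nhds
    refine le_of_tendsto ht ?_
    filter_upwards [Ioo_mem_nhdsLT Ts_pos] with t ht
    exact h1 n t ⟨ht.1.le, ht.2⟩ x hx
  have hδ : 0 < ((C + 1) ^ 9)⁻¹ := by positivity
  refine not_Bdd (T := Ts + ((C + 1) ^ 9)⁻¹) (by linarith) ⟨C + 1, ?_⟩
  intro n t ht x hx
  obtain ⟨N, hN⟩ := exists_nat_ge (C + 1)
  have hle : (sol n).P t x ≤ (sol (max n N)).P t x := sol_mono (le_max_left _ _) ht.1 hx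
  refine hle.trans ?_
  rcases lt_or_ge t Ts with h | h
  · exact (h1 _ t ⟨ht.1, h⟩ x hx).trans (by linarith)
  · have hN' : C + 1 ≤ 66 + ((max n N : ℕ) : ℝ) := by
      have : (N : ℝ) ≤ ((max n N : ℕ) : ℝ) := by exact_mod_cast le_max_right n N
      linarith
    exact (sol (max n N)).short' (h66 _) hC0 hN' Ts_pos.le (h2 _) ⟨h, ht.2⟩ hx

/-- complete blow-up -/
theorem blow {t x : ℝ} (ht : Ts < t) (hx : x ∈ Ico (0 : ℝ) 1) :
    Tendsto (fun n : ℕ => (sol n).P t x) atTop atTop := by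
  have ht0 : 0 < t := Ts_pos.trans ht
  have hx1 : x ∈ Icc (0 : ℝ) 1 := ⟨hx.1, hx.2.le⟩
  have hmono : Monotone fun n : ℕ => (sol n).P t x := fun m n h => sol_mono h ht0.le hx1
  rcases tendsto_atTop_of_monotone hmono with h | ⟨l, hl⟩
  · exact h
  · exfalso
    have hbd : ∀ n, (sol n).P t x ≤ l := fun n => hmono.ge_of_tendsto hl n
    have hmain : ∃ x0 ∈ Ioo (0 : ℝ) 1, ∀ n, (sol n).P t x0 ≤ l := by
      rcases hx.1.lt_or_eq with h0 | h0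
      · exact ⟨x, ⟨h0, hx.2⟩, hbd⟩
      · refine ⟨1 / 2, ⟨by norm_num, by norm_num⟩, fun n => le_trans ?_ (hbd n)⟩
        rw [← h0]
        exact (sol n).anti (h66 n) ht0.le le_rfl (by norm_num) (by norm_num)
    obtain ⟨x0, hx0, hb⟩ := hmain
    have hV : ∀ n, (sol n).V t x0 ≤ x0 * l := by
      intro n
      rw [(sol n).VP]
      exact mul_le_mul_of_nonneg_left (hb n) hx0.1.le
    have := complete sol hx0 ht0 hV (T := (Ts + t) / 2) (by linarith [Ts_pos]) (by linarith)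
    exact not_Bdd (T := (Ts + t) / 2) (by linarith) this

/-- the blow-up profile -/
noncomputable def rho (x : ℝ) : ℝ≥0∞ := ⨆ t ∈ Ioo 0 Ts, ENNReal.ofReal (Pu t x)

theorem le_rho {t x : ℝ} (ht : t ∈ Ioo 0 Ts) : ENNReal.ofReal (Pu t x) ≤ rho x :=
  le_iSup₂ (f := fun (t : ℝ) (_ : t ∈ Ioo 0 Ts) => ENNReal.ofReal (Pu t x)) t ht

theorem rho_zero : rho 0 = ∞ := by
  refine ENNReal.eq_top_of_forall_nnreal_le fun r => ?_
  obtain ⟨t, ht, hB⟩ := Pu_center r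
  refine le_trans ?_ (le_rho ht)
  rw [← ENNReal.ofReal_coe_nnreal]
  exact ENNReal.ofReal_le_ofReal hB.le

theorem rho_one : rho 1 = 0 := by
  refine le_antisymm (iSup₂_le fun t ht => ?_) bot_le
  rw [Pu_one ⟨ht.1.le, ht.2⟩, ENNReal.ofReal_zero]

theorem Pu_le_of_profile {t x : ℝ} (ht : t ∈ Ico 0 Ts) (hx : x ∈ Ioc (0 : ℝ) 1) :
    Pu t x ≤ max 1 (4 / (7 * eps) / x ^ 2) := by
  rcases le_total (Pu t x) 1 with h | h
  · exact h.trans (le_max_left _ _)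
  · refine le_trans ?_ (le_max_right _ _)
    refine le_trans ?_ (Pu_profile ht hx)
    calc Pu t x = Pu t x ^ 1 := (pow_one _).symm
      _ ≤ Pu t x ^ 7 := pow_le_pow_right₀ h (by norm_num)

theorem rho_lt {x : ℝ} (hx : x ∈ Ioc (0 : ℝ) 1) : rho x < ∞ := by
  refine lt_of_le_of_lt (iSup₂_le fun _ ht => ?_) (ENNReal.ofReal_lt_top
    (r := max 1 (4 / (7 * eps) / x ^ 2)))
  exact ENNReal.ofReal_le_ofReal (Pu_le_of_profile ⟨ht.1.le, ht.2⟩ hx)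

theorem rho_anti {x y : ℝ} (hx : 0 ≤ x) (hxy : x ≤ y) (hy : y ≤ 1) : rho y ≤ rho x :=
  iSup₂_mono fun t ht => ENNReal.ofReal_le_ofReal (Pu_anti ⟨ht.1.le, ht.2⟩ hx hxy hy)

theorem rho_tendsto {x : ℝ} (hx : x ∈ Ioc (0 : ℝ) 1) :
    Tendsto (fun t => Pu t x) (𝓝[<] Ts) (𝓝 (rho x).toReal) := by
  have hx1 : x ∈ Icc (0 : ℝ) 1 := ⟨hx.1.le, hx.2⟩
  have hfin := (rho_lt hx).ne
  have hub : ∀ t ∈ Ioo 0 Ts, Pu t x ≤ (rho x).toReal := by
    intro t ht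
    have := ENNReal.toReal_mono hfin (le_rho (x := x) ht)
    rwa [ENNReal.toReal_ofReal (Pu_nonneg ⟨ht.1.le, ht.2⟩ hx1)] at this
  rw [tendsto_order]
  constructor
  · intro a ha
    have hex : ∃ t ∈ Ioo 0 Ts, a < Pu t x := by
      by_contra hcon
      push Not at hcon
      have hTs2 : Ts / 2 ∈ Ioo 0 Ts := ⟨by linarith [Ts_pos], by linarith [Ts_pos]⟩
      have ha0 : 0 ≤ a := (Pu_nonneg ⟨hTs2.1.le, hTs2.2⟩ hx1).trans (hcon _ hTs2)
      have : rho x ≤ ENNReal.ofReal a :=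
        iSup₂_le fun t ht => ENNReal.ofReal_le_ofReal (hcon t ht)
      have h2 := ENNReal.toReal_mono ENNReal.ofReal_ne_top this
      rw [ENNReal.toReal_ofReal ha0] at h2
      linarith
    obtain ⟨t0, ht0, hat⟩ := hex
    filter_upwards [Ioo_mem_nhdsLT ht0.2] with t ht
    exact lt_of_lt_of_le hat (Pu_mono ht0.1.le ht.1.le ht.2 hx1)
  · intro a ha
    filter_upwards [Ioo_mem_nhdsLT Ts_pos] with t ht
    exact lt_of_le_of_lt (hub t ht) ha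

theorem rho_profile {x : ℝ} (hx : x ∈ Ioc (0 : ℝ) 1) :
    (rho x).toReal ^ 7 ≤ 4 / (7 * eps) / x ^ 2 := by
  refine le_of_tendsto ((rho_tendsto hx).pow 7) ?_
  filter_upwards [Ioo_mem_nhdsLT Ts_pos] with t ht
  exact Pu_profile ⟨ht.1.le, ht.2⟩ hx

/-- the truncated profile `min rho k` (module X5) -/
noncomputable def qk (k : ℝ) (x : ℝ) : ℝ := (min (rho x) (ENNReal.ofReal k)).toReal

/-- uniform gradient bound away from the centre -/
theorem grad_bound {δ : ℝ} (hδ : δ ∈ Ioc (0 : ℝ) 1) : ∃ L, 0 ≤ L ∧ ∀ t ∈ Ioo 0 Ts,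
    ∀ x ∈ Icc δ 1, ∀ y ∈ Icc δ 1, |Pu t x - Pu t y| ≤ L * |x - y| := by
  have hδ2 : δ / 2 ∈ Ioc (0 : ℝ) 1 := ⟨by linarith [hδ.1], by linarith [hδ.2, hδ.1]⟩
  set C : ℝ := max 1 (4 / (7 * eps) / (δ / 2) ^ 2) with hC
  have hC1 : 1 ≤ C := le_max_left _ _
  set L : ℝ := (2 * C * δ + C ^ 9) / δ ^ 2 with hLdef
  have hL0 : 0 ≤ L := by have := hδ.1; positivity
  refine ⟨L, hL0, ?_⟩
  intro t ht
  obtain ⟨n, hn1, hn2⟩ := exists_n ht.2
  set s := sol n with hs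
  have htt : t ∈ Icc 0 t := ⟨ht.1.le, le_rfl⟩
  have hPu : ∀ x ∈ Icc (0 : ℝ) 1, Pu t x = s.P t x := fun x hx => hn2 t htt x hx
  have hPC : ∀ x ∈ Icc (δ / 2) 1, s.P t x ≤ C := by
    intro x hx
    have hx0 : 0 < x := by linarith [hx.1, hδ.1]
    rw [← hPu x ⟨hx0.le, hx.2⟩]
    calc Pu t x ≤ Pu t (δ / 2) := Pu_anti ⟨ht.1.le, ht.2⟩ hδ2.1.le hx.1 hx.2
      _ ≤ C := Pu_le_of_profile ⟨ht.1.le, ht.2⟩ hδ2
  have hP0 : ∀ x ∈ Icc (0 : ℝ) 1, 0 ≤ s.P t x := fun x hx => s.nonneg (h66 n) ht.1.le hx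
  -- time derivative is nonnegative
  have hPt : ∀ x ∈ Icc (0 : ℝ) 1, 0 ≤ s.Pt t x := by
    intro x hx
    have hd := (s.tP t ht.1 x).hasDerivWithinAt (s := Ioi t)
    rw [hasDerivWithinAt_iff_tendsto_slope' (by simp)] at hd
    refine ge_of_tendsto hd ?_
    filter_upwards [self_mem_nhdsWithin] with r hr
    rw [slope_def_field]
    exact div_nonneg (by linarith [s.mono_t (h66 n) ht.1.le (le_of_lt hr) hx])
      (by linarith [mem_Ioi.1 hr])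
  -- a good starting point
  obtain ⟨a, ha, hda⟩ := exists_hasDerivAt_eq_slope (s.P t) (s.P1 t)
    (by linarith [hδ.1] : δ / 2 < δ) (s.contP t).continuousOn (fun x _ => s.dP t x)
  have hP1a : -(2 * C / δ) ≤ s.P1 t a := by
    rw [hda]
    have h1 := hPC (δ / 2) ⟨le_rfl, hδ2.2⟩
    have h2 := hP0 δ ⟨hδ.1.le, hδ.2⟩
    have h3 : δ - δ / 2 = δ / 2 := by ring
    have h4 : (s.P t δ - s.P t (δ / 2)) / (δ / 2) = 2 * (s.P t δ - s.P t (δ / 2)) / δ := by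
      have := hδ.1.ne'
      field_simp
    rw [h3, h4, ← neg_div, div_le_div_iff_of_pos_right hδ.1]
    linarith
  -- the function `x ^ 2 * P1 + C ^ 9 x` increases
  have hderiv : ∀ x, HasDerivAt (fun x => x ^ 2 * s.P1 t x + C ^ 9 * x) (x * s.V2 t x + C ^ 9) x := by
    intro x
    have h1 := ((hasDerivAt_id x).pow 2).mul (s.dP1 t x)
    have h2 := (hasDerivAt_id x).const_mul (C ^ 9)
    refine (h1.add h2).congr_deriv ?_
    rw [s.V2P t x]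
    simp
    ring
  have hmon : MonotoneOn (fun x => x ^ 2 * s.P1 t x + C ^ 9 * x) (Icc (δ / 2) 1) := by
    apply monotoneOn_of_deriv_nonneg (convex_Icc _ _)
    · exact fun x _ => (hderiv x).continuousAt.continuousWithinAt
    · exact fun x _ => (hderiv x).differentiableAt.differentiableWithinAt
    · intro x hx
      rw [interior_Icc] at hx
      rw [(hderiv x).deriv]
      have hx0 : 0 < x := by linarith [hx.1, hδ.1]
      have hx01 : x ∈ Icc (0 : ℝ) 1 := ⟨hx0.le, hx.2.le⟩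
      have h1 := s.PtV t ht.1.le x ⟨by linarith, hx.2.le⟩
      have h2 : g (66 + (n : ℝ)) (s.P t x) ≤ C ^ 9 :=
        (g_le (hP0 x hx01)).trans (pow_le_pow_left₀ (hP0 x hx01) (hPC x ⟨hx.1.le, hx.2.le⟩) 9)
      have h3 := hPt x hx01
      have h4 : s.V2 t x = x * s.Pt t x - x * g (66 + (n : ℝ)) (s.P t x) := by linarith
      rw [h4]
      have hg0 : 0 ≤ g (66 + (n : ℝ)) (s.P t x) := g_nonneg (hP0 x hx01)
      have h5 : 0 ≤ x * (x * s.Pt t x) := by positivity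
      have h6 : x * x ≤ 1 := by nlinarith [hx.2]
      have h7 : x * x * g (66 + (n : ℝ)) (s.P t x) ≤ 1 * g (66 + (n : ℝ)) (s.P t x) :=
        mul_le_mul_of_nonneg_right h6 hg0
      have h8 : x * (x * s.Pt t x - x * g (66 + (n : ℝ)) (s.P t x)) =
          x * (x * s.Pt t x) - x * x * g (66 + (n : ℝ)) (s.P t x) := by ring
      rw [h8]
      linarith
  have hP1 : ∀ x ∈ Icc δ 1, -L ≤ s.P1 t x := by
    intro x hx
    have hx0 : 0 < x := lt_of_lt_of_le hδ.1 hx.1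
    have hm := hmon (a := a) (b := x) ⟨ha.1.le, ha.2.le.trans hδ.2⟩
      ⟨by linarith [hx.1, hδ.1], hx.2⟩ (ha.2.le.trans hx.1)
    simp only at hm
    have ha0 : 0 < a := by linarith [ha.1, hδ.1]
    have ha2 : a ^ 2 ≤ δ ^ 2 := pow_le_pow_left₀ ha0.le ha.2.le 2
    have h1 : a ^ 2 * s.P1 t a ≥ -(2 * C * δ) := by
      have h2 : a ^ 2 * s.P1 t a ≥ a ^ 2 * (-(2 * C / δ)) :=
        mul_le_mul_of_nonneg_left hP1a (by positivity)
      have h3 : a ^ 2 * (2 * C / δ) ≤ δ ^ 2 * (2 * C / δ) :=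
        mul_le_mul_of_nonneg_right ha2 (by have := hδ.1; positivity)
      have h4 : δ ^ 2 * (2 * C / δ) = 2 * C * δ := by
        have := hδ.1.ne'
        field_simp
      linarith
    have h2 : C ^ 9 * a ≥ 0 := by positivity
    have h3 : C ^ 9 * x ≤ C ^ 9 := mul_le_of_le_one_right (by positivity) hx.2
    have h4 : -(2 * C * δ + C ^ 9) ≤ x ^ 2 * s.P1 t x := by linarith
    by_contra hcon
    push Not at hcon
    have h5 : x ^ 2 * s.P1 t x < x ^ 2 * (-L) := mul_lt_mul_of_pos_left hcon (by positivity)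
    have h6 : δ ^ 2 * L = 2 * C * δ + C ^ 9 := by
      rw [hLdef]
      have := hδ.1.ne'
      field_simp
    have h7 : δ ^ 2 * L ≤ x ^ 2 * L :=
      mul_le_mul_of_nonneg_right (pow_le_pow_left₀ hδ.1.le hx.1 2) hL0
    linarith
  -- conclusion by the mean value theorem
  have hmain : ∀ x ∈ Icc δ 1, ∀ y ∈ Icc δ 1, x ≤ y → |Pu t x - Pu t y| ≤ L * |x - y| := by
    intro x hx y hy hxy
    have hx01 : x ∈ Icc (0 : ℝ) 1 := ⟨hδ.1.le.trans hx.1, hx.2⟩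
    have hy01 : y ∈ Icc (0 : ℝ) 1 := ⟨hδ.1.le.trans hy.1, hy.2⟩
    have hanti := Pu_anti ⟨ht.1.le, ht.2⟩ hx01.1 hxy hy.2
    rw [abs_of_nonneg (sub_nonneg.2 hanti), abs_of_nonpos (sub_nonpos.2 hxy), hPu x hx01,
      hPu y hy01]
    rcases hxy.lt_or_eq with hlt | heq
    · obtain ⟨c, hc, hdc⟩ := exists_hasDerivAt_eq_slope (s.P t) (s.P1 t) hlt
        (s.contP t).continuousOn (fun x _ => s.dP t x)
      have h1 := hP1 c ⟨hx.1.trans hc.1.le, hc.2.le.trans hy.2⟩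
      rw [hdc, le_div_iff₀ (sub_pos.2 hlt)] at h1
      linarith
    · rw [heq]; simp
  intro x hx y hy
  rcases le_total x y with h | h
  · exact hmain x hx y hy h
  · rw [abs_sub_comm, abs_sub_comm x y]
    exact hmain y hy x hx h

/-- near the centre the profile is above `k` -/
theorem rho_near (k : ℝ) : ∃ δ ∈ Ioc (0 : ℝ) 1, ∀ x ∈ Icc 0 δ, ENNReal.ofReal k ≤ rho x := by
  obtain ⟨t, ht, hk⟩ := Pu_center k
  obtain ⟨n, -, hn2⟩ := exists_n ht.2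
  have htt : t ∈ Icc 0 t := ⟨ht.1.le, le_rfl⟩
  rw [hn2 t htt 0 ⟨le_rfl, zero_le_one⟩] at hk
  have hev : ∀ᶠ x in 𝓝 (0 : ℝ), k < (sol n).P t x :=
    ((sol n).contP t).continuousAt.eventually (lt_mem_nhds hk)
  obtain ⟨r, hr, hball⟩ := Metric.eventually_nhds_iff.1 hev
  refine ⟨min (r / 2) 1, ⟨by positivity, min_le_right _ _⟩, fun x hx => ?_⟩
  refine le_trans (ENNReal.ofReal_le_ofReal ?_) (le_rho ht)
  rw [hn2 t htt x ⟨hx.1, hx.2.trans (min_le_right _ _)⟩]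
  refine (hball ?_).le
  rw [Real.dist_eq, sub_zero, abs_of_nonneg hx.1]
  calc x ≤ r / 2 := hx.2.trans (min_le_left _ _)
    _ < r := by linarith

theorem qk_eq {k x : ℝ} (hk : 0 ≤ k) (hx : x ∈ Ioc (0 : ℝ) 1) : qk k x = min (rho x).toReal k := by
  rw [qk, ENNReal.toReal_min (rho_lt hx).ne ENNReal.ofReal_ne_top, ENNReal.toReal_ofReal hk]

/-- the truncated profile is Lipschitz -/
theorem qk_lip {k : ℝ} (hk : 1 ≤ k) : ∃ L, 0 ≤ L ∧ ∀ x ∈ Icc (0 : ℝ) 1, ∀ y ∈ Icc (0 : ℝ) 1,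
    |qk k x - qk k y| ≤ L * |x - y| := by
  obtain ⟨δ, hδ, hnear⟩ := rho_near k
  obtain ⟨L, hL0, hL⟩ := grad_bound hδ
  have hk0 : 0 ≤ k := by linarith
  have hin : ∀ x ∈ Icc 0 δ, qk k x = k := by
    intro x hx
    rw [qk, min_eq_right (hnear x hx), ENNReal.toReal_ofReal hk0]
  have hout : ∀ x ∈ Icc δ 1, ∀ y ∈ Icc δ 1, |qk k x - qk k y| ≤ L * |x - y| := by
    intro x hx y hy
    have hx' : x ∈ Ioc (0 : ℝ) 1 := ⟨lt_of_lt_of_le hδ.1 hx.1, hx.2⟩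
    have hy' : y ∈ Ioc (0 : ℝ) 1 := ⟨lt_of_lt_of_le hδ.1 hy.1, hy.2⟩
    rw [qk_eq hk0 hx', qk_eq hk0 hy']
    refine (abs_min_sub_min_le_max _ _ _ _).trans ?_
    rw [sub_self, abs_zero, max_eq_left (abs_nonneg _)]
    refine le_of_tendsto ((rho_tendsto hx').sub (rho_tendsto hy')).abs ?_
    filter_upwards [Ioo_mem_nhdsLT Ts_pos] with t ht
    exact hL t ht x hx y hy
  refine ⟨L, hL0, ?_⟩
  have hmain : ∀ x ∈ Icc (0 : ℝ) 1, ∀ y ∈ Icc (0 : ℝ) 1, x ≤ y →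
      |qk k x - qk k y| ≤ L * |x - y| := by
    intro x hx y hy hxy
    rcases le_total y δ with h | h
    · rw [hin x ⟨hx.1, hxy.trans h⟩, hin y ⟨hy.1, h⟩, sub_self, abs_zero]
      positivity
    · rcases le_total x δ with h' | h'
      · have h1 := hout δ ⟨le_rfl, hδ.2⟩ y ⟨h, hy.2⟩
        rw [hin δ ⟨hδ.1.le, le_rfl⟩] at h1
        rw [hin x ⟨hx.1, h'⟩]
        refine h1.trans (mul_le_mul_of_nonneg_left ?_ hL0)
        rw [abs_of_nonpos (by linarith), abs_of_nonpos (by linarith)]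
        linarith
      · exact hout x ⟨h', hx.2⟩ y ⟨h, hy.2⟩
  intro x hx y hy
  rcases le_total x y with h | h
  · exact hmain x hx y hy h
  · rw [abs_sub_comm, abs_sub_comm x y]
    exact hmain y hy x hx h

end LE
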