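import Pool.Agent.H6.LE.Clamp
import Pool.Agent.H6.LE.Tstar
import Pool.Agent.H6.LE.Comp3D
import Pool.Agent.H6.LE.Statement

/-! The official truncated solutions in the unit ball of `ℝ³` (module X6). -/

namespace LE
open Set Filter Topology MeasureTheory Laplacian
open scoped ENNReal

/-- the final value `u(T)` -/
noncomputable def vT (x : E3) : ℝ≥0∞ := rho ‖x‖

theorem h63_closure : closure (Metric.ball (0 : E3) 1) = Metric.closedBall 0 1 :=
  closure_ball 0 one_ne_zero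

theorem h63_frontier {x : E3} (hx : x ∈ frontier (Metric.ball (0 : E3) 1)) : ‖x‖ = 1 := by
  rw [frontier_ball 0 one_ne_zero] at hx
  simpa using hx

/-- the nonlinearity `min (u ^ 9) (c ^ 9)` is locally Lipschitz, one sided version -/
theorem h63_pow9 {a b R : ℝ} (hba : b ≤ a) (ha : |a| ≤ R) (hb : |b| ≤ R) (c : ℝ) :
    min (a ^ 9) c - min (b ^ 9) c ≤ 9 * R ^ 8 * (a - b) := by
  have h9 : b ^ 9 ≤ a ^ 9 := (Odd.strictMono_pow (by decide : Odd 9)).monotone hba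
  have h1 : min (a ^ 9) c - min (b ^ 9) c ≤ a ^ 9 - b ^ 9 := by
    rcases le_total (b ^ 9) c with h | h
    · rw [min_eq_left h]
      linarith [min_le_left (a ^ 9) c]
    · rw [min_eq_right h, min_eq_right (h.trans h9)]
      linarith
  have hR : 0 ≤ R := (abs_nonneg a).trans ha
  have h2 : a ^ 9 - b ^ 9 = (a - b) * (a ^ 8 + a ^ 7 * b + a ^ 6 * b ^ 2 + a ^ 5 * b ^ 3 +
      a ^ 4 * b ^ 4 + a ^ 3 * b ^ 5 + a ^ 2 * b ^ 6 + a * b ^ 7 + b ^ 8) := by ring
  have hm : ∀ i j : ℕ, i + j = 8 → a ^ i * b ^ j ≤ R ^ 8 := by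
    intro i j hij
    calc a ^ i * b ^ j ≤ |a ^ i * b ^ j| := le_abs_self _
      _ = |a| ^ i * |b| ^ j := by rw [abs_mul, abs_pow, abs_pow]
      _ ≤ R ^ i * R ^ j := mul_le_mul (pow_le_pow_left₀ (abs_nonneg _) ha _)
          (pow_le_pow_left₀ (abs_nonneg _) hb _) (pow_nonneg (abs_nonneg _) _) (pow_nonneg hR _)
      _ = R ^ 8 := by rw [← pow_add, hij]
  have h3 : a ^ 8 + a ^ 7 * b + a ^ 6 * b ^ 2 + a ^ 5 * b ^ 3 +
      a ^ 4 * b ^ 4 + a ^ 3 * b ^ 5 + a ^ 2 * b ^ 6 + a * b ^ 7 + b ^ 8 ≤ 9 * R ^ 8 := by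
    have e0 := hm 8 0 rfl
    have e1 := hm 7 1 rfl
    have e2 := hm 6 2 rfl
    have e3 := hm 5 3 rfl
    have e4 := hm 4 4 rfl
    have e5 := hm 3 5 rfl
    have e6 := hm 2 6 rfl
    have e7 := hm 1 7 rfl
    have e8 := hm 0 8 rfl
    rw [pow_zero, mul_one] at e0
    rw [pow_zero, one_mul] at e8
    rw [pow_one] at e1 e7
    linarith
  calc _ ≤ a ^ 9 - b ^ 9 := h1
    _ = _ := h2
    _ ≤ (a - b) * (9 * R ^ 8) := mul_le_mul_of_nonneg_left h3 (sub_nonneg.2 hba)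
    _ = _ := by ring

/-- a continuous function on `[0, T] × closedBall` is bounded -/
theorem h63_bdd {T : ℝ} {w : ℝ → E3 → ℝ}
    (h : ContinuousOn (fun z : ℝ × E3 => w z.1 z.2) (Icc 0 T ×ˢ Metric.closedBall 0 1)) :
    ∃ R, ∀ t ∈ Icc 0 T, ∀ x ∈ Metric.closedBall (0 : E3) 1, |w t x| ≤ R := by
  have hc : IsCompact (Icc (0 : ℝ) T ×ˢ Metric.closedBall (0 : E3) 1) :=
    isCompact_Icc.prod (isCompact_closedBall 0 1)
  obtain ⟨R, hR⟩ := hc.exists_bound_of_continuousOn h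
  exact ⟨R, fun t ht x hx => hR (t, x) ⟨ht, hx⟩⟩

theorem h63_contOn {w : ℝ → E3 → ℝ} {k : ℕ}
    (h : St.IsTruncated (Metric.ball (0 : E3) 1) 10 vT k w) (T : ℝ) :
    ContinuousOn (fun z : ℝ × E3 => w z.1 z.2) (Icc 0 T ×ˢ Metric.closedBall 0 1) := by
  refine h.cont.mono ?_
  rw [h63_closure]
  exact prod_mono (fun t ht => ht.1) Subset.rfl

/-- comparison of a subsolution with a truncated solution -/
theorem h63_comp {w : ℝ → E3 → ℝ} {k : ℕ}
    (h : St.IsTruncated (Metric.ball (0 : E3) 1) 10 vT k w) {T : ℝ} {a : ℝ → E3 → ℝ}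
    (ha : ContinuousOn (fun z : ℝ × E3 => a z.1 z.2) (Icc 0 T ×ˢ Metric.closedBall 0 1))
    (h0 : ∀ x ∈ Metric.closedBall (0 : E3) 1, a 0 x ≤ w 0 x)
    (hS : ∀ t ∈ Icc 0 T, ∀ x ∈ Metric.sphere (0 : E3) 1, a t x ≤ 0)
    (hd : ∀ t ∈ Ioc 0 T, ∀ x ∈ Metric.ball (0 : E3) 1, x ≠ 0 →
      ContDiffAt ℝ 2 (a t) x ∧ ∃ a' : ℝ, HasDerivAt (fun s => a s x) a' t ∧
        a' - Δ (a t) x ≤ min (a t x ^ 9) ((k : ℝ) ^ 9)) :
    ∀ t ∈ Icc 0 T, ∀ x ∈ Metric.closedBall (0 : E3) 1, a t x ≤ w t x := by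
  have hw := h63_contOn h T
  obtain ⟨R1, hR1⟩ := h63_bdd ha
  obtain ⟨R2, hR2⟩ := h63_bdd hw
  refine comp3 (K := 9 * (max R1 R2) ^ 8) a w ha hw h0 ?_ ?_
  · intro t ht x hx
    rw [h.boundary t ht.1 x (by rw [frontier_ball 0 one_ne_zero]; exact hx)]
    exact hS t ht x hx
  · intro t ht x hx hx0 hlt
    obtain ⟨c2, a', ha', hle⟩ := hd t ht x hx hx0
    obtain ⟨c2', hw'⟩ := h.pde t ht.1 x hx
    refine ⟨c2, c2', a', _, ha', hw', ?_⟩
    have hxc : x ∈ Metric.closedBall (0 : E3) 1 := Metric.ball_subset_closedBall hx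
    have ht' : t ∈ Icc 0 T := ⟨ht.1.le, ht.2⟩
    have := h63_pow9 hlt.le ((hR1 t ht' x hxc).trans (le_max_left R1 R2))
      ((hR2 t ht' x hxc).trans (le_max_right R1 R2)) ((k : ℝ) ^ 9)
    linarith

theorem h63_clamp {k u : ℝ} (hk : 0 ≤ k) (hu : 0 ≤ u) :
    gc k u = min (u ^ 9) (k ^ 9) := by
  unfold gc
  rw [max_eq_right ((neg_nonpos.2 hk).trans (le_min hu hk))]
  rcases le_total u k with h | h
  · rw [min_eq_left h, min_eq_left (pow_le_pow_left₀ hu h 9)]
  · rw [min_eq_right h, min_eq_right (pow_le_pow_left₀ hk h 9)]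

/-- space derivatives of `P` -/
theorem ClSol.h63_full {k : ℝ} {q : ℝ → ℝ} (s : ClSol k q) {t : ℝ} (ht : 0 < t) :
    ∃ P1 P2 : ℝ → ℝ, (∀ r, HasDerivAt (s.P t) (P1 r) r) ∧ (∀ r, HasDerivAt P1 (P2 r) r) ∧
      Continuous P2 ∧ 3 * P2 0 = s.Q t 0 ∧ ∀ r ≠ 0, P2 r + 2 * P1 r / r = s.Q t r := by
  have cQ : Continuous (s.Q t) := by
    rw [← continuousOn_univ]
    exact s.cQ.comp (by fun_prop : ContinuousOn (fun r : ℝ => (t, r)) univ)
      (fun r _ => ⟨ht, mem_univ _⟩)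
  have cP : Continuous (s.P t) := by
    rw [← continuousOn_univ]
    exact s.cP.comp (by fun_prop : ContinuousOn (fun r : ℝ => (t, r)) univ)
      (fun r _ => ⟨ht.le, mem_univ _⟩)
  set J : ℝ → ℝ := fun r => ∫ θ in (0 : ℝ)..1, θ ^ 2 * s.Q t (θ * r) with hJ
  have cJ : Continuous J := by
    refine intervalIntegral.continuous_parametric_intervalIntegral_of_continuous' ?_ 0 1
    exact (continuous_snd.pow 2).mul (cQ.comp (continuous_snd.mul continuous_fst))
  have hV0 : s.V t 0 = 0 := by rw [s.VP, zero_mul]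
  have hW : ∀ r, HasDerivAt (fun r => r * s.V1 t r - s.V t r) (r ^ 2 * s.Q t r) r := by
    intro r
    have h1 := ((hasDerivAt_id r).mul (s.dV1 t ht r)).sub (s.dV t ht r)
    refine h1.congr_deriv ?_
    rw [s.V2Q t ht]
    simp only [id]
    ring
  have hK : ∀ r, r * s.V1 t r - s.V t r = r ^ 3 * J r := by
    intro r
    have h1 := intervalIntegral.integral_eq_sub_of_hasDerivAt (a := 0) (b := r)
      (fun y _ => hW y) ((continuous_id.pow 2).mul cQ).continuousOn.intervalIntegrable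
    rw [hV0, zero_mul, sub_zero, sub_zero] at h1
    rcases eq_or_ne r 0 with h0 | h0
    · rw [h0, hV0]
      ring
    · have h2 := intervalIntegral.integral_comp_mul_left (a := 0) (b := 1)
        (fun y => y ^ 2 * s.Q t y) h0
      rw [mul_zero, mul_one, smul_eq_mul, h1] at h2
      have h3 : (∫ θ in (0 : ℝ)..1, (r * θ) ^ 2 * s.Q t (r * θ)) = r ^ 2 * J r := by
        rw [hJ]
        simp only
        rw [← intervalIntegral.integral_const_mul]
        refine intervalIntegral.integral_congr (fun θ _ => ?_)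
        beta_reduce
        rw [mul_comm r θ]
        ring
      rw [h3] at h2
      have h4 : r * (r ^ 2 * J r) = r * (r⁻¹ * (r * s.V1 t r - s.V t r)) := by rw [h2]
      rw [← mul_assoc r r⁻¹, mul_inv_cancel₀ h0, one_mul] at h4
      rw [← h4]
      ring
  have hPV : ∀ r, r ≠ 0 → s.P t r = s.V t r / r := by
    intro r hr0
    rw [s.VP, mul_div_cancel_left₀ _ hr0]
  have d1 : ∀ r, HasDerivAt (s.P t) (r * J r) r := by
    intro r
    have off : ∀ y, y ≠ 0 → HasDerivAt (s.P t) (y * J y) y := by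
      intro y hy
      have h5 := (s.dV t ht y).div (hasDerivAt_id y) hy
      have h6 : HasDerivAt (s.P t) ((s.V1 t y * id y - s.V t y * 1) / id y ^ 2) y := by
        refine h5.congr_of_eventuallyEq ?_
        filter_upwards [isOpen_ne.mem_nhds hy] with z hz
        exact hPV z hz
      refine h6.congr_deriv ?_
      have := hK y
      simp only [id]
      rw [div_eq_iff (pow_ne_zero 2 hy)]
      linarith
    rcases eq_or_ne r 0 with h0 | h0
    · rw [h0]
      exact hasDerivAt_of_hasDerivAt_of_ne off cP.continuousAt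
        (continuous_id.mul cJ).continuousAt
    · exact off r h0
  have d2 : ∀ r, HasDerivAt (fun r => r * J r) (s.Q t r - 2 * J r) r := by
    intro r
    have off : ∀ y, y ≠ 0 → HasDerivAt (fun r => r * J r) (s.Q t y - 2 * J y) y := by
      intro y hy
      have h5 := (hW y).div (hasDerivAt_pow 2 y) (pow_ne_zero 2 hy)
      have h6 : HasDerivAt (fun r => r * J r) ((y ^ 2 * s.Q t y * y ^ 2 -
          (y * s.V1 t y - s.V t y) * (((2 : ℕ) : ℝ) * y ^ (2 - 1))) / (y ^ 2) ^ 2) y := by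
        refine h5.congr_of_eventuallyEq ?_
        filter_upwards [isOpen_ne.mem_nhds hy] with z hz
        have hz' : z ≠ 0 := hz
        simp only [Pi.div_apply]
        rw [hK z]
        field_simp
      refine h6.congr_deriv ?_
      rw [hK y]
      field_simp
      ring
    rcases eq_or_ne r 0 with h0 | h0
    · rw [h0]
      exact hasDerivAt_of_hasDerivAt_of_ne off (continuous_id.mul cJ).continuousAt
        (cQ.sub (continuous_const.mul cJ)).continuousAt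
    · exact off r h0
  refine ⟨fun r => r * J r, fun r => s.Q t r - 2 * J r, d1, d2,
    cQ.sub (continuous_const.mul cJ), ?_, ?_⟩
  · have : J 0 = 1 / 3 * s.Q t 0 := by
      rw [hJ]
      simp only [mul_zero]
      rw [intervalIntegral.integral_mul_const, integral_pow]
      norm_num
    beta_reduce
    rw [this]
    ring
  · intro r hr
    beta_reduce
    field_simp
    ring

theorem gc_cont (k : ℝ) : Continuous (gc k) := by
  unfold gc
  fun_prop

/-- time derivative of `P`, origin included -/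
theorem ClSol.h63_time {k : ℝ} {q : ℝ → ℝ} (s : ClSol k q) {t : ℝ} (ht : 0 < t) {r : ℝ}
    (hr : r ∈ Icc (0 : ℝ) 1) :
    HasDerivAt (fun τ => s.P τ r) (s.Q t r + gc k (s.P t r)) t := by
  have off : ∀ τ > 0, ∀ y ∈ Ioc (0 : ℝ) 1,
      HasDerivAt (fun τ => s.P τ y) (s.Q τ y + gc k (s.P τ y)) τ := by
    intro τ hτ y hy
    have h3 := (s.tV τ hτ y ⟨hy.1.le, hy.2⟩).div_const y
    have h4 : HasDerivAt (fun τ => s.P τ y) ((s.V2 τ y + y * gc k (s.P τ y)) / y) τ := by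
      refine h3.congr_of_eventuallyEq (Eventually.of_forall (fun τ => ?_))
      simp only
      rw [s.VP, mul_div_cancel_left₀ _ hy.1.ne']
    refine h4.congr_deriv ?_
    rw [s.V2Q τ hτ]
    have := hy.1.ne'
    field_simp
  rcases hr.1.eq_or_lt with h0 | h0
  · rw [← h0]
    set a := t / 2 with ha
    have ha0 : 0 < a := by positivity
    set F : ℝ → ℝ → ℝ := fun τ y => s.Q (max τ a) y + gc k (s.P (max τ a) y) with hF
    have cQ' : Continuous fun z : ℝ × ℝ => s.Q (max z.1 a) z.2 := by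
      rw [← continuousOn_univ]
      exact s.cQ.comp (by fun_prop : ContinuousOn (fun z : ℝ × ℝ => (max z.1 a, z.2)) univ)
        (fun z _ => ⟨lt_of_lt_of_le ha0 (le_max_right _ _), mem_univ _⟩)
    have cP' : Continuous fun z : ℝ × ℝ => s.P (max z.1 a) z.2 := by
      rw [← continuousOn_univ]
      exact s.cP.comp (by fun_prop : ContinuousOn (fun z : ℝ × ℝ => (max z.1 a, z.2)) univ)
        (fun z _ => ⟨(lt_of_lt_of_le ha0 (le_max_right _ _)).le, mem_univ _⟩)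
    have cF : Continuous fun z : ℝ × ℝ => F z.1 z.2 := cQ'.add ((gc_cont k).comp cP')
    have cF0 : ∀ y, Continuous fun τ => F τ y := fun y =>
      cF.comp (by fun_prop : Continuous fun τ : ℝ => (τ, y))
    have cPt : ∀ τ, 0 ≤ τ → Continuous (s.P τ) := by
      intro τ hτ
      rw [← continuousOn_univ]
      exact s.cP.comp (by fun_prop : ContinuousOn (fun r : ℝ => (τ, r)) univ)
        (fun r _ => ⟨hτ, mem_univ _⟩)
    have hint : ∀ τ ≥ a, ∀ y ∈ Ioc (0 : ℝ) 1, s.P τ y - s.P a y = ∫ σ in a..τ, F σ y := by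
      intro τ hτ y hy
      rw [intervalIntegral.integral_eq_sub_of_hasDerivAt (f := fun σ => s.P σ y)
        (fun σ hσ => ?_) ((cF0 y).intervalIntegrable _ _)]
      rw [uIcc_of_le hτ] at hσ
      have := off σ (lt_of_lt_of_le ha0 hσ.1) y hy
      rw [hF]
      simp only
      rw [max_eq_left hσ.1]
      exact this
    have hint0 : ∀ τ ≥ a, s.P τ 0 - s.P a 0 = ∫ σ in a..τ, F σ 0 := by
      intro τ hτ
      have c1 : Continuous fun y => s.P τ y - s.P a y :=
        (cPt τ (ha0.le.trans hτ)).sub (cPt a ha0.le)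
      have c2 : Continuous fun y => ∫ σ in a..τ, F σ y :=
        intervalIntegral.continuous_parametric_intervalIntegral_of_continuous'
          (f := fun y σ => F σ y) (cF.comp continuous_swap) a τ
      have hcl : (0 : ℝ) ∈ closure (Ioc (0 : ℝ) 1) := by
        rw [closure_Ioc zero_ne_one]
        exact ⟨le_rfl, zero_le_one⟩
      exact (isClosed_eq c1 c2).closure_subset_iff.2 (fun y hy => hint τ hτ y hy) hcl
    have hd := intervalIntegral.integral_hasDerivAt_right ((cF0 0).intervalIntegrable a t)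
      ((cF0 0).stronglyMeasurableAtFilter _ _) (cF0 0).continuousAt
    have hd2 : HasDerivAt (fun τ => s.P a 0 + ∫ σ in a..τ, F σ 0) (F t 0) t := hd.const_add _
    have hmax : max t a = t := max_eq_left (by rw [ha]; linarith)
    have e : F t 0 = s.Q t 0 + gc k (s.P t 0) := by
      rw [hF]
      simp only
      rw [hmax]
    rw [← e]
    refine hd2.congr_of_eventuallyEq ?_
    filter_upwards [lt_mem_nhds (show a < t by rw [ha]; linarith)] with τ hτ
    rw [← hint0 τ hτ.le]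
    ring
  · exact off t ht r ⟨h0, hr.2⟩

/-- radial structure of a solution of the clamped problem -/
theorem ClSol.h63_rad {k : ℝ} {q : ℝ → ℝ} (s : ClSol k q) {t : ℝ} (ht : 0 < t) {x : E3}
    (hx : x ∈ Metric.ball (0 : E3) 1) :
    ContDiffAt ℝ 2 (fun y : E3 => s.P t ‖y‖) x ∧
      HasDerivAt (fun τ => s.P τ ‖x‖) (Δ (fun y : E3 => s.P t ‖y‖) x + gc k (s.P t ‖x‖)) t := by
  have hr1 : ‖x‖ < 1 := by simpa using hx
  obtain ⟨P1, P2, d1, d2, c2, h0, hne⟩ := s.h63_full ht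
  refine ⟨(rad_c2 d1 d2 c2 (s.even t)).contDiffAt, ?_⟩
  have hL : Δ (fun y : E3 => s.P t ‖y‖) x = s.Q t ‖x‖ := by
    rw [rad_lap d1 d2 c2 (s.even t)]
    by_cases hx0 : x = 0
    · rw [if_pos hx0, hx0, norm_zero, h0]
    · rw [if_neg hx0]
      exact hne _ (norm_pos_iff.2 hx0).ne'
  rw [hL]
  exact s.h63_time ht ⟨norm_nonneg _, hr1.le⟩

theorem ClSol.h63_cont {k : ℝ} {q : ℝ → ℝ} (s : ClSol k q) :
    ContinuousOn (fun z : ℝ × E3 => s.P z.1 ‖z.2‖) (Ici 0 ×ˢ univ) :=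
  s.cP.comp (by fun_prop : ContinuousOn (fun z : ℝ × E3 => (z.1, ‖z.2‖)) (Ici 0 ×ˢ univ))
    (fun z hz => ⟨hz.1, mem_univ _⟩)

theorem ClSol.h63_nonneg {k : ℝ} (hk : 0 ≤ k) {q : ℝ → ℝ} (s : ClSol k q)
    (hq : ∀ x ∈ Icc (0 : ℝ) 1, 0 ≤ q x) {t : ℝ} (ht : 0 ≤ t) {x : E3}
    (hx : x ∈ Metric.closedBall (0 : E3) 1) : 0 ≤ s.P t ‖x‖ := by
  refine comp3 (T := t) (K := k ^ 8) (fun _ _ => 0) (fun τ y => s.P τ ‖y‖) continuousOn_const
    (s.h63_cont.mono (prod_mono (fun τ h => h.1) (subset_univ _))) ?_ ?_ ?_ t ⟨ht, le_rfl⟩ x hx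
  · intro y hy
    have hy1 : ‖y‖ ≤ 1 := by simpa using hy
    rw [s.init _ ⟨norm_nonneg _, hy1⟩]
    exact hq _ ⟨norm_nonneg _, hy1⟩
  · intro τ hτ y hy
    have hy1 : ‖y‖ = 1 := by simpa using hy
    rw [hy1, s.bd τ hτ.1]
  · intro τ hτ y hy hy0 hneg
    obtain ⟨c2, hd⟩ := s.h63_rad hτ.1 hy
    refine ⟨contDiffAt_const, c2, 0, _, hasDerivAt_const _ _, hd, ?_⟩
    have hL : Δ (fun _ : E3 => (0 : ℝ)) y = 0 := by
      rw [InnerProductSpace.laplacian_const]
      rfl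
    rw [hL]
    set u := s.P τ ‖y‖ with hu
    have h1 : -(k ^ 8 * (-u)) ≤ gc k u := by
      unfold gc
      rcases le_total (-k) u with h | h
      · rw [min_eq_left (hneg.le.trans hk), max_eq_right h]
        have h2 : (-u) ^ 8 ≤ k ^ 8 := pow_le_pow_left₀ (by linarith) (by linarith) 8
        have h3 : (-u) ^ 8 * (-u) ≤ k ^ 8 * (-u) := mul_le_mul_of_nonneg_right h2 (by linarith)
        nlinarith
      · rw [min_eq_left (hneg.le.trans hk), max_eq_left h]
        have h2 : k ^ 8 * k ≤ k ^ 8 * (-u) := mul_le_mul_of_nonneg_left (by linarith) (by positivity)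
        nlinarith
    linarith

theorem qk_norm_eq (k : ℕ) (x : E3) : qk k ‖x‖ = (min (vT x) k).toReal := by
  unfold qk vT
  rw [ENNReal.ofReal_natCast]

theorem trunc_exists {k : ℕ} (hk : 1 ≤ k) :
    ∃ w, St.IsTruncated (Metric.ball (0 : E3) 1) 10 vT k w := by
  have hk1 : (1 : ℝ) ≤ k := by exact_mod_cast hk
  have hk0 : (0 : ℝ) ≤ k := by linarith
  obtain ⟨L, hL0, hL⟩ := qk_lip hk1
  have h1 : qk k 1 = 0 := by
    unfold qk
    rw [rho_one]
    simp
  obtain ⟨s⟩ := exists_clsol hk1 h1 hL0 hL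
  have hq : ∀ x ∈ Icc (0 : ℝ) 1, 0 ≤ qk k x := fun x _ => ENNReal.toReal_nonneg
  refine ⟨fun t x => s.P t ‖x‖, ?_, ?_, ?_, ?_⟩
  · exact s.h63_cont.mono (prod_mono Subset.rfl (subset_univ _))
  · intro x hx
    rw [h63_closure] at hx
    rw [s.init _ ⟨norm_nonneg _, by simpa using hx⟩, qk_norm_eq]
  · intro t ht x hx
    rw [h63_frontier hx, s.bd t ht]
  · intro t ht x hx
    obtain ⟨c2, hd⟩ := s.h63_rad ht hx
    refine ⟨c2, ?_⟩
    rw [h63_clamp hk0 (s.h63_nonneg hk0 hq ht.le (Metric.ball_subset_closedBall hx))] at hd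
    exact hd

theorem trunc_unique {k : ℕ} {w w' : ℝ → E3 → ℝ}
    (h : St.IsTruncated (Metric.ball (0 : E3) 1) 10 vT k w)
    (h' : St.IsTruncated (Metric.ball (0 : E3) 1) 10 vT k w') :
    ∀ t ≥ 0, ∀ x ∈ closure (Metric.ball (0 : E3) 1), w' t x = w t x := by
  have key : ∀ w w' : ℝ → E3 → ℝ, St.IsTruncated (Metric.ball (0 : E3) 1) 10 vT k w →
      St.IsTruncated (Metric.ball (0 : E3) 1) 10 vT k w' →
      ∀ t ≥ 0, ∀ x ∈ Metric.closedBall (0 : E3) 1, w' t x ≤ w t x := by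
    intro w w' h h' t ht x hx
    refine h63_comp h (T := t) (h63_contOn h' t) ?_ ?_ ?_ t ⟨ht, le_rfl⟩ x hx
    · intro y hy
      rw [h.init y (by rwa [h63_closure]), h'.init y (by rwa [h63_closure])]
    · intro τ hτ y hy
      rw [h'.boundary τ hτ.1 y (by rw [frontier_ball 0 one_ne_zero]; exact hy)]
    · intro τ hτ y hy hy0
      obtain ⟨c2, hd⟩ := h'.pde τ hτ.1 y hy
      refine ⟨c2, _, hd, ?_⟩
      linarith
  intro t ht x hx
  rw [h63_closure] at hx
  exact le_antisymm (key w w' h h' t ht x hx) (key w' w h' h t ht x hx)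

theorem trunc_ge {n : ℕ} {t1 : ℝ} (ht1 : t1 ∈ Ioo 0 Ts) : ∃ K : ℕ, ∀ k ≥ K, ∀ w,
    St.IsTruncated (Metric.ball (0 : E3) 1) 10 vT k w →
    ∀ t ≥ 0, ∀ x ∈ Metric.ball (0 : E3) 1, (sol n).P (t1 + t) ‖x‖ ≤ w t x := by
  set s := sol n with hs
  have hn : (66 : ℝ) ≤ 66 + n := by
    have : (0 : ℝ) ≤ n := Nat.cast_nonneg n
    linarith
  obtain ⟨B, hB⟩ := isCompact_Icc.exists_bound_of_continuousOn (s := Icc (0 : ℝ) 1)
    (f := s.P t1) (s.contP t1).continuousOn
  obtain ⟨K, hK⟩ := exists_nat_ge (max B (2 * (66 + n)))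
  refine ⟨K, fun k hk w hw t ht x hx => ?_⟩
  have hkK : (K : ℝ) ≤ k := by exact_mod_cast hk
  have hkB : B ≤ k := (le_max_left _ _).trans (hK.trans hkK)
  have hk2 : 2 * (66 + (n : ℝ)) ≤ k := (le_max_right _ _).trans (hK.trans hkK)
  have hcont : Continuous fun z : ℝ × E3 => s.P (t1 + z.1) ‖z.2‖ :=
    s.cP.comp (by fun_prop : Continuous fun z : ℝ × E3 => (t1 + z.1, ‖z.2‖))
  refine h63_comp hw (T := t) (a := fun τ y => s.P (t1 + τ) ‖y‖) hcont.continuousOn ?_ ?_ ?_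
    t ⟨ht, le_rfl⟩ x (Metric.ball_subset_closedBall hx)
  · intro y hy
    have hy1 : ‖y‖ ∈ Icc (0 : ℝ) 1 := ⟨norm_nonneg _, by simpa using hy⟩
    rw [hw.init y (by rwa [h63_closure]), add_zero]
    have e1 : ENNReal.ofReal (s.P t1 ‖y‖) ≤ min (vT y) k := by
      refine le_min ?_ ?_
      · refine le_trans ?_ (le_rho ht1)
        exact ENNReal.ofReal_le_ofReal (sol_le_Pu n ⟨ht1.1.le, ht1.2⟩ hy1)
      · rw [← ENNReal.ofReal_natCast]
        exact ENNReal.ofReal_le_ofReal ((le_abs_self _).trans ((hB _ hy1).trans hkB))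
    have e2 : min (vT y) k ≠ ∞ := ne_top_of_le_ne_top (ENNReal.natCast_ne_top k) (min_le_right _ _)
    exact (ENNReal.ofReal_le_iff_le_toReal e2).1 e1
  · intro τ hτ y hy
    have hy1 : ‖y‖ = 1 := by simpa using hy
    have h1 := s.bd (t1 + τ)
    rw [s.VP, one_mul] at h1
    rw [hy1, h1]
  · intro τ hτ y hy hy0
    have hr : 0 < ‖y‖ := norm_pos_iff.2 hy0
    have hr1 : ‖y‖ < 1 := by simpa using hy
    have hc2 : Continuous (s.P2 (t1 + τ)) := s.cP2.comp (by fun_prop : Continuous fun x : ℝ =>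
      (t1 + τ, x))
    have hpos : 0 < t1 + τ := by linarith [ht1.1, hτ.1]
    refine ⟨(rad_c2 (s.dP (t1 + τ)) (s.dP1 (t1 + τ)) hc2 (s.even (t1 + τ))).contDiffAt,
      s.Pt (t1 + τ) ‖y‖, ?_, ?_⟩
    · have h1 : HasDerivAt (fun τ : ℝ => t1 + τ) 1 τ := (hasDerivAt_id τ).const_add t1
      have := (s.tP (t1 + τ) hpos ‖y‖).comp τ h1
      rw [mul_one] at this
      exact this
    · rw [rad_lap (s.dP (t1 + τ)) (s.dP1 (t1 + τ)) hc2 (s.even (t1 + τ)), if_neg hy0]
      have h1 := s.PtV (t1 + τ) hpos.le ‖y‖ ⟨by linarith, hr1.le⟩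
      rw [s.V2P] at h1
      have h2 : s.Pt (t1 + τ) ‖y‖ = s.P2 (t1 + τ) ‖y‖ + 2 * s.P1 (t1 + τ) ‖y‖ / ‖y‖ +
          g (66 + n) (s.P (t1 + τ) ‖y‖) := by
        field_simp
        linarith
      rw [h2]
      have hP := s.nonneg hn hpos.le (x := ‖y‖) ⟨hr.le, hr1.le⟩
      have h3 : g (66 + n) (s.P (t1 + τ) ‖y‖) ≤ (k : ℝ) ^ 9 :=
        (g_le' (by linarith) hP).trans (pow_le_pow_left₀ (by linarith) hk2 9)
      have h4 := le_min (g_le (k := 66 + n) hP) h3
      linarith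

theorem blowup : St.InstantaneousCompleteBlowup (Metric.ball (0 : E3) 1) 10 vT := by
  have hex : ∀ k : ℕ, ∃ w : ℝ → E3 → ℝ, 1 ≤ k →
      St.IsTruncated (Metric.ball (0 : E3) 1) 10 vT k w := by
    intro k
    by_cases hk : 1 ≤ k
    · obtain ⟨w, hw⟩ := trunc_exists hk
      exact ⟨w, fun _ => hw⟩
    · exact ⟨fun _ _ => 0, fun h => absurd h hk⟩
  choose w hw using hex
  refine ⟨w, fun k hk => ⟨hw k hk, fun w' hw' => trunc_unique (hw k hk) hw'⟩, ?_⟩
  intro t ht x hx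
  have hx1 : ‖x‖ ∈ Ico (0 : ℝ) 1 := ⟨norm_nonneg _, by simpa using hx⟩
  set t1 := max (Ts / 2) (Ts - t / 2) with ht1
  have hT := Ts_pos
  have h1 : t1 ∈ Ioo 0 Ts := ⟨lt_of_lt_of_le (by linarith) (le_max_left _ _),
    max_lt (by linarith) (by linarith)⟩
  have h2 : Ts < t1 + t := by
    have := le_max_right (Ts / 2) (Ts - t / 2)
    linarith
  rw [tendsto_atTop]
  intro M
  obtain ⟨n, hn⟩ := ((tendsto_atTop.1 (blow h2 hx1)) M).exists
  obtain ⟨K, hK⟩ := trunc_ge (n := n) h1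
  filter_upwards [eventually_ge_atTop (max K 1)] with k hk
  exact hn.trans (hK k ((le_max_left _ _).trans hk) (w k) (hw k ((le_max_right _ _).trans hk))
    t ht.le x hx)

end LE
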