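import Mathlib

/-! Radial calculus in `ℝ³` (module I). -/

namespace LE
open Set Filter Topology MeasureTheory Laplacian

abbrev E3 := EuclideanSpace ℝ (Fin 3)

namespace RadAux

section Gen

variable {E : Type*} [NormedAddCommGroup E] [InnerProductSpace ℝ E]

/-- the inner product as a continuous bilinear form -/
noncomputable def B : E →L[ℝ] E →L[ℝ] ℝ := innerSL ℝ

theorem B_apply (x y : E) : B x y = inner ℝ x y := rfl

theorem norm_B (x : E) : ‖(B x : E →L[ℝ] ℝ)‖ = ‖x‖ := innerSL_apply_norm ℝ x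

theorem hasFDerivAt_norm' {x : E} (hx : x ≠ 0) :
    HasFDerivAt (fun y : E => ‖y‖) (‖x‖⁻¹ • B x) x := by
  have h1 : HasFDerivAt (fun y : E => ‖y‖ ^ 2) (2 • (B x : E →L[ℝ] ℝ)) x :=
    (hasStrictFDerivAt_norm_sq x).hasFDerivAt
  have hx' : ‖x‖ ≠ 0 := norm_ne_zero_iff.2 hx
  have h2 := h1.sqrt (by positivity)
  have h3 : (fun y : E => √(‖y‖ ^ 2)) = fun y => ‖y‖ := by
    ext y
    exact Real.sqrt_sq (norm_nonneg y)
  rw [h3] at h2
  have h4 : (1 / (2 * √(‖x‖ ^ 2))) • (2 • (B x : E →L[ℝ] ℝ)) = ‖x‖⁻¹ • B x := by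
    rw [Real.sqrt_sq (norm_nonneg x)]
    ext v
    have h5 : ((1 / (2 * ‖x‖)) • (2 • (B x : E →L[ℝ] ℝ))) v = (1 / (2 * ‖x‖)) * (2 * (B x v)) := by
      rw [two_nsmul, two_mul (B x v)]
      rfl
    rw [h5]
    change _ = ‖x‖⁻¹ * B x v
    field_simp
  rw [h4] at h2
  exact h2

/-- the gradient of `P ‖x‖` -/
noncomputable def G (P1 : ℝ → ℝ) (x : E) : E →L[ℝ] ℝ := (P1 ‖x‖ * ‖x‖⁻¹) • B x

/-- the Hessian of `P ‖x‖` away from `0` -/
noncomputable def H (P1 P2 : ℝ → ℝ) (x : E) : E →L[ℝ] E →L[ℝ] ℝ :=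
  (P1 ‖x‖ * ‖x‖⁻¹) • (B : E →L[ℝ] E →L[ℝ] ℝ) +
    (((P2 ‖x‖ - P1 ‖x‖ * ‖x‖⁻¹) * (‖x‖⁻¹ * ‖x‖⁻¹)) • (B x : E →L[ℝ] ℝ)).smulRight
      (B x : E →L[ℝ] ℝ)

theorem H_apply (P1 P2 : ℝ → ℝ) (x v w : E) : H P1 P2 x v w =
    (P1 ‖x‖ * ‖x‖⁻¹) * inner ℝ v w +
      ((P2 ‖x‖ - P1 ‖x‖ * ‖x‖⁻¹) * (‖x‖⁻¹ * ‖x‖⁻¹)) * inner ℝ x v * inner ℝ x w := rfl

theorem hasFDerivAt_G {P P1 : ℝ → ℝ} {x : E} (hx : x ≠ 0) (dP : HasDerivAt P (P1 ‖x‖) ‖x‖) :
    HasFDerivAt (fun x : E => P ‖x‖) (G P1 x) x := by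
  have h := dP.comp_hasFDerivAt x (hasFDerivAt_norm' hx)
  rw [smul_smul] at h
  exact h

theorem hasFDerivAt_H {P1 P2 : ℝ → ℝ} {x : E} (hx : x ≠ 0)
    (dP : HasDerivAt P1 (P2 ‖x‖) ‖x‖) : HasFDerivAt (G P1) (H P1 P2 x) x := by
  have hx' : ‖x‖ ≠ 0 := norm_ne_zero_iff.2 hx
  have h1 : HasDerivAt (fun r : ℝ => P1 r * r⁻¹)
      (P2 ‖x‖ * ‖x‖⁻¹ + P1 ‖x‖ * (-(‖x‖ ^ 2)⁻¹)) ‖x‖ := dP.mul (hasDerivAt_inv hx')
  have h2 := h1.comp_hasFDerivAt x (hasFDerivAt_norm' hx)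
  have h3 : HasFDerivAt (fun y : E => (B y : E →L[ℝ] ℝ)) (B : E →L[ℝ] E →L[ℝ] ℝ) x :=
    (B : E →L[ℝ] E →L[ℝ] ℝ).hasFDerivAt
  have h4 := h2.smul h3
  have h5 : H P1 P2 x = ((fun r : ℝ => P1 r * r⁻¹) ∘ norm) x • (B : E →L[ℝ] E →L[ℝ] ℝ) +
      ((P2 ‖x‖ * ‖x‖⁻¹ + P1 ‖x‖ * (-(‖x‖ ^ 2)⁻¹)) • (‖x‖⁻¹ • (B x : E →L[ℝ] ℝ))).smulRight
        (B x : E →L[ℝ] ℝ) := by
    ext v w
    rw [H_apply]
    change _ = (P1 ‖x‖ * ‖x‖⁻¹) * inner ℝ v w +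
      ((P2 ‖x‖ * ‖x‖⁻¹ + P1 ‖x‖ * (-(‖x‖ ^ 2)⁻¹)) * (‖x‖⁻¹ * inner ℝ x v)) * inner ℝ x w
    field_simp
    ring
  rw [h5]
  exact h4

theorem P1_zero {P P1 : ℝ → ℝ} (dP : HasDerivAt P (P1 0) 0) (ev : ∀ r, P (-r) = P r) :
    P1 0 = 0 := by
  have h0 : HasDerivAt P (P1 0) (-(0 : ℝ)) := by simpa using dP
  have h1 := HasDerivAt.scomp (0 : ℝ) h0 (hasDerivAt_neg (0 : ℝ))
  have h2 : (P ∘ fun r => -r) = P := funext ev
  rw [h2] at h1
  have := h1.unique dP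
  simp only [smul_eq_mul] at this
  linarith

theorem hasFDerivAt_G_zero {P P1 : ℝ → ℝ} (dP : HasDerivAt P (P1 0) 0)
    (ev : ∀ r, P (-r) = P r) : HasFDerivAt (fun x : E => P ‖x‖) (G P1 0) (0 : E) := by
  have h0 := P1_zero dP ev
  have hG : G P1 (0 : E) = 0 := by simp [G]
  rw [hG, hasFDerivAt_iff_isLittleO_nhds_zero]
  rw [h0, hasDerivAt_iff_isLittleO_nhds_zero] at dP
  have h1 : Tendsto (fun x : E => ‖x‖) (𝓝 0) (𝓝 0) := by
    simpa using (continuous_norm (E := E)).tendsto 0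
  have h2 := dP.comp_tendsto h1
  simp only [Function.comp_def, zero_add, smul_zero, sub_zero, norm_zero,
    zero_apply] at h2 ⊢
  exact h2.of_norm_right

theorem rad_hasFDerivAt {P P1 : ℝ → ℝ} (dP : ∀ r, HasDerivAt P (P1 r) r)
    (ev : ∀ r, P (-r) = P r) (x : E) : HasFDerivAt (fun x : E => P ‖x‖) (G P1 x) x := by
  by_cases hx : x = 0
  · subst hx
    exact hasFDerivAt_G_zero (dP 0) ev
  · exact hasFDerivAt_G hx (dP _)

theorem norm_G {P P1 : ℝ → ℝ} (dP : HasDerivAt P (P1 0) 0)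
    (ev : ∀ r, P (-r) = P r) (x : E) : ‖G P1 x‖ = |P1 ‖x‖| := by
  rw [G, norm_smul, norm_B]
  by_cases hx : x = 0
  · subst hx
    have h0 := P1_zero dP ev
    simp [h0]
  · have hx' : ‖x‖ ≠ 0 := norm_ne_zero_iff.2 hx
    rw [norm_mul, norm_inv, norm_norm, mul_assoc, inv_mul_cancel₀ hx', mul_one,
      Real.norm_eq_abs]

/-- `P1 r / r` tends to `P2 0` -/
theorem tendsto_slope {P1 P2 : ℝ → ℝ} (h0 : P1 0 = 0) (dP1 : HasDerivAt P1 (P2 0) 0) :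
    Tendsto (fun r => P1 r * r⁻¹) (𝓝[≠] 0) (𝓝 (P2 0)) := by
  have h := hasDerivAt_iff_tendsto_slope.1 dP1
  refine h.congr' ?_
  filter_upwards [self_mem_nhdsWithin] with r _
  rw [slope_def_field, h0, sub_zero, sub_zero, div_eq_mul_inv]

open Classical in
/-- the Hessian at every point -/
noncomputable def H' (P1 P2 : ℝ → ℝ) (x : E) : E →L[ℝ] E →L[ℝ] ℝ :=
  if x = 0 then P2 0 • (B : E →L[ℝ] E →L[ℝ] ℝ) else H P1 P2 x

theorem hasFDerivAt_H' {P1 P2 : ℝ → ℝ} (h0 : P1 0 = 0) (dP1 : ∀ r, HasDerivAt P1 (P2 r) r)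
    (x : E) : HasFDerivAt (G P1) (H' P1 P2 x) x := by
  by_cases hx : x = 0
  · subst hx
    rw [H', if_pos rfl, hasFDerivAt_iff_isLittleO_nhds_zero]
    have hG : G P1 (0 : E) = 0 := by simp [G]
    simp only [zero_add, hG, sub_zero]
    rw [Asymptotics.isLittleO_iff]
    intro c hc
    have h1 := tendsto_slope h0 (dP1 0)
    rw [Metric.tendsto_nhdsWithin_nhds] at h1
    obtain ⟨d, hd, h2⟩ := h1 c hc
    filter_upwards [Metric.ball_mem_nhds (0 : E) hd] with y hy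
    rw [mem_ball_zero_iff] at hy
    by_cases hy0 : y = 0
    · subst hy0; simp [G]
    · have hy' : ‖y‖ ≠ 0 := norm_ne_zero_iff.2 hy0
      have h3 : G P1 y - (P2 0 • (B : E →L[ℝ] E →L[ℝ] ℝ)) y =
          (P1 ‖y‖ * ‖y‖⁻¹ - P2 0) • (B y : E →L[ℝ] ℝ) := by
        ext w
        change (P1 ‖y‖ * ‖y‖⁻¹) * inner ℝ y w - P2 0 * inner ℝ y w =
          (P1 ‖y‖ * ‖y‖⁻¹ - P2 0) * inner ℝ y w
        ring
      rw [h3, norm_smul, norm_B]
      refine mul_le_mul_of_nonneg_right ?_ (norm_nonneg y)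
      have h4 := h2 (x := ‖y‖) hy' (by simpa using hy)
      rw [Real.dist_eq] at h4
      exact h4.le
  · rw [H', if_neg hx]
    exact hasFDerivAt_H hx (dP1 _)

theorem continuousAt_H {P1 P2 : ℝ → ℝ} {x : E} (hx : x ≠ 0) (c1 : ContinuousAt P1 ‖x‖)
    (c2 : ContinuousAt P2 ‖x‖) : ContinuousAt (H P1 P2 : E → E →L[ℝ] E →L[ℝ] ℝ) x := by
  have hx' : ‖x‖ ≠ 0 := norm_ne_zero_iff.2 hx
  have hn : ContinuousAt (fun y : E => ‖y‖) x := continuous_norm.continuousAt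
  have hi : ContinuousAt (fun y : E => ‖y‖⁻¹) x := hn.inv₀ hx'
  have h1 : ContinuousAt (fun y : E => P1 ‖y‖) x := ContinuousAt.comp (f := fun y : E => ‖y‖) c1 hn
  have h2 : ContinuousAt (fun y : E => P2 ‖y‖) x := ContinuousAt.comp (f := fun y : E => ‖y‖) c2 hn
  have hB : ContinuousAt (fun y : E => (B y : E →L[ℝ] ℝ)) x :=
    (B : E →L[ℝ] E →L[ℝ] ℝ).continuous.continuousAt
  have h3 : ContinuousAt (fun y : E => ContinuousLinearMap.smulRightL ℝ E (E →L[ℝ] ℝ)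
      (((P2 ‖y‖ - P1 ‖y‖ * ‖y‖⁻¹) * (‖y‖⁻¹ * ‖y‖⁻¹)) • (B y : E →L[ℝ] ℝ)) (B y)) x := by
    refine ContinuousAt.clm_apply ?_ hB
    refine (ContinuousLinearMap.smulRightL ℝ E (E →L[ℝ] ℝ)).continuous.continuousAt.comp ?_
    exact ((h2.sub (h1.mul hi)).mul (hi.mul hi)).smul hB
  exact ((h1.mul hi).smul continuousAt_const).add h3

theorem continuous_H' {P1 P2 : ℝ → ℝ} (h0 : P1 0 = 0) (dP1 : ∀ r, HasDerivAt P1 (P2 r) r)
    (c2 : Continuous P2) : Continuous (H' P1 P2 : E → E →L[ℝ] E →L[ℝ] ℝ) := by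
  rw [continuous_iff_continuousAt]
  intro x
  by_cases hx : x = 0
  · subst hx
    have hgoal : ∀ c > 0, ∃ d > 0, ∀ y : E, ‖y‖ < d →
        ‖(H' P1 P2 y : E →L[ℝ] E →L[ℝ] ℝ) - H' P1 P2 0‖ < c := by
      intro c hc
      have hlim : Tendsto (fun r => |P1 r * r⁻¹ - P2 0| + |P2 r - P1 r * r⁻¹|) (𝓝[≠] 0)
          (𝓝 (|P2 0 - P2 0| + |P2 0 - P2 0|)) := by
        have h1 := tendsto_slope h0 (dP1 0)
        have h2 : Tendsto P2 (𝓝[≠] 0) (𝓝 (P2 0)) := (c2.tendsto 0).mono_left nhdsWithin_le_nhds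
        exact (h1.sub_const _).abs.add (h2.sub h1).abs
      rw [sub_self, abs_zero, add_zero, Metric.tendsto_nhdsWithin_nhds] at hlim
      obtain ⟨d, hd, h2⟩ := hlim c hc
      refine ⟨d, hd, ?_⟩
      intro y hy
      by_cases hy0 : y = 0
      · have e0 : (H' P1 P2 y : E →L[ℝ] E →L[ℝ] ℝ) - H' P1 P2 0 = 0 := by
          rw [hy0]; exact sub_self (H' P1 P2 (0 : E))
        rw [e0]
        exact lt_of_eq_of_lt (ContinuousLinearMap.opNorm_zero (E := E)) hc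
      · have hy' : ‖y‖ ≠ 0 := norm_ne_zero_iff.2 hy0
        have h4 := h2 (x := ‖y‖) hy' (by simpa using hy)
        rw [Real.dist_eq, sub_zero, abs_of_nonneg (by positivity)] at h4
        refine lt_of_le_of_lt ?_ h4
        rw [H', if_neg hy0, H', if_pos rfl]
        refine ContinuousLinearMap.opNorm_le_bound _ (by positivity) fun v => ?_
        refine ContinuousLinearMap.opNorm_le_bound _ (by positivity) fun w => ?_
        have h5 : (H P1 P2 y - P2 0 • (B : E →L[ℝ] E →L[ℝ] ℝ)) v w =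
            (P1 ‖y‖ * ‖y‖⁻¹ - P2 0) * inner ℝ v w +
            ((P2 ‖y‖ - P1 ‖y‖ * ‖y‖⁻¹) * (‖y‖⁻¹ * ‖y‖⁻¹)) * inner ℝ y v * inner ℝ y w := by
          have : (H P1 P2 y - P2 0 • (B : E →L[ℝ] E →L[ℝ] ℝ)) v w =
              H P1 P2 y v w - P2 0 * inner ℝ v w := rfl
          rw [this, H_apply]
          ring
        rw [h5, Real.norm_eq_abs]
        have hvw := abs_real_inner_le_norm v w
        have hyv := abs_real_inner_le_norm y v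
        have hyw := abs_real_inner_le_norm y w
        have hpos : 0 < ‖y‖ := norm_pos_iff.2 hy0
        calc _ ≤ |(P1 ‖y‖ * ‖y‖⁻¹ - P2 0) * inner ℝ v w| +
              |((P2 ‖y‖ - P1 ‖y‖ * ‖y‖⁻¹) * (‖y‖⁻¹ * ‖y‖⁻¹)) * inner ℝ y v * inner ℝ y w| :=
              abs_add_le _ _
          _ ≤ |P1 ‖y‖ * ‖y‖⁻¹ - P2 0| * (‖v‖ * ‖w‖) +
              |P2 ‖y‖ - P1 ‖y‖ * ‖y‖⁻¹| * (‖y‖⁻¹ * ‖y‖⁻¹) * (‖y‖ * ‖v‖) * (‖y‖ * ‖w‖) := by
              rw [abs_mul, abs_mul, abs_mul, abs_mul, abs_of_pos (mul_pos (inv_pos.2 hpos)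
                (inv_pos.2 hpos))]
              gcongr
          _ = (|P1 ‖y‖ * ‖y‖⁻¹ - P2 0| + |P2 ‖y‖ - P1 ‖y‖ * ‖y‖⁻¹|) * ‖v‖ * ‖w‖ := by
              field_simp
    have hT : Tendsto (fun y : E => ‖(H' P1 P2 y : E →L[ℝ] E →L[ℝ] ℝ) - H' P1 P2 0‖) (𝓝 0)
        (𝓝 0) := by
      rw [Metric.tendsto_nhds_nhds]
      intro c hc
      obtain ⟨d, hd, h⟩ := hgoal c hc
      refine ⟨d, hd, fun {y} hy => ?_⟩
      rw [dist_zero_right] at hy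
      have hnn : 0 ≤ ‖(H' P1 P2 y : E →L[ℝ] E →L[ℝ] ℝ) - H' P1 P2 0‖ :=
        ContinuousLinearMap.opNorm_nonneg _
      rw [Real.dist_eq, sub_zero, abs_of_nonneg hnn]
      exact h y hy
    exact (tendsto_iff_norm_sub_tendsto_zero (E := E →L[ℝ] E →L[ℝ] ℝ)).2 hT
  · have h1 := continuousAt_H (E := E) hx (dP1 _).continuousAt c2.continuousAt
    refine h1.congr ?_
    filter_upwards [isOpen_ne.mem_nhds hx] with y hy
    rw [H', if_neg hy]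

theorem rad_c2' {P P1 P2 : ℝ → ℝ} (dP : ∀ r, HasDerivAt P (P1 r) r)
    (dP1 : ∀ r, HasDerivAt P1 (P2 r) r) (c2 : Continuous P2) (ev : ∀ r, P (-r) = P r) :
    ContDiff ℝ 2 (fun x : E => P ‖x‖) := by
  have h0 := P1_zero (dP 0) ev
  have h1 : ContDiff ℝ 1 (G P1 : E → E →L[ℝ] ℝ) := by
    rw [contDiff_one_iff_hasFDerivAt]
    exact ⟨_, continuous_H' h0 dP1 c2, hasFDerivAt_H' h0 dP1⟩
  have h2 : ContDiff ℝ ((1 : ℕ) + 1) (fun x : E => P ‖x‖) := by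
    rw [contDiff_succ_iff_hasFDerivAt]
    exact ⟨G P1, h1, rad_hasFDerivAt dP ev⟩
  exact h2

variable [FiniteDimensional ℝ E]

theorem lap_of {f : E → ℝ} {Gf : E → E →L[ℝ] ℝ} {Hf : E →L[ℝ] E →L[ℝ] ℝ} {x : E}
    (h1 : ∀ᶠ y in 𝓝 x, HasFDerivAt f (Gf y) y) (h2 : HasFDerivAt Gf Hf x)
    {ι : Type*} [Fintype ι] (b : OrthonormalBasis ι ℝ E) :
    Δ f x = ∑ i, Hf (b i) (b i) := by
  rw [InnerProductSpace.laplacian_eq_iteratedFDeriv_orthonormalBasis f b]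
  refine Finset.sum_congr rfl fun i _ => ?_
  rw [iteratedFDeriv_two_apply]
  have h3 : fderiv ℝ f =ᶠ[𝓝 x] Gf := by
    filter_upwards [h1] with y hy
    exact hy.fderiv
  rw [h3.fderiv_eq, h2.fderiv]
  rfl

omit [FiniteDimensional ℝ E] in
theorem sum_H {P1 P2 : ℝ → ℝ} {x : E} (hx : x ≠ 0)
    {ι : Type*} [Fintype ι] (b : OrthonormalBasis ι ℝ E) :
    ∑ i, H P1 P2 x (b i) (b i) =
      P2 ‖x‖ + ((Fintype.card ι : ℝ) - 1) * (P1 ‖x‖ / ‖x‖) := by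
  have hx' : ‖x‖ ≠ 0 := norm_ne_zero_iff.2 hx
  simp only [H_apply]
  rw [Finset.sum_add_distrib]
  have h1 : ∑ i, (P1 ‖x‖ * ‖x‖⁻¹) * inner ℝ (b i) (b i) =
      (Fintype.card ι : ℝ) * (P1 ‖x‖ * ‖x‖⁻¹) := by
    simp [b.orthonormal.1]
  have h2 : ∑ i, ((P2 ‖x‖ - P1 ‖x‖ * ‖x‖⁻¹) * (‖x‖⁻¹ * ‖x‖⁻¹)) * inner ℝ x (b i) *
      inner ℝ x (b i) = (P2 ‖x‖ - P1 ‖x‖ * ‖x‖⁻¹) := by
    have h3 : ∑ i, inner ℝ x (b i) * inner ℝ x (b i) = ‖x‖ ^ 2 := by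
      have := b.sum_sq_norm_inner_left x
      rw [← this]
      refine Finset.sum_congr rfl fun i _ => ?_
      rw [Real.norm_eq_abs, sq_abs, sq, real_inner_comm]
    simp only [mul_assoc]
    rw [← Finset.mul_sum, ← Finset.mul_sum, ← Finset.mul_sum, h3]
    field_simp
  rw [h1, h2]
  field_simp
  ring

end Gen

end RadAux

open RadAux

theorem rad_fderiv {P P1 : ℝ → ℝ} (dP : ∀ r, HasDerivAt P (P1 r) r) (ev : ∀ r, P (-r) = P r)
    (x : E3) : ‖fderiv ℝ (fun x : E3 => P ‖x‖) x‖ = |P1 ‖x‖| := by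
  rw [(rad_hasFDerivAt dP ev x).fderiv, norm_G (dP 0) ev x]

theorem rad_c2 {P P1 P2 : ℝ → ℝ} (dP : ∀ r, HasDerivAt P (P1 r) r)
    (dP1 : ∀ r, HasDerivAt P1 (P2 r) r) (c2 : Continuous P2) (ev : ∀ r, P (-r) = P r) :
    ContDiff ℝ 2 (fun x : E3 => P ‖x‖) := rad_c2' dP dP1 c2 ev

/-- away from the origin -/
theorem rad_punct {P P1 P2 : ℝ → ℝ} {x : E3} (hx : x ≠ 0)
    (dP : ∀ᶠ r in 𝓝 ‖x‖, HasDerivAt P (P1 r) r) (dP1 : ∀ᶠ r in 𝓝 ‖x‖, HasDerivAt P1 (P2 r) r)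
    (c2 : ∀ᶠ r in 𝓝 ‖x‖, ContinuousAt P2 r) :
    ContDiffAt ℝ 2 (fun x : E3 => P ‖x‖) x ∧
      Δ (fun x : E3 => P ‖x‖) x = P2 ‖x‖ + 2 * P1 ‖x‖ / ‖x‖ := by
  have hn : Tendsto (fun y : E3 => ‖y‖) (𝓝 x) (𝓝 ‖x‖) := continuous_norm.tendsto x
  have hne : ∀ᶠ y in 𝓝 x, y ≠ 0 := isOpen_ne.mem_nhds hx
  have e1 : ∀ᶠ y : E3 in 𝓝 x, HasFDerivAt (fun x : E3 => P ‖x‖) (G P1 y) y := by
    filter_upwards [hn.eventually dP, hne] with y h1 h2
    exact hasFDerivAt_G h2 h1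
  have e2 : ∀ᶠ y : E3 in 𝓝 x, HasFDerivAt (G P1) (H P1 P2 y) y := by
    filter_upwards [hn.eventually dP1, hne] with y h1 h2
    exact hasFDerivAt_H h2 h1
  have e3 : ∀ᶠ y : E3 in 𝓝 x, ContinuousAt (H P1 P2 : E3 → E3 →L[ℝ] E3 →L[ℝ] ℝ) y := by
    filter_upwards [hn.eventually dP1, hn.eventually c2, hne] with y h1 h2 h3
    exact continuousAt_H h3 h1.continuousAt h2
  constructor
  · have h1 : ContDiffAt ℝ 1 (G P1 : E3 → E3 →L[ℝ] ℝ) x := by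
      have h1' : ContDiffAt ℝ ((0 : ℕ) + 1) (G P1 : E3 → E3 →L[ℝ] ℝ) x := by
        rw [contDiffAt_succ_iff_hasFDerivAt]
        refine ⟨H P1 P2, ?_, ?_⟩
        · obtain ⟨u, hu, h⟩ := e2.exists_mem
          exact ⟨u, hu, h⟩
        · rw [Nat.cast_zero, contDiffAt_zero]
          obtain ⟨u, hu, h⟩ := e3.exists_mem
          exact ⟨u, hu, fun y hy => (h y hy).continuousWithinAt⟩
      simpa using h1'
    have h2 : ContDiffAt ℝ ((1 : ℕ) + 1) (fun x : E3 => P ‖x‖) x := by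
      rw [contDiffAt_succ_iff_hasFDerivAt]
      refine ⟨G P1, ?_, by simpa using h1⟩
      obtain ⟨u, hu, h⟩ := e1.exists_mem
      exact ⟨u, hu, h⟩
    have e : (((1 : ℕ) : WithTop ℕ∞) + 1) = 2 := by norm_num
    rwa [e] at h2
  · rw [lap_of e1 e2.self_of_nhds (stdOrthonormalBasis ℝ E3), sum_H hx]
    have hcard : Fintype.card (Fin (Module.finrank ℝ E3)) = 3 := by simp
    rw [hcard]
    push_cast
    ring

theorem rad_lap {P P1 P2 : ℝ → ℝ} (dP : ∀ r, HasDerivAt P (P1 r) r)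
    (dP1 : ∀ r, HasDerivAt P1 (P2 r) r) (c2 : Continuous P2) (ev : ∀ r, P (-r) = P r) (x : E3) :
    Δ (fun x : E3 => P ‖x‖) x = if x = 0 then 3 * P2 0 else P2 ‖x‖ + 2 * P1 ‖x‖ / ‖x‖ := by
  by_cases hx : x = 0
  · rw [if_pos hx]
    subst hx
    have h0 := P1_zero (dP 0) ev
    rw [lap_of (Eventually.of_forall (rad_hasFDerivAt dP ev)) (hasFDerivAt_H' h0 dP1 0)
      (stdOrthonormalBasis ℝ E3), H', if_pos rfl]
    have : ∀ i, (P2 0 • (B : E3 →L[ℝ] E3 →L[ℝ] ℝ)) (stdOrthonormalBasis ℝ E3 i)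
        (stdOrthonormalBasis ℝ E3 i) = P2 0 := by
      intro i
      change P2 0 * inner ℝ (stdOrthonormalBasis ℝ E3 i) (stdOrthonormalBasis ℝ E3 i) = P2 0
      rw [real_inner_self_eq_norm_sq, (stdOrthonormalBasis ℝ E3).orthonormal.1 i]
      ring
    simp only [this]
    simp
  · rw [if_neg hx]
    exact (rad_punct hx (Eventually.of_forall dP) (Eventually.of_forall dP1)
      (Eventually.of_forall fun r => c2.continuousAt)).2

theorem rad_c1 {P P1 Pt : ℝ → ℝ → ℝ} (c1 : Continuous fun z : ℝ × ℝ => P1 z.1 z.2)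
    (ct : Continuous fun z : ℝ × ℝ => Pt z.1 z.2) (dP : ∀ t x, HasDerivAt (P t) (P1 t x) x)
    (tP : ∀ t > 0, ∀ x, HasDerivAt (fun s => P s x) (Pt t x) t) (ev : ∀ t x, P t (-x) = P t x) :
    ContDiffOn ℝ 1 (fun z : ℝ × E3 => P z.1 ‖z.2‖) (Ioi 0 ×ˢ univ) := by
  have hopen : IsOpen (Ioi (0 : ℝ) ×ˢ (univ : Set E3)) := isOpen_Ioi.prod isOpen_univ
  -- the two partial derivatives
  let f1 : ℝ → E3 → ℝ →L[ℝ] ℝ := fun t x => ContinuousLinearMap.toSpanSingleton ℝ (Pt t ‖x‖)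
  let f2 : ℝ → E3 → E3 →L[ℝ] ℝ := fun t x => G (P1 t) x
  have cf1 : Continuous fun z : ℝ × E3 => f1 z.1 z.2 := by
    have h1 : Continuous fun z : ℝ × E3 => Pt z.1 ‖z.2‖ :=
      ct.comp (continuous_fst.prodMk (continuous_norm.comp continuous_snd))
    exact (ContinuousLinearMap.toSpanSingletonCLE (𝕜 := ℝ) (E := ℝ)).continuous.comp h1
  have cP1n : Continuous fun z : ℝ × E3 => P1 z.1 ‖z.2‖ :=
    c1.comp (continuous_fst.prodMk (continuous_norm.comp continuous_snd))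
  have cf2 : Continuous fun z : ℝ × E3 => f2 z.1 z.2 := by
    rw [continuous_iff_continuousAt]
    rintro ⟨t, x⟩
    by_cases hx : x = 0
    · subst hx
      have h0 : f2 t (0 : E3) = 0 := by simp [f2, G]
      rw [ContinuousAt, h0, tendsto_zero_iff_norm_tendsto_zero]
      have h1 : (fun z : ℝ × E3 => ‖f2 z.1 z.2‖) = fun z => |P1 z.1 ‖z.2‖| := by
        funext z
        exact norm_G (dP z.1 0) (ev z.1) z.2
      rw [h1]
      have h2 := cP1n.abs.tendsto (t, (0 : E3))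
      have h3 : P1 t 0 = 0 := P1_zero (dP t 0) (ev t)
      simpa [h3] using h2
    · have hx' : ‖x‖ ≠ 0 := norm_ne_zero_iff.2 hx
      have h1 : ContinuousAt (fun z : ℝ × E3 => ‖z.2‖⁻¹) (t, x) :=
        (continuous_norm.comp continuous_snd).continuousAt.inv₀ hx'
      have h2 : ContinuousAt (fun z : ℝ × E3 => (B z.2 : E3 →L[ℝ] ℝ)) (t, x) :=
        ((B : E3 →L[ℝ] E3 →L[ℝ] ℝ).continuous.comp continuous_snd).continuousAt
      exact (cP1n.continuousAt.mul h1).smul h2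
  have hst : ∀ z ∈ Ioi (0 : ℝ) ×ˢ (univ : Set E3), HasStrictFDerivAt
      (fun z : ℝ × E3 => P z.1 ‖z.2‖) ((f1 z.1 z.2).coprod (f2 z.1 z.2)) z := by
    rintro ⟨t, x⟩ hz
    refine hasStrictFDerivAt_uncurry_coprod (f := fun t (x : E3) => P t ‖x‖) (f₁ := f1) (f₂ := f2)
      ?_ ?_ cf1.continuousAt cf2.continuousAt
    · filter_upwards [hopen.mem_nhds hz] with v hv
      exact (tP v.1 hv.1 ‖v.2‖).hasFDerivAt
    · filter_upwards with v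
      exact rad_hasFDerivAt (dP v.1) (ev v.1) v.2
  have hd : ContDiffOn ℝ (0 + 1) (fun z : ℝ × E3 => P z.1 ‖z.2‖) (Ioi 0 ×ˢ univ) := by
    rw [contDiffOn_succ_iff_fderiv_of_isOpen hopen]
    refine ⟨fun z hz => (hst z hz).hasFDerivAt.differentiableAt.differentiableWithinAt,
      by simp, ?_⟩
    rw [contDiffOn_zero]
    have h1 : Continuous fun z : ℝ × E3 => (f1 z.1 z.2).coprod (f2 z.1 z.2) := by
      have : (fun z : ℝ × E3 => (f1 z.1 z.2).coprod (f2 z.1 z.2)) = fun z =>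
          (f1 z.1 z.2).comp (ContinuousLinearMap.fst ℝ ℝ E3) +
          (f2 z.1 z.2).comp (ContinuousLinearMap.snd ℝ ℝ E3) := by
        funext z
        ext <;> simp
      rw [this]
      exact (cf1.clm_comp continuous_const).add (cf2.clm_comp continuous_const)
    refine h1.continuousOn.congr fun z hz => ?_
    exact (hst z hz).hasFDerivAt.fderiv
  simpa using hd

theorem rad_integrable (f : ℝ → ℝ) : IntegrableOn (fun x : E3 => f ‖x‖) (Metric.ball (0 : E3) 1) ↔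
    IntegrableOn (fun r => r ^ 2 * f r) (Ioo 0 1) := by
  have h := integrableOn_fun_norm_addHaar (volume : Measure E3) (f := f) (r := 1)
  simpa using h

theorem rad_int (f : ℝ → ℝ) :
    ∫ x in Metric.ball (0 : E3) 1, f ‖x‖ = 4 * Real.pi * ∫ r in (0 : ℝ)..1, r ^ 2 * f r := by
  have h := integral_fun_norm_addHaar (volume : Measure E3) ((Iio (1 : ℝ)).indicator f)
  have h1 : ∫ x : E3, (Iio (1 : ℝ)).indicator f ‖x‖ = ∫ x in Metric.ball (0 : E3) 1, f ‖x‖ := by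
    rw [← integral_indicator measurableSet_ball]
    refine integral_congr_ae (Eventually.of_forall fun x => ?_)
    simp [indicator]
  have h2 : ∫ y in Ioi (0 : ℝ), y ^ (Module.finrank ℝ E3 - 1) • (Iio (1 : ℝ)).indicator f y =
      ∫ r in (0 : ℝ)..1, r ^ 2 * f r := by
    rw [intervalIntegral.integral_of_le zero_le_one, integral_Ioc_eq_integral_Ioo,
      ← integral_indicator measurableSet_Ioi, ← integral_indicator measurableSet_Ioo]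
    refine integral_congr_ae (Eventually.of_forall fun r => ?_)
    by_cases h0 : 0 < r <;> by_cases h1 : r < 1 <;> simp [indicator, h0, h1]
  have h3 : (volume : Measure E3).real (Metric.ball 0 1) = 4 / 3 * Real.pi := by
    rw [Measure.real, EuclideanSpace.volume_ball_fin_three, ENNReal.ofReal_one, one_pow, one_mul,
      ENNReal.toReal_ofReal (by positivity)]
    ring
  rw [h1, h2, h3] at h
  rw [h]
  simp
  ring

end LE
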