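import Pool.Agent.H10.LE.Gau

/-! Smoothing of the heat semigroup for continuous data (module X1). -/

namespace LE
open Set Filter Topology MeasureTheory

noncomputable def S1 (f : ℝ → ℝ) (t x : ℝ) : ℝ := ∫ z, z / √(2 * t) * f (x + √(2 * t) * z) ∂gam
noncomputable def S2 (f : ℝ → ℝ) (t x : ℝ) : ℝ :=
  ∫ z, (z ^ 2 - 1) / (2 * t) * f (x + √(2 * t) * z) ∂gam

namespace X

theorem w1_le (z : ℝ) : |z| ≤ 1 * (1 + |z|) ^ 1 := by simp

theorem w2_le (z : ℝ) : |z ^ 2 - 1| ≤ 1 * (1 + |z|) ^ 2 := by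
  rw [one_mul, abs_le]
  constructor <;> nlinarith [sq_abs z, abs_nonneg z]

theorem S_eq {F f : ℝ → ℝ} (hf : Continuous f) (hF : ∀ x, HasDerivAt F (f x) x) {B : ℝ}
    (hB : ∀ x, |f x| ≤ B) {t : ℝ} (ht : 0 < t) (x : ℝ) :
    S f t x = (√(2 * t))⁻¹ * ∫ z, z * F (x + √(2 * t) * z) ∂gam := by
  have hs : √(2 * t) ≠ 0 := (Real.sqrt_pos.2 (by positivity)).ne'
  rw [← stein1 hf hF hB, ← mul_assoc, inv_mul_cancel₀ hs, one_mul]
  unfold S
  rw [max_eq_left ht.le]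

theorem S1_eq' (f : ℝ → ℝ) (t x : ℝ) :
    S1 f t x = (√(2 * t))⁻¹ * ∫ z, z * f (x + √(2 * t) * z) ∂gam := by
  unfold S1
  rw [← integral_const_mul]
  refine integral_congr_ae (ae_of_all _ fun z => ?_)
  simp only
  ring

theorem S2_eq' (f : ℝ → ℝ) (t x : ℝ) :
    S2 f t x = (2 * t)⁻¹ * ∫ z, (z ^ 2 - 1) * f (x + √(2 * t) * z) ∂gam := by
  unfold S2
  rw [← integral_const_mul]
  refine integral_congr_ae (ae_of_all _ fun z => ?_)
  simp only
  ring

theorem S1_eq {F f : ℝ → ℝ} (hf : Continuous f) (hF : ∀ x, HasDerivAt F (f x) x) {B : ℝ}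
    (hB : ∀ x, |f x| ≤ B) {t : ℝ} (ht : 0 < t) (x : ℝ) :
    S1 f t x = (2 * t)⁻¹ * ∫ z, (z ^ 2 - 1) * F (x + √(2 * t) * z) ∂gam := by
  have hs : √(2 * t) ≠ 0 := (Real.sqrt_pos.2 (by positivity)).ne'
  have h2 : √(2 * t) * √(2 * t) = 2 * t := Real.mul_self_sqrt (by positivity)
  have hinv : (2 * t)⁻¹ = (√(2 * t))⁻¹ * (√(2 * t))⁻¹ := by rw [← mul_inv, h2]
  rw [← stein2 hf hF hB, S1_eq', ← mul_assoc, hinv]
  congr 1
  field_simp

theorem S_d1' {f : ℝ → ℝ} (hf : Continuous f) {B : ℝ} (hB : ∀ x, |f x| ≤ B) {t : ℝ} (ht : 0 < t)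
    (x : ℝ) : HasDerivAt (S f t) (S1 f t x) x := by
  obtain ⟨F, hF⟩ := antider hf
  have h := (gam_dx hf hF hB (w := fun z => z) continuous_id 1 1 w1_le (√(2 * t)) x).const_mul
    (√(2 * t))⁻¹
  rw [← S1_eq'] at h
  refine h.congr_of_eventuallyEq (Eventually.of_forall fun y => ?_)
  exact S_eq hf hF hB ht y

theorem S_d2' {f : ℝ → ℝ} (hf : Continuous f) {B : ℝ} (hB : ∀ x, |f x| ≤ B) {t : ℝ} (ht : 0 < t)
    (x : ℝ) : HasDerivAt (S1 f t) (S2 f t x) x := by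
  obtain ⟨F, hF⟩ := antider hf
  have h := (gam_dx hf hF hB (w := fun z => z ^ 2 - 1) (by fun_prop) 1 2 w2_le (√(2 * t))
    x).const_mul (2 * t)⁻¹
  rw [← S2_eq'] at h
  refine h.congr_of_eventuallyEq (Eventually.of_forall fun y => ?_)
  exact S1_eq hf hF hB ht y

theorem S_dt' {f : ℝ → ℝ} (hf : Continuous f) {B : ℝ} (hB : ∀ x, |f x| ≤ B) {t : ℝ} (ht : 0 < t)
    (x : ℝ) : HasDerivAt (fun s => S f s x) (S2 f t x) t := by
  obtain ⟨F, hF⟩ := antider hf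
  have hs0 : 0 < √(2 * t) := Real.sqrt_pos.2 (by positivity)
  have hs : √(2 * t) ≠ 0 := hs0.ne'
  have h2 : √(2 * t) * √(2 * t) = 2 * t := Real.mul_self_sqrt (by positivity)
  have h1 := gam_dσ hf hF hB (w := fun z => z) continuous_id 1 1 w1_le (√(2 * t)) x
  have h3 := (hasDerivAt_inv hs).mul h1
  have h4 : HasDerivAt (fun s : ℝ => √(2 * s)) (√(2 * t))⁻¹ t := by
    have h5 : HasDerivAt (fun s : ℝ => 2 * s) 2 t := by simpa using (hasDerivAt_id t).const_mul 2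
    refine (h5.sqrt (by positivity)).congr_deriv ?_
    field_simp
  have h6 := HasDerivAt.comp t h3 h4
  have e : (fun s => S f s x) =ᶠ[𝓝 t]
      ((fun y : ℝ => y⁻¹) * fun σ => ∫ z, z * F (x + σ * z) ∂gam) ∘ fun s : ℝ => √(2 * s) := by
    filter_upwards [lt_mem_nhds ht] with s hs
    exact S_eq hf hF hB hs x
  refine (h6.congr_of_eventuallyEq e).congr_deriv ?_
  have hinv : (2 * t)⁻¹ = (√(2 * t))⁻¹ * (√(2 * t))⁻¹ := by rw [← mul_inv, h2]
  rw [← stein1 hf hF hB, S2_eq', hinv]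
  have h7 : ∫ z, (z ^ 2 - 1) * f (x + √(2 * t) * z) ∂gam =
      ∫ z, z * (z * f (x + √(2 * t) * z)) ∂gam - ∫ z, f (x + √(2 * t) * z) ∂gam := by
    have i1 : Integrable (fun z => z ^ 2 * f (x + √(2 * t) * z)) gam :=
      wf_int hf hB (w := fun z => z ^ 2) (by fun_prop) 1 2 (fun z => by
        rw [one_mul, abs_pow]
        exact pow_le_pow_left₀ (abs_nonneg _) (by linarith) 2) _ x
    have i2 : Integrable (fun z => f (x + √(2 * t) * z)) gam := by
      simpa using wf_int hf hB (w := fun _ => 1) continuous_const 1 0 (by simp) (√(2 * t)) x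
    rw [← integral_sub (by
      refine i1.congr (ae_of_all _ fun z => ?_)
      simp only
      ring) i2]
    refine integral_congr_ae (ae_of_all _ fun z => ?_)
    simp only
    ring
  rw [h7]
  field_simp
  ring

/-- joint continuity of Gaussian integrals -/
theorem gam_cont {T : Type} [TopologicalSpace T] [FirstCountableTopology T] {G : T → ℝ → ℝ}
    (hG : Continuous fun z : T × ℝ => G z.1 z.2) {B : ℝ} (hB : ∀ s x, |G s x| ≤ B) {w : ℝ → ℝ}
    (hw : Continuous w) (C : ℝ) (n : ℕ) (hwC : ∀ z, |w z| ≤ C * (1 + |z|) ^ n)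
    {σ x : T → ℝ} (hσ : Continuous σ) (hx : Continuous x) :
    Continuous fun s => ∫ z, w z * G s (x s + σ s * z) ∂gam := by
  refine continuous_of_dominated (bound := fun z => (C * (1 + |z|) ^ n) * B) (fun s => ?_)
    (fun s => ae_of_all _ fun z => ?_) (((pw_int n).const_mul C).mul_const B)
    (ae_of_all _ fun z => ?_)
  · exact (hw.mul (hG.comp (by fun_prop : Continuous fun z : ℝ =>
      (s, x s + σ s * z)))).aestronglyMeasurable
  · rw [Real.norm_eq_abs, abs_mul]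
    exact mul_le_mul (hwC z) (hB _ _) (abs_nonneg _) ((abs_nonneg _).trans (hwC z))
  · exact continuous_const.mul (hG.comp (by fun_prop : Continuous fun s : T =>
      (s, x s + σ s * z)))

end X

theorem S_d1 {f : ℝ → ℝ} (hf : Continuous f) (hp : ∀ x, f (x + 2) = f x) {t : ℝ} (ht : 0 < t)
    (x : ℝ) : HasDerivAt (S f t) (S1 f t x) x := by
  obtain ⟨B, hB⟩ := X.per_bdd hf hp
  exact X.S_d1' hf hB ht x

theorem S_d2 {f : ℝ → ℝ} (hf : Continuous f) (hp : ∀ x, f (x + 2) = f x) {t : ℝ} (ht : 0 < t)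
    (x : ℝ) : HasDerivAt (S1 f t) (S2 f t x) x := by
  obtain ⟨B, hB⟩ := X.per_bdd hf hp
  exact X.S_d2' hf hB ht x

theorem S_dt {f : ℝ → ℝ} (hf : Continuous f) (hp : ∀ x, f (x + 2) = f x) {t : ℝ} (ht : 0 < t)
    (x : ℝ) : HasDerivAt (fun s => S f s x) (S2 f t x) t := by
  obtain ⟨B, hB⟩ := X.per_bdd hf hp
  exact X.S_dt' hf hB ht x

theorem S1_cont {f : ℝ → ℝ} (hf : Continuous f) (hp : ∀ x, f (x + 2) = f x) :
    ContinuousOn (fun z : ℝ × ℝ => S1 f z.1 z.2) (Ioi 0 ×ˢ univ) := by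
  obtain ⟨B, hB⟩ := X.per_bdd hf hp
  have h := X.gam_cont (T := ℝ × ℝ) (G := fun _ x => f x) (by fun_prop) (fun _ => hB)
    (w := fun z => z) continuous_id 1 1 X.w1_le (σ := fun z => √(2 * z.1)) (x := fun z => z.2)
    (by fun_prop) (by fun_prop)
  have h2 : ContinuousOn (fun z : ℝ × ℝ => (√(2 * z.1))⁻¹) (Ioi 0 ×ˢ univ) := by
    refine ContinuousOn.inv₀ (by fun_prop) fun z hz => ?_
    have : 0 < z.1 := hz.1
    exact (Real.sqrt_pos.2 (by positivity)).ne'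
  refine (h2.mul h.continuousOn).congr fun z _ => ?_
  exact X.S1_eq' f z.1 z.2

theorem S2_cont {f : ℝ → ℝ} (hf : Continuous f) (hp : ∀ x, f (x + 2) = f x) :
    ContinuousOn (fun z : ℝ × ℝ => S2 f z.1 z.2) (Ioi 0 ×ˢ univ) := by
  obtain ⟨B, hB⟩ := X.per_bdd hf hp
  have h := X.gam_cont (T := ℝ × ℝ) (G := fun _ x => f x) (by fun_prop) (fun _ => hB)
    (w := fun z => z ^ 2 - 1) (by fun_prop) 1 2 X.w2_le (σ := fun z => √(2 * z.1))
    (x := fun z => z.2) (by fun_prop) (by fun_prop)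
  have h2 : ContinuousOn (fun z : ℝ × ℝ => (2 * z.1)⁻¹) (Ioi 0 ×ˢ univ) := by
    refine ContinuousOn.inv₀ (by fun_prop) fun z hz => ?_
    have : 0 < z.1 := hz.1
    positivity
  refine (h2.mul h.continuousOn).congr fun z _ => ?_
  exact X.S2_eq' f z.1 z.2

end LE
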