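import Pool.Agent.H6.LE.Comp3

/-! Spreading of mass. -/

namespace LE
open Set Filter Topology MeasureTheory

/-- `(t + a)^(-3/2) exp (-x² / (4 (t + a)))` -/
noncomputable def gk (a t x : ℝ) : ℝ := (t + a) ^ (-(3 / 2) : ℝ) * Real.exp (-(x ^ 2) / (4 * (t + a)))

/-- `x` times it, a solution of the heat equation -/
theorem gk_time {a t : ℝ} (h : 0 < t + a) (x : ℝ) :
    HasDerivAt (fun s => gk a s x)
      (gk a t x * (-(3 / 2) / (t + a) + x ^ 2 / (4 * (t + a) ^ 2))) t := by
  have h0 : HasDerivAt (fun s : ℝ => s + a) 1 t := (hasDerivAt_id t).add_const a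
  have h1 : HasDerivAt (fun s : ℝ => (s + a) ^ (-(3 / 2) : ℝ))
      (1 * (-(3 / 2) : ℝ) * (t + a) ^ ((-(3 / 2) : ℝ) - 1)) t :=
    h0.rpow_const (Or.inl h.ne')
  have h2 : HasDerivAt (fun s : ℝ => -(x ^ 2) / (4 * (s + a)))
      ((0 * (4 * (t + a)) - -(x ^ 2) * (4 * 1)) / (4 * (t + a)) ^ 2) t :=
    (hasDerivAt_const t (-(x ^ 2))).div (h0.const_mul 4) (by positivity)
  have h3 := h1.mul h2.exp
  refine h3.congr_deriv ?_
  rw [Real.rpow_sub_one h.ne']
  unfold gk
  have h' := h.ne'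
  field_simp
  ring

theorem gk_x {a t : ℝ} (h : 0 < t + a) (x : ℝ) :
    HasDerivAt (fun y => gk a t y) (gk a t x * (-x / (2 * (t + a)))) x := by
  have h2 : HasDerivAt (fun y : ℝ => -(y ^ 2) / (4 * (t + a)))
      (-(((2 : ℕ) : ℝ) * x ^ (2 - 1)) / (4 * (t + a))) x :=
    ((hasDerivAt_pow 2 x).neg).div_const _
  have h3 := h2.exp.const_mul ((t + a) ^ (-(3 / 2) : ℝ))
  refine h3.congr_deriv ?_
  unfold gk
  have h' := h.ne'
  push_cast
  field_simp
  ring

theorem gk_pos {a t : ℝ} (h : 0 < t + a) (x : ℝ) : 0 < gk a t x :=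
  mul_pos (Real.rpow_pos_of_pos h _) (Real.exp_pos _)

/-- monotone in time at `x = 1` up to time `1 / 6` -/
theorem gk_mono {a t r : ℝ} (h : 0 < t + a) (htr : t ≤ r) (hr : r + a ≤ 1 / 6) :
    gk a t 1 ≤ gk a r 1 := by
  set σ := t + a with hσ
  set ρ := r + a with hρ
  have hσρ : σ ≤ ρ := by linarith
  have hρ0 : 0 < ρ := lt_of_lt_of_le h hσρ
  have key : (ρ / σ) ^ (3 / 2 : ℝ) ≤ Real.exp (-1 / (4 * ρ) - -1 / (4 * σ)) := by
    have h1 : ρ / σ ≤ Real.exp (ρ / σ - 1) := by
      have := Real.add_one_le_exp (ρ / σ - 1)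
      linarith
    calc (ρ / σ) ^ (3 / 2 : ℝ) ≤ (Real.exp (ρ / σ - 1)) ^ (3 / 2 : ℝ) :=
          Real.rpow_le_rpow (by positivity) h1 (by norm_num)
      _ = Real.exp ((ρ / σ - 1) * (3 / 2)) := by rw [← Real.exp_mul]
      _ ≤ Real.exp (-1 / (4 * ρ) - -1 / (4 * σ)) := by
        apply Real.exp_le_exp.mpr
        have e1 : (ρ / σ - 1) * (3 / 2) = (ρ - σ) * (6 * ρ) / (4 * (ρ * σ)) := by
          field_simp
          ring
        have e2 : -1 / (4 * ρ) - -1 / (4 * σ) = (ρ - σ) * 1 / (4 * (ρ * σ)) := by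
          field_simp
          ring
        rw [e1, e2]
        apply div_le_div_of_nonneg_right _ (by positivity)
        exact mul_le_mul_of_nonneg_left (by linarith) (by linarith)
  have hg1 : gk a t 1 = σ ^ (-(3 / 2) : ℝ) * Real.exp (-1 / (4 * σ)) := by
    unfold gk
    rw [one_pow]
  have hg2 : gk a r 1 = ρ ^ (-(3 / 2) : ℝ) * Real.exp (-1 / (4 * ρ)) := by
    unfold gk
    rw [one_pow]
  rw [hg1, hg2, Real.rpow_neg h.le, Real.rpow_neg hρ0.le]
  rw [Real.div_rpow hρ0.le h.le, Real.exp_sub] at key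
  have hσp : 0 < σ ^ (3 / 2 : ℝ) := Real.rpow_pos_of_pos h _
  have hρp : 0 < ρ ^ (3 / 2 : ℝ) := Real.rpow_pos_of_pos hρ0 _
  have hE : 0 < Real.exp (-1 / (4 * σ)) := Real.exp_pos _
  rw [div_le_div_iff₀ hσp hE] at key
  rw [inv_mul_eq_div, inv_mul_eq_div, div_le_div_iff₀ hσp hρp]
  linarith

/-- G1: heat spreads mass from `[0, δ]` to `x0` -/
theorem spread {δ x0 r : ℝ} (hδ : δ ∈ Ioo (0 : ℝ) 1) (hx0 : x0 ∈ Ioo (0 : ℝ) 1) (hr : 0 < r)
    (hr' : r ≤ 1 / 12) : ∃ c > 0, ∀ (k : ℝ), 66 ≤ k → ∀ (s : Sol k), ∀ t1 ≥ 0,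
      c * s.P t1 δ ≤ s.V (t1 + r) x0 := by
  -- choice of `a`
  obtain ⟨y, hy12, hy⟩ : ∃ y : ℝ, 12 ≤ y ∧
      y ^ (3 / 2 : ℝ) * Real.exp (-(δ ^ 2 / 4) * y) < Real.exp (-1 / (4 * r)) := by
    have hpos : 0 < δ ^ 2 / 4 := by have := hδ.1; positivity
    have h1 := tendsto_rpow_mul_exp_neg_mul_atTop_nhds_zero (3 / 2) (δ ^ 2 / 4) hpos
    have h2 := h1.eventually (gt_mem_nhds (Real.exp_pos (-1 / (4 * r))))
    obtain ⟨y, hy1, hy2⟩ := (h2.and (eventually_ge_atTop (12 : ℝ))).exists
    exact ⟨y, hy2, hy1⟩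
  set a : ℝ := 1 / y with ha
  have hy0 : 0 < y := by linarith
  have ha0 : 0 < a := by rw [ha]; positivity
  have ha12 : a ≤ 1 / 12 := by
    rw [ha]
    exact one_div_le_one_div_of_le (by norm_num) hy12
  have hra : 0 < r + a := by linarith
  have hra6 : r + a ≤ 1 / 6 := by linarith
  set A : ℝ := a ^ (3 / 2 : ℝ) with hA
  have hA0 : 0 < A := Real.rpow_pos_of_pos ha0 _
  set B : ℝ := max (Real.exp (-(δ ^ 2) / (4 * a))) (A * gk a r 1) with hB
  have hB0 : 0 ≤ B := le_trans (Real.exp_pos _).le (le_max_left _ _)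
  have hc0 : 0 < x0 * (A * gk a r x0 - B) := by
    apply mul_pos hx0.1
    rw [sub_pos, hB, max_lt_iff]
    constructor
    · -- choice of `y`
      have e1 : Real.exp (-(δ ^ 2) / (4 * a)) = Real.exp (-(δ ^ 2 / 4) * y) := by
        congr 1
        rw [ha]
        field_simp
      have e2 : Real.exp (-1 / (4 * r)) ≤ gk a r x0 := by
        unfold gk
        have e3 : (1 : ℝ) ≤ (r + a) ^ (-(3 / 2) : ℝ) :=
          Real.one_le_rpow_of_pos_of_le_one_of_nonpos hra (by linarith) (by norm_num)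
        have e4 : Real.exp (-1 / (4 * r)) ≤ Real.exp (-(x0 ^ 2) / (4 * (r + a))) := by
          apply Real.exp_le_exp.mpr
          rw [neg_div, neg_div, neg_le_neg_iff]
          have : x0 ^ 2 ≤ 1 := by nlinarith [hx0.1, hx0.2]
          apply div_le_div₀ zero_le_one this (by positivity)
          linarith
        calc Real.exp (-1 / (4 * r)) ≤ Real.exp (-(x0 ^ 2) / (4 * (r + a))) := e4
          _ = 1 * Real.exp (-(x0 ^ 2) / (4 * (r + a))) := (one_mul _).symm
          _ ≤ _ := mul_le_mul_of_nonneg_right e3 (Real.exp_pos _).le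
      have e5 : A * y ^ (3 / 2 : ℝ) = 1 := by
        rw [hA, ← Real.mul_rpow ha0.le hy0.le, ha, one_div_mul_cancel hy0.ne', Real.one_rpow]
      rw [e1]
      calc Real.exp (-(δ ^ 2 / 4) * y) = A * (y ^ (3 / 2 : ℝ) * Real.exp (-(δ ^ 2 / 4) * y)) := by
            rw [← mul_assoc, e5, one_mul]
        _ < A * Real.exp (-1 / (4 * r)) := mul_lt_mul_of_pos_left hy hA0
        _ ≤ A * gk a r x0 := mul_le_mul_of_nonneg_left e2 hA0.le
    · apply mul_lt_mul_of_pos_left _ hA0
      unfold gk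
      apply mul_lt_mul_of_pos_left _ (Real.rpow_pos_of_pos hra _)
      apply Real.exp_lt_exp.mpr
      apply div_lt_div_of_pos_right _ (by positivity)
      nlinarith [hx0.1, hx0.2]
  refine ⟨x0 * (A * gk a r x0 - B), hc0, ?_⟩
  intro k hk s t1 ht1
  set p := s.P t1 δ with hp
  have hp0 : 0 ≤ p := s.nonneg hk ht1 ⟨hδ.1.le, hδ.2.le⟩
  have hmax := maxp (T := r) (C := 0)
    (fun t x => p * (x * (A * gk a t x - B)) - s.V (t1 + t) x) ?_ ?_ ?_ ?_ ?_
  · have h1 := hmax r ⟨hr.le, le_rfl⟩ x0 ⟨hx0.1.le, hx0.2.le⟩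
    have h2 : x0 * (A * gk a r x0 - B) * p = p * (x0 * (A * gk a r x0 - B)) := mul_comm _ _
    rw [h2]
    linarith
  · -- continuity
    have hcV : Continuous fun z : ℝ × ℝ => s.V (t1 + z.1) z.2 :=
      s.cV.comp ((continuous_const.add continuous_fst).prodMk continuous_snd)
    have hcg : ContinuousOn (fun z : ℝ × ℝ => gk a z.1 z.2) (Icc 0 r ×ˢ Icc 0 1) := by
      unfold gk
      have h1 : ∀ z ∈ Icc (0 : ℝ) r ×ˢ Icc (0 : ℝ) 1, z.1 + a ≠ 0 := by
        intro z hz
        have := hz.1.1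
        linarith
      apply ContinuousOn.mul
      · apply ContinuousOn.rpow_const
        · fun_prop
        · intro z hz
          exact Or.inl (h1 z hz)
      · apply ContinuousOn.rexp
        apply ContinuousOn.div
        · fun_prop
        · fun_prop
        · intro z hz
          have := h1 z hz
          simpa using this
    have hx : ContinuousOn (fun z : ℝ × ℝ => z.2) (Icc (0 : ℝ) r ×ˢ Icc (0 : ℝ) 1) := by fun_prop
    exact (continuousOn_const.mul (hx.mul ((continuousOn_const.mul hcg).sub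
      continuousOn_const))).sub hcV.continuousOn
  · -- initial time
    intro x hx
    have hP := s.nonneg hk ht1 hx
    have e0 : A * gk a 0 x = Real.exp (-(x ^ 2) / (4 * a)) := by
      unfold gk
      rw [zero_add, ← mul_assoc, hA, ← Real.rpow_add ha0]
      norm_num
    show p * (x * (A * gk a 0 x - B)) - s.V (t1 + 0) x ≤ 0
    rw [e0, add_zero, s.VP]
    rcases le_total x δ with h1 | h1
    · have h2 : p ≤ s.P t1 x := s.anti hk ht1 hx.1 h1 hδ.2.le
      have h3 : Real.exp (-(x ^ 2) / (4 * a)) ≤ 1 := by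
        rw [Real.exp_le_one_iff]
        apply div_nonpos_of_nonpos_of_nonneg
        · nlinarith [sq_nonneg x]
        · positivity
      have h4 : p * (x * (Real.exp (-(x ^ 2) / (4 * a)) - B)) ≤ p * (x * 1) := by
        apply mul_le_mul_of_nonneg_left _ hp0
        apply mul_le_mul_of_nonneg_left _ hx.1
        linarith
      have h5 : p * x ≤ x * s.P t1 x := by
        rw [mul_comm]
        exact mul_le_mul_of_nonneg_left h2 hx.1
      linarith
    · have h3 : Real.exp (-(x ^ 2) / (4 * a)) ≤ B := by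
        refine le_trans ?_ (le_max_left _ _)
        apply Real.exp_le_exp.mpr
        apply div_le_div_of_nonneg_right _ (by positivity)
        have := hδ.1
        nlinarith
      have h4 : p * (x * (Real.exp (-(x ^ 2) / (4 * a)) - B)) ≤ 0 := by
        apply mul_nonpos_of_nonneg_of_nonpos hp0
        apply mul_nonpos_of_nonneg_of_nonpos hx.1
        linarith
      have h5 : 0 ≤ x * s.P t1 x := mul_nonneg hx.1 hP
      linarith
  · -- `x = 0`
    intro t ht
    show p * (0 * (A * gk a t 0 - B)) - s.V (t1 + t) 0 ≤ 0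
    rw [s.VP]
    simp
  · -- `x = 1`
    intro t ht
    show p * (1 * (A * gk a t 1 - B)) - s.V (t1 + t) 1 ≤ 0
    rw [s.bd, sub_zero, one_mul]
    apply mul_nonpos_of_nonneg_of_nonpos hp0
    have h1 := gk_mono (a := a) (t := t) (by linarith [ht.1]) ht.2 hra6
    have h2 : A * gk a t 1 ≤ B :=
      le_trans (mul_le_mul_of_nonneg_left h1 hA0.le) (le_max_right _ _)
    linarith
  · -- interior
    intro t ht x hx hZ
    have hta : 0 < t + a := by linarith [ht.1]
    refine ⟨p * (x * (A * (gk a t x * (-(3 / 2) / (t + a) + x ^ 2 / (4 * (t + a) ^ 2)))))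
        - (s.V2 (t1 + t) x + x * g k (s.P (t1 + t) x)),
      fun y => p * (1 * (A * gk a t y - B) + y * (A * (gk a t y * (-y / (2 * (t + a))))))
        - s.V1 (t1 + t) y,
      p * (1 * (A * (gk a t x * (-x / (2 * (t + a)))))
        + (1 * (A * (gk a t x * (-x / (2 * (t + a)))))
        + x * (A * ((gk a t x * (-x / (2 * (t + a)))) * (-x / (2 * (t + a)))
          + gk a t x * (-1 / (2 * (t + a)))))))
        - s.V2 (t1 + t) x, ?_, ?_, ?_, ?_⟩
    · have h1 : HasDerivAt (fun t' => p * (x * (A * gk a t' x - B)))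
          (p * (x * (A * (gk a t x * (-(3 / 2) / (t + a) + x ^ 2 / (4 * (t + a) ^ 2)))))) t :=
        ((((gk_time hta x).const_mul A).sub_const B).const_mul x).const_mul p
      have h2 : HasDerivAt (fun t' => s.V (t1 + t') x)
          (s.V2 (t1 + t) x + x * g k (s.P (t1 + t) x)) t :=
        (s.tV (t1 + t) (by linarith [ht.1]) x
          ⟨by linarith [hx.1], hx.2.le⟩).comp_const_add t1 t
      exact h1.sub h2
    · refine Eventually.of_forall fun y => ?_
      have h1 : HasDerivAt (fun y => p * (y * (A * gk a t y - B)))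
          (p * (1 * (A * gk a t y - B) + y * (A * (gk a t y * (-y / (2 * (t + a))))))) y :=
        (((hasDerivAt_id y).mul (((gk_x hta y).const_mul A).sub_const B))).const_mul p
      exact h1.sub (s.dV (t1 + t) y)
    · have h0 : HasDerivAt (fun y : ℝ => -y / (2 * (t + a))) (-1 / (2 * (t + a))) x :=
        ((hasDerivAt_id x).neg).div_const _
      have h1 : HasDerivAt (fun y => gk a t y * (-y / (2 * (t + a))))
          ((gk a t x * (-x / (2 * (t + a)))) * (-x / (2 * (t + a)))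
          + gk a t x * (-1 / (2 * (t + a)))) x := (gk_x hta x).mul h0
      have h2 : HasDerivAt (fun y => y * (A * (gk a t y * (-y / (2 * (t + a))))))
          (1 * (A * (gk a t x * (-x / (2 * (t + a)))))
        + x * (A * ((gk a t x * (-x / (2 * (t + a)))) * (-x / (2 * (t + a)))
          + gk a t x * (-1 / (2 * (t + a)))))) x := (hasDerivAt_id x).mul (h1.const_mul A)
      have h3 : HasDerivAt (fun y => 1 * (A * gk a t y - B))
          (1 * (A * (gk a t x * (-x / (2 * (t + a)))))) x :=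
        (((gk_x hta x).const_mul A).sub_const B).const_mul 1
      exact (((h3.add h2).const_mul p)).sub (s.dV1 (t1 + t) x)
    · intro _
      have hg : 0 ≤ x * g k (s.P (t1 + t) x) :=
        mul_nonneg hx.1.le (g_nonneg (s.nonneg hk (by linarith [ht.1]) ⟨hx.1.le, hx.2.le⟩))
      have hid : p * (x * (A * (gk a t x * (-(3 / 2) / (t + a) + x ^ 2 / (4 * (t + a) ^ 2)))))
          = p * (1 * (A * (gk a t x * (-x / (2 * (t + a)))))
        + (1 * (A * (gk a t x * (-x / (2 * (t + a)))))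
        + x * (A * ((gk a t x * (-x / (2 * (t + a)))) * (-x / (2 * (t + a)))
          + gk a t x * (-1 / (2 * (t + a))))))) := by
        have h' := hta.ne'
        field_simp
        ring
      rw [hid]
      linarith

end LE
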